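import Pool.Agent.Lib.SCR.HA

/-!
# The number of states of the dynamic program: case (c), every instance
-/

namespace SCR

open Finset

lemma four_pow_le_two_pow (s : ℕ) (hs : 16 ≤ s) : s ^ 4 ≤ 2 ^ s := by
  induction s, hs using Nat.le_induction with
  | base => norm_num
  | succ s hs ih =>
    have h1 : (s + 1) ^ 4 ≤ 2 * s ^ 4 := by
      obtain ⟨t, rfl⟩ : ∃ t, s = 16 + t := ⟨s - 16, by omega⟩
      have : (16 + t + 1) ^ 4 = t ^ 4 + 68 * t ^ 3 + 1734 * t ^ 2 + 19652 * t + 83521 := by ring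
      have h2 : 2 * (16 + t) ^ 4 = 2 * t ^ 4 + 128 * t ^ 3 + 3072 * t ^ 2 + 32768 * t + 131072 := by ring
      rw [this, h2]
      omega
    calc (s + 1) ^ 4 ≤ 2 * s ^ 4 := h1
      _ ≤ 2 * 2 ^ s := by omega
      _ = 2 ^ (s + 1) := by ring

lemma le_two_rpow_quarter (s : ℕ) (hs : 16 ≤ s) : (s : ℝ) ≤ 2 ^ ((s : ℝ) / 4) := by
  have h1 : ((s : ℝ)) ^ 4 ≤ 2 ^ s := by exact_mod_cast four_pow_le_two_pow s hs
  have h2 : ((2 : ℝ) ^ ((s : ℝ) / 4)) ^ 4 = 2 ^ s := by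
    rw [← Real.rpow_natCast, ← Real.rpow_mul two_pos.le, ← Real.rpow_natCast]
    congr 1
    push_cast
    ring
  rw [← h2] at h1
  exact le_of_pow_le_pow_left₀ (by norm_num) (by positivity) h1

lemma exp_le_two_rpow {t : ℝ} (ht : 0 ≤ t) : Real.exp t ≤ 2 ^ (3 / 2 * t) := by
  rw [Real.rpow_def_of_pos two_pos]
  refine Real.exp_le_exp.2 ?_
  have := Real.log_two_gt_d9
  nlinarith

lemma T_80 (n j : ℕ) (hj : (j : ℝ) ≤ 1 / 80 * n) : (T n j : ℝ) ≤ 2 ^ (1 / 8 * (n : ℝ)) := by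
  refine (tSmall n j (1 / 32) _ (by norm_num) (by norm_num) hj).trans ?_
  have h1 : Real.exp (1 / 32 * n) ≤ 2 ^ (3 / 2 * (1 / 32 * n) : ℝ) := exp_le_two_rpow (by positivity)
  have h2 : (1 / 32 : ℝ) ^ (-(1 / 80 * (n : ℝ))) = 2 ^ (1 / 16 * (n : ℝ)) := by
    rw [show (1 / 32 : ℝ) = 2 ^ (-5 : ℝ) by
      rw [Real.rpow_neg two_pos.le]; norm_num, ← Real.rpow_mul two_pos.le]
    congr 1
    ring
  rw [h2]
  calc Real.exp (1 / 32 * n) * 2 ^ (1 / 16 * (n : ℝ))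
      ≤ 2 ^ (3 / 2 * (1 / 32 * n) : ℝ) * 2 ^ (1 / 16 * (n : ℝ)) := by gcongr
    _ = 2 ^ (3 / 2 * (1 / 32 * n) + 1 / 16 * (n : ℝ)) := by rw [Real.rpow_add two_pos]
    _ ≤ 2 ^ (1 / 8 * (n : ℝ)) := by
        refine Real.rpow_le_rpow_of_exponent_le one_le_two ?_
        have : (0 : ℝ) ≤ n := Nat.cast_nonneg n
        linarith

/-- Case (c): every instance. -/
theorem caseC (n k : ℕ) (L : List (Finset (Fin n))) (hn : 1 ≤ n) :
    (total (sOf 16 n L.length) (min k n) L : ℝ)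
      ≤ 5 * (n + 1) * 2 ^ ((n : ℝ) - 1 / 1440 * n / Real.logb 2 (2 + L.length / n)) := by
  obtain ⟨ζ, hζe⟩ : ∃ ζ : ℝ, ζ = 1 / 80 := ⟨_, rfl⟩
  have hT : ∀ n j : ℕ, (j : ℝ) ≤ ζ * n → (T n j : ℝ) ≤ 2 ^ (1 / 8 * (n : ℝ)) := by
    intro n j hj
    exact T_80 n j (by rwa [hζe] at hj)
  obtain ⟨δ, hδ⟩ : ∃ δ : ℝ, δ = 1 / 80 := ⟨_, rfl⟩
  have hδ0 : 0 < δ := by rw [hδ]; norm_num
  have hδζ : δ ≤ ζ := by rw [hδ, hζe]
  have hδ2 : δ ≤ 1 / 2 := by rw [hδ]; norm_num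
  obtain ⟨c, hc⟩ : ∃ c : ℝ, c = 1 / 1440 := ⟨_, rfl⟩
  have hc0 : 0 < c := by rw [hc]; norm_num
  have hc1 : c ≤ δ / 18 := by rw [hc, hδ]; norm_num
  have hc2 : c ≤ 1 / 32 := by rw [hc]; norm_num
  rw [← hc]
  have hn0 : (0 : ℝ) < n := by exact_mod_cast hn
  set m : ℕ := L.length with hm
  set l : ℕ := Nat.clog 2 ((m + n) / (n + 1)) with hl
  have hs : sOf 16 n m = 16 + l := rfl
  set s : ℕ := 16 + l with hs'
  rw [hs]
  have hs16 : 16 ≤ s := by omega
  have hs0 : (0 : ℝ) < s := by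
    have : 0 < s := by omega
    exact_mod_cast this
  have hsr : (16 : ℝ) ≤ s := by exact_mod_cast hs16
  have hsl : (s : ℝ) = 16 + l := by rw [hs']; push_cast; ring
  -- (i)
  have hml : m ≤ 2 ^ l * (n + 1) := by
    have h1 : (m + n) / (n + 1) ≤ 2 ^ l := Nat.le_pow_clog one_lt_two _
    have h2 : m + n < (2 ^ l + 1) * (n + 1) := by
      have := Nat.lt_mul_of_div_lt (Nat.lt_succ_of_le h1) (Nat.succ_pos n)
      simpa [mul_comm] using this
    have h3 : (2 ^ l + 1) * (n + 1) = 2 ^ l * (n + 1) + (n + 1) := by ring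
    omega
  -- (ii)
  set Λ : ℝ := Real.logb 2 (2 + m / n) with hΛ
  have hq0 : (0 : ℝ) ≤ m / n := by positivity
  have hΛ1 : 1 ≤ Λ := by
    rw [hΛ, Real.le_logb_iff_rpow_le one_lt_two (by positivity)]
    rw [Real.rpow_one]
    linarith
  have hlΛ : (l : ℝ) ≤ 1 + Λ := by
    by_cases hl0 : l = 0
    · rw [hl0]; push_cast; linarith
    · have h1 : 1 < (m + n) / (n + 1) := by
        by_contra h
        push Not at h
        exact hl0 (by rw [hl]; exact Nat.clog_of_right_le_one h 2)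
      have h2 : 2 ^ (l - 1) < (m + n) / (n + 1) := by
        have := Nat.pow_pred_clog_lt_self one_lt_two h1
        simpa [hl, Nat.pred_eq_sub_one] using this
      have h3 : (((m + n) / (n + 1) : ℕ) : ℝ) ≤ 2 + m / n := by
        have a1 : (((m + n) / (n + 1) : ℕ) : ℝ) ≤ ((m + n : ℕ) : ℝ) / ((n + 1 : ℕ) : ℝ) := Nat.cast_div_le
        have a2 : ((m + n : ℕ) : ℝ) / ((n + 1 : ℕ) : ℝ) ≤ m / n + 1 := by
          push_cast
          rw [div_le_iff₀ (by positivity)]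
          have : (m : ℝ) / n * (n + 1) = m + m / n := by field_simp
          nlinarith
        linarith
      have h4 : (2 : ℝ) ^ ((l - 1 : ℕ) : ℝ) ≤ 2 + m / n := by
        rw [Real.rpow_natCast]
        have : ((2 ^ (l - 1) : ℕ) : ℝ) ≤ (((m + n) / (n + 1) : ℕ) : ℝ) := by exact_mod_cast h2.le
        push_cast at this ⊢
        linarith
      have h5 : ((l - 1 : ℕ) : ℝ) ≤ Λ := by
        rw [hΛ, Real.le_logb_iff_rpow_le one_lt_two (by positivity)]
        exact h4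
      have h6 : ((l - 1 : ℕ) : ℝ) = l - 1 := by
        rw [Nat.cast_sub (by omega)]; simp
      linarith
  have hsΛ : (s : ℝ) ≤ 18 * Λ := by rw [hsl]; linarith
  -- parameters
  set h : ℕ := ⌊(5 / 8 : ℝ) * n⌋₊ with hh
  have hhle : (h : ℝ) ≤ 5 / 8 * n := Nat.floor_le (by positivity)
  have hhlt : (5 / 8 : ℝ) * n < h + 1 := Nat.lt_floor_add_one _
  have hhn : h ≤ n := by
    have : (h : ℝ) ≤ n := by nlinarith
    exact_mod_cast this
  set d : ℕ := ⌊δ * n / s⌋₊ + 1 with hd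
  have hdle : ((d - 1 : ℕ) : ℝ) ≤ δ * n / s := by
    rw [hd, Nat.add_sub_cancel]
    exact Nat.floor_le (by positivity)
  have hdlt : δ * n / s < d := by
    rw [hd]; push_cast; exact Nat.lt_floor_add_one _
  have hdn : d ≤ n := by
    have h1 : δ * n / s ≤ n / 2 := by
      rw [div_le_iff₀ hs0]
      nlinarith
    have h2 : ((d - 1 : ℕ) : ℝ) < n := by linarith
    have h3 : d - 1 < n := by exact_mod_cast h2
    omega
  have hbound := total_le hn s (min k n) h d L (by omega) hhn hdn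
  set E : ℝ := (n : ℝ) - c * n / Λ with hE
  have hΛ0 : 0 < Λ := by linarith
  have hcE : c * n / Λ ≤ c * n := div_le_self (by positivity) hΛ1
  have t1 : (T n (n - h - 1) : ℝ) ≤ 2 ^ E := by
    have hj : ((n - h - 1 : ℕ) : ℝ) ≤ (1 / 2 - 1 / 8) * n := by
      by_cases hc : h + 1 ≤ n
      · have : ((n - h - 1 : ℕ) : ℝ) = n - h - 1 := by
          rw [Nat.sub_sub, Nat.cast_sub hc]; push_cast; ring
        rw [this]
        linarith
      · have : n - h - 1 = 0 := by omega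
        rw [this]
        have : 0 ≤ (1 / 2 - 1 / 8) * (n : ℝ) := by positivity
        simpa using this
    refine (tHalf n (1 / 8) (by norm_num) _ hj).trans ?_
    have h1 : Real.exp (-2 * (1 / 8) ^ 2 * n) ≤ 2 ^ (-(n / 32 : ℝ)) := by
      have := exp_neg_le_two_rpow (x := (n / 32 : ℝ)) (by positivity)
      rwa [show -2 * (1 / 8 : ℝ) ^ 2 * (n : ℝ) = -(n / 32) by ring]
    calc (2 : ℝ) ^ (n : ℝ) * Real.exp (-2 * (1 / 8) ^ 2 * n) ≤ 2 ^ (n : ℝ) * 2 ^ (-(n / 32 : ℝ)) := by gcongr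
      _ = 2 ^ ((n : ℝ) + -(n / 32)) := by rw [Real.rpow_add two_pos]
      _ ≤ 2 ^ E := by
          refine Real.rpow_le_rpow_of_exponent_le one_le_two ?_
          rw [hE]
          nlinarith
  have t2 : ((2 ^ (n - d) : ℕ) : ℝ) ≤ 2 ^ E := by
    push_cast
    rw [← Real.rpow_natCast]
    refine Real.rpow_le_rpow_of_exponent_le one_le_two ?_
    rw [Nat.cast_sub hdn, hE]
    have : c * n / Λ ≤ δ * n / s := by
      rw [div_le_div_iff₀ hΛ0 hs0]
      calc c * n * s ≤ δ / 18 * n * (18 * Λ) := by gcongr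
        _ = δ * n * Λ := by ring
    linarith
  have t3 : (T n ((d - 1) * (s - 1)) : ℝ) ≤ 2 ^ (1 / 8 * (n : ℝ)) := by
    refine hT n _ ?_
    push_cast
    have hs2 : ((s - 1 : ℕ) : ℝ) ≤ s := by exact_mod_cast Nat.sub_le s 1
    calc ((d - 1 : ℕ) : ℝ) * ((s - 1 : ℕ) : ℝ) ≤ δ * n / s * s := by gcongr
      _ = δ * n := by field_simp
      _ ≤ ζ * n := by gcongr
  have t4 : (T (big s L) (min (h * min k n / n) (h / s)) : ℝ) ≤ 2 ^ (25 / 32 * (n : ℝ)) := by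
    set J : ℕ := min (h * min k n / n) (h / s) with hJ
    have hJs : (J : ℝ) ≤ 5 / 8 * n / s := by
      have a1 : (J : ℝ) ≤ ((h / s : ℕ) : ℝ) := by exact_mod_cast min_le_right _ _
      have a2 : ((h / s : ℕ) : ℝ) ≤ (h : ℝ) / s := Nat.cast_div_le
      have a3 : (h : ℝ) / s ≤ 5 / 8 * n / s := by gcongr
      linarith
    set x : ℝ := 1 / (2 ^ (l : ℝ) * s) with hx
    have hpl : (0 : ℝ) < 2 ^ (l : ℝ) := by positivity
    have hx0 : 0 < x := by positivity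
    have hx1 : x ≤ 1 := by
      rw [hx, div_le_one (by positivity)]
      have : (1 : ℝ) ≤ 2 ^ (l : ℝ) := Real.one_le_rpow one_le_two (by positivity)
      nlinarith
    refine (tSmall (big s L) J x _ hx0 hx1 hJs).trans ?_
    have b1 : x * big s L ≤ 2 * n / s := by
      have a1 : (big s L : ℝ) ≤ 2 ^ (l : ℝ) * (n + 1) := by
        have := (big_le s L).trans hml
        rw [Real.rpow_natCast]
        exact_mod_cast this
      calc x * big s L ≤ x * (2 ^ (l : ℝ) * (n + 1)) := by gcongr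
        _ = (n + 1) / s := by rw [hx]; field_simp
        _ ≤ 2 * n / s := by
            have : (1 : ℝ) ≤ n := by exact_mod_cast hn
            gcongr
            linarith
    have b2 : Real.exp (x * big s L) ≤ 2 ^ (3 * n / s : ℝ) := by
      calc Real.exp (x * big s L) ≤ Real.exp (2 * n / s) := Real.exp_le_exp.2 b1
        _ ≤ 2 ^ (3 / 2 * (2 * n / s : ℝ)) := exp_le_two_rpow (by positivity)
        _ = 2 ^ (3 * n / s : ℝ) := by congr 1; ring
    have b3 : x ^ (-(5 / 8 * (n : ℝ) / s)) ≤ 2 ^ ((l + (s : ℝ) / 4) * (5 / 8 * n / s)) := by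
      rw [hx, one_div, Real.inv_rpow (by positivity), Real.rpow_neg (by positivity), inv_inv]
      have : (2 : ℝ) ^ (l : ℝ) * s ≤ 2 ^ ((l : ℝ) + (s : ℝ) / 4) := by
        rw [Real.rpow_add two_pos]
        gcongr
        exact le_two_rpow_quarter s hs16
      calc ((2 : ℝ) ^ (l : ℝ) * s) ^ (5 / 8 * (n : ℝ) / s)
          ≤ (2 ^ ((l : ℝ) + (s : ℝ) / 4)) ^ (5 / 8 * (n : ℝ) / s) := by gcongr
        _ = 2 ^ ((l + (s : ℝ) / 4) * (5 / 8 * n / s)) := by rw [← Real.rpow_mul two_pos.le]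
    calc Real.exp (x * big s L) * x ^ (-(5 / 8 * (n : ℝ) / s))
        ≤ 2 ^ (3 * n / s : ℝ) * 2 ^ ((l + (s : ℝ) / 4) * (5 / 8 * n / s)) := by gcongr
      _ = 2 ^ (3 * n / s + (l + (s : ℝ) / 4) * (5 / 8 * n / s) : ℝ) := by rw [Real.rpow_add two_pos]
      _ ≤ 2 ^ (25 / 32 * (n : ℝ)) := by
          refine Real.rpow_le_rpow_of_exponent_le one_le_two ?_
          have : (3 * n / s + (l + (s : ℝ) / 4) * (5 / 8 * n / s) : ℝ) = 25 / 32 * n - 7 * n / s := by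
            have hl' : (l : ℝ) = s - 16 := by linarith
            rw [hl']
            field_simp
            ring
          rw [this]
          have : 0 ≤ 7 * n / (s : ℝ) := by positivity
          linarith
  have t5 : (T (big s L) (min (h * min k n / n) (h / s)) : ℝ) * (1 + T n ((d - 1) * (s - 1)))
      ≤ 2 * 2 ^ E := by
    have a1 : (1 : ℝ) ≤ 2 ^ (1 / 8 * (n : ℝ)) := Real.one_le_rpow one_le_two (by positivity)
    calc (T (big s L) (min (h * min k n / n) (h / s)) : ℝ) * (1 + T n ((d - 1) * (s - 1)))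
        ≤ 2 ^ (25 / 32 * (n : ℝ)) * (2 ^ (1 / 8 * (n : ℝ)) + 2 ^ (1 / 8 * (n : ℝ))) := by gcongr
      _ = 2 * (2 ^ (25 / 32 * (n : ℝ)) * 2 ^ (1 / 8 * (n : ℝ))) := by ring
      _ = 2 * 2 ^ (25 / 32 * (n : ℝ) + 1 / 8 * (n : ℝ)) := by rw [Real.rpow_add two_pos]
      _ ≤ 2 * 2 ^ E := by
          gcongr
          · norm_num
          · rw [hE]; nlinarith
  have hcast : (total s (min k n) L : ℝ) ≤ (((min k n : ℕ) : ℝ) + 1) * (2 * T n (n - h - 1)
      + ((2 ^ (n - d) : ℕ) : ℝ)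
      + (T (big s L) (min (h * min k n / n) (h / s)) : ℝ) * (1 + T n ((d - 1) * (s - 1)))) := by
    exact_mod_cast hbound
  refine hcast.trans ?_
  have hk' : ((min k n : ℕ) : ℝ) ≤ n := by exact_mod_cast min_le_right k n
  have hP : (0 : ℝ) < 2 ^ E := by positivity
  calc (((min k n : ℕ) : ℝ) + 1) * (2 * T n (n - h - 1) + ((2 ^ (n - d) : ℕ) : ℝ)
      + (T (big s L) (min (h * min k n / n) (h / s)) : ℝ) * (1 + T n ((d - 1) * (s - 1))))
      ≤ (n + 1) * (2 * 2 ^ E + 2 ^ E + 2 * 2 ^ E) := by gcongr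
    _ = 5 * (n + 1) * 2 ^ E := by ring

end SCR
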