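import Pool.Agent.Lib.SCR.HMain
import Pool.Agent.Lib.SCR.HC

/-!
# Every instance: the time and the word length
-/

namespace SCR

open Finset

lemma Decides.mono {P : List Instr} {n k : ℕ} {L : List (Finset (Fin n))} {W W' T T' : ℕ}
    (h : Decides P n k L W T) (hW : W ≤ W') (hT : T ≤ T') : Decides P n k L W' T' := by
  intro w mem hw hH
  obtain ⟨t, ht, h1, h2⟩ := h w mem (hW.trans hw) hH
  exact ⟨t, ht.trans hT, h1, h2⟩

lemma sOf_le (C n m : ℕ) : sOf C n m ≤ C + (m + n) := by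
  have h1 : Nat.clog 2 ((m + n) / (n + 1)) ≤ (m + n) / (n + 1) :=
    Nat.clog_le_of_le_pow Nat.lt_two_pow_self.le
  have h2 : (m + n) / (n + 1) ≤ m + n := Nat.div_le_self _ _
  unfold sOf
  omega

lemma wordC (n m : ℕ) : m + 3 + (n + 3) * (2 ^ n + 2 ^ n) + 10 + (n + 2) * (n + 2) + sOf 16 n m +
      (16 + 2 * n + 2 * m + 10) ≤ 200 * 2 ^ n * (n + m + 1) ^ 2 := by
  have hpow : 1 ≤ 2 ^ n := Nat.one_le_two_pow
  have hS := sOf_le 16 n m
  obtain ⟨p, hp⟩ : ∃ p, p = 2 ^ n := ⟨_, rfl⟩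
  rw [← hp] at hpow ⊢
  obtain ⟨q, rfl⟩ : ∃ q, p = 1 + q := ⟨p - 1, by omega⟩
  have e1 : 200 * (1 + q) * (n + m + 1) ^ 2 = 200 * (n * n) + 400 * (n * m) + 400 * n + 200 * (m * m)
      + 400 * m + 200 + 200 * (q * (n + m + 1) ^ 2) := by ring
  have e2 : q * (n + m + 1) ^ 2 = q * n * n + 2 * (q * n * m) + 2 * (q * n) + q * m * m + 2 * (q * m) + q := by
    ring
  have e3 : (n + 3) * ((1 + q) + (1 + q)) = 2 * n + 6 + 2 * (q * n) + 6 * q := by ring
  have e4 : (n + 2) * (n + 2) = n * n + 4 * n + 4 := by ring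
  rw [e1, e2, e3, e4]
  omega

lemma timeC (n k : ℕ) (L : List (Finset (Fin n))) :
    10 * L.length + 5 + 100 * (n + 1) * (L.length + 1) * (total (sOf 16 n L.length) (min k n) L + 1) ≤
      ⌊1200 * ((n : ℝ) + L.length + 1) ^ 3 *
          2 ^ ((n : ℝ) - n / (1440 * Real.logb 2 (2 + L.length / n)))⌋₊ := by
  refine Nat.le_floor ?_
  have hn0 : (0 : ℝ) ≤ n := Nat.cast_nonneg n
  have hm0 : (0 : ℝ) ≤ (L.length : ℝ) := Nat.cast_nonneg _
  obtain ⟨Λ, hΛ⟩ : ∃ Λ : ℝ, Λ = Real.logb 2 (2 + L.length / n) := ⟨_, rfl⟩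
  have hΛ1 : 1 ≤ Λ := by
    have : (0 : ℝ) ≤ (L.length : ℝ) / n := by positivity
    rw [hΛ, Real.le_logb_iff_rpow_le one_lt_two (by positivity), Real.rpow_one]
    linarith
  obtain ⟨E, hE⟩ : ∃ E : ℝ, E = (n : ℝ) - n / (1440 * Λ) := ⟨_, rfl⟩
  have hE0 : 0 ≤ E := by
    rw [hE, sub_nonneg]
    refine div_le_self hn0 ?_
    linarith
  have hP : (1 : ℝ) ≤ 2 ^ E := Real.one_le_rpow one_le_two hE0
  have htot : (total (sOf 16 n L.length) (min k n) L : ℝ) ≤ 5 * (n + 1) * 2 ^ E := by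
    rcases Nat.eq_zero_or_pos n with hn | hn
    · have h : (total (sOf 16 n L.length) (min k n) L : ℝ) ≤ 2 := by
        subst hn
        have := total_zero (s := sOf 16 0 L.length) L (min_le_right k 0)
        exact_mod_cast this
      nlinarith
    · refine (caseC n k L hn).trans ?_
      rw [hE, hΛ]
      have : 1 / 1440 * (n : ℝ) / Real.logb 2 (2 + L.length / n)
          = n / (1440 * Real.logb 2 (2 + L.length / n)) := by
        field_simp
      rw [this]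
  rw [← hΛ, ← hE]
  push_cast
  generalize (total (sOf 16 n L.length) (min k n) L : ℝ) = t at htot ⊢
  generalize (2 : ℝ) ^ E = e at hP htot ⊢
  generalize (L.length : ℝ) = m at hm0 ⊢
  generalize (n : ℝ) = u at hn0 htot ⊢
  obtain ⟨a, ha⟩ : ∃ a : ℝ, a = u + m + 1 := ⟨_, rfl⟩
  rw [← ha]
  have ha1 : 1 ≤ a := by rw [ha]; linarith
  have b1 : u + 1 ≤ a := by rw [ha]; linarith
  have b2 : m + 1 ≤ a := by rw [ha]; linarith
  have b3 : 10 * m + 5 ≤ 10 * a := by linarith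
  have c1 : t + 1 ≤ 6 * a * e := by
    have h1 : 5 * (u + 1) * e ≤ 5 * a * e := by gcongr
    have h2 : 1 ≤ a * e := by nlinarith
    linarith
  have c2 : 100 * (u + 1) * (m + 1) ≤ 100 * a * a := by gcongr
  have c3 : 0 ≤ 100 * (u + 1) * (m + 1) := by positivity
  have h3 : a ≤ a ^ 3 * e := by
    have : (1 : ℝ) ≤ a ^ 2 * e := by nlinarith
    calc a = a * 1 := by ring
      _ ≤ a * (a ^ 2 * e) := by gcongr
      _ = a ^ 3 * e := by ring
  calc 10 * m + 5 + 100 * (u + 1) * (m + 1) * (t + 1)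
      ≤ 10 * a + 100 * a * a * (6 * a * e) := by
        have h0 : 0 ≤ 6 * a * e := by positivity
        have h4 : 100 * (u + 1) * (m + 1) * (t + 1) ≤ 100 * (u + 1) * (m + 1) * (6 * a * e) :=
          mul_le_mul_of_nonneg_left c1 c3
        have h5 : 100 * (u + 1) * (m + 1) * (6 * a * e) ≤ 100 * a * a * (6 * a * e) :=
          mul_le_mul_of_nonneg_right c2 h0
        linarith
    _ ≤ 1200 * a ^ 3 * e := by nlinarith

/-- The whole of Theorem T2. -/
theorem everyInstance : ∃ P : List Instr, ∀ (n k : ℕ) (L : List (Finset (Fin n))),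
      Decides P n k L (200 * 2 ^ n * (n + L.length + 1) ^ 2)
        ⌊1200 * ((n : ℝ) + L.length + 1) ^ 3 *
          2 ^ ((n : ℝ) - n / (1440 * Real.logb 2 (2 + L.length / n)))⌋₊ :=
  ⟨(main (logS 16)).compile 0, fun n k L =>
    (mainSpec (logS 16) (fun n m => sOf 16 n m) (fun n m => 16 + 2 * n + 2 * m + 10)
      (fun _ m => 10 * m + 5) (logSpec 16) n k L (Nat.le_trans (by decide) (Nat.le_add_right 16 _))).mono
      (wordC n L.length) (timeC n k L)⟩

end SCR
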