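import Pool.Agent.Lib.SCR.Prog

/-!
# Correctness of the dynamic program
-/

namespace SCR

open Finset

lemma Reach.covered {n s k : ℕ} {L : List (Finset (Fin n))} {j : ℕ} {Y : Finset (Fin n)} {b : Bool}
    (h : Reach s k L j Y b) :
    ∃ C : Finset (Finset (Fin n)), (∀ A ∈ C, A ∈ L) ∧ C.card ≤ j ∧ ∀ x ∈ Y, ∃ A ∈ C, x ∈ A := by
  induction h with
  | start => exact ⟨∅, by simp, by simp, by simp⟩
  | @big j Y A _ hA _ _ ih =>
    obtain ⟨C, h1, h2, h3⟩ := ih
    refine ⟨insert A C, ?_, (card_insert_le _ _).trans (by omega), ?_⟩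
    · intro B hB
      rcases mem_insert.1 hB with rfl | hB
      · exact hA
      · exact h1 B hB
    · intro x hx
      rcases mem_union.1 hx with hx | hx
      · obtain ⟨B, hB, hxB⟩ := h3 x hx
        exact ⟨B, mem_insert_of_mem hB, hxB⟩
      · exact ⟨A, mem_insert_self _ _, hx⟩
  | @small j Y A b _ hA _ _ ih =>
    obtain ⟨C, h1, h2, h3⟩ := ih
    refine ⟨insert A C, ?_, (card_insert_le _ _).trans (by omega), ?_⟩
    · intro B hB
      rcases mem_insert.1 hB with rfl | hB
      · exact hA
      · exact h1 B hB
    · intro x hx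
      rcases mem_union.1 hx with hx | hx
      · obtain ⟨B, hB, hxB⟩ := h3 x hx
        exact ⟨B, mem_insert_of_mem hB, hxB⟩
      · exact ⟨A, mem_insert_self _ _, hx⟩

lemma phase2 {n s k : ℕ} {L : List (Finset (Fin n))} (C : Finset (Finset (Fin n)))
    (hC : ∀ A ∈ C, A ∈ L) (hcov : ∀ x : Fin n, ∃ A ∈ C, x ∈ A) :
    ∀ (d : ℕ) (C1 : Finset (Finset (Fin n))) (X : Finset (Fin n)) (b : Bool), C1 ⊆ C →
      (∀ A ∈ C1, A ⊆ X) → Reach s k L C1.card X b → (∀ B ∈ C, B ∉ C1 → (B \ X).card < s) →
      C.card - C1.card ≤ d → ∃ j ≤ C.card, ∃ b, Reach s k L j univ b := by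
  intro d
  induction d with
  | zero =>
    intro C1 X b h1 h2 h3 h4 h5
    by_cases hX : X = univ
    · subst hX
      exact ⟨_, card_le_card h1, b, h3⟩
    · exfalso
      have : C1 = C := eq_of_subset_of_card_le h1 (by omega)
      subst this
      apply hX
      rw [eq_univ_iff_forall]
      intro x
      obtain ⟨A, hA, hx⟩ := hcov x
      exact h2 A hA hx
  | succ d ih =>
    intro C1 X b h1 h2 h3 h4 h5
    by_cases hX : X = univ
    · subst hX
      exact ⟨_, card_le_card h1, b, h3⟩
    · have hne : (univ \ X).Nonempty := by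
        rw [nonempty_iff_ne_empty]
        intro h
        apply hX
        rw [eq_univ_iff_forall]
        intro x
        by_contra hx
        have : x ∈ univ \ X := by simp [hx]
        rw [h] at this
        simp at this
      obtain ⟨x, hx, hmax⟩ : ∃ x ∈ univ \ X, ∀ y ∈ univ \ X, y ≤ x :=
        ⟨(univ \ X).max' hne, max'_mem _ _, fun y hy => le_max' _ _ hy⟩
      simp only [mem_sdiff, mem_univ, true_and] at hx hmax
      obtain ⟨A, hA, hxA⟩ := hcov x
      have hA1 : A ∉ C1 := fun h => hx (h2 A h hxA)
      have htop : HitsTop X A := ⟨x, hxA, hx, fun y hy => by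
        by_contra h
        exact absurd (hmax y h) (not_le.2 hy)⟩
      have hr := Reach.small h3 (hC A hA) (h4 A hA hA1) htop
      have hc : (insert A C1).card = C1.card + 1 := card_insert_of_notMem hA1
      rw [← hc] at hr
      refine ih (insert A C1) (X ∪ A) true (insert_subset hA h1) ?_ hr ?_ (by omega)
      · intro B hB
        rcases mem_insert.1 hB with rfl | hB
        · exact subset_union_right
        · exact (h2 B hB).trans subset_union_left
      · intro B hB hB1
        refine lt_of_le_of_lt (card_le_card (sdiff_subset_sdiff (le_refl B) subset_union_left)) (h4 B hB ?_)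
        intro h
        exact hB1 (mem_insert_of_mem h)

lemma phase1 {n s k : ℕ} {L : List (Finset (Fin n))} (C : Finset (Finset (Fin n)))
    (hC : ∀ A ∈ C, A ∈ L) (hcov : ∀ x : Fin n, ∃ A ∈ C, x ∈ A) (hk : C.card ≤ k) :
    ∀ (d : ℕ) (C1 : Finset (Finset (Fin n))) (X : Finset (Fin n)), C1 ⊆ C →
      (∀ A ∈ C1, A ⊆ X) → Reach s k L C1.card X false → C1.card * n ≤ X.card * C.card →
      C.card - C1.card ≤ d → ∃ j ≤ C.card, ∃ b, Reach s k L j univ b := by
  intro d
  induction d with
  | zero =>
    intro C1 X h1 h2 h3 _ h5
    refine phase2 C hC hcov 0 C1 X false h1 h2 h3 ?_ h5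
    intro B hB hB1
    have : C1 = C := eq_of_subset_of_card_le h1 (by omega)
    exact absurd (this ▸ hB) hB1
  | succ d ih =>
    intro C1 X h1 h2 h3 h4 h5
    by_cases hX : C1 = C
    · exact phase2 C hC hcov 0 C1 X false h1 h2 h3 (fun B hB hB1 => absurd (hX ▸ hB) hB1) (by rw [hX]; omega)
    · have hne : (C \ C1).Nonempty := by
        rw [sdiff_nonempty]
        intro h
        exact hX (subset_antisymm h1 h)
      obtain ⟨A, hA, hmax⟩ := exists_max_image (C \ C1) (fun B => (B \ X).card) hne
      rw [mem_sdiff] at hA
      by_cases hs : (A \ X).card < s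
      · refine phase2 C hC hcov _ C1 X false h1 h2 h3 ?_ le_rfl
        intro B hB hB1
        exact lt_of_le_of_lt (hmax B (mem_sdiff.2 ⟨hB, hB1⟩)) hs
      · have hc : (insert A C1).card = C1.card + 1 := card_insert_of_notMem hA.2
        have hlt : C1.card < C.card := by
          have := card_le_card (insert_subset hA.1 h1)
          omega
        -- the gain is at least the average
        have hsub : univ \ X ⊆ (C \ C1).biUnion (fun B => B \ X) := by
          intro x hx
          simp only [mem_sdiff, mem_univ, true_and] at hx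
          obtain ⟨B, hB, hxB⟩ := hcov x
          exact mem_biUnion.2 ⟨B, mem_sdiff.2 ⟨hB, fun h => hx (h2 B h hxB)⟩, mem_sdiff.2 ⟨hxB, hx⟩⟩
        have hgain : n - X.card ≤ (C.card - C1.card) * (A \ X).card := by
          calc n - X.card = (univ \ X).card := by
                rw [card_sdiff_of_subset (subset_univ X)]; simp
            _ ≤ ((C \ C1).biUnion (fun B => B \ X)).card := card_le_card hsub
            _ ≤ ∑ B ∈ C \ C1, (B \ X).card := card_biUnion_le
            _ ≤ ∑ _B ∈ C \ C1, (A \ X).card := sum_le_sum fun B hB => hmax B hB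
            _ = (C.card - C1.card) * (A \ X).card := by
                rw [sum_const, smul_eq_mul, card_sdiff_of_subset h1]
        have hXA : (X ∪ A).card = X.card + (A \ X).card := by
          rw [← union_sdiff_self_eq_union, card_union_of_disjoint disjoint_sdiff]
        have hXn : X.card ≤ n := by simpa using card_le_univ X
        have hkey : (C1.card + 1) * n ≤ (X ∪ A).card * C.card := by
          rw [hXA]
          generalize (A \ X).card = g at *
          generalize X.card = u at *
          generalize C1.card = j at *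
          generalize C.card = p at *
          obtain ⟨e, rfl⟩ : ∃ e, p = j + (e + 1) := ⟨p - j - 1, by omega⟩
          have hg : n ≤ u + (e + 1) * g := by
            have : j + (e + 1) - j = e + 1 := by omega
            rw [this] at hgain
            omega
          -- multiply by e + 1
          have h4' : j * n ≤ u * (j + (e + 1)) := h4
          have : (e + 1) * ((j + 1) * n) ≤ (e + 1) * ((u + g) * (j + (e + 1))) := by
            nlinarith [Nat.mul_le_mul_right e h4', Nat.mul_le_mul_right (j + (e + 1)) hg]
          exact Nat.le_of_mul_le_mul_left this (Nat.succ_pos e)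
        have hr := Reach.big h3 (hC A hA.1) (not_lt.1 hs)
          (hkey.trans (Nat.mul_le_mul_left _ hk))
        rw [← hc] at hr hkey
        refine ih (insert A C1) (X ∪ A) (insert_subset hA.1 h1) ?_ hr hkey (by omega)
        intro B hB
        rcases mem_insert.1 hB with rfl | hB
        · exact subset_union_right
        · exact (h2 B hB).trans subset_union_left

theorem rowC : CoverSpec := by
  intro n s k L _
  constructor
  · rintro ⟨j, hj, b, h⟩
    obtain ⟨C, h1, h2, h3⟩ := h.covered
    exact ⟨C, h1, by omega, fun x => h3 x (mem_univ x)⟩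
  · rintro ⟨C, h1, h2, h3⟩
    choose f hf hxf using h3
    classical
    have hsub : univ.image f ⊆ C := by
      intro A hA
      obtain ⟨x, _, rfl⟩ := mem_image.1 hA
      exact hf x
    have hcard : (univ.image f).card ≤ min k n := by
      refine le_min ((card_le_card hsub).trans h2) ?_
      exact card_image_le.trans (by simp)
    obtain ⟨j, hj, b, hb⟩ := phase1 (s := s) (k := min k n) (L := L) (univ.image f)
      (fun A hA => h1 A (hsub hA)) (fun x => ⟨f x, mem_image_of_mem f (mem_univ x), hxf x⟩) hcard
      _ ∅ ∅ (empty_subset _) (by simp) Reach.start (by simp) le_rfl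
    exact ⟨j, hj.trans hcard, b, hb⟩

end SCR
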