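import Pool.Agent.Lib.SCR.DDefs

/-!
# Row D1: the masks are pairwise independent
-/

namespace SCR

open Finset

/-- parity of the number of elements of `S` at which the bit of `u` is one -/
def par (u : ℕ) (S : Finset ℕ) : Bool := decide ((S.filter fun i => u.testBit i).card % 2 = 1)

theorem mem_zmask {n : ℕ} {S : Finset ℕ} {c : Bool} {u : Fin n} :
    u ∈ zmask n S c ↔ (par u S ^^ c) = true := by
  simp only [zmask, mem_filter, mem_univ, true_and, par]

theorem par_toggle (u i : ℕ) (S : Finset ℕ) :
    par u (symmDiff S {i}) = (par u S ^^ u.testBit i) := by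
  unfold par
  by_cases hi : i ∈ S
  · have h1 : symmDiff S {i} = S.erase i := by
      ext x
      simp only [mem_symmDiff, mem_singleton, mem_erase]
      constructor
      · rintro (⟨h1, h2⟩ | ⟨h1, h2⟩)
        · exact ⟨h2, h1⟩
        · exact absurd (h1 ▸ hi) h2
      · rintro ⟨h1, h2⟩
        exact Or.inl ⟨h2, h1⟩
    rw [h1, filter_erase]
    by_cases hb : u.testBit i = true
    · have h2 : i ∈ S.filter fun i => u.testBit i := mem_filter.2 ⟨hi, hb⟩
      have h3 := card_erase_add_one h2
      rw [hb]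
      generalize ((S.filter fun i => u.testBit i).erase i).card = a at *
      rw [← h3]
      rcases Nat.mod_two_eq_zero_or_one a with h | h
      · have : (a + 1) % 2 = 1 := by omega
        simp [h, this]
      · have : (a + 1) % 2 = 0 := by omega
        simp [h, this]
    · have h2 : i ∉ S.filter fun i => u.testBit i := fun h => hb (mem_filter.1 h).2
      rw [erase_eq_of_notMem h2]
      have hb' : u.testBit i = false := by simpa using hb
      rw [hb', Bool.xor_false]
  · have h1 : symmDiff S {i} = insert i S := by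
      ext x
      simp only [mem_symmDiff, mem_singleton, mem_insert]
      constructor
      · rintro (⟨h1, h2⟩ | ⟨h1, h2⟩)
        · exact Or.inr h1
        · exact Or.inl h1
      · rintro (h1 | h1)
        · exact Or.inr ⟨h1, h1 ▸ hi⟩
        · exact Or.inl ⟨h1, fun h => hi (h ▸ h1)⟩
    rw [h1, filter_insert]
    by_cases hb : u.testBit i = true
    · rw [if_pos hb, card_insert_of_notMem (fun h => hi (mem_filter.1 h).1), hb]
      generalize (S.filter fun i => u.testBit i).card = a
      rcases Nat.mod_two_eq_zero_or_one a with h | h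
      · have : (a + 1) % 2 = 1 := by omega
        simp [h, this]
      · have : (a + 1) % 2 = 0 := by omega
        simp [h, this]
    · rw [if_neg hb]
      have hb' : u.testBit i = false := by simpa using hb
      rw [hb', Bool.xor_false]

theorem zPair : ZPair := by
  intro n r hn u v huv
  -- a bit where they differ
  obtain ⟨i, hir, hi⟩ : ∃ i < r, (u : ℕ).testBit i ≠ (v : ℕ).testBit i := by
    by_contra hcon
    push Not at hcon
    refine huv (Fin.ext (Nat.eq_of_testBit_eq fun j => ?_))
    by_cases hj : j < r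
    · exact hcon j hj
    · push Not at hj
      have h1 : (u : ℕ) < 2 ^ j := lt_of_lt_of_le u.2 (hn.trans (Nat.pow_le_pow_right (by norm_num) hj))
      have h2 : (v : ℕ) < 2 ^ j := lt_of_lt_of_le v.2 (hn.trans (Nat.pow_le_pow_right (by norm_num) hj))
      rw [Nat.testBit_lt_two_pow h1, Nat.testBit_lt_two_pow h2]
  set Ω := (range r).powerset ×ˢ (univ : Finset Bool) with hΩ
  have hcard : Ω.card = 2 ^ r * 2 := by
    rw [hΩ, card_product, card_powerset, card_range, card_univ, Fintype.card_bool]
  have hsum : (Ω.filter fun p => (u ∈ zmask n p.1 p.2 ↔ v ∈ zmask n p.1 p.2)).card +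
      (Ω.filter fun p => ¬ (u ∈ zmask n p.1 p.2 ↔ v ∈ zmask n p.1 p.2)).card = Ω.card :=
    card_filter_add_card_filter_not _
  have hflip : ∀ S : Finset ℕ, ∀ c : Bool,
      ((u ∈ zmask n (symmDiff S {i}) c ↔ v ∈ zmask n (symmDiff S {i}) c) ↔
        ¬ (u ∈ zmask n S c ↔ v ∈ zmask n S c)) := by
    intro S c
    simp only [mem_zmask, par_toggle]
    revert hi
    generalize par u S = a
    generalize par v S = b
    generalize (u : ℕ).testBit i = a'
    generalize (v : ℕ).testBit i = b'
    revert a b a' b' c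
    decide
  have hmem : ∀ p ∈ Ω, (symmDiff p.1 {i}, p.2) ∈ Ω := by
    intro p hp
    rw [hΩ, mem_product, mem_powerset] at hp ⊢
    refine ⟨fun x hx => ?_, mem_univ _⟩
    rcases mem_symmDiff.1 hx with ⟨h1, _⟩ | ⟨h1, _⟩
    · exact hp.1 h1
    · rw [mem_singleton.1 h1]; exact mem_range.2 hir
  have heq : (Ω.filter fun p => (u ∈ zmask n p.1 p.2 ↔ v ∈ zmask n p.1 p.2)).card =
      (Ω.filter fun p => ¬ (u ∈ zmask n p.1 p.2 ↔ v ∈ zmask n p.1 p.2)).card := by
    refine card_nbij' (fun p => (symmDiff p.1 {i}, p.2)) (fun p => (symmDiff p.1 {i}, p.2)) ?_ ?_ ?_ ?_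
    · intro p hp
      obtain ⟨h1, h2⟩ := mem_filter.1 (mem_coe.1 hp)
      refine mem_coe.2 (mem_filter.2 ⟨hmem p h1, ?_⟩)
      intro h3
      exact (hflip p.1 p.2).1 h3 h2
    · intro p hp
      obtain ⟨h1, h2⟩ := mem_filter.1 (mem_coe.1 hp)
      exact mem_coe.2 (mem_filter.2 ⟨hmem p h1, (hflip p.1 p.2).2 h2⟩)
    · intro p _
      simp only [symmDiff_symmDiff_cancel_right, Prod.mk.eta]
    · intro p _
      simp only [symmDiff_symmDiff_cancel_right, Prod.mk.eta]
  rw [← heq, hcard] at hsum
  omega

theorem zOne : ZOne := by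
  intro n r u
  set Ω := (range r).powerset ×ˢ (univ : Finset Bool) with hΩ
  have hcard : Ω.card = 2 ^ r * 2 := by
    rw [hΩ, card_product, card_powerset, card_range, card_univ, Fintype.card_bool]
  have hsum : (Ω.filter fun p => u ∈ zmask n p.1 p.2).card +
      (Ω.filter fun p => ¬ u ∈ zmask n p.1 p.2).card = Ω.card :=
    card_filter_add_card_filter_not _
  have hflip : ∀ S : Finset ℕ, ∀ c : Bool, (u ∈ zmask n S (!c) ↔ ¬ u ∈ zmask n S c) := by
    intro S c
    simp only [mem_zmask]
    generalize par u S = a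
    revert a c
    decide
  have heq : (Ω.filter fun p => u ∈ zmask n p.1 p.2).card =
      (Ω.filter fun p => ¬ u ∈ zmask n p.1 p.2).card := by
    refine card_nbij' (fun p => (p.1, !p.2)) (fun p => (p.1, !p.2)) ?_ ?_ ?_ ?_
    · intro p hp
      obtain ⟨h1, h2⟩ := mem_filter.1 (mem_coe.1 hp)
      rw [hΩ, mem_product] at h1
      refine mem_coe.2 (mem_filter.2 ⟨mem_product.2 ⟨h1.1, mem_univ _⟩, ?_⟩)
      intro h3
      exact (hflip p.1 p.2).1 h3 h2
    · intro p hp
      obtain ⟨h1, h2⟩ := mem_filter.1 (mem_coe.1 hp)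
      rw [hΩ, mem_product] at h1
      exact mem_coe.2 (mem_filter.2 ⟨mem_product.2 ⟨h1.1, mem_univ _⟩, (hflip p.1 p.2).2 h2⟩)
    · intro p _
      simp only [Bool.not_not, Prod.mk.eta]
    · intro p _
      simp only [Bool.not_not, Prod.mk.eta]
  rw [← heq, hcard] at hsum
  omega

end SCR
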