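import Pool.Agent.Lib.SCR.DDefs
import Pool.Agent.Lib.SCR.D1

/-!
# Row D2: some mask is close to the union of the blocks it chooses
-/

namespace SCR

open Finset

theorem close (hZP : ZPair) (hZO : ZOne) : Close := by
  intro n r hn p P Q m hmP hPQ hdis
  classical
  set Ω := (range r).powerset ×ˢ (univ : Finset Bool) with hΩ
  have hcard : Ω.card = 2 ^ r * 2 := by
    rw [hΩ, card_product, card_powerset, card_range, card_univ, Fintype.card_bool]
  -- membership in `chosen`
  have hch : ∀ (z : Finset (Fin n)) (u : Fin n) (i : Fin p), u ∈ P i ∪ Q i →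
      (u ∈ chosen P Q m z ↔ u ∈ (if m i ∈ z then P i else Q i)) := by
    intro z u i hu
    rw [chosen, mem_biUnion]
    constructor
    · rintro ⟨j, _, hj⟩
      have hj' : u ∈ P j ∪ Q j := by
        by_cases h : m j ∈ z
        · rw [if_pos h] at hj; exact mem_union_left _ hj
        · rw [if_neg h] at hj; exact mem_union_right _ hj
      by_cases hij : i = j
      · rw [hij]; exact hj
      · exact absurd hj' (disjoint_left.1 (hdis i j hij) hu)
    · intro h
      exact ⟨i, mem_univ _, h⟩
  have hch0 : ∀ (z : Finset (Fin n)) (u : Fin n), (∀ i, u ∉ P i ∪ Q i) → u ∉ chosen P Q m z := by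
    intro z u hu h
    rw [chosen, mem_biUnion] at h
    obtain ⟨j, _, hj⟩ := h
    refine hu j ?_
    by_cases h : m j ∈ z
    · rw [if_pos h] at hj; exact mem_union_left _ hj
    · rw [if_neg h] at hj; exact mem_union_right _ hj
  -- the marked elements are distinct
  have hminj : Function.Injective m := by
    intro i j hij
    by_contra hne
    have h1 : m i ∈ P i ∪ Q i := mem_union_left _ (hmP i)
    have h2 : m i ∈ P j ∪ Q j := mem_union_left _ (hij ▸ hmP j)
    exact disjoint_left.1 (hdis i j hne) h1 h2
  set Mk : Finset (Fin n) := univ.image m with hMk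
  have hMc : Mk.card = p := by
    rw [hMk, card_image_of_injective _ hminj, card_univ, Fintype.card_fin]
  have hMn : p ≤ n := by
    rw [← hMc]
    exact (card_le_univ _).trans_eq (Fintype.card_fin n)
  let sd : Finset ℕ × Bool → Finset (Fin n) := fun q =>
    symmDiff (zmask n q.1 q.2) (chosen P Q m (zmask n q.1 q.2))
  -- count for one element
  have hone : ∀ u : Fin n, (Ω.filter fun q => u ∈ sd q).card ≤ if u ∈ Mk then 0 else 2 ^ r := by
    intro u
    by_cases huM : u ∈ Mk
    · rw [if_pos huM]
      obtain ⟨i, _, rfl⟩ := mem_image.1 huM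
      rw [Nat.le_zero, card_eq_zero, filter_eq_empty_iff]
      intro q _ hq
      have h1 := hch (zmask n q.1 q.2) (m i) i (mem_union_left _ (hmP i))
      rcases mem_symmDiff.1 hq with ⟨h2, h3⟩ | ⟨h2, h3⟩
      · exact h3 (h1.2 (by rw [if_pos h2]; exact hmP i))
      · have h4 := h1.1 h2
        rw [if_neg h3] at h4
        exact disjoint_left.1 (hPQ i) (hmP i) h4
    · rw [if_neg huM]
      by_cases hex : ∃ i, u ∈ P i ∪ Q i
      · obtain ⟨i, hi⟩ := hex
        have hne : u ≠ m i := fun h => huM (h ▸ mem_image_of_mem m (mem_univ i))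
        have hp := hZP n r hn u (m i) hne
        have hsum : (Ω.filter fun q => (u ∈ zmask n q.1 q.2 ↔ m i ∈ zmask n q.1 q.2)).card +
            (Ω.filter fun q => ¬ (u ∈ zmask n q.1 q.2 ↔ m i ∈ zmask n q.1 q.2)).card = Ω.card :=
          card_filter_add_card_filter_not _
        rw [← hΩ] at hp
        rw [hp, hcard] at hsum
        rcases mem_union.1 hi with hiP | hiQ
        · have h1 : (Ω.filter fun q => u ∈ sd q) ⊆
              (Ω.filter fun q => ¬ (u ∈ zmask n q.1 q.2 ↔ m i ∈ zmask n q.1 q.2)) := by
            intro q hq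
            obtain ⟨hq1, hq2⟩ := mem_filter.1 hq
            refine mem_filter.2 ⟨hq1, fun hiff => ?_⟩
            have h2 := hch (zmask n q.1 q.2) u i hi
            rcases mem_symmDiff.1 hq2 with ⟨h3, h4⟩ | ⟨h3, h4⟩
            · exact h4 (h2.2 (by rw [if_pos (hiff.1 h3)]; exact hiP))
            · have h5 := h2.1 h3
              rw [if_neg (fun h => h4 (hiff.2 h))] at h5
              exact disjoint_left.1 (hPQ i) hiP h5
          have h2 := card_le_card h1
          omega
        · have h1 : (Ω.filter fun q => u ∈ sd q) ⊆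
              (Ω.filter fun q => (u ∈ zmask n q.1 q.2 ↔ m i ∈ zmask n q.1 q.2)) := by
            intro q hq
            obtain ⟨hq1, hq2⟩ := mem_filter.1 hq
            refine mem_filter.2 ⟨hq1, ?_⟩
            have h2 := hch (zmask n q.1 q.2) u i hi
            have hnP : u ∉ P i := fun h => disjoint_left.1 (hPQ i) h hiQ
            rcases mem_symmDiff.1 hq2 with ⟨h3, h4⟩ | ⟨h3, h4⟩
            · refine ⟨fun _ => ?_, fun _ => h3⟩
              by_contra h5
              exact h4 (h2.2 (by rw [if_neg h5]; exact hiQ))
            · refine ⟨fun h => absurd h h4, fun h => ?_⟩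
              have h5 := h2.1 h3
              rw [if_pos h] at h5
              exact absurd h5 hnP
          have h2 := card_le_card h1
          omega
      · push Not at hex
        have h1 : (Ω.filter fun q => u ∈ sd q) ⊆ (Ω.filter fun q => u ∈ zmask n q.1 q.2) := by
          intro q hq
          obtain ⟨hq1, hq2⟩ := mem_filter.1 hq
          refine mem_filter.2 ⟨hq1, ?_⟩
          rcases mem_symmDiff.1 hq2 with ⟨h3, h4⟩ | ⟨h3, h4⟩
          · exact h3
          · exact absurd h3 (hch0 _ u hex)
        have h2 := card_le_card h1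
        have h3 := hZO n r u
        rw [← hΩ] at h3
        omega
  -- double counting
  have htot : ∑ q ∈ Ω, (sd q).card ≤ (n - p) * 2 ^ r := by
    have h1 : ∑ q ∈ Ω, (sd q).card = ∑ u : Fin n, (Ω.filter fun q => u ∈ sd q).card := by
      have h2 : ∀ q, (sd q).card = ∑ u : Fin n, if u ∈ sd q then 1 else 0 := by
        intro q
        rw [← card_filter]
        congr 1
        ext u
        simp
      simp only [h2, card_filter]
      exact sum_comm
    rw [h1]
    refine (sum_le_sum fun u _ => hone u).trans ?_
    rw [← sum_filter_add_sum_filter_not univ (fun u => u ∈ Mk)]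
    have h3 : ∑ u ∈ univ.filter (fun u => u ∈ Mk), (if u ∈ Mk then 0 else 2 ^ r) = 0 := by
      refine sum_eq_zero fun u hu => ?_
      rw [if_pos (mem_filter.1 hu).2]
    have h4 : ∑ u ∈ univ.filter (fun u => ¬ u ∈ Mk), (if u ∈ Mk then 0 else 2 ^ r) =
        (n - p) * 2 ^ r := by
      rw [sum_congr rfl (fun u hu => if_neg (mem_filter.1 hu).2), sum_const, smul_eq_mul]
      congr 1
      have h5 : (univ.filter fun u : Fin n => ¬ u ∈ Mk) = Mkᶜ := by
        ext u
        simp
      rw [h5, card_compl, Fintype.card_fin, hMc]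
    rw [h3, h4, zero_add]
  by_contra hcon
  push Not at hcon
  have hlow : ∑ q ∈ Ω, (n - p + 1) ≤ ∑ q ∈ Ω, 2 * (sd q).card := by
    refine sum_le_sum fun q hq => ?_
    rw [hΩ, mem_product, mem_powerset] at hq
    have h1 := hcon q.1 hq.1 q.2
    change n < 2 * (sd q).card + p at h1
    omega
  rw [← mul_sum, sum_const, smul_eq_mul, hcard] at hlow
  have hpos : 0 < 2 ^ r := by positivity
  nlinarith

end SCR
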