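import Pool.Agent.Lib.SCR.DDefs

/-!
# Row D3: a cover by at most `k ≤ n` members gives a partition into exactly `k` blocks
-/

namespace SCR

open Finset

theorem D3 : Partit := by
  classical
  intro n k L hk ⟨C, hCL, hCk, hcov⟩
  choose g hgC hg using fun u : Fin n => hcov u (mem_univ u)
  let rep : Fin n → Fin n := fun u => Classical.choose (⟨u, rfl⟩ : ∃ v, g v = g u)
  have hrep : ∀ u, g (rep u) = g u := fun u => Classical.choose_spec (⟨u, rfl⟩ : ∃ v, g v = g u)
  have hrepc : ∀ u v, g u = g v → rep u = rep v := by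
    intro u v h
    simp only [rep, h]
  set R : Finset (Fin n) := univ.image rep with hR
  have hinj : Set.InjOn g (R : Set (Fin n)) := by
    intro r hr r' hr' h
    simp only [hR, coe_image, coe_univ, Set.image_univ, Set.mem_range] at hr hr'
    obtain ⟨u, rfl⟩ := hr
    obtain ⟨v, rfl⟩ := hr'
    rw [hrep, hrep] at h
    exact hrepc u v h
  have hRk : R.card ≤ k := by
    rw [← card_image_of_injOn hinj]
    refine (card_le_card ?_).trans hCk
    intro A hA
    obtain ⟨r, -, rfl⟩ := mem_image.1 hA
    exact hgC r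
  obtain ⟨R', hRR, hR'⟩ := exists_superset_card_eq hRk (by simpa using hk)
  have hrR : ∀ u, rep u ∈ R' := fun u => hRR (mem_image_of_mem _ (mem_univ u))
  let e : R' ≃ Fin k := R'.equivFinOfCardEq hR'
  let f0 : Fin n → R' := fun u => if h : u ∈ R' then ⟨u, h⟩ else ⟨rep u, hrR u⟩
  have hf0 : ∀ u, g (f0 u : Fin n) = g u := by
    intro u
    by_cases h : u ∈ R'
    · simp [f0, h]
    · simp [f0, h, hrep]
  refine ⟨fun u => e (f0 u), ?_, ?_⟩
  · intro j
    refine ⟨(e.symm j : Fin n), ?_⟩
    have : f0 (e.symm j : Fin n) = e.symm j := by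
      simp [f0]
    simp [this]
  · intro j
    refine ⟨g (e.symm j : Fin n), hCL _ (hgC _), ?_⟩
    intro u hu
    have h1 : f0 u = e.symm j := by
      rw [← hu]; simp
    rw [← h1, hf0]
    exact hg u

end SCR
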