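import Pool.Agent.Lib.SCR.DDefs

/-! # Row D4: telescoping (helper16) -/

namespace SCR

open Finset

theorem telescope : Telescope := by
  intro s hs t ht p
  have key : ∀ p, ∑ i ∈ range p, s (2 * i + 1) ≤ (∑ i ∈ range p, s (2 * i)) + s (2 * p) := by
    intro p
    induction p with
    | zero => simp
    | succ p ih =>
      rw [sum_range_succ, sum_range_succ]
      have h1 : s (2 * p + 1) ≤ s (2 * (p + 1)) := hs (by omega)
      omega
  exact (key p).trans (Nat.add_le_add_left (ht _) _)

end SCR
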