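import Pool.Agent.Lib.SCR.DDefs

/-!
# Row D5: splitting at block boundaries
-/

namespace SCR

open Finset

theorem split : Split := by
  intro n t h L I B hBt hBL hdis X hX hXc
  classical
  -- the subsets of blocks after which at most `h` elements are left
  let cand : Finset (Finset ℕ) := I.powerset.filter fun J => (X \ J.biUnion B).card ≤ h
  have hcand : cand.Nonempty := by
    refine ⟨I, mem_filter.2 ⟨mem_powerset_self I, ?_⟩⟩
    rw [sdiff_eq_empty_iff_subset.2 hX, card_empty]
    exact Nat.zero_le _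
  obtain ⟨J, hJ, hmin⟩ := exists_min_image cand card hcand
  obtain ⟨hJI, hJh⟩ := mem_filter.1 hJ
  rw [mem_powerset] at hJI
  have hcov : ∀ K ⊆ I, Cov L K.card (X ∩ K.biUnion B) := by
    intro K hK
    choose! A hA using hBL
    refine ⟨K.image A, ?_, card_image_le, ?_⟩
    · intro A' hA'
      obtain ⟨i, hi, rfl⟩ := mem_image.1 hA'
      exact (hA i (hK hi)).1
    · intro x hx
      obtain ⟨i, hi, hxi⟩ := mem_biUnion.1 (mem_inter.1 hx).2
      exact ⟨A i, mem_image_of_mem _ hi, (hA i (hK hi)).2 hxi⟩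
  refine ⟨X ∩ J.biUnion B, inter_subset_left, ?_, ?_, J.card, (I \ J).card, ?_, hcov J hJI, ?_⟩
  · rcases J.eq_empty_or_nonempty with hJ0 | ⟨i, hi⟩
    · rw [hJ0, biUnion_empty, inter_empty, card_empty]
      exact Nat.zero_le _
    · have h1 : J.erase i ∉ cand := by
        intro h2
        have h3 := hmin _ h2
        have h4 := card_erase_lt_of_mem hi
        omega
      have h2 : h < (X \ (J.erase i).biUnion B).card := by
        by_contra h3
        push Not at h3
        exact h1 (mem_filter.2 ⟨mem_powerset.2 ((erase_subset _ _).trans hJI), h3⟩)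
      have h3 : (X ∩ (J.erase i).biUnion B).card + (X \ (J.erase i).biUnion B).card = X.card :=
        card_inter_add_card_sdiff _ _
      have h4 : (X ∩ J.biUnion B).card ≤ (X ∩ (J.erase i).biUnion B).card + (B i).card := by
        refine (card_le_card ?_).trans (card_union_le _ _)
        intro x hx
        obtain ⟨hx1, hx2⟩ := mem_inter.1 hx
        obtain ⟨j, hj, hxj⟩ := mem_biUnion.1 hx2
        by_cases hji : j = i
        · exact mem_union_right _ (hji ▸ hxj)
        · exact mem_union_left _ (mem_inter.2 ⟨hx1, mem_biUnion.2 ⟨j, mem_erase.2 ⟨hji, hj⟩, hxj⟩⟩)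
      have h5 := hBt i (hJI hi)
      omega
  · have h1 : X \ (X ∩ J.biUnion B) = X \ J.biUnion B := by
      ext x
      simp only [mem_sdiff, mem_inter, not_and]
      constructor
      · rintro ⟨h1, h2⟩; exact ⟨h1, h2 h1⟩
      · rintro ⟨h1, h2⟩; exact ⟨h1, fun _ => h2⟩
    rw [h1]
    exact hJh
  · rw [card_sdiff_of_subset hJI]
    have := card_le_card hJI
    omega
  · obtain ⟨C, hC1, hC2, hC3⟩ := hcov (I \ J) sdiff_subset
    refine ⟨C, hC1, hC2, fun x hx => hC3 x ?_⟩
    obtain ⟨hx1, hx2⟩ := mem_sdiff.1 hx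
    obtain ⟨i, hi, hxi⟩ := mem_biUnion.1 (hX hx1)
    refine mem_inter.2 ⟨hx1, mem_biUnion.2 ⟨i, mem_sdiff.2 ⟨hi, fun hJ' => ?_⟩, hxi⟩⟩
    exact hx2 (mem_inter.2 ⟨hx1, mem_biUnion.2 ⟨i, hJ', hxi⟩⟩)

end SCR
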