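import Pool.Agent.Lib.SCR.DDefs

/-! # Row D5b: the sorted pairing (helper16) -/

namespace SCR

open Finset

namespace D5b

lemma sum_pairs (f : ℕ → ℕ) (p : ℕ) :
    ∑ i ∈ range (2 * p), f i = ∑ i ∈ range p, f (2 * i) + ∑ i ∈ range p, f (2 * i + 1) := by
  induction p with
  | zero => simp
  | succ p ih =>
    rw [show 2 * (p + 1) = 2 * p + 1 + 1 by ring, sum_range_succ, sum_range_succ, ih,
      sum_range_succ, sum_range_succ]
    ring

end D5b

open D5b in
theorem pairing (hT : Telescope) : Pairing := by
  classical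
  intro n t D ht hdis
  obtain ⟨q, hq⟩ : ∃ q, q = D.card := ⟨_, rfl⟩
  set l : List (Finset (Fin n)) := D.toList.mergeSort (fun A B => decide (A.card ≤ B.card)) with hl
  have hperm : l.Perm D.toList := List.mergeSort_perm _ _
  have hlen : l.length = q := by rw [hperm.length_eq, length_toList, hq]
  have hnd : l.Nodup := hperm.nodup_iff.2 D.nodup_toList
  have hsort : l.Pairwise (fun A B => A.card ≤ B.card) := by
    have h1 := List.pairwise_mergeSort (le := fun A B : Finset (Fin n) => decide (A.card ≤ B.card))
      (fun a b c h1 h2 => by simp only [decide_eq_true_eq] at *; omega)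
      (fun a b => by simp only [Bool.or_eq_true, decide_eq_true_eq]; omega) D.toList
    refine h1.imp ?_
    intro a b h
    simpa using h
  set B : ℕ → Finset (Fin n) := fun i => l.getD i ∅ with hB
  have hBi : ∀ i (h : i < l.length), B i = l[i] := fun i h => by
    rw [hB]
    simp [List.getD_eq_getElem?_getD, h]
  have hBD : ∀ i < q, B i ∈ D := by
    intro i hi
    rw [hBi i (by omega), ← mem_toList]
    exact hperm.mem_iff.1 (List.getElem_mem _)
  have hBne : ∀ i < q, ∀ j < q, i ≠ j → B i ≠ B j := by
    intro i hi j hj hij h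
    rw [hBi i (by omega), hBi j (by omega)] at h
    exact hij ((List.Nodup.getElem_inj_iff hnd).1 h)
  have hBdis : ∀ i < q, ∀ j < q, i ≠ j → Disjoint (B i) (B j) := fun i hi j hj hij =>
    hdis _ (hBD i hi) _ (hBD j hj) (hBne i hi j hj hij)
  -- the sizes
  set s : ℕ → ℕ := fun i => if i < q then (B i).card else t with hs
  have hst : ∀ i, s i ≤ t := by
    intro i
    rw [hs]
    beta_reduce
    split_ifs with h
    · exact ht _ (hBD i h)
    · exact le_rfl
  have hmono : Monotone s := by
    intro i j hij
    rw [hs]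
    beta_reduce
    split_ifs with h1 h2 h2
    · rcases hij.lt_or_eq with h | h
      · rw [hBi i (by omega), hBi j (by omega)]
        exact List.pairwise_iff_getElem.1 hsort i j (by omega) (by omega) h
      · rw [h]
    · exact ht _ (hBD i h1)
    · omega
    · exact le_rfl
  obtain ⟨p, hp⟩ : ∃ p, p = q / 2 := ⟨_, rfl⟩
  have htel := hT s hmono t hst p
  -- the total
  have htot : ((range q).biUnion B).card = ∑ i ∈ range q, (B i).card := by
    refine card_biUnion fun i hi j hj hij => hBdis i (mem_range.1 hi) j (mem_range.1 hj) hij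
  have htot' : ∑ i ∈ range q, (B i).card = ∑ i ∈ range q, s i := by
    refine sum_congr rfl fun i hi => ?_
    rw [hs]
    beta_reduce
    rw [if_pos (mem_range.1 hi)]
  have hn : ((range q).biUnion B).card ≤ n := (card_le_univ _).trans (by simp)
  obtain ⟨u, hu, hut⟩ : ∃ u ≤ t, ∑ i ∈ range q, s i =
      ∑ i ∈ range p, s (2 * i) + ∑ i ∈ range p, s (2 * i + 1) + u := by
    rcases Nat.even_or_odd' q with ⟨c, hc | hc⟩
    · refine ⟨0, Nat.zero_le _, ?_⟩
      have : p = c := by omega
      rw [hc, this, sum_pairs, add_zero]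
    · refine ⟨s (2 * c), hst _, ?_⟩
      have : p = c := by omega
      rw [hc, this, sum_range_succ, sum_pairs]
  refine ⟨B, fun i hi => hBD i (by omega), fun i hi j hj => hBne i (by omega) j (by omega), ?_⟩
  intro e
  rw [← hq, ← hp]
  set g : ℕ → ℕ := fun i => if e i then 2 * i else 2 * i + 1 with hg
  have hge : ∀ i, (if e i then B (2 * i) else B (2 * i + 1)) = B (g i) := by
    intro i
    rw [hg]
    beta_reduce
    split_ifs <;> rfl
  have hg1 : ∀ i, 2 * i ≤ g i ∧ g i ≤ 2 * i + 1 := by
    intro i
    rw [hg]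
    beta_reduce
    split_ifs <;> omega
  simp only [hge]
  have hX : ((range p).biUnion fun i => B (g i)).card = ∑ i ∈ range p, s (g i) := by
    rw [card_biUnion]
    · refine sum_congr rfl fun i hi => ?_
      have h1 := hg1 i
      have h2 := mem_range.1 hi
      rw [hs]
      beta_reduce
      rw [if_pos (by omega)]
    · intro i hi j hj hij
      have h1 := hg1 i
      have h2 := hg1 j
      have h3 := mem_range.1 hi
      have h4 := mem_range.1 hj
      exact hBdis _ (by omega) _ (by omega) (by omega)
  have hup : ∑ i ∈ range p, s (g i) ≤ ∑ i ∈ range p, s (2 * i + 1) :=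
    sum_le_sum fun i _ => hmono (hg1 i).2
  have hlo : ∑ i ∈ range p, s (2 * i) ≤ ∑ i ∈ range p, s (g i) :=
    sum_le_sum fun i _ => hmono (hg1 i).1
  have hsub : ((range p).biUnion fun i => B (g i)) ⊆ (range q).biUnion B := by
    intro x hx
    obtain ⟨i, hi, hxi⟩ := mem_biUnion.1 hx
    have h1 := hg1 i
    have h2 := mem_range.1 hi
    exact mem_biUnion.2 ⟨g i, mem_range.2 (by omega), hxi⟩
  rw [card_sdiff_of_subset hsub, hX, htot, htot']
  rw [htot, htot'] at hn
  have hzero : t = 0 → ∑ i ∈ range p, s (2 * i + 1) = 0 := by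
    intro h0
    refine sum_eq_zero fun i _ => ?_
    have := hst (2 * i + 1)
    omega
  constructor
  · rcases Nat.eq_zero_or_pos t with h0 | h0
    · have := hzero h0
      omega
    · omega
  · omega

end SCR
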