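import Pool.Agent.Lib.SCR.DDefs

/-!
# Row D6: the core of Theorem D
-/

namespace SCR

open Finset

theorem core (hCl : Close) (hPt : Partit) (hPr : Pairing) (hSp : Split) : Core := by
  intro n k b r L hb hkn hnr hcov
  classical
  obtain ⟨f, hf, hfA⟩ := hPt n k L hkn hcov
  choose A hAL hA using hfA
  set t := n / b with ht
  let D : Fin k → Finset (Fin n) := fun j => univ.filter fun u => f u = j
  have hDmem : ∀ j u, u ∈ D j ↔ f u = j := fun j u => by
    simp only [D, mem_filter, mem_univ, true_and]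
  have hDne : ∀ j, (D j).Nonempty := fun j => by
    obtain ⟨u, hu⟩ := hf j
    exact ⟨u, (hDmem j u).2 hu⟩
  have hDdis : ∀ i j, i ≠ j → Disjoint (D i) (D j) := fun i j hij =>
    disjoint_left.2 fun u h1 h2 => hij (((hDmem i u).1 h1).symm.trans ((hDmem j u).1 h2))
  have hDinj : Function.Injective D := by
    intro i j hij
    by_contra hne
    obtain ⟨u, hu⟩ := hDne i
    exact disjoint_left.1 (hDdis i j hne) hu (hij ▸ hu)
  let big : Finset (Fin k) := univ.filter fun j => t < (D j).card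
  let sm : Finset (Fin k) := univ.filter fun j => ¬ t < (D j).card
  have hsum : big.card + sm.card = k := by
    have h := card_filter_add_card_filter_not (s := (univ : Finset (Fin k)))
      (fun j => t < (D j).card)
    rw [card_univ, Fintype.card_fin] at h
    exact h
  have hbig : big.card < b := by
    have h1 : ∑ j : Fin k, (D j).card = n := by
      have h2 := card_eq_sum_card_fiberwise (s := (univ : Finset (Fin n))) (t := (univ : Finset (Fin k)))
        (f := f) (fun u _ => mem_coe.2 (mem_univ _))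
      rw [card_univ, Fintype.card_fin] at h2
      exact h2.symm
    have h2 : big.card * (t + 1) ≤ n := by
      calc big.card * (t + 1) = ∑ j ∈ big, (t + 1) := by rw [sum_const, smul_eq_mul]
        _ ≤ ∑ j ∈ big, (D j).card := sum_le_sum fun j hj => (mem_filter.1 hj).2
        _ ≤ ∑ j : Fin k, (D j).card := sum_le_sum_of_subset (subset_univ _)
        _ = n := h1
    by_contra h3
    push Not at h3
    have h4 : n < b * (t + 1) := by
      rw [ht]
      exact Nat.lt_mul_div_succ n (by omega)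
    have h5 : b * (t + 1) ≤ big.card * (t + 1) := Nat.mul_le_mul_right _ h3
    omega
  let DD : Finset (Finset (Fin n)) := sm.image D
  have hDDc : DD.card = sm.card := card_image_of_injective _ hDinj
  have hDDt : ∀ B ∈ DD, B.card ≤ t := by
    intro B hB
    obtain ⟨j, hj, rfl⟩ := mem_image.1 hB
    exact not_lt.1 (mem_filter.1 hj).2
  have hDDd : ∀ B ∈ DD, ∀ B' ∈ DD, B ≠ B' → Disjoint B B' := by
    intro B hB B' hB' hne
    obtain ⟨i, _, rfl⟩ := mem_image.1 hB
    obtain ⟨j, _, rfl⟩ := mem_image.1 hB'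
    exact hDdis i j fun h => hne (h ▸ rfl)
  obtain ⟨B, hBD, hBinj, hBe⟩ := hPr n t DD hDDt hDDd
  set q := DD.card with hq
  have hqk : big.card + q = k := by rw [hDDc]; exact hsum
  have hidx : ∀ i : Fin (q / 2), 2 * (i : ℕ) < q ∧ 2 * (i : ℕ) + 1 < q := fun i => by
    have := i.2
    omega
  have hBne : ∀ i < q, (B i).Nonempty := fun i hi => by
    obtain ⟨j, _, hj⟩ := mem_image.1 (hBD i hi)
    rw [← hj]; exact hDne j
  have hBdis : ∀ i < q, ∀ j < q, i ≠ j → Disjoint (B i) (B j) := fun i hi j hj hij =>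
    hDDd _ (hBD i hi) _ (hBD j hj) (hBinj i hi j hj hij)
  have hBsurj : ∀ j ∈ sm, ∃ i < q, B i = D j := by
    intro j hj
    have h1 : (range q).image B = DD := by
      refine eq_of_subset_of_card_le ?_ ?_
      · intro x hx
        obtain ⟨i, hi, rfl⟩ := mem_image.1 hx
        exact hBD i (mem_range.1 hi)
      · have hc : ((range q).image B).card = q := by
          rw [card_image_of_injOn, card_range]
          intro i hi j hj hij
          by_contra hne
          exact hBinj i (mem_range.1 (mem_coe.1 hi)) j (mem_range.1 (mem_coe.1 hj)) hne hij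
        exact le_of_eq (by rw [hc])
    have h2 : D j ∈ (range q).image B := h1 ▸ mem_image_of_mem D hj
    obtain ⟨i, hi, h3⟩ := mem_image.1 h2
    exact ⟨i, mem_range.1 hi, h3⟩
  have hBsub : ∀ i < q, ∃ A' ∈ L, B i ⊆ A' := by
    intro i hi
    obtain ⟨j, _, hj⟩ := mem_image.1 (hBD i hi)
    refine ⟨A j, hAL j, fun u hu => hA j u ?_⟩
    rw [← hj] at hu
    exact (hDmem j u).1 hu
  have hmex : ∀ i : Fin (q / 2), ∃ u, u ∈ B (2 * i) := fun i => hBne _ (hidx i).1
  choose m hm using hmex
  obtain ⟨S, hS, c, hc⟩ := hCl n r hnr (q / 2) (fun i => B (2 * i)) (fun i => B (2 * i + 1)) m hm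
    (fun i => hBdis _ (hidx i).1 _ (hidx i).2 (by omega))
    (by
      intro i j hij
      have hij' : (i : ℕ) ≠ j := fun h => hij (Fin.ext h)
      have hi := hidx i
      have hj := hidx j
      rw [disjoint_union_left, disjoint_union_right, disjoint_union_right]
      refine ⟨⟨?_, ?_⟩, ⟨?_, ?_⟩⟩
      · exact hBdis _ hi.1 _ hj.1 (by omega)
      · exact hBdis _ hi.1 _ hj.2 (by omega)
      · exact hBdis _ hi.2 _ hj.1 (by omega)
      · exact hBdis _ hi.2 _ hj.2 (by omega))
  set z := zmask n S c with hz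
  let e : ℕ → Bool := fun i => if h : i < q / 2 then decide (m ⟨i, h⟩ ∈ z) else false
  have he : ∀ i : Fin (q / 2), e i = decide (m i ∈ z) := fun i => by
    simp only [e, i.2, dif_pos]
  set X : Finset (Fin n) :=
    (range (q / 2)).biUnion fun i => if e i then B (2 * i) else B (2 * i + 1) with hX
  have hchX : chosen (fun i : Fin (q / 2) => B (2 * i)) (fun i => B (2 * i + 1)) m z = X := by
    ext u
    rw [chosen, hX, mem_biUnion, mem_biUnion]
    constructor
    · rintro ⟨i, _, hi⟩
      refine ⟨i, mem_range.2 i.2, ?_⟩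
      rw [he i]
      by_cases h : m i ∈ z
      · rw [if_pos h] at hi; simpa [h] using hi
      · rw [if_neg h] at hi; simpa [h] using hi
    · rintro ⟨i, hi, hu⟩
      have hi' := mem_range.1 hi
      refine ⟨⟨i, hi'⟩, mem_univ _, ?_⟩
      have h1 := he ⟨i, hi'⟩
      simp only at h1
      rw [h1] at hu
      by_cases h : m ⟨i, hi'⟩ ∈ z
      · rw [if_pos h]; simpa [h] using hu
      · rw [if_neg h]; simpa [h] using hu
  rw [hchX] at hc
  obtain ⟨hXc, hYc⟩ := hBe e
  rw [← hX] at hXc hYc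
  have hsd : symmDiff z (symmDiff z X) = X := symmDiff_symmDiff_cancel_left z X
  -- the indices of the chosen blocks
  let I₁ : Finset ℕ := (range (q / 2)).image fun i => if e i then 2 * i else 2 * i + 1
  have hI₁c : I₁.card = q / 2 := by
    rw [card_image_of_injective, card_range]
    intro i j hij
    simp only at hij
    split_ifs at hij <;> omega
  have hI₁q : I₁ ⊆ range q := by
    intro x hx
    obtain ⟨i, hi, rfl⟩ := mem_image.1 hx
    have h1 := mem_range.1 hi
    rw [mem_range]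
    split_ifs <;> omega
  have hXI : X ⊆ I₁.biUnion B := by
    intro u hu
    obtain ⟨i, hi, hui⟩ := mem_biUnion.1 hu
    refine mem_biUnion.2 ⟨_, mem_image_of_mem _ hi, ?_⟩
    by_cases h : e i = true
    · simpa [h] using hui
    · simpa [h] using hui
  have hIX : ∀ i ∈ I₁, B i ⊆ X := by
    intro x hx u hu
    obtain ⟨i, hi, rfl⟩ := mem_image.1 hx
    refine mem_biUnion.2 ⟨i, hi, ?_⟩
    by_cases h : e i = true
    · simpa [h] using hu
    · simpa [h] using hu
  obtain ⟨Z₁, hZ₁X, hZ₁c, hZ₁h, c₁, c₂, hc12, hcov1, hcov2⟩ := hSp n t (n / 2 - t) L I₁ B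
    (fun i hi => hDDt _ (hBD i (mem_range.1 (hI₁q hi))))
    (fun i hi => hBsub i (mem_range.1 (hI₁q hi)))
    (fun i hi j hj hij => hBdis i (mem_range.1 (hI₁q hi)) j (mem_range.1 (hI₁q hj)) hij)
    X hXI (by omega)
  -- the rest
  set Y : Finset (Fin n) := univ \ ((big.image A).biUnion id ∪ X) with hY
  have hYI : Y ⊆ (range q \ I₁).biUnion B := by
    intro u hu
    obtain ⟨_, hu2⟩ := mem_sdiff.1 hu
    rw [mem_union, not_or] at hu2
    have hsm : f u ∈ sm := by
      refine mem_filter.2 ⟨mem_univ _, fun hb' => hu2.1 ?_⟩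
      exact mem_biUnion.2 ⟨A (f u), mem_image_of_mem A (mem_filter.2 ⟨mem_univ _, hb'⟩),
        hA (f u) u rfl⟩
    obtain ⟨i, hi, hBi⟩ := hBsurj _ hsm
    have hui : u ∈ B i := by rw [hBi]; exact (hDmem _ _).2 rfl
    refine mem_biUnion.2 ⟨i, mem_sdiff.2 ⟨mem_range.2 hi, fun hI => ?_⟩, hui⟩
    exact hu2.2 (hIX i hI hui)
  have hYc' : Y.card ≤ n / 2 + t := by
    refine (card_le_card ?_).trans hYc
    intro u hu
    refine mem_sdiff.2 ⟨?_, fun h => ?_⟩
    · obtain ⟨i, hi, hui⟩ := mem_biUnion.1 (hYI hu)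
      exact mem_biUnion.2 ⟨i, (mem_sdiff.1 hi).1, hui⟩
    · exact (mem_sdiff.1 hu).2 (mem_union_right _ h)
  obtain ⟨Z₂, hZ₂Y, hZ₂c, hZ₂h, c₃, c₄, hc34, hcov3, hcov4⟩ := hSp n t (n / 2 - t) L (range q \ I₁) B
    (fun i hi => hDDt _ (hBD i (mem_range.1 (mem_sdiff.1 hi).1)))
    (fun i hi => hBsub i (mem_range.1 (mem_sdiff.1 hi).1))
    (fun i hi j hj hij => hBdis i (mem_range.1 (mem_sdiff.1 hi).1) j
      (mem_range.1 (mem_sdiff.1 hj).1) hij)
    Y hYI (by omega)
  have hI₂c : (range q \ I₁).card = q - q / 2 := by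
    rw [card_sdiff_of_subset hI₁q, card_range, hI₁c]
  have hGc : (big.image A).card ≤ big.card := card_image_le
  refine ⟨big.image A, ?_, ?_, S, hS, c, symmDiff z X, ?_, Z₁, ?_, Z₂, ?_, hZ₁c, hZ₂c, ?_, ?_,
    c₁, c₂, c₃, c₄, ?_, hcov1, ?_, hcov3, ?_⟩
  · intro A' hA'
    obtain ⟨j, _, rfl⟩ := mem_image.1 hA'
    exact hAL j
  · omega
  · omega
  · rw [hsd]; exact hZ₁X
  · rw [hsd]; exact hZ₂Y
  · rw [hsd]; exact hZ₁h
  · rw [hsd]; exact hZ₂h
  · omega
  · rw [hsd]; exact hcov2
  · rw [hsd]; exact hcov4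

end SCR
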