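import Pool.Agent.Lib.SCR.DDefs

/-! # Row D7: the cover numbers (helper16) -/

namespace SCR

open Finset

namespace D7

variable {n : ℕ} {L : List (Finset (Fin n))}

lemma cov_mono {i j : ℕ} {Y : Finset (Fin n)} (h : Cov L i Y) (hij : i ≤ j) : Cov L j Y := by
  obtain ⟨C, h1, h2, h3⟩ := h
  exact ⟨C, h1, h2.trans hij, h3⟩

lemma gnum_le {j : ℕ} {Y : Finset (Fin n)} (h : Cov L j Y) : gnum L Y ≤ j := by
  classical
  have h' : ∃ j, Cov L j Y := ⟨j, h⟩
  rw [gnum, dif_pos h']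
  exact Nat.find_min' h' h

lemma cov_gnum {Y : Finset (Fin n)} (h : ∃ j, Cov L j Y) : Cov L (gnum L Y) Y := by
  classical
  rw [gnum, dif_pos h]
  exact Nat.find_spec h

lemma gnum_eq {Y : Finset (Fin n)} (h : ¬ ∃ j, Cov L j Y) : gnum L Y = n + 1 := by
  classical
  rw [gnum, dif_neg h]

lemma cov_small {Y : Finset (Fin n)} (h : ∃ j, Cov L j Y) : Cov L n Y := by
  classical
  obtain ⟨j, C, h1, h2, h3⟩ := h
  choose! f hf using h3
  refine ⟨Y.image f, ?_, ?_, ?_⟩
  · intro A hA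
    obtain ⟨x, hx, rfl⟩ := mem_image.1 hA
    exact h1 _ (hf x hx).1
  · exact card_image_le.trans ((card_le_univ Y).trans (by simp))
  · intro x hx
    exact ⟨f x, mem_image_of_mem f hx, (hf x hx).2⟩

lemma gnum_le_succ (Y : Finset (Fin n)) : gnum L Y ≤ n + 1 := by
  by_cases h : ∃ j, Cov L j Y
  · exact (gnum_le (cov_small h)).trans (Nat.le_succ n)
  · exact (gnum_eq h).le

lemma gnum_sdiff (Y A : Finset (Fin n)) (hA : A ∈ L) : gnum L Y ≤ gnum L (Y \ A) + 1 := by
  classical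
  by_cases h : ∃ j, Cov L j (Y \ A)
  · obtain ⟨C, h1, h2, h3⟩ := cov_gnum h
    refine gnum_le ⟨insert A C, ?_, (card_insert_le _ _).trans (by omega), ?_⟩
    · intro B hB
      rcases mem_insert.1 hB with rfl | hB
      · exact hA
      · exact h1 B hB
    · intro x hx
      by_cases hxA : x ∈ A
      · exact ⟨A, mem_insert_self _ _, hxA⟩
      · obtain ⟨B, hB, hxB⟩ := h3 x (mem_sdiff.2 ⟨hx, hxA⟩)
        exact ⟨B, mem_insert_of_mem hB, hxB⟩
  · rw [gnum_eq h]
    exact (gnum_le_succ Y).trans (by omega)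

end D7

open D7 in
theorem gnumRow : Gnum := by
  classical
  intro n L
  refine ⟨fun Y j h => gnum_le h, fun Y j h hj => ?_, gnum_le_succ, ?_, fun Y u hu => ⟨fun A hA _ =>
    gnum_sdiff Y A hA, ?_⟩⟩
  · by_cases hc : ∃ j, Cov L j Y
    · exact cov_mono (cov_gnum hc) h
    · rw [gnum_eq hc] at h
      omega
  · have h1 : gnum L (∅ : Finset (Fin n)) ≤ 0 := gnum_le ⟨∅, by simp, by simp, by simp⟩
    omega
  · by_cases hc : ∃ j, Cov L j Y
    · right
      obtain ⟨C, h1, h2, h3⟩ := cov_gnum hc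
      obtain ⟨A, hA, huA⟩ := h3 u hu
      refine ⟨A, h1 A hA, huA, ?_⟩
      have h4 : gnum L (Y \ A) ≤ gnum L Y - 1 := by
        refine gnum_le ⟨C.erase A, fun B hB => h1 B (mem_of_mem_erase hB), ?_, ?_⟩
        · rw [card_erase_of_mem hA]
          omega
        · intro x hx
          rw [mem_sdiff] at hx
          obtain ⟨B, hB, hxB⟩ := h3 x hx.1
          refine ⟨B, mem_erase.2 ⟨?_, hB⟩, hxB⟩
          rintro rfl
          exact hx.2 hxB
      have h5 := gnum_sdiff (L := L) Y A (h1 A hA)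
      have h6 : 1 ≤ gnum L Y := by
        have : 0 < C.card := card_pos.2 ⟨A, hA⟩
        omega
      omega
    · exact Or.inl (gnum_eq hc)

end SCR
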