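import Pool.Agent.Lib.SCR.DDefs
import Mathlib.Analysis.SpecialFunctions.Trigonometric.DerivHyp
import Mathlib.Analysis.SpecialFunctions.Pow.Real
import Mathlib.Data.Nat.Choose.Sum

/-!
# Theorem D: the estimates of the number `T n j` of small sets (rows DA1, DA2, DA3, DA7)
-/

namespace SCR

open Finset

lemma T_weight (n j : ℕ) (w : ℕ → ℝ) (h0 : ∀ i ≤ n, 0 ≤ w i) (h1 : ∀ i ≤ n, i ≤ j → 1 ≤ w i) :
    (T n j : ℝ) ≤ ∑ i ∈ range (n + 1), (n.choose i : ℝ) * w i := by
  have h2 : T n j ≤ ∑ i ∈ (range (n + 1)).filter (fun i => i ≤ j), n.choose i := by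
    unfold T
    refine Finset.sum_le_sum_of_ne_zero fun i hi hne => ?_
    rw [mem_range] at hi
    rw [mem_filter, mem_range]
    refine ⟨?_, by omega⟩
    by_contra h
    exact hne (Nat.choose_eq_zero_of_lt (by omega))
  calc (T n j : ℝ) ≤ ((∑ i ∈ (range (n + 1)).filter (fun i => i ≤ j), n.choose i : ℕ) : ℝ) := by
        exact_mod_cast h2
    _ = ∑ i ∈ (range (n + 1)).filter (fun i => i ≤ j), (n.choose i : ℝ) := by push_cast; rfl
    _ ≤ ∑ i ∈ (range (n + 1)).filter (fun i => i ≤ j), (n.choose i : ℝ) * w i := by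
        refine Finset.sum_le_sum fun i hi => ?_
        rw [mem_filter, mem_range] at hi
        exact le_mul_of_one_le_right (Nat.cast_nonneg _) (h1 i (by omega) hi.2)
    _ ≤ ∑ i ∈ range (n + 1), (n.choose i : ℝ) * w i := by
        refine Finset.sum_le_sum_of_subset_of_nonneg (filter_subset _ _) fun i hi _ => ?_
        rw [mem_range] at hi
        exact mul_nonneg (Nat.cast_nonneg _) (h0 i (by omega))

lemma T_le_two_pow (n j : ℕ) : (T n j : ℝ) ≤ 2 ^ n := by
  refine (T_weight n j (fun _ => 1) (fun _ _ => zero_le_one) (fun _ _ _ => le_rfl)).trans ?_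
  have h1 := Nat.sum_range_choose n
  have h2 : ((∑ i ∈ range (n + 1), n.choose i : ℕ) : ℝ) = 2 ^ n := by exact_mod_cast h1
  simp only [mul_one]
  rw [← h2]
  push_cast
  exact le_rfl

/-- DA1 -/
theorem tHalf : THalf := by
  intro n x hx j hj
  have h1 := T_weight n j (fun i => Real.exp (4 * x * (j - i))) (fun i _ => (Real.exp_pos _).le)
    (fun i _ hij => by
      refine Real.one_le_exp ?_
      have : (i : ℝ) ≤ j := by exact_mod_cast hij
      have : 0 ≤ (j : ℝ) - i := by linarith
      positivity)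
  refine h1.trans ?_
  have h2 : ∑ i ∈ range (n + 1), (n.choose i : ℝ) * Real.exp (4 * x * (j - i)) =
      Real.exp (4 * x * j) * (Real.exp (-(4 * x)) + 1) ^ n := by
    rw [add_pow, Finset.mul_sum]
    refine Finset.sum_congr rfl fun i _ => ?_
    rw [one_pow, mul_one, ← Real.exp_nat_mul, mul_comm (n.choose i : ℝ), ← mul_assoc,
      ← Real.exp_add]
    congr 2
    ring
  rw [h2]
  have h3 : Real.exp (-(4 * x)) + 1 = Real.exp (-(2 * x)) * (2 * Real.cosh (2 * x)) := by
    have h5 : 2 * Real.cosh (2 * x) = Real.exp (2 * x) + Real.exp (-(2 * x)) := by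
      rw [Real.cosh_eq]
      ring
    rw [h5, mul_add, ← Real.exp_add, ← Real.exp_add, neg_add_cancel, Real.exp_zero]
    rw [add_comm]
    congr 2
    ring
  rw [h3, mul_pow, mul_pow, ← Real.exp_nat_mul]
  have h4 : Real.cosh (2 * x) ^ n ≤ Real.exp (n * ((2 * x) ^ 2 / 2)) := by
    rw [Real.exp_nat_mul]
    exact pow_le_pow_left₀ (Real.cosh_pos _).le (Real.cosh_le_exp_half_sq _) n
  have h5 : Real.exp (4 * x * j) ≤ Real.exp (4 * x * ((1 / 2 - x) * n)) := by
    refine Real.exp_le_exp.2 ?_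
    exact mul_le_mul_of_nonneg_left hj (by positivity)
  calc Real.exp (4 * x * j) * (Real.exp (n * -(2 * x)) * (2 ^ n * Real.cosh (2 * x) ^ n))
      ≤ Real.exp (4 * x * ((1 / 2 - x) * n)) * (Real.exp (n * -(2 * x)) *
        (2 ^ n * Real.exp (n * ((2 * x) ^ 2 / 2)))) := by gcongr
    _ = 2 ^ (n : ℝ) * Real.exp (-2 * x ^ 2 * n) := by
        rw [Real.rpow_natCast]
        have h6 : Real.exp (-2 * x ^ 2 * n) = Real.exp (4 * x * ((1 / 2 - x) * n)) *
            (Real.exp (n * -(2 * x)) * Real.exp (n * ((2 * x) ^ 2 / 2))) := by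
          rw [← Real.exp_add, ← Real.exp_add]
          congr 1
          ring
        rw [h6]
        ring

/-- DA2 -/
theorem tSmall : TSmall := by
  intro n j x y hx hx1 hj
  have h1 := T_weight n j (fun i => x ^ i * x ^ (-y)) (fun i _ => by positivity)
    (fun i _ hij => by
      rw [← Real.rpow_natCast, ← Real.rpow_add hx]
      refine Real.one_le_rpow_of_pos_of_le_one_of_nonpos hx hx1 ?_
      have : (i : ℝ) ≤ j := by exact_mod_cast hij
      linarith)
  refine h1.trans ?_
  have h2 : ∑ i ∈ range (n + 1), (n.choose i : ℝ) * (x ^ i * x ^ (-y)) =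
      (x + 1) ^ n * x ^ (-y) := by
    rw [add_pow, Finset.sum_mul]
    refine Finset.sum_congr rfl fun i _ => ?_
    rw [one_pow]
    ring
  rw [h2]
  refine mul_le_mul_of_nonneg_right ?_ (by positivity)
  rw [mul_comm x, Real.exp_nat_mul]
  exact pow_le_pow_left₀ (by positivity) (Real.add_one_le_exp x) n

/-- DA3 -/
theorem tEps : TEps := by
  intro η hη
  have hl2 : 0 < Real.log 2 := Real.log_pos one_lt_two
  set x : ℝ := min 1 (η * Real.log 2 / 2) with hx
  have hx0 : 0 < x := lt_min one_pos (by positivity)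
  have hx1 : x ≤ 1 := min_le_left _ _
  have hx2 : x ≤ η * Real.log 2 / 2 := min_le_right _ _
  have hL : Real.log x ≤ 0 := Real.log_nonpos hx0.le hx1
  set ζ : ℝ := η * Real.log 2 / (2 * (1 - Real.log x)) with hζ
  have hd : 0 < 2 * (1 - Real.log x) := by linarith
  have hζ0 : 0 < ζ := by positivity
  refine ⟨ζ, hζ0, fun n j hj => ?_⟩
  refine (tSmall n j x (ζ * n) hx0 hx1 hj).trans ?_
  rw [Real.rpow_def_of_pos hx0, Real.rpow_def_of_pos two_pos, ← Real.exp_add]
  refine Real.exp_le_exp.2 ?_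
  have h1 : ζ * (2 * (1 - Real.log x)) = η * Real.log 2 := div_mul_cancel₀ _ hd.ne'
  have h2 : x - ζ * Real.log x ≤ η * Real.log 2 := by nlinarith
  have h3 : (0 : ℝ) ≤ n := Nat.cast_nonneg n
  nlinarith [mul_le_mul_of_nonneg_right h2 h3]

/-- DA7 -/
theorem caseD : CaseD := by
  intro σ hσ
  have hl2 : 0 < Real.log 2 := Real.log_pos one_lt_two
  have hl21 : Real.log 2 ≤ 1 := by
    have := Real.log_le_sub_one_of_pos (x := 2) two_pos
    linarith
  set x : ℝ := σ / 8 with hx
  have hx0 : 0 < x := by positivity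
  set η : ℝ := min (1 / 2) (x ^ 2) with hη
  have hη0 : 0 < η := lt_min (by norm_num) (by positivity)
  have hη1 : η ≤ 1 / 2 := min_le_left _ _
  have hη2 : η ≤ x ^ 2 := min_le_right _ _
  obtain ⟨ζ, hζ, hT⟩ := tEps η hη0
  set b : ℕ := ⌈3 / ζ⌉₊ + 1 with hb
  have hb1 : 1 ≤ b := by omega
  have hb0 : (0 : ℝ) < b := by exact_mod_cast hb1
  have hb3 : 3 / ζ ≤ b := by
    have h1 := Nat.le_ceil (3 / ζ)
    have h2 : ((⌈3 / ζ⌉₊ : ℕ) : ℝ) ≤ b := by exact_mod_cast Nat.le_succ _
    exact h1.trans h2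
  set ε : ℝ := min (1 / 2) (min (x ^ 2) (1 / (2 * b ^ 2))) with hε
  have hε0 : 0 < ε := lt_min (by norm_num) (lt_min (by positivity) (by positivity))
  have hε1 : ε ≤ 1 / 2 := min_le_left _ _
  have hε2 : ε ≤ x ^ 2 := (min_le_right _ _).trans (min_le_left _ _)
  have hε3 : ε ≤ 1 / (2 * b ^ 2) := (min_le_right _ _).trans (min_le_right _ _)
  set N : ℕ := max ⌈(8 * b + 6) / σ⌉₊ (2 * b) with hN
  refine ⟨ε, hε0, b, hb1, 4 ^ N, fun n k hk hkn => ?_⟩
  have hn0 : (0 : ℝ) ≤ n := Nat.cast_nonneg n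
  have hone : (1 : ℝ) ≤ 2 ^ ((1 - ε) * n) :=
    Real.one_le_rpow one_le_two (mul_nonneg (by linarith) hn0)
  rcases lt_or_ge n N with hnN | hnN
  · have h4 : (4 : ℝ) ^ n ≤ 4 ^ N := pow_le_pow_right₀ (by norm_num) hnN.le
    have h24 : (2 : ℝ) ^ n ≤ 4 ^ n := pow_le_pow_left₀ (by norm_num) (by norm_num) n
    have hpos : (0 : ℝ) ≤ 4 ^ N := by positivity
    constructor
    · have h1 := T_le_two_pow n (n / 2 - k / 4 + b)
      have h2 := T_le_two_pow n (3 * (n / b))
      calc (T n (n / 2 - k / 4 + b) : ℝ) * T n (3 * (n / b)) ≤ 2 ^ n * 2 ^ n := by gcongr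
        _ = 4 ^ n := by rw [← mul_pow]; norm_num
        _ ≤ 4 ^ N := h4
        _ ≤ ((4 ^ N : ℕ) : ℝ) * 2 ^ ((1 - ε) * n) := by
            push_cast
            exact le_mul_of_one_le_right hpos hone
    · calc (T n (max (n / 2 - n / b) (3 * (n / b))) : ℝ) ≤ 2 ^ n := T_le_two_pow _ _
        _ ≤ 4 ^ N := h24.trans h4
        _ ≤ ((4 ^ N : ℕ) : ℝ) * 2 ^ ((1 - ε) * n) := by
            push_cast
            exact le_mul_of_one_le_right hpos hone
  · have hN1 : (8 * b + 6) / σ ≤ n := by
      have h1 := Nat.le_ceil ((8 * (b : ℝ) + 6) / σ)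
      have h2 : ((⌈(8 * (b : ℝ) + 6) / σ⌉₊ : ℕ) : ℝ) ≤ n := by
        exact_mod_cast (le_max_left _ _).trans hnN
      exact h1.trans h2
    have hN2 : 2 * (b : ℝ) ≤ n := by exact_mod_cast (le_max_right _ _).trans hnN
    have hN3 : 8 * (b : ℝ) + 6 ≤ n * σ := (div_le_iff₀ hσ).1 hN1
    have hC : (1 : ℝ) ≤ ((4 ^ N : ℕ) : ℝ) := by
      exact_mod_cast Nat.one_le_pow _ _ (by norm_num)
    have hp0 : (0 : ℝ) ≤ 2 ^ ((1 - ε) * n) := by positivity
    have hnb : ((n / b : ℕ) : ℝ) ≤ n / b := Nat.cast_div_le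
    have h3b : (((3 * (n / b) : ℕ)) : ℝ) ≤ ζ * n := by
      have h1 : 3 ≤ ζ * b := by
        have h2 := (div_le_iff₀ hζ).1 hb3
        linarith
      have h2 : 3 * ((n : ℝ) / b) ≤ ζ * n := by
        rw [mul_div_assoc', div_le_iff₀ hb0]
        nlinarith
      push_cast
      linarith
    have hT2 : (T n (3 * (n / b)) : ℝ) ≤ 2 ^ (η * n) := hT n _ h3b
    constructor
    · have hj : (((n / 2 - k / 4 + b : ℕ)) : ℝ) ≤ (1 / 2 - x) * n := by
        have h1 : k / 4 ≤ n / 2 := by omega
        have h2 : 4 * (n / 2 - k / 4 + b) + k ≤ 2 * n + 3 + 4 * b := by omega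
        have h3 : 4 * (((n / 2 - k / 4 + b : ℕ)) : ℝ) + k ≤ 2 * n + 3 + 4 * b := by
          exact_mod_cast h2
        have h4 : x * n = n * σ / 8 := by rw [hx]; ring
        have h5 : (1 / 2 - x) * (n : ℝ) = n / 2 - x * n := by ring
        rw [h5, h4]
        linarith
      have hT1 := tHalf n x hx0.le _ hj
      calc (T n (n / 2 - k / 4 + b) : ℝ) * T n (3 * (n / b))
          ≤ (2 ^ (n : ℝ) * Real.exp (-2 * x ^ 2 * n)) * 2 ^ (η * n) := by gcongr
        _ ≤ 2 ^ ((1 - ε) * n) := by
            rw [Real.rpow_def_of_pos two_pos, Real.rpow_def_of_pos two_pos,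
              Real.rpow_def_of_pos two_pos, ← Real.exp_add, ← Real.exp_add]
            refine Real.exp_le_exp.2 ?_
            have h1 : Real.log 2 * η + Real.log 2 * ε ≤ 2 * x ^ 2 := by nlinarith
            nlinarith [mul_le_mul_of_nonneg_right h1 hn0]
        _ ≤ ((4 ^ N : ℕ) : ℝ) * 2 ^ ((1 - ε) * n) := le_mul_of_one_le_left hp0 hC
    · have hmax : (T n (max (n / 2 - n / b) (3 * (n / b))) : ℝ) ≤ 2 ^ ((1 - ε) * n) := by
        rcases le_total (n / 2 - n / b) (3 * (n / b)) with h | h
        · rw [max_eq_right h]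
          refine hT2.trans (Real.rpow_le_rpow_of_exponent_le one_le_two ?_)
          exact mul_le_mul_of_nonneg_right (by linarith) hn0
        · rw [max_eq_left h]
          set x' : ℝ := 1 / (2 * b) with hx'
          have hx'0 : 0 ≤ x' := by positivity
          have hj : (((n / 2 - n / b : ℕ)) : ℝ) ≤ (1 / 2 - x') * n := by
            rcases le_total (n / b) (n / 2) with h1 | h1
            · rw [Nat.cast_sub h1]
              have h2 : ((n / 2 : ℕ) : ℝ) ≤ n / 2 := by
                have := @Nat.cast_div_le ℝ _ _ _ n 2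
                simpa using this
              have h3 : (n : ℝ) / b - 1 ≤ ((n / b : ℕ) : ℝ) := by
                have h4 : n < b * (n / b) + b := by
                  have h9 := Nat.div_add_mod n b
                  have h10 := Nat.mod_lt n (show 0 < b from hb1)
                  omega
                have h5 : (n : ℝ) ≤ b * ((n / b : ℕ) : ℝ) + b := by exact_mod_cast h4.le
                rw [sub_le_iff_le_add, div_le_iff₀ hb0]
                linarith
              have h6 : x' * n = n / b / 2 := by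
                rw [hx']
                field_simp
              have h7 : 2 ≤ (n : ℝ) / b := by
                rw [le_div_iff₀ hb0]
                exact hN2
              have h8 : (1 / 2 - x') * (n : ℝ) = n / 2 - x' * n := by ring
              rw [h8, h6]
              linarith
            · rw [Nat.sub_eq_zero_of_le h1, Nat.cast_zero]
              refine mul_nonneg ?_ hn0
              have h2 : x' ≤ 1 / 2 := by
                rw [hx']
                refine one_div_le_one_div_of_le two_pos ?_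
                have : (1 : ℝ) ≤ b := by exact_mod_cast hb1
                linarith
              linarith
          refine (tHalf n x' hx'0 _ hj).trans ?_
          rw [Real.rpow_def_of_pos two_pos, Real.rpow_def_of_pos two_pos, ← Real.exp_add]
          refine Real.exp_le_exp.2 ?_
          have h1 : 2 * x' ^ 2 = 1 / (2 * b ^ 2) := by
            rw [hx']
            field_simp
          have h2 : Real.log 2 * ε ≤ 2 * x' ^ 2 := by
            rw [h1]
            nlinarith
          nlinarith [mul_le_mul_of_nonneg_right h2 hn0]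
      exact hmax.trans (le_mul_of_one_le_left hp0 hC)

end SCR
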