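import Pool.Agent.Lib.SCR.DDefs

/-!
# Row DA4: numbers of sets with at most `j`, and with more than `j` elements
-/

namespace SCR

open Finset

theorem DA4 : TCard := by
  classical
  intro n j
  have h1 : ∀ j : ℕ, ((univ : Finset (Finset (Fin n))).filter fun Y => Y.card ≤ j).card = T n j := by
    intro j
    have h : ((univ : Finset (Finset (Fin n))).filter fun Y => Y.card ≤ j)
        = (range (j + 1)).biUnion fun i => powersetCard i (univ : Finset (Fin n)) := by
      ext Y
      simp
    rw [h, card_biUnion]
    · simp [T]
    · intro a _ b _ hab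
      rw [Function.onFun, disjoint_left]
      intro Y h1 h2
      rw [mem_powersetCard] at h1 h2
      exact hab (h1.2.symm.trans h2.2)
  refine ⟨h1 j, ?_⟩
  rw [← h1 (n - j - 1)]
  refine card_le_card_of_injOn (fun Y => Yᶜ) ?_ ?_
  · intro Y hY
    simp only [coe_filter, mem_univ, true_and, Set.mem_ofPred_eq] at hY ⊢
    rw [card_compl, Fintype.card_fin]
    omega
  · intro Y _ Y' _ h
    exact compl_injective h

end SCR
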