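import Pool.Agent.Lib.SCR.DRows

/-!
# Completeness of the search of Theorem D
-/

namespace SCR

open Finset

lemma unionL_toList {n : ℕ} (G : Finset (Finset (Fin n))) : unionL G.toList = G.biUnion id := by
  have h : ∀ (l : List (Finset (Fin n))) (x : Fin n), x ∈ unionL l ↔ ∃ A ∈ l, x ∈ A := by
    intro l x
    induction l with
    | nil => simp [unionL]
    | cons a l ih =>
      have : unionL (a :: l) = a ∪ unionL l := rfl
      rw [this, mem_union, ih]
      simp
  ext x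
  rw [h, mem_biUnion]
  simp

theorem rowDCo (hC : Core) (hG : Gnum) (hV : VminSpec) (hS : SubLSpec) (hZ : ZLSpec) : CompleteD := by
  intro n k b L hb hk hcov
  obtain ⟨G, hGL, hGb, S, hSr, c, E, hE, Z₁, hZ₁, Z₂, hZ₂, h1, h2, h3, h4, c₁, c₂, c₃, c₄, hsum, k1, k2, k3, k4⟩ :=
    hC n k b (Nat.clog 2 n) L hb hk (Nat.le_pow_clog one_lt_two n) hcov
  obtain ⟨g1, _, _, _, _⟩ := hG n L
  refine ⟨G.toList, fun A hA => hGL A (Finset.mem_toList.1 hA), by rw [Finset.length_toList]; exact hGb,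
    zmask n S c, (hZ n _).2 S hSr c, E, ?_, ?_⟩
  · rw [(hS n _ n le_rfl).1]
    exact ⟨hE, fun u _ => u.2⟩
  · unfold Good
    rw [unionL_toList, Finset.length_toList, union_comm (symmDiff (zmask n S c) E) (G.biUnion id)]
    have m1 : Z₁ ∈ subL n (3 * (n / b)) n := by
      rw [(hS n _ n le_rfl).1]; exact ⟨h1, fun u _ => u.2⟩
    have m2 : Z₂ ∈ subL n (3 * (n / b)) n := by
      rw [(hS n _ n le_rfl).1]; exact ⟨h2, fun u _ => u.2⟩
    have v1 := (hV n (max (n / 2 - n / b) (3 * (n / b))) L (subL n (3 * (n / b)) n)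
      (symmDiff (zmask n S c) E)).2.2 Z₁ m1 (h3.trans (le_max_left _ _))
    have v2 := (hV n (max (n / 2 - n / b) (3 * (n / b))) L (subL n (3 * (n / b)) n)
      (univ \ (G.biUnion id ∪ symmDiff (zmask n S c) E))).2.2 Z₂ m2 (h4.trans (le_max_left _ _))
    rw [inter_eq_right.2 hZ₁] at v1
    rw [inter_eq_right.2 hZ₂] at v2
    have a1 := g1 _ _ k1
    have a2 := g1 _ _ k2
    have a3 := g1 _ _ k3
    have a4 := g1 _ _ k4
    omega

end SCR
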