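import Pool.Agent.Lib.SCR.Lang

/-!
# Theorem D (large `k`) and the counting for the dynamic program: definitions and rows of the mathematical part
-/

namespace SCR

open Finset

/-- `Y` is covered by at most `j` members of `L`. -/
def Cov {n : ℕ} (L : List (Finset (Fin n))) (j : ℕ) (Y : Finset (Fin n)) : Prop :=
  ∃ C : Finset (Finset (Fin n)), (∀ A ∈ C, A ∈ L) ∧ C.card ≤ j ∧ ∀ x ∈ Y, ∃ A ∈ C, x ∈ A

/-- The number of subsets of an `n`-element set with at most `j` elements. -/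
def T (n j : ℕ) : ℕ := ∑ i ∈ range (j + 1), n.choose i

/-- A1 -/
def THalf : Prop := ∀ (n : ℕ) (x : ℝ), 0 ≤ x → ∀ j : ℕ, (j : ℝ) ≤ (1 / 2 - x) * n →
  (T n j : ℝ) ≤ 2 ^ (n : ℝ) * Real.exp (-2 * x ^ 2 * n)

/-- A2 -/
def TSmall : Prop := ∀ (n j : ℕ) (x y : ℝ), 0 < x → x ≤ 1 → (j : ℝ) ≤ y →
  (T n j : ℝ) ≤ Real.exp (x * n) * x ^ (-y)

/-- A3 -/
def TEps : Prop := ∀ η : ℝ, 0 < η → ∃ ζ : ℝ, 0 < ζ ∧ ∀ n j : ℕ, (j : ℝ) ≤ ζ * n →
  (T n j : ℝ) ≤ 2 ^ (η * n)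

/-- number of sets with at most `j` elements, and with more than `h` elements -/
def TCard : Prop := ∀ n j : ℕ,
  ((univ : Finset (Finset (Fin n))).filter fun Y => Y.card ≤ j).card = T n j ∧
  ((univ : Finset (Finset (Fin n))).filter fun Y => j < Y.card).card ≤ T n (n - j - 1)

/-- H3: the count, for all `h` and `d`: states of round `i`. -/
def StateCount : Prop := ∀ (n s k i h d : ℕ) (L : List (Finset (Fin n))), 1 ≤ s → 1 ≤ n → h ≤ n → d ≤ n →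
  {z : Finset (Fin n) × Bool | Reach s k L i z.1 z.2}.ncard ≤ 2 * T n (n - h - 1) + 2 ^ (n - d)
    + T (L.toFinset.filter fun A => s ≤ A.card).card (min (h * k / n) (h / s)) * (1 + T n ((d - 1) * (s - 1)))

/-! ## Theorem D -/

/-- The masks: `u ∈ zmask n S c` iff (the number of `i ∈ S` such that bit `i` of `u` is one is odd) xor `c`. -/
def zmask (n : ℕ) (S : Finset ℕ) (c : Bool) : Finset (Fin n) :=
  univ.filter fun u => (decide ((S.filter fun i => (u : ℕ).testBit i).card % 2 = 1) ^^ c) = true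

/-- D1 (the masks are pairwise independent) -/
def ZPair : Prop := ∀ (n r : ℕ), n ≤ 2 ^ r → ∀ u v : Fin n, u ≠ v →
  (((range r).powerset ×ˢ (univ : Finset Bool)).filter
    fun p => (u ∈ zmask n p.1 p.2 ↔ v ∈ zmask n p.1 p.2)).card = 2 ^ r

/-- D1' -/
def ZOne : Prop := ∀ (n r : ℕ) (u : Fin n),
  (((range r).powerset ×ˢ (univ : Finset Bool)).filter fun p => u ∈ zmask n p.1 p.2).card = 2 ^ r

/-- The union of the blocks chosen by `z`: `P i` if the marked element `m i` lies in `z`, else `Q i`. -/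
def chosen {n p : ℕ} (P Q : Fin p → Finset (Fin n)) (m : Fin p → Fin n) (z : Finset (Fin n)) :
    Finset (Fin n) :=
  univ.biUnion fun i => if m i ∈ z then P i else Q i

/-- D2 (some mask is close to the union of the blocks it chooses); uses `ZPair`, `ZOne` -/
def Close : Prop := ∀ (n r : ℕ), n ≤ 2 ^ r → ∀ (p : ℕ) (P Q : Fin p → Finset (Fin n)) (m : Fin p → Fin n),
  (∀ i, m i ∈ P i) → (∀ i, Disjoint (P i) (Q i)) →
  (∀ i j, i ≠ j → Disjoint (P i ∪ Q i) (P j ∪ Q j)) →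
  ∃ S ⊆ range r, ∃ c : Bool, 2 * (symmDiff (zmask n S c) (chosen P Q m (zmask n S c))).card + p ≤ n

/-- D3 (a cover by at most `k ≤ n` members gives a partition into exactly `k` blocks, each inside a member) -/
def Partit : Prop := ∀ (n k : ℕ) (L : List (Finset (Fin n))), k ≤ n → Cov L k univ →
  ∃ f : Fin n → Fin k, Function.Surjective f ∧ ∀ j, ∃ A ∈ L, ∀ u, f u = j → u ∈ A

/-- D4 (telescoping) -/
def Telescope : Prop := ∀ (s : ℕ → ℕ), Monotone s → ∀ t, (∀ i, s i ≤ t) → ∀ p,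
  ∑ i ∈ range p, s (2 * i + 1) ≤ (∑ i ∈ range p, s (2 * i)) + t

/-- D5 (splitting at block boundaries) -/
def Split : Prop := ∀ (n t h : ℕ) (L : List (Finset (Fin n))) (I : Finset ℕ) (B : ℕ → Finset (Fin n)),
  (∀ i ∈ I, (B i).card ≤ t) → (∀ i ∈ I, ∃ A ∈ L, B i ⊆ A) →
  (∀ i ∈ I, ∀ j ∈ I, i ≠ j → Disjoint (B i) (B j)) →
  ∀ X : Finset (Fin n), X ⊆ I.biUnion B → X.card ≤ h + 2 * t →
  ∃ Z ⊆ X, Z.card ≤ 3 * t ∧ (X \ Z).card ≤ h ∧ ∃ c₁ c₂ : ℕ, c₁ + c₂ ≤ I.card ∧ Cov L c₁ Z ∧ Cov L c₂ (X \ Z)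

/-- D5' (sorted pairing): `q` disjoint non-empty blocks with at most `t` elements can be numbered
`B 0, …, B (q-1)` such that every union `X` of one of `B (2i)`, `B (2i+1)` for each `i < q / 2`, and the
union of all other blocks, have at most `n / 2 + t` elements. -/
def Pairing : Prop := ∀ (n t : ℕ) (D : Finset (Finset (Fin n))), (∀ B ∈ D, B.card ≤ t) →
  (∀ B ∈ D, ∀ B' ∈ D, B ≠ B' → Disjoint B B') →
  ∃ B : ℕ → Finset (Fin n), (∀ i < D.card, B i ∈ D) ∧ (∀ i < D.card, ∀ j < D.card, i ≠ j → B i ≠ B j) ∧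
    ∀ e : ℕ → Bool,
      ((range (D.card / 2)).biUnion fun i => if e i then B (2 * i) else B (2 * i + 1)).card ≤ n / 2 + t ∧
      ((range D.card).biUnion B \
        (range (D.card / 2)).biUnion fun i => if e i then B (2 * i) else B (2 * i + 1)).card ≤ n / 2 + t

/-- D6 (core of Theorem D) -/
def Core : Prop := ∀ (n k b r : ℕ) (L : List (Finset (Fin n))), 1 ≤ b → k ≤ n → n ≤ 2 ^ r → Cov L k univ →
  ∃ G : Finset (Finset (Fin n)), (∀ A ∈ G, A ∈ L) ∧ G.card ≤ b ∧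
  ∃ S ⊆ range r, ∃ c : Bool, ∃ E : Finset (Fin n), E.card ≤ n / 2 - k / 4 + b ∧
  ∃ Z₁ ⊆ symmDiff (zmask n S c) E, ∃ Z₂ ⊆ univ \ (G.biUnion id ∪ symmDiff (zmask n S c) E),
    Z₁.card ≤ 3 * (n / b) ∧ Z₂.card ≤ 3 * (n / b) ∧
    (symmDiff (zmask n S c) E \ Z₁).card ≤ n / 2 - n / b ∧
    ((univ \ (G.biUnion id ∪ symmDiff (zmask n S c) E)) \ Z₂).card ≤ n / 2 - n / b ∧
    ∃ c₁ c₂ c₃ c₄ : ℕ, G.card + (c₁ + c₂ + c₃ + c₄) ≤ k ∧
      Cov L c₁ Z₁ ∧ Cov L c₂ (symmDiff (zmask n S c) E \ Z₁) ∧ Cov L c₃ Z₂ ∧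
      Cov L c₄ ((univ \ (G.biUnion id ∪ symmDiff (zmask n S c) E)) \ Z₂)

open Classical in
/-- The cover number, with value `n + 1` for sets that cannot be covered. -/
noncomputable def gnum {n : ℕ} (L : List (Finset (Fin n))) (Y : Finset (Fin n)) : ℕ :=
  if h : ∃ j, Cov L j Y then Nat.find h else n + 1

/-- D7 (the table): values and recurrence -/
def Gnum : Prop := ∀ (n : ℕ) (L : List (Finset (Fin n))),
  (∀ Y j, Cov L j Y → gnum L Y ≤ j) ∧ (∀ Y j, gnum L Y ≤ j → j ≤ n → Cov L j Y) ∧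
  (∀ Y, gnum L Y ≤ n + 1) ∧ gnum L ∅ = 0 ∧
  ∀ (Y : Finset (Fin n)) (u : Fin n), u ∈ Y → (∀ A ∈ L, u ∈ A → gnum L Y ≤ gnum L (Y \ A) + 1) ∧
    (gnum L Y = n + 1 ∨ ∃ A ∈ L, u ∈ A ∧ gnum L Y = gnum L (Y \ A) + 1)

/-- A7: the exponents of Theorem D. -/
def CaseD : Prop := ∀ σ : ℝ, 0 < σ → ∃ ε : ℝ, 0 < ε ∧ ∃ b : ℕ, 1 ≤ b ∧ ∃ C : ℕ, ∀ n k : ℕ,
  σ * n ≤ k → k ≤ n →
  (T n (n / 2 - k / 4 + b) : ℝ) * T n (3 * (n / b)) ≤ C * 2 ^ ((1 - ε) * n) ∧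
  (T n (max (n / 2 - n / b) (3 * (n / b))) : ℝ) ≤ C * 2 ^ ((1 - ε) * n)

end SCR
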