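import Pool.Agent.Lib.SCR.Prog

/-!
# Row MA: the words of sets
-/

namespace SCR

lemma mask_eq {n : ℕ} (A : Finset (Fin n)) : mask A = ∑ i ∈ A.map Fin.valEmbedding, 2 ^ i := by
  simp [mask]

lemma testBit_mask {n : ℕ} (A : Finset (Fin n)) (i : ℕ) :
    (mask A).testBit i = true ↔ ∃ h : i < n, (⟨i, h⟩ : Fin n) ∈ A := by
  rw [← Nat.mem_bitIndices, ← List.mem_toFinset, mask_eq, Finset.toFinset_bitIndices_sum_two_pow]
  simp only [Finset.mem_map, Fin.valEmbedding_apply]
  constructor
  · rintro ⟨a, ha, rfl⟩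
    exact ⟨a.2, ha⟩
  · rintro ⟨h, ha⟩
    exact ⟨⟨i, h⟩, ha, rfl⟩

theorem maskUnion : MaskUnion := by
  intro n A B
  apply Nat.eq_of_testBit_eq
  intro i
  rw [Nat.testBit_or, Bool.eq_iff_iff]
  simp only [Bool.or_eq_true, testBit_mask, Finset.mem_union]
  constructor
  · rintro (⟨h, ha⟩ | ⟨h, ha⟩)
    exacts [⟨h, Or.inl ha⟩, ⟨h, Or.inr ha⟩]
  · rintro ⟨h, ha | ha⟩
    exacts [Or.inl ⟨h, ha⟩, Or.inr ⟨h, ha⟩]

theorem maskBit : MaskBit := by
  intro n A i
  rw [Nat.and_two_pow]
  have h := testBit_mask A i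
  by_cases hi : i ∈ A
  · rw [h.2 ⟨i.2, hi⟩]
    simp [hi]
  · have h2 : (mask A).testBit i = false := by
      rw [← Bool.not_eq_true, h]
      rintro ⟨_, h3⟩
      exact hi h3
    rw [h2]
    simp [hi]

theorem maskLt : MaskLt := by
  intro n A
  apply Nat.lt_pow_two_of_testBit
  intro i hi
  rw [← Bool.not_eq_true, testBit_mask]
  rintro ⟨h, _⟩
  omega

lemma mask_compl {n : ℕ} (A : Finset (Fin n)) : 2 ^ n - 1 - mask A = mask Aᶜ := by
  have h1 : mask A + mask Aᶜ = mask (Finset.univ : Finset (Fin n)) := by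
    rw [mask, mask, mask, Finset.sum_add_sum_compl]
  have h2 : mask (Finset.univ : Finset (Fin n)) = 2 ^ n - 1 := by
    rw [mask, Fin.sum_univ_eq_sum_range (fun i => 2 ^ i), Nat.geomSum_eq le_rfl]
    simp
  omega

lemma mask_mono {n : ℕ} {A B : Finset (Fin n)} (h : A ⊆ B) : mask A ≤ mask B :=
  Finset.sum_le_sum_of_subset h

lemma mask_lt_of {n : ℕ} {A : Finset (Fin n)} {x : Fin n} (h : ∀ y ∈ A, y < x) : mask A < 2 ^ (x : ℕ) := by
  apply Nat.lt_pow_two_of_testBit
  intro i hi
  rw [← Bool.not_eq_true, testBit_mask]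
  rintro ⟨h1, h2⟩
  have := h _ h2
  rw [Fin.lt_def] at this
  simp only at this
  omega

theorem maskTop : MaskTop := by
  intro n Y A
  rw [mask_compl, mask_compl]
  rcases (Yᶜ).eq_empty_or_nonempty with h0 | h0
  · rw [h0]
    constructor
    · intro h
      simp [mask] at h
    · rintro ⟨x, _, h2, _⟩
      have : x ∈ Yᶜ := by simpa using h2
      simp [h0] at this
  · set x := (Yᶜ).max' h0 with hx
    have hxY : x ∈ Yᶜ := Finset.max'_mem _ _
    have hmax : ∀ y ∈ Yᶜ, y ≤ x := fun y hy => Finset.le_max' _ y hy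
    by_cases hA : x ∈ A
    · have h1 : mask (Y ∪ A)ᶜ < 2 ^ (x : ℕ) := by
        apply mask_lt_of
        intro y hy
        rw [Finset.mem_compl, Finset.mem_union, not_or] at hy
        refine lt_of_le_of_ne (hmax y (by simpa using hy.1)) ?_
        rintro rfl
        exact hy.2 hA
      have h2 : 2 ^ (x : ℕ) + mask (Y ∪ A)ᶜ ≤ mask Yᶜ := by
        have h3 : mask (insert x (Y ∪ A)ᶜ) = 2 ^ (x : ℕ) + mask (Y ∪ A)ᶜ := by
          rw [mask, Finset.sum_insert (by simp [hA])]
          rfl
        rw [← h3]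
        apply mask_mono
        intro y hy
        rw [Finset.mem_insert] at hy
        rcases hy with rfl | hy
        · exact hxY
        · rw [Finset.mem_compl, Finset.mem_union, not_or] at hy
          simpa using hy.1
      constructor
      · intro _
        refine ⟨x, hA, by simpa using hxY, ?_⟩
        intro y hy
        by_contra h4
        exact absurd (hmax y (by simpa using h4)) (not_le.2 hy)
      · intro _
        omega
    · have h1 : 2 ^ (x : ℕ) ≤ mask (Y ∪ A)ᶜ := by
        have h3 : mask ({x} : Finset (Fin n)) = 2 ^ (x : ℕ) := by simp [mask]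
        rw [← h3]
        apply mask_mono
        rw [Finset.singleton_subset_iff, Finset.mem_compl, Finset.mem_union, not_or]
        exact ⟨by simpa using hxY, hA⟩
      have h2 : mask Yᶜ < 2 ^ ((x : ℕ) + 1) := by
        apply Nat.lt_pow_two_of_testBit
        intro i hi
        rw [← Bool.not_eq_true, testBit_mask]
        rintro ⟨h5, h6⟩
        have := hmax _ h6
        rw [Fin.le_def] at this
        simp only at this
        omega
      constructor
      · intro h
        rw [pow_succ] at h2
        omega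
      · rintro ⟨z, hz1, hz2, hz3⟩
        exfalso
        have h7 : z ≤ x := hmax z (by simpa using hz2)
        rcases h7.lt_or_eq with h8 | h8
        · have := hz3 x h8
          rw [Finset.mem_compl] at hxY
          exact hxY this
        · exact hA (h8 ▸ hz1)

lemma testBit_code_lt {n : ℕ} (z : St n) {i : ℕ} (hi : i < n) :
    (code z).testBit i = (mask z.1).testBit i := by
  unfold code
  split_ifs with h
  · rw [add_comm, Nat.testBit_two_pow_add_gt hi]
  · rw [add_zero]

lemma testBit_code_top {n : ℕ} (z : St n) : (code z).testBit n = z.2 := by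
  have h0 : (mask z.1).testBit n = false := Nat.testBit_lt_two_pow (maskLt n z.1)
  unfold code
  split_ifs with h
  · rw [add_comm, Nat.testBit_two_pow_add_eq, h0, h]
    rfl
  · rw [add_zero, h0]
    simpa using h

theorem codeInj : CodeInj := by
  intro n y z h
  have h1 : y.2 = z.2 := by rw [← testBit_code_top, ← testBit_code_top, h]
  refine Prod.ext ?_ h1
  ext i
  have h2 : (mask y.1).testBit i = (mask z.1).testBit i := by
    rw [← testBit_code_lt y i.2, ← testBit_code_lt z i.2, h]
  have h3 := testBit_mask y.1 i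
  have h4 := testBit_mask z.1 i
  rw [h2] at h3
  have h5 := h3.symm.trans h4
  constructor
  · intro hi
    exact (h5.1 ⟨i.2, hi⟩).2
  · intro hi
    exact (h5.2 ⟨i.2, hi⟩).2

theorem codeLt : CodeLt := by
  intro n z
  have := maskLt n z.1
  unfold code
  split_ifs <;> omega

theorem codePhase : CodePhase := by
  intro n z
  rw [Nat.and_two_pow, testBit_code_top]
  cases z.2 <;> simp

theorem codeFull : CodeFull := by
  intro n z
  have h1 : code z &&& (2 ^ n - 1) = mask z.1 := by
    rw [Nat.and_two_pow_sub_one_eq_mod]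
    unfold code
    split_ifs
    · rw [Nat.add_mod_right, Nat.mod_eq_of_lt (maskLt n z.1)]
    · rw [add_zero, Nat.mod_eq_of_lt (maskLt n z.1)]
  rw [h1, mask_compl]
  constructor
  · intro h
    have h2 : z.1ᶜ = ∅ := by
      by_contra h3
      obtain ⟨x, hx⟩ := Finset.nonempty_iff_ne_empty.2 h3
      have h4 : mask ({x} : Finset (Fin n)) ≤ mask z.1ᶜ := mask_mono (by simpa using hx)
      have h5 : mask ({x} : Finset (Fin n)) = 2 ^ (x : ℕ) := by simp [mask]
      have h6 : 0 < 2 ^ (x : ℕ) := by positivity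
      omega
    simpa using h2
  · intro h
    rw [h]
    simp [mask]

end SCR
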