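import Pool.Agent.Lib.SCR.DRows
import Pool.Agent.Lib.SCR.MA

/-!
# Rows DMa, DMb: the bits of the words
-/

namespace SCR

open Finset

theorem rowDMa : MaskTestBit := fun _ A i => testBit_mask A i

lemma mask_add_disjoint {n : ℕ} {A B : Finset (Fin n)} (h : Disjoint A B) :
    mask (A ∪ B) = mask A + mask B := Finset.sum_union h

lemma mask_inter_add {n : ℕ} (A B : Finset (Fin n)) : mask (A \ B) + mask (A ∩ B) = mask A := by
  rw [← mask_add_disjoint (Finset.disjoint_sdiff_inter A B), Finset.sdiff_union_inter]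

lemma mask_univ {n : ℕ} : mask (univ : Finset (Fin n)) = 2 ^ n - 1 := by
  have h := mask_compl (∅ : Finset (Fin n))
  rw [Finset.compl_empty] at h
  rw [← h]
  simp [mask]

lemma mask_inj {n : ℕ} {A B : Finset (Fin n)} (h : mask A = mask B) : A = B := by
  ext i
  have h1 := testBit_mask A i
  have h2 := testBit_mask B i
  rw [h] at h1
  have h3 := h1.symm.trans h2
  exact ⟨fun hi => (h3.1 ⟨i.2, hi⟩).2, fun hi => (h3.2 ⟨i.2, hi⟩).2⟩

theorem rowDMb' : MaskAlg := by
  intro n A B
  refine ⟨?_, maskUnion n A B, ?_, ?_, ?_, by simp [mask], mask_univ, maskLt n A, ?_, maskBit n A,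
    mask_inj⟩
  · apply Nat.eq_of_testBit_eq
    intro i
    rw [Nat.testBit_and, Bool.eq_iff_iff]
    simp only [Bool.and_eq_true, testBit_mask, Finset.mem_inter]
    constructor
    · rintro ⟨⟨h, ha⟩, ⟨_, hb⟩⟩
      exact ⟨h, ha, hb⟩
    · rintro ⟨h, ha, hb⟩
      exact ⟨⟨h, ha⟩, ⟨h, hb⟩⟩
  · have := mask_inter_add A B
    omega
  · have h1 : symmDiff A B = (A ∪ B) \ (A ∩ B) := by
      ext i
      simp only [Finset.mem_symmDiff, Finset.mem_sdiff, Finset.mem_union, Finset.mem_inter]
      tauto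
    have h2 := mask_inter_add (A ∪ B) (A ∩ B)
    have h3 : (A ∪ B) ∩ (A ∩ B) = A ∩ B := by
      ext i
      simp only [Finset.mem_union, Finset.mem_inter]
      tauto
    rw [h3, ← h1] at h2
    omega
  · rw [mask_compl, Finset.compl_eq_univ_sdiff]
  · intro i hi
    rw [mask, mask, Finset.sum_insert hi]
    exact Nat.add_comm _ _

theorem rowDMb (_ : MaskTestBit) : MaskAlg := rowDMb'

end SCR
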