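import Pool.Agent.Lib.SCR.DP9

/-!
# Row DP11: guessing at most `d` sets (helper27)
-/

set_option linter.unusedSimpArgs false

namespace SCR

open Op Stmt Finset

/-- What `guess d` looks for. -/
def Pg {n : ℕ} (L : List (Finset (Fin n))) (k D : ℕ) (lz le zl : List (Finset (Fin n))) (d : ℕ)
    (G : Finset (Fin n)) (c : ℕ) : Prop :=
  ∃ l : List (Finset (Fin n)), (∀ A ∈ l, A ∈ L) ∧ l.length ≤ d ∧ ∃ z ∈ zl, ∃ E ∈ le,
    Good L k D lz (G ∪ unionL l) (c + l.length) z E

lemma pg_zero {n : ℕ} (L : List (Finset (Fin n))) (k D : ℕ) (lz le zl : List (Finset (Fin n)))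
    (G : Finset (Fin n)) (c : ℕ) :
    Pg L k D lz le zl 0 G c ↔ ∃ z ∈ zl, ∃ E ∈ le, Good L k D lz G c z E := by
  constructor
  · rintro ⟨l, -, h2, h⟩
    obtain rfl : l = [] := List.length_eq_zero_iff.1 (by omega)
    simpa [unionL] using h
  · intro h
    exact ⟨[], by simp, le_rfl, by simpa [unionL] using h⟩

lemma pg_succ {n : ℕ} (L : List (Finset (Fin n))) (k D : ℕ) (lz le zl : List (Finset (Fin n))) (d : ℕ)
    (G : Finset (Fin n)) (c : ℕ) :
    Pg L k D lz le zl (d + 1) G c ↔ (Pg L k D lz le zl d G c ∨ ∃ A ∈ L, Pg L k D lz le zl d (A ∪ G) (c + 1)) := by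
  have key : ∀ (A : Finset (Fin n)) (l : List (Finset (Fin n))),
      G ∪ unionL (A :: l) = A ∪ G ∪ unionL l ∧ c + (A :: l).length = c + 1 + l.length := by
    intro A l
    refine ⟨?_, by rw [List.length_cons]; ring⟩
    rw [show unionL (A :: l) = A ∪ unionL l from rfl, ← Finset.union_assoc, Finset.union_comm G A]
  constructor
  · rintro ⟨l, h1, h2, z, hz, E, hE, h⟩
    match l, h1, h2, h with
    | [], _, _, h => exact Or.inl ⟨[], by simp, Nat.zero_le _, z, hz, E, hE, h⟩
    | A :: l, h1, h2, h =>
      rw [(key A l).1, (key A l).2] at h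
      refine Or.inr ⟨A, h1 A List.mem_cons_self, l, fun B hB => h1 B (List.mem_cons_of_mem _ hB), ?_,
        z, hz, E, hE, h⟩
      rw [List.length_cons] at h2
      omega
  · rintro (⟨l, h1, h2, h⟩ | ⟨A, hA, l, h1, h2, z, hz, E, hE, h⟩)
    · exact ⟨l, h1, by omega, h⟩
    · rw [← (key A l).1, ← (key A l).2] at h
      refine ⟨A :: l, ?_, by rw [List.length_cons]; omega, z, hz, E, hE, h⟩
      intro B hB
      rcases List.mem_cons.1 hB with rfl | hB
      · exact hA
      · exact h1 B hB

/-- The registers below 100 changed by `guess`. -/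
def gR : List ℕ := [0, 16, 18, 19, 20, 21, 22, 23, 26, 80, 81, 82, 83, 84, 85, 86, 87, 88, 89, 90, 91, 92, 93,
  94, 95, 96, 97, 98]

lemma gR_lt {r : ℕ} (h : r ∈ gR) : r < 100 := by
  simp only [gR, List.mem_cons, List.not_mem_nil, or_false] at h
  omega

lemma envR_gR {r : ℕ} (h : r ∈ envR) : r < 100 ∧ r ∉ gR := by
  simp only [envR, List.mem_cons, List.not_mem_nil, or_false] at h
  rcases h with rfl | rfl | rfl | rfl | rfl | rfl | rfl | rfl | rfl | rfl | rfl | rfl |
        rfl | rfl | rfl | rfl | rfl | rfl <;> decide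

theorem guess_aux (hS : SearchSpec) (hM : MaskAlg) (w n k b D : ℕ) (L le zl lz : List (Finset (Fin n)))
    (hD : D = max (n / 2 - n / b) (3 * (n / b))) (hF : FitsD w n L.length b) (hkn : k ≤ n) (S : ℕ)
    (hSd : S = (((13 * n + 50) * lz.length + 30) * le.length + 10) * zl.length + 5) :
    ∀ (d c : ℕ) (x : Data) (G : Finset (Fin n)), EnvS k b L le lz zl x →
    x.reg (100 + 4 * d) = mask G → x.reg (101 + 4 * d) = c → c + d ≤ b → x.reg 0 ≤ 1 →
    Runs w (guess d) x ((L.length + 1) ^ d * (S + 9 * d)) (fun y => y.mem = x.mem ∧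
      (∀ r, r < 100 → r ∉ gR → y.reg r = x.reg r) ∧
      (∀ r, 100 + 4 * d ≤ r → r ≠ 102 + 4 * d → r ≠ 103 + 4 * d → y.reg r = x.reg r) ∧
      y.reg 0 = ind (x.reg 0 = 1 ∨ Pg L k D lz le zl d G c)) := by
  intro d
  induction d with
  | zero =>
    intro c x G hE h100 h101 hcb h0
    refine (hS w n k b c L le lz zl x G hF hkn hE h100 h101 (by omega) h0).mono ?_ ?_
    · rw [hSd]
      simp
    · rintro y ⟨ym, yr, y0⟩
      refine ⟨ym, fun r _ hr => yr r hr, fun r hr _ _ => yr r ?_, ?_⟩
      · intro h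
        have := gR_lt h
        omega
      · classical
        rw [y0, pg_zero, ← hD]
        exact (@ind_eq _ _).symm
  | succ d ih =>
    intro c x G hE h100 h101 hcb h0
    have hsp := hF.space
    have hpow : 0 < 2 ^ n := by positivity
    have r2 := hE.env.env.r2
    have r40 := hE.env.env.r40
    have e104 : 100 + 4 * (d + 1) = 104 + 4 * d := by ring
    have e105 : 101 + 4 * (d + 1) = 105 + 4 * d := by ring
    have e106 : 102 + 4 * (d + 1) = 106 + 4 * d := by ring
    have e107 : 103 + 4 * (d + 1) = 107 + 4 * d := by ring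
    rw [e104] at h100
    rw [e105] at h101
    rw [e104, e106, e107]
    obtain ⟨B, hB⟩ : ∃ B, B = (L.length + 1) ^ d * (S + 9 * d) := ⟨_, rfl⟩
    have hT : B + 5 + L.length * (B + 7) ≤ (L.length + 1) ^ (d + 1) * (S + 9 * (d + 1)) := by
      have h1 : 1 ≤ (L.length + 1) ^ d := Nat.one_le_pow _ _ (by omega)
      calc B + 5 + L.length * (B + 7) ≤ (L.length + 1) * B + (L.length + 1) * 9 * 1 := by nlinarith
        _ ≤ (L.length + 1) * B + (L.length + 1) * 9 * (L.length + 1) ^ d := by gcongr
        _ = (L.length + 1) ^ (d + 1) * (S + 9 * (d + 1)) := by rw [hB]; ring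
    rw [← hB] at ih
    set I : ℕ → Data → Prop := fun j y => y.mem = x.mem ∧
      (∀ r, r < 100 → r ∉ gR → y.reg r = x.reg r) ∧
      (∀ r, 104 + 4 * d ≤ r → r ≠ 106 + 4 * d → r ≠ 107 + 4 * d → y.reg r = x.reg r) ∧
      y.reg (106 + 4 * d) = 3 + j ∧ y.reg (107 + 4 * d) = L.length - j ∧
      y.reg 0 = ind (x.reg 0 = 1 ∨ Pg L k D lz le zl d G c ∨
        ∃ A ∈ L.take j, Pg L k D lz le zl d (A ∪ G) (c + 1)) with hI
    unfold guess
    refine Runs.seq (T1 := 2) (T2 := B + 3 + L.length * (B + 7)) (R := fun v => v.mem = x.mem ∧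
      (∀ r, r ≠ 100 + 4 * d → r ≠ 101 + 4 * d → v.reg r = x.reg r) ∧
      v.reg (100 + 4 * d) = mask G ∧ v.reg (101 + 4 * d) = c) (Runs.block _ (by simp) ⟨?_, ?_, ?_, ?_⟩) ?_
      (by omega)
    · simp [Op.run]
    · intro r h1 h2
      simp (disch := omega) only [List.foldl, Op.run, Function.update_of_ne, Function.update_self]
    · simp (disch := omega) only [List.foldl, Op.run, Function.update_of_ne, Function.update_self]
      rw [h100, Nat.or_self]
    · simp (disch := omega) only [List.foldl, Op.run, Function.update_of_ne, Function.update_self]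
      rw [h101, Nat.or_self]
    rintro v ⟨vm, vr, v100, v101⟩
    have vE : EnvS k b L le lz zl v := hE.congr vm (fun r hr => vr r
      (by have := (envR_gR hr).1; omega) (by have := (envR_gR hr).1; omega))
    refine Runs.seq (T1 := B) (T2 := 3 + L.length * (B + 7)) (R := fun u => u.mem = x.mem ∧
      (∀ r, r < 100 → r ∉ gR → u.reg r = x.reg r) ∧
      (∀ r, 104 + 4 * d ≤ r → u.reg r = x.reg r) ∧
      u.reg 0 = ind (x.reg 0 = 1 ∨ Pg L k D lz le zl d G c))
      ((ih c v G vE v100 v101 (by omega) (by rw [vr 0 (by omega) (by omega)]; exact h0)).mono le_rfl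
      (fun u hu => ⟨by rw [hu.1, vm], ?_, ?_, ?_⟩)) ?_ (by omega)
    · intro r h1 h2
      rw [hu.2.1 r h1 h2, vr r (by omega) (by omega)]
    · intro r h1
      rw [hu.2.2.1 r (by omega) (by omega) (by omega), vr r (by omega) (by omega)]
    · rw [hu.2.2.2, vr 0 (by omega) (by omega)]
    rintro u ⟨um, ur, ur', u0⟩
    have u2 : u.reg 2 = L.length := by rw [ur 2 (by decide) (by decide), r2]
    have c3 : 3 % 2 ^ w = 3 := Nat.mod_eq_of_lt (by omega)
    refine Runs.seq (T1 := 2) (T2 := 1 + L.length * (B + 7)) (R := I 0)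
      (Runs.block _ (by simp) ⟨?_, ?_, ?_, ?_, ?_, ?_⟩) ?_ (by omega)
    · simp [Op.run, um]
    · intro r h1 h2
      simp (disch := omega) only [List.foldl, Op.run, Function.update_of_ne, Function.update_self]
      exact ur r h1 h2
    · intro r h1 h2 h3
      simp (disch := omega) only [List.foldl, Op.run, Function.update_of_ne, Function.update_self]
      exact ur' r h1
    · simp (disch := omega) only [List.foldl, Op.run, Function.update_of_ne, Function.update_self]
      rw [c3]
    · simp (disch := omega) only [List.foldl, Op.run, Function.update_of_ne, Function.update_self]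
      rw [u2, Nat.or_self, Nat.sub_zero]
    · simp (disch := omega) only [List.foldl, Op.run, Function.update_of_ne, Function.update_self]
      rw [u0]
      apply ind_congr
      simp
    intro y hy
    refine Runs.loop L.length (B + 5) I hy ?_ ?_ ?_ (le_of_eq (by ring)) ?_
    · rintro j hj y ⟨-, -, -, -, h, -⟩
      omega
    · rintro y ⟨-, -, -, -, h, -⟩
      omega
    · rintro j hj y ⟨ym, yr, yr', y106, y107, y0⟩
      obtain ⟨A, hA⟩ : ∃ A, A = L[j] := ⟨_, rfl⟩
      have hAm : y.mem (3 + j) = mask A := by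
        rw [ym, hA]
        exact hE.env.env.set j hj
      have y104 : y.reg (104 + 4 * d) = mask G := by
        rw [yr' _ (by omega) (by omega) (by omega), h100]
      have y105 : y.reg (105 + 4 * d) = c := by
        rw [yr' _ (by omega) (by omega) (by omega), h101]
      have y40 : y.reg 40 = 1 := by rw [yr 40 (by decide) (by decide), r40]
      have c4 : (c + 1) % 2 ^ w = c + 1 := Nat.mod_eq_of_lt (by omega)
      refine Runs.seq (T1 := 3) (T2 := B + 2) (R := fun v => v.mem = x.mem ∧
        (∀ r, r ≠ 100 + 4 * d → r ≠ 101 + 4 * d → v.reg r = y.reg r) ∧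
        v.reg (100 + 4 * d) = mask (A ∪ G) ∧ v.reg (101 + 4 * d) = c + 1)
        (Runs.block _ (by simp) ⟨?_, ?_, ?_, ?_⟩) ?_ (by omega)
      · simp [Op.run, ym]
      · intro r h1 h2
        simp (disch := omega) only [List.foldl, Op.run, Function.update_of_ne, Function.update_self]
      · simp (disch := omega) only [List.foldl, Op.run, Function.update_of_ne, Function.update_self]
        rw [y106, hAm, y104, (hM n A G).2.1]
      · simp (disch := omega) only [List.foldl, Op.run, Function.update_of_ne, Function.update_self]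
        rw [y105, y40, c4]
      rintro v ⟨vm, vr, v100, v101⟩
      have vE : EnvS k b L le lz zl v := hE.congr vm (fun r hr => by
        obtain ⟨g1, g2⟩ := envR_gR hr
        rw [vr r (by omega) (by omega), yr r g1 g2])
      have v0 : v.reg 0 = ind (x.reg 0 = 1 ∨ Pg L k D lz le zl d G c ∨
          ∃ A ∈ L.take j, Pg L k D lz le zl d (A ∪ G) (c + 1)) := by
        rw [vr 0 (by omega) (by omega), y0]
      have hiff : (∃ A ∈ L.take (j + 1), Pg L k D lz le zl d (A ∪ G) (c + 1)) ↔
          ((∃ A ∈ L.take j, Pg L k D lz le zl d (A ∪ G) (c + 1)) ∨ Pg L k D lz le zl d (A ∪ G) (c + 1)) := by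
        rw [List.take_succ_eq_append_getElem hj, ← hA]
        simp only [List.mem_append, List.mem_singleton]
        constructor
        · rintro ⟨F, h1 | h1, h2⟩
          · exact Or.inl ⟨F, h1, h2⟩
          · exact Or.inr (h1 ▸ h2)
        · rintro (⟨F, h1, h2⟩ | h)
          · exact ⟨F, Or.inl h1, h2⟩
          · exact ⟨A, Or.inr rfl, h⟩
      refine Runs.seq (T1 := B) (T2 := 2) (R := fun u => u.mem = x.mem ∧
        (∀ r, r < 100 → r ∉ gR → u.reg r = x.reg r) ∧
        (∀ r, 104 + 4 * d ≤ r → u.reg r = y.reg r) ∧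
        u.reg 0 = ind (x.reg 0 = 1 ∨ Pg L k D lz le zl d G c ∨
          ∃ A ∈ L.take (j + 1), Pg L k D lz le zl d (A ∪ G) (c + 1)))
        ((ih (c + 1) v (A ∪ G) vE v100 v101 (by omega) (by rw [v0]; exact ind_le _)).mono le_rfl
        (fun u hu => ⟨by rw [hu.1, vm], ?_, ?_, ?_⟩)) ?_ (by omega)
      · intro r h1 h2
        rw [hu.2.1 r h1 h2, vr r (by omega) (by omega), yr r h1 h2]
      · intro r h1
        rw [hu.2.2.1 r (by omega) (by omega) (by omega), vr r (by omega) (by omega)]
      · rw [hu.2.2.2, v0]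
        apply ind_congr
        rw [ind_eq_one, hiff, or_assoc, or_assoc]
      rintro u ⟨um, ur, ur', u0⟩
      have u106 : u.reg (106 + 4 * d) = 3 + j := by rw [ur' _ (by omega), y106]
      have u107 : u.reg (107 + 4 * d) = L.length - j := by rw [ur' _ (by omega), y107]
      have u40 : u.reg 40 = 1 := by rw [ur 40 (by decide) (by decide), r40]
      have c5 : (3 + j + 1) % 2 ^ w = 3 + (j + 1) := by
        rw [Nat.mod_eq_of_lt (by omega)]
        ring
      refine Runs.block _ (by simp) ⟨?_, ?_, ?_, ?_, ?_, ?_⟩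
      · simp [Op.run, um]
      · intro r h1 h2
        simp (disch := omega) only [List.foldl, Op.run, Function.update_of_ne, Function.update_self]
        exact ur r h1 h2
      · intro r h1 h2 h3
        simp (disch := omega) only [List.foldl, Op.run, Function.update_of_ne, Function.update_self]
        rw [ur' r h1, yr' r h1 h2 h3]
      · simp (disch := omega) only [List.foldl, Op.run, Function.update_of_ne, Function.update_self]
        rw [u106, u40, c5]
      · simp (disch := omega) only [List.foldl, Op.run, Function.update_of_ne, Function.update_self]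
        rw [u107, u40]
        omega
      · simp (disch := omega) only [List.foldl, Op.run, Function.update_of_ne, Function.update_self]
        exact u0
    · rintro y ⟨ym, yr, yr', -, -, y0⟩
      rw [List.take_length] at y0
      refine ⟨ym, yr, yr', ?_⟩
      rw [y0]
      apply ind_congr
      rw [pg_succ]

theorem guessSpec (hS : SearchSpec) (hM : MaskAlg) : GuessSpec := by
  intro w n k b d c L le lz zl x G hF hkn hE hdb h100 h101 hcb h0
  refine (guess_aux hS hM w n k b _ L le zl lz rfl hF hkn _ rfl d c x G hE h100 h101 hcb h0).mono le_rfl ?_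
  rintro y ⟨ym, yr, yr', y0⟩
  refine ⟨ym, yr, yr', ?_⟩
  classical
  rw [y0]
  exact @ind_eq _ _

end SCR
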