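import Pool.Agent.Lib.SCR.Prog

/-!
# One state, all sets
-/

namespace SCR

open Op Stmt

lemma foldl_take_succ {α β : Type*} (f : β → α → β) (b : β) (L : List α) (t : ℕ) (ht : t < L.length) :
    (L.take (t + 1)).foldl f b = f ((L.take t).foldl f b) L[t] := by
  rw [List.take_succ_eq_append_getElem ht, List.foldl_append]
  rfl

lemma ins_prefix {n : ℕ} (hi : ℕ) (l : List (St n)) (o : Option (St n)) : l <+: ins hi l o := by
  cases o with
  | none => exact List.prefix_rfl
  | some c =>
    simp only [ins]
    split_ifs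
    · exact List.prefix_rfl
    · exact List.prefix_append _ _

lemma fold_ins_prefix {n : ℕ} (s k j hi : ℕ) (z : St n) (L : List (Finset (Fin n))) :
    ∀ l : List (St n), l <+: L.foldl (fun l A => ins hi l (move s k j z A)) l := by
  induction L with
  | nil => intro l; exact List.prefix_rfl
  | cons A L ih =>
    intro l
    exact (ins_prefix hi l _).trans (ih _)

lemma setsL_prefix {n : ℕ} (s k j hi : ℕ) (z : St n) (L : List (Finset (Fin n))) (l : List (St n)) :
    l <+: setsL s k j hi z L l := fold_ins_prefix s k j hi z L l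

lemma Env.congr {n k s : ℕ} {L : List (Finset (Fin n))} {x y : Data} (h : Env k s L x)
    (hr : ∀ r ∈ [1, 2, 3, 4, 5, 6, 7, 11, 40], y.reg r = x.reg r)
    (hm : ∀ a < L.length + 3, y.mem a = x.mem a) : Env k s L y where
  r1 := by rw [hr 1 (by decide), h.r1]
  r2 := by rw [hr 2 (by decide), h.r2]
  r3 := by rw [hr 3 (by decide), h.r3]
  r4 := by rw [hr 4 (by decide), h.r4]
  r5 := by rw [hr 5 (by decide), h.r5]
  r6 := by rw [hr 6 (by decide), h.r6]
  r7 := by rw [hr 7 (by decide), h.r7]
  r11 := by rw [hr 11 (by decide), h.r11]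
  r40 := by rw [hr 40 (by decide), h.r40]
  set := fun i hi => by rw [hm (3 + i) (by omega), h.set i hi]

theorem ME (hP : PairSpec) (hPh : CodePhase) : EntrySpec := by
  intro w n k s j lo hi i L l x hE hF h9 h10 h12 h13 h34 hil hihi hhl hhb hT
  have hspace := hF.space
  have hpow : 0 < 2 ^ n := by positivity
  have hw3 : 3 % 2 ^ w = 3 := Nat.mod_eq_of_lt (by omega)
  have hadd : L.length + 3 + 2 ^ n + 2 ^ n + i < 2 ^ w := by nlinarith
  have hcode : x.mem (L.length + 3 + 2 ^ n + 2 ^ n + i) = code l[i] := hT.list i hil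
  have hph := hPh n l[i]
  obtain ⟨z, hz⟩ : ∃ z, z = l[i] := ⟨_, rfl⟩
  rw [← hz] at hcode hph ⊢
  unfold entry
  refine Runs.seq (T1 := 6) (T2 := (13 * n + 52) * L.length + 3)
    (R := fun y => y.mem = x.mem ∧ (∀ r, r ∉ [14, 15, 16, 24, 26, 33] → y.reg r = x.reg r) ∧
      y.reg 16 = mask z.1 ∧ y.reg 24 = (if z.2 then 2 ^ n else 0) ∧ y.reg 33 = 3 ∧
      y.reg 14 = L.length) ?_ ?_ (by omega)
  · refine Runs.block _ (by simp) ⟨by simp [Op.run], ?_, ?_⟩
    · intro r hr
      simp only [List.mem_cons, List.not_mem_nil, or_false, not_or] at hr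
      simp [Op.run, Function.update_apply, hr]
    · simp only [List.foldl, Op.run, Function.update_apply]
      simp only [hE.r7, h13, hE.r4, hE.r2]
      simp only [Nat.reduceEqDiff, if_false, if_true, Nat.mod_eq_of_lt hadd, hcode, hph, hw3,
        Nat.or_self, and_true]
      unfold code
      omega
  rintro y ⟨ym, yr, y16, y24, y33, y14⟩
  have hE' : Env k s L y := by
    refine hE.congr (fun r hr => yr r ?_) (fun a _ => by rw [ym])
    simp only [List.mem_cons, List.not_mem_nil, or_false] at hr
    rcases hr with rfl | rfl | rfl | rfl | rfl | rfl | rfl | rfl | rfl <;> decide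
  refine Runs.seq (T1 := (13 * n + 52) * L.length + 1) (T2 := 2)
    (R := fun v => Env k s L v ∧
      (∀ r, r ∉ [10, 14, 15, 16, 17, 18, 19, 20, 21, 22, 23, 24, 25, 26, 27, 28, 29, 30, 31, 33] →
        v.reg r = x.reg r) ∧
      v.reg 10 = (setsL s k j hi z L l).length ∧
      Tab w (L.length + 3) (L.length + 3 + 2 ^ n + 2 ^ n) hi (setsL s k j hi z L l) v.mem) ?_ ?_ (by omega)
  · refine Runs.loop L.length (13 * n + 50) (fun t v => Env k s L v ∧
      (∀ r, r ∉ [10, 14, 15, 16, 17, 18, 19, 20, 21, 22, 23, 24, 25, 26, 27, 28, 29, 30, 31, 33] →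
        v.reg r = x.reg r) ∧ v.reg 16 = mask z.1 ∧ v.reg 24 = (if z.2 then 2 ^ n else 0) ∧
      v.reg 33 = 3 + t ∧ v.reg 14 = L.length - t ∧
      v.reg 10 = ((L.take t).foldl (fun l A => ins hi l (move s k j z A)) l).length ∧
      Tab w (L.length + 3) (L.length + 3 + 2 ^ n + 2 ^ n) hi
        ((L.take t).foldl (fun l A => ins hi l (move s k j z A)) l) v.mem) ?_ ?_ ?_ ?_ ?_ ?_
    · refine ⟨hE', ?_, y16, y24, by omega, by omega, ?_, ?_⟩
      · intro r hr
        apply yr
        simp only [List.mem_cons, List.not_mem_nil, or_false, not_or] at hr ⊢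
        tauto
      · rw [List.take_zero, List.foldl_nil, yr 10 (by decide), h10]
      · rw [List.take_zero, List.foldl_nil, ym]
        exact hT
    · rintro t ht v ⟨_, _, _, _, _, h, _⟩
      omega
    · rintro v ⟨_, _, _, _, _, h, _⟩
      omega
    · rintro t ht v ⟨vE, vr, v16, v24, v33, v14, v10, vT⟩
      have hlen : hi ≤ ((L.take t).foldl (fun l A => ins hi l (move s k j z A)) l).length :=
        hhl.trans (fold_ins_prefix s k j hi z (L.take t) l).length_le
      refine (hP w n k s j hi t L _ z v vE hF (by rw [vr 9 (by decide), h9]) v10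
        (by rw [vr 12 (by decide), h12]) v16 v24 ht v33 v14 hlen hhb vT).mono le_rfl ?_
      rintro u ⟨uE, ur, u33, u14, u10, uT⟩
      rw [← foldl_take_succ (fun l A => ins hi l (move s k j z A)) l L t ht] at u10 uT
      refine ⟨uE, ?_, by rw [ur 16 (by decide), v16], by rw [ur 24 (by decide), v24], u33, u14, u10, uT⟩
      intro r hr
      rw [ur r, vr r hr]
      simp only [List.mem_cons, List.not_mem_nil, or_false, not_or] at hr ⊢
      tauto
    · apply le_of_eq
      ring
    · rintro v ⟨vE, vr, v16, v24, v33, v14, v10, vT⟩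
      rw [List.take_length] at v10 vT
      exact ⟨vE, vr, v10, vT⟩
  rintro v ⟨vE, vr, v10, vT⟩
  have v13 : v.reg 13 = i := by rw [vr 13 (by decide), h13]
  have v34 : v.reg 34 = hi - i := by rw [vr 34 (by decide), h34]
  refine Runs.block _ (by simp) ⟨?_, ?_, ?_, ?_, ?_, ?_⟩
  · refine vE.congr (fun r hr => ?_) (fun a _ => by simp [Op.run])
    simp only [List.mem_cons, List.not_mem_nil, or_false] at hr
    simp only [List.foldl, Op.run, Function.update_apply]
    rcases hr with rfl | rfl | rfl | rfl | rfl | rfl | rfl | rfl | rfl <;> simp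
  · intro r hr
    have := vr r (by
      simp only [List.mem_cons, List.not_mem_nil, or_false, not_or] at hr ⊢
      tauto)
    simp only [List.mem_cons, List.not_mem_nil, or_false, not_or] at hr
    simp [Op.run, Function.update_apply, hr, this]
  · simp only [List.foldl, Op.run, Function.update_apply]
    simp only [v13, vE.r40, v34]
    simp only [Nat.reduceEqDiff, if_false, if_true]
    exact Nat.mod_eq_of_lt (by omega)
  · simp only [List.foldl, Op.run, Function.update_apply]
    simp only [v13, vE.r40, v34]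
    simp only [Nat.reduceEqDiff, if_false, if_true]
    omega
  · simp only [List.foldl, Op.run, Function.update_apply]
    simp only [Nat.reduceEqDiff, if_false]
    exact v10
  · simp only [List.foldl, Op.run]
    exact vT

end SCR
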