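import Pool.Agent.Lib.SCR.Prog

/-!
# Row MH: the beginning (helper16)
-/

set_option linter.unusedSimpArgs false

namespace SCR

theorem setupSpec : SetupSpec := by
  intro w n k L mem hH hF
  obtain ⟨m, hm⟩ : ∃ m, m = L.length := ⟨_, rfl⟩
  have hlen := hm
  obtain ⟨P, hP⟩ : ∃ P, P = 2 ^ n := ⟨_, rfl⟩
  obtain ⟨W, hW⟩ : ∃ W, W = 2 ^ w := ⟨_, rfl⟩
  have hnP : n < P := by rw [hP]; exact Nat.lt_two_pow_self
  have hsp : m + 3 + 6 * P + 10 ≤ W := by
    have h1 := hF.space
    rw [← hm, ← hP, ← hW] at h1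
    nlinarith
  have hmem0 := hH.zero
  have hmem1 := hH.one
  have hmem2 := hH.two
  rw [← hm] at hmem1
  have c0 : 0 % W = 0 := Nat.zero_mod _
  have c1 : 1 % W = 1 := Nat.mod_eq_of_lt (by omega)
  have c2 : 2 % W = 2 := Nat.mod_eq_of_lt (by omega)
  have c3 : 3 % W = 3 := Nat.mod_eq_of_lt (by omega)
  have hmin : k - (k - n) = min k n := by omega
  set I : ℕ → Data → Prop := fun j y => y.mem = mem ∧ y.reg 1 = n ∧ y.reg 2 = m ∧
    y.reg 3 = min k n ∧ y.reg 11 = 0 ∧ y.reg 40 = 1 ∧ y.reg 4 = 2 ^ j ∧ y.reg 23 = n - j with hI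
  refine Runs.seq (T1 := 10) (T2 := 4 * n + 11) (R := I 0) (Runs.block _ (by simp) ?_) ?_ (by omega)
  · rw [hI]
    refine ⟨?_, ?_, ?_, ?_, ?_, ?_, ?_, ?_⟩ <;>
      simp [List.foldl, Op.run, Function.update_apply, ← hW, c0, c1, c2, c3, hmem0, hmem1, hmem2,
        hmin]
  · intro y hy
    refine Runs.seq (T1 := 4 * n + 1) (T2 := 10) (R := I n) (Runs.loop n 2 I hy ?_ ?_ ?_ (by omega)
      (fun _ h => h)) ?_ (by omega)
    · intro j hj z hz
      have := hz.2.2.2.2.2.2.2
      omega
    · intro z hz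
      have := hz.2.2.2.2.2.2.2
      omega
    · intro j hj z hz
      obtain ⟨z1, z2, z3, z4, z5, z6, z7, z8⟩ := hz
      have hj2 : 2 ^ (j + 1) ≤ P := by rw [hP]; exact Nat.pow_le_pow_right (by norm_num) hj
      have e4 : (2 ^ j + 2 ^ j) % W = 2 ^ (j + 1) := by
        rw [Nat.mod_eq_of_lt (by rw [pow_succ] at hj2; omega), pow_succ]
        ring
      refine Runs.block _ (by simp) ⟨?_, ?_, ?_, ?_, ?_, ?_, ?_, ?_⟩ <;>
        simp [List.foldl, Op.run, Function.update_apply, ← hW, z1, z2, z3, z4, z5, z6, z7, z8, e4]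
      omega
    · rintro z ⟨z1, z2, z3, z4, z5, z6, z7, z8⟩
      rw [← hP] at z7
      have e6 : (m + 3) % W = m + 3 := Nat.mod_eq_of_lt (by omega)
      have e7 : (m + 3 + P) % W = m + 3 + P := Nat.mod_eq_of_lt (by omega)
      have e8 : (m + 3 + P + P) % W = m + 3 + P + P := Nat.mod_eq_of_lt (by omega)
      have hfin : (List.foldl (fun x o => Op.run w o x) z
          [Op.sub 5 4 40, Op.const 26 3, Op.add 6 2 26, Op.add 7 6 4, Op.add 7 7 4, Op.const 8 0,
            Op.const 9 1, Op.const 10 1, Op.const 12 0, Op.store 7 8]).mem =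
          Function.update mem (m + 3 + P + P) 0 := by
        simp [List.foldl, Op.run, Function.update_apply, ← hW, z1, z2, z3, z4, z5, z6, z7, c0, c1,
          c3, e6, e7, e8]
      refine Runs.block _ (by simp) ⟨?_, ?_, ?_, ?_, ?_, ?_, ?_, ?_⟩
      · simp [List.foldl, Op.run, Function.update_apply, z5]
      · rw [hlen] at *
        constructor <;> try (simp [List.foldl, Op.run, Function.update_apply, ← hW, z1, z2, z3, z4,
          z5, z6, z7, c0, c1, c3, e6, e7, e8, hP])
        · rw [← hP]; exact e8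
        · intro i hi
          rw [← hP, e8, if_neg (by omega)]
          exact hH.set i hi
      · simp [List.foldl, Op.run, Function.update_apply, ← hW, c0]
      · simp [List.foldl, Op.run, Function.update_apply, ← hW, c1]
      · simp [List.foldl, Op.run, Function.update_apply, ← hW, c1]
      · simp [List.foldl, Op.run, Function.update_apply, ← hW, c0]
      · intro a
        rw [hfin, Function.update_apply]
        split_ifs
        · positivity
        · exact hH.word a
      · rw [hfin, ← hlen, ← hP, Function.update_self]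

end SCR
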