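import Pool.Agent.Lib.SCR.MF

/-!
# The whole program
-/

namespace SCR

open Op Stmt

lemma seg_length (hG : ListSpec) {n : ℕ} (s k : ℕ) (L : List (Finset (Fin n))) (j : ℕ) :
    (listL s k L j).2.length - (listL s k L j).1 = {z : St n | Reach s k L j z.1 z.2}.ncard := by
  have h := (hG n s k L j).2.2.2.2.1
  cases j with
  | zero => simpa [listL] using h
  | succ j =>
    have h' := (hG n s k L j).2.2.2.2.1
    have e : (listL s k L (j + 1)).1 = (listL s k L j).2.length := rfl
    rw [e, h, h', Finset.sum_range_succ _ (j + 1)]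
    omega

open Classical in
/-- The structured program `p` decides the instance in at most `T` steps if `W ≤ 2^w`. -/
def RunsCover (p : Stmt) (n k : ℕ) (L : List (Finset (Fin n))) (W T : ℕ) : Prop :=
  ∀ (w : ℕ) (mem : ℕ → ℕ), W ≤ 2 ^ w → Holds w n k L mem →
    Runs w p ⟨fun _ => 0, mem⟩ T (fun y => y.reg 0 = if Coverable n k L then 1 else 0)

lemma RunsCover.decides {p : Stmt} {n k : ℕ} {L : List (Finset (Fin n))} {W T : ℕ}
    (h : RunsCover p n k L W T) : Decides (p.compile 0) n k L W T :=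
  fun w mem hW hH => Runs.outputs (h w mem hW hH)

theorem MKruns (hSe : SetupSpec) (hR : RoundSpec) (hSc : ScanSpec) (hG : ListSpec) (hC : CoverSpec)
    (c : Stmt) (S W T : ℕ → ℕ → ℕ) (hS : SSpec c S W T) (n k : ℕ) (L : List (Finset (Fin n)))
    (hs : 1 ≤ S n L.length) : RunsCover (main c) n k L
    (L.length + 3 + (n + 3) * (2 ^ n + 2 ^ n) + 10 + (n + 2) * (n + 2) + S n L.length + W n L.length)
    (T n L.length + 100 * (n + 1) * (L.length + 1) * (total (S n L.length) (min k n) L + 1)) := by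
  intro w mem hW hH
  obtain ⟨s, hsdef⟩ : ∃ s, s = S n L.length := ⟨_, rfl⟩
  obtain ⟨kk, hkk⟩ : ∃ kk, kk = min k n := ⟨_, rfl⟩
  have hkn : kk ≤ n := by omega
  have hF0 : Fits w n L.length kk 0 := ⟨by omega, by omega, hkn, by omega⟩
  have hF : Fits w n L.length kk s := ⟨by omega, by omega, hkn, by omega⟩
  have hseg := fun j => seg_length hG s kk L j
  have htot : total s kk L = (listL s kk L kk).2.length := ((hG n s kk L kk).2.2.2.2.1).symm
  rw [← hsdef, ← hkk]
  rw [← hsdef] at hs
  unfold main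
  -- the beginning
  refine Runs.seq (T1 := 6 * n + 25) (T2 := T n L.length + (9 * n + 6 +
    ((13 * n + 52) * L.length + 23) * total s kk L)) (hkk ▸ hSe w n k L mem hH (hkk ▸ hF0)) ?_ ?_
  swap
  · have h1 : 15 * n + 31 ≤ 100 * (n + 1) * (L.length + 1) := by nlinarith
    have h2 : (13 * n + 52) * L.length + 23 ≤ 100 * (n + 1) * (L.length + 1) := by nlinarith
    have h3 := Nat.mul_le_mul_right (total s kk L) h2
    have h4 : 100 * (n + 1) * (L.length + 1) * (total s kk L + 1) =
      100 * (n + 1) * (L.length + 1) * total s kk L + 100 * (n + 1) * (L.length + 1) := by ring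
    rw [h4]
    omega
  rintro y ⟨-, yE, y8, y9, y10, y12, yw, y0⟩
  -- the number `s`
  refine Runs.seq (T1 := T n L.length) (T2 := 9 * n + 6 +
    ((13 * n + 52) * L.length + 23) * total s kk L) (hS w n kk L y yE (by omega)) ?_ le_rfl
  rintro z ⟨zE, zm, zr⟩
  rw [← hsdef] at zE
  -- the rounds
  refine Runs.seq (T1 := 9 * n + 2 + ((13 * n + 52) * L.length + 11) * total s kk L)
    (T2 := 12 * total s kk L + 4) (R := fun v => Env kk s L v ∧ v.reg 10 = (listL s kk L kk).2.length ∧
      (∀ p (h : p < (listL s kk L kk).2.length),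
        v.mem (L.length + 3 + 2 ^ n + 2 ^ n + p) = code (listL s kk L kk).2[p])) ?_ ?_ ?_
  rotate_left
  · rintro v ⟨vE, v10, vl⟩
    refine (hSc w n kk s L (listL s kk L kk).2 v vE hF v10 ?_ vl).mono (by rw [htot]) ?_
    · refine ((hG n s kk L kk).2.2.2.2.2).trans ?_
      exact Nat.mul_le_mul_right _ (by omega)
    · intro u hu
      rw [hu]
      have h1 : (∃ b, ((Finset.univ : Finset (Fin n)), b) ∈ (listL s kk L kk).2) ↔ Coverable n k L := by
        rw [← hC n s k L hs, ← hkk]
        constructor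
        · rintro ⟨b, hb⟩
          obtain ⟨i, hi, hr⟩ := ((hG n s kk L kk).2.2.2.1 _).1 hb
          exact ⟨i, hi, b, hr⟩
        · rintro ⟨i, hi, b, hr⟩
          exact ⟨b, ((hG n s kk L kk).2.2.2.1 _).2 ⟨i, hi, hr⟩⟩
      by_cases h2 : Coverable n k L
      · rw [if_pos h2, if_pos (h1.2 h2)]
      · rw [if_neg h2, if_neg (fun h => h2 (h1.1 h))]
  · have : ((13 * n + 52) * L.length + 23) * total s kk L =
      ((13 * n + 52) * L.length + 11) * total s kk L + 12 * total s kk L := by ring
    rw [this]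
    omega
  unfold rounds
  refine Runs.seq (T1 := 1) (T2 := 9 * n + 1 + ((13 * n + 52) * L.length + 11) * total s kk L)
    (R := fun v => v.mem = z.mem ∧ (∀ r, r ∉ [32] → v.reg r = z.reg r) ∧ v.reg 32 = kk) ?_ ?_ (by omega)
  · refine Runs.block _ (by simp) ⟨by simp [Op.run], ?_, ?_⟩
    · intro r hr
      simp only [List.mem_cons, List.not_mem_nil, or_false] at hr
      simp [Op.run, hr]
    · simp [Op.run, zE.r3]
  rintro v ⟨vm, vr, v32⟩
  refine Runs.loopB kk (fun j => ((13 * n + 52) * L.length + 11) *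
      {z : St n | Reach s kk L j z.1 z.2}.ncard + 7)
    (fun j v => Env kk s L v ∧ v.reg 8 = (listL s kk L j).1 ∧ v.reg 9 = (listL s kk L j).2.length ∧
      v.reg 10 = (listL s kk L j).2.length ∧ v.reg 12 = j * n ∧ v.reg 32 = kk - j ∧
      (∀ a, v.mem a < 2 ^ w) ∧ (∀ p (h : p < (listL s kk L j).2.length),
        v.mem (L.length + 3 + 2 ^ n + 2 ^ n + p) = code (listL s kk L j).2[p])) ?_ ?_ ?_ ?_ ?_ ?_
  · refine ⟨?_, ?_, ?_, ?_, ?_, by omega, ?_, ?_⟩
    · refine zE.congr (fun r hr => vr r ?_) (fun a _ => by rw [vm])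
      simp only [List.mem_cons, List.not_mem_nil, or_false] at hr
      rcases hr with rfl | rfl | rfl | rfl | rfl | rfl | rfl | rfl | rfl <;> decide
    · rw [vr 8 (by decide), zr 8 (by decide), y8]
      rfl
    · rw [vr 9 (by decide), zr 9 (by decide), y9]
      rfl
    · rw [vr 10 (by decide), zr 10 (by decide), y10]
      rfl
    · rw [vr 12 (by decide), zr 12 (by decide), y12, Nat.zero_mul]
    · intro a
      rw [vm, zm]
      exact yw a
    · intro p hp
      have hp0 : p = 0 := by
        have : p < 1 := hp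
        omega
      subst hp0
      rw [vm, zm, Nat.add_zero, y0]
      simp [listL, code, mask]
  · rintro j hj v ⟨_, _, _, _, _, h, _⟩
    omega
  · rintro v ⟨_, _, _, _, _, h, _⟩
    omega
  · rintro j hj v ⟨vE, v8, v9, v10, v12, v32, vw, vl⟩
    have g1 := (hG n s kk L j).1
    have g6 := (hG n s kk L j).2.2.2.2.2
    refine (hR w n kk s j (listL s kk L j).1 (listL s kk L j).2.length L (listL s kk L j).2 v vE hF v8 v9
      rfl v10 v12 v32 hj g1 (g6.trans (Nat.mul_le_mul_right _ (by omega))) vw vl).mono ?_ ?_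
    · rw [hseg j]
    · rintro u ⟨uE, u8, u9, u10, u12, u32, uw, ul, und⟩
      exact ⟨uE, u8, u9, u10, u12, u32, uw, ul⟩
  · have h1 : ∑ i ∈ Finset.range kk, (((13 * n + 52) * L.length + 11) *
        {z : St n | Reach s kk L i z.1 z.2}.ncard + 7 + 2) =
        ((13 * n + 52) * L.length + 11) * (∑ i ∈ Finset.range kk,
          {z : St n | Reach s kk L i z.1 z.2}.ncard) + 9 * kk := by
      simp only [Finset.sum_add_distrib, ← Finset.mul_sum, Finset.sum_const, Finset.card_range,
        smul_eq_mul]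
      ring
    have h2 : (∑ i ∈ Finset.range kk, {z : St n | Reach s kk L i z.1 z.2}.ncard) ≤ total s kk L := by
      unfold total
      exact Finset.sum_le_sum_of_subset (Finset.range_mono (by omega))
    rw [h1]
    have h3 := Nat.mul_le_mul_left ((13 * n + 52) * L.length + 11) h2
    omega
  · rintro v ⟨vE, v8, v9, v10, v12, v32, vw, vl⟩
    exact ⟨vE, v10, vl⟩

theorem MK (hSe : SetupSpec) (hR : RoundSpec) (hSc : ScanSpec) (hG : ListSpec) (hC : CoverSpec) :
    MainSpec := fun c S W T hS n k L hs => (MKruns hSe hR hSc hG hC c S W T hS n k L hs).decides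

end SCR
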