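import Pool.Agent.Lib.SCR.DRows
import Pool.Agent.Lib.SCR.ME
import Pool.Agent.Lib.SCR.MK
import Pool.Agent.Lib.SCR.MH
import Pool.Agent.Lib.SCR.MA

/-!
# The whole program of Theorem D
-/

namespace SCR

open Op Stmt

lemma one_le_T (n j : ℕ) : 1 ≤ T n j := by
  unfold T
  have : n.choose 0 ≤ ∑ i ∈ Finset.range (j + 1), n.choose i :=
    Finset.single_le_sum (f := fun i => n.choose i) (fun i _ => Nat.zero_le _) (by simp)
  simpa using this

lemma EnvD.of_regs {n k b : ℕ} {L : List (Finset (Fin n))} {x y : Data} (h : EnvD k b L x)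
    (hr : ∀ r ∈ [1, 2, 3, 4, 5, 6, 7, 11, 40, 50, 51, 52, 53, 54, 55], y.reg r = x.reg r)
    (hm : ∀ a < L.length + 3, y.mem a = x.mem a) : EnvD k b L y where
  env := h.env.congr (fun r hr' => hr r (by
    simp only [List.mem_cons, List.not_mem_nil, or_false] at hr' ⊢; omega)) hm
  r50 := by rw [hr 50 (by decide), h.r50]
  r51 := by rw [hr 51 (by decide), h.r51]
  r52 := by rw [hr 52 (by decide), h.r52]
  r53 := by rw [hr 53 (by decide), h.r53]
  r54 := by rw [hr 54 (by decide), h.r54]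
  r55 := by rw [hr 55 (by decide), h.r55]

lemma EnvD.of_invG {n k b B l : ℕ} {L : List (Finset (Fin n))} {s : List (Finset (Fin n))} {x0 x : Data}
    (hE : EnvD k b L x0) (h : InvG L B l s x0 x) (hl : l ∈ [59, 56, 57]) : EnvD k b L x := by
  refine hE.of_regs (fun r hr => h.regs r ?_) h.low
  simp only [List.mem_cons, List.not_mem_nil, or_false, not_or] at hr hl ⊢
  omega

/-- the time bound -/
lemma timeD (b n m t1 t2 t3 : ℕ) (h2 : 1 ≤ t2) (h3 : 1 ≤ t3) :
    (6 * n + 25) + (18 * n + 40) + (n * ((13 * n + 20 * m + 52) * t1 + 8) + 8) +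
      (n * ((13 * n + 20 * m + 52) * t2 + 8) + 8) + (n * ((13 * n + 20 * m + 52) * t3 + 8) + 8) +
      (n * (9 * n + 60 * (n + 1)) + 10) + 3 +
      (m + 1) ^ b * ((((13 * n + 50) * t3 + 30) * t2 + 10) * (4 * (n + 1)) + 5 + 9 * b) ≤
    1000 * (b + 1) * (n + 1) ^ 3 * (m + 1) ^ (b + 1) * (t1 + t2 * t3 + 1) := by
  obtain ⟨P, hP⟩ : ∃ P, P = t2 * t3 := ⟨_, rfl⟩
  have h2P : t2 ≤ P := by rw [hP]; exact Nat.le_mul_of_pos_right _ h3
  have h3P : t3 ≤ P := by rw [hP]; exact Nat.le_mul_of_pos_left _ h2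
  obtain ⟨M, hM⟩ : ∃ M, M = m + 1 := ⟨_, rfl⟩
  obtain ⟨a, ha⟩ : ∃ a, a = n + 1 := ⟨_, rfl⟩
  have hM1 : 1 ≤ M := by omega
  have ha1 : 1 ≤ a := by omega
  have hMb : 1 ≤ M ^ b := Nat.one_le_pow _ _ hM1
  obtain ⟨Mb, hMbe⟩ : ∃ Mb, Mb = M ^ b := ⟨_, rfl⟩
  rw [← hP, ← hM, ← ha, pow_succ M b, ← hMbe]
  rw [← hMbe] at hMb
  have hc : 13 * n + 20 * m + 52 ≤ 52 * (a * M) := by
    rw [ha, hM]; nlinarith
  have hn : n ≤ a := by omega
  obtain ⟨S, hS⟩ : ∃ S, S = t1 + P + 1 := ⟨_, rfl⟩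
  rw [← hS]
  have hS1 : t1 ≤ S := by omega
  have hSP : P ≤ S := by omega
  have hS0 : 1 ≤ S := by omega
  have g : ∀ t, t ≤ S → n * ((13 * n + 20 * m + 52) * t + 8) + 8 ≤
      52 * (a * (a * M * S)) + 8 * a + 8 := by
    intro t ht
    have h1 : (13 * n + 20 * m + 52) * t ≤ 52 * (a * M) * S := Nat.mul_le_mul hc ht
    have h4 : n * ((13 * n + 20 * m + 52) * t + 8) ≤ a * (52 * (a * M) * S + 8) :=
      Nat.mul_le_mul hn (by omega)
    have h5 : a * (52 * (a * M) * S + 8) = 52 * (a * (a * M * S)) + 8 * a := by ring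
    omega
  have g1 := g t1 hS1
  have g2 := g t2 (h2P.trans hSP)
  have g3 := g t3 (h3P.trans hSP)
  have hz : n * (9 * n + 60 * a) + 10 ≤ 69 * (a * a) + 10 := by
    have : n * (9 * n + 60 * a) ≤ a * (9 * a + 60 * a) := Nat.mul_le_mul hn (by omega)
    have h5 : a * (9 * a + 60 * a) = 69 * (a * a) := by ring
    omega
  have hin : ((13 * n + 50) * t3 + 30) * t2 ≤ 80 * (a * S) := by
    have h1 : ((13 * n + 50) * t3 + 30) * t2 = (13 * n + 50) * (t2 * t3) + 30 * t2 := by ring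
    rw [h1, ← hP]
    have h4 : (13 * n + 50) * P ≤ (50 * a) * S := Nat.mul_le_mul (by omega) hSP
    have h5 : 30 * t2 ≤ 30 * (a * S) := by
      have : t2 ≤ a * S := (h2P.trans hSP).trans (Nat.le_mul_of_pos_left _ ha1)
      omega
    have h6 : (50 * a) * S = 50 * (a * S) := by ring
    omega
  have hq : Mb * ((((13 * n + 50) * t3 + 30) * t2 + 10) * (4 * a) + 5 + 9 * b) ≤
      Mb * (360 * (a * (a * S)) + 14 * (b + 1)) := by
    apply Nat.mul_le_mul_left
    have h1 : (((13 * n + 50) * t3 + 30) * t2 + 10) * (4 * a) ≤ (90 * (a * S)) * (4 * a) := by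
      apply Nat.mul_le_mul_right
      have : 1 ≤ a * S := Nat.mul_pos ha1 hS0
      omega
    have h4 : (90 * (a * S)) * (4 * a) = 360 * (a * (a * S)) := by ring
    omega
  -- everything against `Q`
  obtain ⟨Q, hQ⟩ : ∃ Q, Q = (b + 1) * a ^ 3 * (Mb * M) * S := ⟨_, rfl⟩
  have hQe : 1000 * (b + 1) * a ^ 3 * (Mb * M) * S = 1000 * Q := by rw [hQ]; ring
  rw [hQe]
  have k1 : a * (a * M * S) ≤ Q := by
    calc a * (a * M * S) = 1 * (a ^ 2 * 1) * (1 * M) * S := by ring
      _ ≤ (b + 1) * (a ^ 2 * a) * (Mb * M) * S :=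
        Nat.mul_le_mul_right _ (Nat.mul_le_mul (Nat.mul_le_mul (by omega) (Nat.mul_le_mul_left _ ha1))
          (Nat.mul_le_mul_right _ hMb))
      _ = Q := by rw [hQ]; ring
  have k2 : a * a ≤ Q := by
    calc a * a = 1 * (a ^ 2 * 1) * (1 * 1) * 1 := by ring
      _ ≤ (b + 1) * (a ^ 2 * a) * (Mb * M) * S :=
        Nat.mul_le_mul (Nat.mul_le_mul (Nat.mul_le_mul (by omega) (Nat.mul_le_mul_left _ ha1))
          (Nat.mul_le_mul hMb hM1)) hS0
      _ = Q := by rw [hQ]; ring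
  have k3 : a ≤ a * a := Nat.le_mul_of_pos_left _ ha1
  have k4 : Mb * (a * (a * S)) ≤ Q := by
    calc Mb * (a * (a * S)) = 1 * (a ^ 2 * 1) * (Mb * 1) * S := by ring
      _ ≤ (b + 1) * (a ^ 2 * a) * (Mb * M) * S :=
        Nat.mul_le_mul_right _ (Nat.mul_le_mul (Nat.mul_le_mul (by omega) (Nat.mul_le_mul_left _ ha1))
          (Nat.mul_le_mul_left _ hM1))
      _ = Q := by rw [hQ]; ring
  have k5 : Mb * (b + 1) ≤ Q := by
    calc Mb * (b + 1) = (b + 1) * 1 * (Mb * 1) * 1 := by ring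
      _ ≤ (b + 1) * a ^ 3 * (Mb * M) * S :=
        Nat.mul_le_mul (Nat.mul_le_mul (Nat.mul_le_mul_left _ (Nat.one_le_pow _ _ ha1))
          (Nat.mul_le_mul_left _ hM1)) hS0
      _ = Q := by rw [hQ]
  have hq2 : Mb * (360 * (a * (a * S)) + 14 * (b + 1)) =
      360 * (Mb * (a * (a * S))) + 14 * (Mb * (b + 1)) := by ring
  rw [hq2] at hq
  omega

open Classical in
theorem DP12runs (hBo : BoundsSpec) (hGt : GtSpec) (hZ : ZListSpec) (hGu : GuessSpec) (hSo : SoundD)
    (hCo : CompleteD) (hK : CovMin) (hS : SubLSpec) (hZL : ZLSpec) (b n k : ℕ)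
    (L : List (Finset (Fin n))) (hb : 1 ≤ b) : RunsCover (mainD b) n k L
    (L.length + 100 + (n + 8) * (2 ^ n + 2 ^ n) + (n + 10) * (n + 10) + 10 * b)
    (1000 * (b + 1) * (n + 1) ^ 3 * (L.length + 1) ^ (b + 1) *
      (T n (max (n / 2 - n / b) (3 * (n / b))) + (T n (n / 2 - min k n / 4 + b)) * (T n (3 * (n / b))) + 1)) := by
  intro w mem hW hH
  obtain ⟨kk, hkk⟩ : ∃ kk, kk = min k n := ⟨_, rfl⟩
  have hkn : kk ≤ n := by omega
  have hpow : 0 < 2 ^ n := by positivity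
  have hF0 : Fits w n L.length kk 0 := by
    refine ⟨?_, ?_, hkn, ?_⟩
    · nlinarith
    · nlinarith
    · omega
  have hn2 : n + 1 ≤ 2 ^ n := Nat.lt_two_pow_self
  have hF : FitsD w n L.length b := by
    refine ⟨?_, ?_⟩
    · nlinarith
    · nlinarith
  obtain ⟨h', hh'⟩ : ∃ h', h' = max (n / 2 - n / b) (3 * (n / b)) := ⟨_, rfl⟩
  obtain ⟨R, hR⟩ : ∃ R, R = n / 2 - kk / 4 + b := ⟨_, rfl⟩
  obtain ⟨ζ, hζ⟩ : ∃ ζ, ζ = 3 * (n / b) := ⟨_, rfl⟩
  obtain ⟨cl, hcl⟩ : ∃ cl, cl = Nat.clog 2 n := ⟨_, rfl⟩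
  rw [← hkk]
  have htime := timeD b n L.length (T n h') (T n R) (T n ζ) (one_le_T _ _) (one_le_T _ _)
  rw [← hh', ← hR, ← hζ]
  refine Runs.mono (T := (6 * n + 25) + (18 * n + 40) + (n * ((13 * n + 20 * L.length + 52) * T n h' + 8) + 8) +
      (n * ((13 * n + 20 * L.length + 52) * T n R + 8) + 8) +
      (n * ((13 * n + 20 * L.length + 52) * T n ζ + 8) + 8) +
      (n * (9 * n + 60 * (n + 1)) + 10) + 3 +
      (L.length + 1) ^ b * ((((13 * n + 50) * T n ζ + 30) * T n R + 10) * (4 * (n + 1)) + 5 + 9 * b))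
      ?_ htime (fun _ h => h)
  unfold mainD
  -- the beginning
  refine Runs.seq (T1 := 6 * n + 25) (R := fun y => Env kk 0 L y) (T2 := (18 * n + 40) +
      (n * ((13 * n + 20 * L.length + 52) * T n h' + 8) + 8) +
      (n * ((13 * n + 20 * L.length + 52) * T n R + 8) + 8) +
      (n * ((13 * n + 20 * L.length + 52) * T n ζ + 8) + 8) +
      (n * (9 * n + 60 * (n + 1)) + 10) + 3 +
      (L.length + 1) ^ b * ((((13 * n + 50) * T n ζ + 30) * T n R + 10) * (4 * (n + 1)) + 5 + 9 * b))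
      ?_ ?_ (by omega)
  · refine (setupSpec w n k L mem hH (hkk ▸ hF0)).mono le_rfl ?_
    rintro y ⟨-, yE, -⟩
    rw [hkk]
    exact yE
  rintro x0 x0E
  -- bounds
  refine Runs.seq (T1 := 18 * n + 40) (R := fun y => EnvD kk b L y) (T2 :=
      (n * ((13 * n + 20 * L.length + 52) * T n h' + 8) + 8) +
      (n * ((13 * n + 20 * L.length + 52) * T n R + 8) + 8) +
      (n * ((13 * n + 20 * L.length + 52) * T n ζ + 8) + 8) +
      (n * (9 * n + 60 * (n + 1)) + 10) + 3 +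
      (L.length + 1) ^ b * ((((13 * n + 50) * T n ζ + 30) * T n R + 10) * (4 * (n + 1)) + 5 + 9 * b))
      ?_ ?_ (by omega)
  · exact (hBo w n kk b L x0 hb hkn hF x0E).mono le_rfl (fun y h => h.2)
  rintro x1 x1E
  -- the table
  refine Runs.seq (T1 := n * ((13 * n + 20 * L.length + 52) * T n h' + 8) + 8) (T2 :=
      (n * ((13 * n + 20 * L.length + 52) * T n R + 8) + 8) +
      (n * ((13 * n + 20 * L.length + 52) * T n ζ + 8) + 8) +
      (n * (9 * n + 60 * (n + 1)) + 10) + 3 +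
      (L.length + 1) ^ b * ((((13 * n + 50) * T n ζ + 30) * T n R + 10) * (4 * (n + 1)) + 5 + 9 * b))
      (hGt w n kk b _ h' 55 53 59 L x1 (by simp) hF hkn x1E rfl (by rw [x1E.r53, hh'])) ?_ (by omega)
  rintro x2 x2I
  have x2E : EnvD kk b L x2 := x1E.of_invG x2I (by decide)
  -- the list of the `E`
  refine Runs.seq (T1 := n * ((13 * n + 20 * L.length + 52) * T n R + 8) + 8) (T2 :=
      (n * ((13 * n + 20 * L.length + 52) * T n ζ + 8) + 8) +
      (n * (9 * n + 60 * (n + 1)) + 10) + 3 +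
      (L.length + 1) ^ b * ((((13 * n + 50) * T n ζ + 30) * T n R + 10) * (4 * (n + 1)) + 5 + 9 * b))
      (hGt w n kk b _ R 7 54 56 L x2 (by simp) hF hkn x2E rfl (by rw [x2E.r54, hR])) ?_ (by omega)
  rintro x3 x3I
  have x3E : EnvD kk b L x3 := x2E.of_invG x3I (by decide)
  rw [x2E.env.r7] at x3I
  -- the list of the `Z`
  refine Runs.seq (T1 := n * ((13 * n + 20 * L.length + 52) * T n ζ + 8) + 8) (T2 :=
      (n * (9 * n + 60 * (n + 1)) + 10) + 3 +
      (L.length + 1) ^ b * ((((13 * n + 50) * T n ζ + 30) * T n R + 10) * (4 * (n + 1)) + 5 + 9 * b))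
      (hGt w n kk b _ ζ 50 52 57 L x3 (by simp) hF hkn x3E rfl (by rw [x3E.r52, hζ])) ?_ (by omega)
  rintro x4 x4I
  have x4E : EnvD kk b L x4 := x3E.of_invG x4I (by decide)
  rw [x3E.r50] at x4I
  -- the list of masks
  refine Runs.seq (T1 := n * (9 * n + 60 * (n + 1)) + 10) (T2 := 3 +
      (L.length + 1) ^ b * ((((13 * n + 50) * T n ζ + 30) * T n R + 10) * (4 * (n + 1)) + 5 + 9 * b))
      (hZ w n kk b L x4 hF x4E) ?_ (by omega)
  rintro x5 ⟨x5r, x5z, x5l, x5m⟩
  rw [x4E.r51, ← hcl] at x5l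
  rw [x4E.r51] at x5m
  rw [← hcl] at x5z
  have x5E : EnvD kk b L x5 := by
    refine x4E.of_regs (fun r hr => x5r r ?_) (fun a ha => x5m a (by omega))
    simp only [List.mem_cons, List.not_mem_nil, or_false, not_or] at hr ⊢
    omega
  -- lengths
  have lE : (subL n R n).length ≤ T n R ∧ (subL n R n).length ≤ 2 ^ n := (hS n R n le_rfl).2.2
  have lZ : (subL n ζ n).length ≤ T n ζ ∧ (subL n ζ n).length ≤ 2 ^ n := (hS n ζ n le_rfl).2.2
  have lM : (zL n cl).length ≤ 4 * (n + 1) := by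
    rw [(hZL n cl).1, pow_succ, hcl]
    by_cases hn : n ≤ 1
    · have : n = 0 ∨ n = 1 := by omega
      rcases this with rfl | rfl <;> simp
    · have h1 : 2 ^ (Nat.clog 2 n - 1) < n := by
        apply Nat.pow_pred_clog_lt_self (by norm_num) (by omega)
      have h2 : 1 ≤ Nat.clog 2 n := Nat.clog_pos (by norm_num) (by omega)
      have h3 : 2 ^ Nat.clog 2 n = 2 * 2 ^ (Nat.clog 2 n - 1) := by
        rw [← pow_succ']; congr 1; omega
      omega
  -- registers for the guesses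
  refine Runs.seq (T1 := 3) (T2 :=
      (L.length + 1) ^ b * ((((13 * n + 50) * T n ζ + 30) * T n R + 10) * (4 * (n + 1)) + 5 + 9 * b))
      (R := fun y => EnvS kk b L (subL n R n) (subL n ζ n) (zL n cl) y ∧ y.reg (100 + 4 * b) = 0 ∧
        y.reg (101 + 4 * b) = 0 ∧ y.reg 0 = 0) ?_ ?_ (by omega)
  · have hfin : ∀ y : Data, y.mem = x5.mem → (∀ r, r ∉ [0, 100 + 4 * b, 101 + 4 * b] → y.reg r = x5.reg r) →
        EnvS kk b L (subL n R n) (subL n ζ n) (zL n cl) y := by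
      intro y hm hr
      refine ⟨?_, ?_, ?_, ?_, ?_, ?_, ?_, ?_, lE.2, lZ.2, lM, ?_⟩
      · refine x5E.of_regs (fun r hr' => hr r ?_) (fun a _ => by rw [hm])
        simp only [List.mem_cons, List.not_mem_nil, or_false, not_or] at hr' ⊢
        omega
      · intro Y hY
        rw [← hh'] at hY
        have h1 : x2.mem (L.length + 3 + mask Y) = gnum L Y :=
          x2I.tab Y (((hS n h' n le_rfl).1 Y).2 ⟨hY, fun u _ => u.2⟩)
        have h2 := x4I.mono Y (x3I.mono Y h1)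
        have h3 : mask Y < 2 ^ n := maskLt n Y
        rw [hm, x5m _ (by omega), h2]
      · intro p hp
        rw [hm, x5m _ (by omega), x4I.other _ (by omega) (by omega)]
        exact x3I.list p hp
      · intro p hp
        rw [hm, x5m _ (by omega)]
        exact x4I.list p hp
      · intro p hp
        rw [hm]
        exact x5l p hp
      · rw [hr 56 (by simp only [List.mem_cons, List.not_mem_nil, or_false, not_or]; omega),
          x5r 56 (by decide), x4I.regs 56 (by decide), x3I.len]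
      · rw [hr 57 (by simp only [List.mem_cons, List.not_mem_nil, or_false, not_or]; omega),
          x5r 57 (by decide), x4I.len]
      · rw [hr 58 (by simp only [List.mem_cons, List.not_mem_nil, or_false, not_or]; omega), x5z]
      · intro Z hZ'
        rw [← hζ]
        exact ((hS n ζ n le_rfl).1 Z).1 hZ' |>.1
    have hw0 : 0 % 2 ^ w = 0 := Nat.zero_mod _
    refine Runs.block _ (by simp) ⟨hfin _ (by simp [Op.run]) ?_, ?_, ?_, ?_⟩
    · intro r hr
      simp only [List.mem_cons, List.not_mem_nil, or_false, not_or] at hr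
      simp [Op.run, hr]
    · simp only [List.foldl, Op.run, Function.update_apply, hw0]
      simp
    · simp only [List.foldl, Op.run, Function.update_apply, hw0]
      simp
    · simp only [List.foldl, Op.run, Function.update_apply, hw0]
      simp
  rintro x6 ⟨x6S, x6g, x6c, x60⟩
  have hempty : mask (∅ : Finset (Fin n)) = 0 := by simp [mask]
  refine (hGu w n kk b b 0 L _ _ _ x6 ∅ hF hkn x6S le_rfl (by rw [x6g, hempty]) x6c (by omega)
    (by omega)).mono ?_ ?_
  · apply Nat.mul_le_mul_left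
    have h1 : (13 * n + 50) * (subL n ζ n).length ≤ (13 * n + 50) * T n ζ := Nat.mul_le_mul_left _ lZ.1
    have h2 : ((13 * n + 50) * (subL n ζ n).length + 30) * (subL n R n).length ≤
        ((13 * n + 50) * T n ζ + 30) * T n R := Nat.mul_le_mul (by omega) lE.1
    have h3 : (((13 * n + 50) * (subL n ζ n).length + 30) * (subL n R n).length + 10) * (zL n cl).length ≤
        (((13 * n + 50) * T n ζ + 30) * T n R + 10) * (4 * (n + 1)) := Nat.mul_le_mul (by omega) lM
    omega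
  · rintro y ⟨-, -, -, y0⟩
    rw [y0]
    have hiff : (x6.reg 0 = 1 ∨ ∃ l : List (Finset (Fin n)), (∀ A ∈ l, A ∈ L) ∧ l.length ≤ b ∧
      ∃ z ∈ zL n cl, ∃ E ∈ subL n R n,
      Good L kk (max (n / 2 - n / b) (3 * (n / b))) (subL n ζ n) (∅ ∪ unionL l) (0 + l.length) z E) ↔
        Coverable n k L := by
      rw [hK n k L, ← hkk]
      constructor
      · rintro (h | ⟨l, hl, -, z, -, E, -, hg⟩)
        · omega
        · rw [Finset.empty_union, Nat.zero_add] at hg
          exact hSo n kk _ L _ l z E hkn hl hg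
      · intro h
        right
        obtain ⟨l, hl, hlb, z, hz, E, hE, hg⟩ := hCo n kk b L hb hkn h
        refine ⟨l, hl, hlb, z, hcl ▸ hz, E, hR ▸ hE, ?_⟩
        rw [Finset.empty_union, Nat.zero_add, hζ]
        exact hg
    by_cases h2 : Coverable n k L
    · rw [if_pos h2, if_pos (hiff.2 h2)]
    · rw [if_neg h2, if_neg (fun h => h2 (hiff.1 h))]

theorem DP12 (hBo : BoundsSpec) (hGt : GtSpec) (hZ : ZListSpec) (hGu : GuessSpec) (hSo : SoundD)
    (hCo : CompleteD) (hK : CovMin) (hS : SubLSpec) (hZL : ZLSpec) : MainDSpec :=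
  fun b n k L hb => (DP12runs hBo hGt hZ hGu hSo hCo hK hS hZL b n k L hb).decides

end SCR
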