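import Pool.Agent.Lib.SCR.DRows

/-!
# Row DP3: the value of the recurrence (helper16)
-/

set_option linter.unusedSimpArgs false

namespace SCR

open Finset Op Stmt

/-- DP3 -/
theorem gvalSpec (hM : MaskAlg) (hG : Gnum) : GvalSpec := by
  intro w n k b i L x Y hi hF hE h17 h60 hiY htab
  have hsp := hF.space
  have hnn : n < 2 ^ n := Nat.lt_two_pow_self
  obtain ⟨hG1, hG2, hG3, hG4, hG5⟩ := hG n L
  obtain ⟨hup, hlow⟩ := hG5 Y ⟨i, hi⟩ hiY
  have h1 : x.reg 1 = n := hE.r1
  have h2 : x.reg 2 = L.length := hE.r2
  have h6 : x.reg 6 = L.length + 3 := hE.r6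
  have h40 : x.reg 40 = 1 := hE.r40
  have m1 : (n + 1) % 2 ^ w = n + 1 := Nat.mod_eq_of_lt (by omega)
  have m3 : 3 % 2 ^ w = 3 := Nat.mod_eq_of_lt (by omega)
  unfold gval
  set I : ℕ → Data → Prop := fun j y => y.mem = x.mem ∧
    (∀ r, r ∉ [67, 68, 69, 70, 71, 72, 73] → y.reg r = x.reg r) ∧ y.reg 68 = 3 + j ∧
    y.reg 69 = L.length - j ∧ gnum L Y ≤ y.reg 67 ∧ y.reg 67 ≤ n + 1 ∧
    ∀ t, ∀ h : t < L.length, t < j → (⟨i, hi⟩ : Fin n) ∈ L[t] →
      y.reg 67 ≤ gnum L (Y \ L[t]) + 1 with hI
  refine Runs.seq (T1 := 3) (T2 := 17 * L.length + 1) (R := I 0) ?_ ?_ (by omega)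
  · refine Runs.block _ (by simp) ⟨by simp [Op.run], ?_, ?_, ?_, ?_, ?_, ?_⟩
    · intro r hr
      simp only [List.mem_cons, List.not_mem_nil, or_false, not_or] at hr
      simp [Op.run, Function.update_apply, hr]
    · simp [Op.run, Function.update_apply, m3]
    · simp [Op.run, Function.update_apply, h2]
    · simp only [List.foldl, Op.run, Function.update_apply, Nat.reduceEqDiff, if_false, if_true]
      rw [h1, h40, m1]
      exact hG3 Y
    · simp only [List.foldl, Op.run, Function.update_apply, Nat.reduceEqDiff, if_false, if_true]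
      rw [h1, h40, m1]
    · intro t ht ht0
      omega
  · intro y hy
    refine Runs.loop L.length 15 I hy ?_ ?_ ?_ (by omega) ?_
    · intro j hj z hz
      have := hz.2.2.2.1
      omega
    · intro z hz
      have := hz.2.2.2.1
      omega
    · intro j hj z hz
      obtain ⟨zm, zr, z68, z69, zlo, zhi, zall⟩ := hz
      obtain ⟨A, hA⟩ : ∃ A, A = L[j] := ⟨_, rfl⟩
      have hset : x.mem (3 + j) = mask A := by rw [hA]; exact hE.set j hj
      obtain ⟨a1, a2, a3, a4, a5, a6, a7, a8, a9, a10, a11⟩ := hM n Y A
      have b10 := (hM n A A).2.2.2.2.2.2.2.2.2.1 ⟨i, hi⟩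
      have hltYA : mask (Y \ A) < 2 ^ n := (hM n (Y \ A) A).2.2.2.2.2.2.2.1
      refine Runs.seq (T1 := 2) (T2 := 13)
        (R := fun u => u.mem = x.mem ∧
          (∀ r, r ∉ [67, 68, 69, 70, 71, 72, 73] → u.reg r = x.reg r) ∧ u.reg 68 = 3 + j ∧
          u.reg 69 = L.length - j ∧ u.reg 67 = z.reg 67 ∧ u.reg 70 = mask A ∧
          (u.reg 71 ≠ 0 ↔ (⟨i, hi⟩ : Fin n) ∈ A)) ?_ ?_ (by omega)
      · refine Runs.block _ (by simp) ⟨by simp [Op.run, zm], ?_, ?_, ?_, ?_, ?_, ?_⟩
        · intro r hr
          have := zr r hr
          simp only [List.mem_cons, List.not_mem_nil, or_false, not_or] at hr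
          simp [Op.run, Function.update_apply, hr, this]
        · simp [Op.run, Function.update_apply, z68]
        · simp [Op.run, Function.update_apply, z69]
        · simp [Op.run, Function.update_apply]
        · simp [Op.run, Function.update_apply, zm, z68, hset]
        · rw [← b10]
          have z60 : z.reg 60 = 2 ^ i := by rw [zr 60 (by decide), h60]
          simp [Op.run, Function.update_apply, zm, z68, hset, z60]
      rintro u ⟨um, ur, u68, u69, u67, u70, u71⟩
      have u17 : u.reg 17 = mask Y := by rw [ur 17 (by decide), h17]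
      have u6 : u.reg 6 = L.length + 3 := by rw [ur 6 (by decide), h6]
      have u40 : u.reg 40 = 1 := by rw [ur 40 (by decide), h40]
      refine Runs.seq (T1 := 11) (T2 := 2)
        (R := fun v => v.mem = x.mem ∧
          (∀ r, r ∉ [67, 68, 69, 70, 71, 72, 73] → v.reg r = x.reg r) ∧ v.reg 68 = 3 + j ∧
          v.reg 69 = L.length - j ∧ gnum L Y ≤ v.reg 67 ∧ v.reg 67 ≤ n + 1 ∧
          ∀ t, ∀ h : t < L.length, t < j + 1 → (⟨i, hi⟩ : Fin n) ∈ L[t] →
            v.reg 67 ≤ gnum L (Y \ L[t]) + 1) (Runs.ite (T1 := 9) ?_ ?_ (by omega)) ?_ (by omega)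
      · intro hne
        have hiA := u71.1 hne
        have hAL : A ∈ L := by rw [hA]; exact List.getElem_mem hj
        have hmem := htab A hAL hiA
        have hgle := hG3 (Y \ A)
        have e1 : (L.length + 3 + mask (Y \ A)) % 2 ^ w = L.length + 3 + mask (Y \ A) :=
          Nat.mod_eq_of_lt (by omega)
        have e2 : (gnum L (Y \ A) + 1) % 2 ^ w = gnum L (Y \ A) + 1 := Nat.mod_eq_of_lt (by omega)
        have hupA := hup A hAL hiA
        refine Runs.seq (T1 := 6) (T2 := 3)
          (R := fun v => v.mem = x.mem ∧
            (∀ r, r ∉ [67, 68, 69, 70, 71, 72, 73] → v.reg r = x.reg r) ∧ v.reg 68 = 3 + j ∧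
            v.reg 69 = L.length - j ∧ v.reg 67 = z.reg 67 ∧ v.reg 72 = gnum L (Y \ A) + 1 ∧
            v.reg 73 = z.reg 67 - (gnum L (Y \ A) + 1)) ?_ ?_ (by omega)
        · refine Runs.block _ (by simp) ⟨by simp [Op.run, um], ?_, ?_, ?_, ?_, ?_, ?_⟩
          · intro r hr
            have := ur r hr
            simp only [List.mem_cons, List.not_mem_nil, or_false, not_or] at hr
            simp [Op.run, Function.update_apply, hr, this]
          · simp [Op.run, Function.update_apply, u68]
          · simp [Op.run, Function.update_apply, u69]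
          · simp [Op.run, Function.update_apply, u67]
          · simp [Op.run, Function.update_apply, um, u17, u70, u6, u40, a1, a3, e1, hmem, e2]
          · simp [Op.run, Function.update_apply, um, u17, u70, u6, u40, a1, a3, e1, hmem, e2, u67]
        rintro v ⟨vm, vr, v68, v69, v67, v72, v73⟩
        refine Runs.ite (T1 := 1) ?_ ?_ (by omega)
        · intro hne73
          have hlt : gnum L (Y \ A) + 1 < z.reg 67 := by omega
          refine Runs.block _ (by simp) ⟨by simp [Op.run, vm], ?_, ?_, ?_, ?_, ?_, ?_⟩
          · intro r hr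
            have := vr r hr
            simp only [List.mem_cons, List.not_mem_nil, or_false, not_or] at hr
            simp [Op.run, Function.update_apply, hr, this]
          · simp [Op.run, Function.update_apply, v68]
          · simp [Op.run, Function.update_apply, v69]
          · simp [Op.run, Function.update_apply, v72]
            exact hupA
          · simp [Op.run, Function.update_apply, v72]
            omega
          · intro t ht htj hit
            simp only [List.foldl, Op.run, Function.update_apply, Nat.or_self, if_true]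
            rw [v72]
            rcases Nat.lt_or_ge t j with h | h
            · have := zall t ht h hit
              omega
            · have htj' : t = j := by omega
              subst htj'
              rw [hA]
        · intro heq73
          have hge : z.reg 67 ≤ gnum L (Y \ A) + 1 := by omega
          refine Runs.skip ⟨vm, vr, v68, v69, by rw [v67]; exact zlo, by rw [v67]; exact zhi, ?_⟩
          intro t ht htj hit
          rw [v67]
          rcases Nat.lt_or_ge t j with h | h
          · exact zall t ht h hit
          · have htj' : t = j := by omega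
            subst htj'
            rw [← hA]
            exact hge
      · intro heq
        have hiA : (⟨i, hi⟩ : Fin n) ∉ A := fun h => u71.2 h heq
        refine Runs.skip ⟨um, ur, u68, u69, by rw [u67]; exact zlo, by rw [u67]; exact zhi, ?_⟩
        intro t ht htj hit
        rw [u67]
        rcases Nat.lt_or_ge t j with h | h
        · exact zall t ht h hit
        · exfalso
          have htj' : t = j := by omega
          subst htj'
          rw [← hA] at hit
          exact hiA hit
      rintro v ⟨vm, vr, v68, v69, vlo, vhi, vall⟩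
      have v40 : v.reg 40 = 1 := by rw [vr 40 (by decide), h40]
      refine Runs.block _ (by simp) ⟨by simp [Op.run, vm], ?_, ?_, ?_, ?_, ?_, ?_⟩
      · intro r hr
        have := vr r hr
        simp only [List.mem_cons, List.not_mem_nil, or_false, not_or] at hr
        simp [Op.run, Function.update_apply, hr, this]
      · simp only [List.foldl, Op.run, Function.update_apply, Nat.reduceEqDiff, if_false, if_true]
        rw [v68, v40, Nat.mod_eq_of_lt (by omega)]
        ring
      · simp only [List.foldl, Op.run, Function.update_apply, Nat.reduceEqDiff, if_false, if_true]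
        rw [v69, v40]
        omega
      · simpa [Op.run, Function.update_apply] using vlo
      · simpa [Op.run, Function.update_apply] using vhi
      · simpa [Op.run, Function.update_apply] using vall
    · intro z hz
      obtain ⟨zm, zr, z68, z69, zlo, zhi, zall⟩ := hz
      refine ⟨zm, zr, ?_⟩
      rcases hlow with h | ⟨A, hAL, hiA, h⟩
      · omega
      · obtain ⟨t, ht, hAt⟩ := List.mem_iff_getElem.1 hAL
        rw [← hAt] at hiA h
        have := zall t ht ht hiA
        omega

end SCR
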