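import Pool.Agent.Lib.SCR.DRows
import Pool.Agent.Lib.SCR.MA

/-!
# Row DP6: the mask of the elements with a given bit
-/

namespace SCR

open Op Stmt

/-- The elements below `j` with bit `i`. -/
def bitSetLt (n i j : ℕ) : Finset (Fin n) :=
  Finset.univ.filter fun u => (u : ℕ) < j ∧ (u : ℕ).testBit i = true

lemma bitSetLt_zero (n i : ℕ) : bitSetLt n i 0 = ∅ := by
  simp [bitSetLt]

lemma bitSetLt_top (n i : ℕ) : bitSetLt n i n = bitSet n i := by
  ext u
  simp [bitSetLt, bitSet]

lemma mask_bitSetLt_succ (n i j : ℕ) (hj : j < n) :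
    mask (bitSetLt n i (j + 1)) = mask (bitSetLt n i j) + if j.testBit i then 2 ^ j else 0 := by
  split_ifs with h
  · have : bitSetLt n i (j + 1) = insert ⟨j, hj⟩ (bitSetLt n i j) := by
      ext u
      simp only [bitSetLt, Finset.mem_filter, Finset.mem_univ, true_and, Finset.mem_insert, Fin.ext_iff]
      constructor
      · rintro ⟨h1, h2⟩
        by_cases h3 : (u : ℕ) = j
        · exact Or.inl h3
        · exact Or.inr ⟨by omega, h2⟩
      · rintro (h1 | ⟨h1, h2⟩)
        · rw [h1]; exact ⟨by omega, h⟩
        · exact ⟨by omega, h2⟩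
    rw [this, mask, Finset.sum_insert (by simp [bitSetLt]), add_comm]
    rfl
  · have : bitSetLt n i (j + 1) = bitSetLt n i j := by
      ext u
      simp only [bitSetLt, Finset.mem_filter, Finset.mem_univ, true_and]
      constructor
      · rintro ⟨h1, h2⟩
        refine ⟨?_, h2⟩
        by_contra h3
        have : (u : ℕ) = j := by omega
        rw [this] at h2
        exact h h2
      · rintro ⟨h1, h2⟩
        exact ⟨by omega, h2⟩
    rw [this, add_zero]

theorem bitMaskSpec : BitMaskSpec := by
  intro w n i x h1 h40 h75 hin hw hn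
  unfold bitMask
  refine Runs.seq (T1 := 4) (T2 := 9 * n + 1)
    (R := fun y => y.mem = x.mem ∧ (∀ r, r ∉ [74, 76, 77, 78, 79] → y.reg r = x.reg r) ∧
      y.reg 74 = 0 ∧ y.reg 76 = 0 ∧ y.reg 77 = 1 ∧ y.reg 78 = n) ?_ ?_ (by omega)
  · refine Runs.block _ (by simp) ?_
    have h2 : 1 % 2 ^ w = 1 := Nat.mod_eq_of_lt (by omega)
    refine ⟨by simp [Op.run], ?_, ?_⟩
    · intro r hr
      simp only [List.mem_cons, List.not_mem_nil, or_false, not_or] at hr
      simp [Op.run, Function.update_apply, hr]
    · simp [Op.run, Function.update_apply, h2, h1]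
  · rintro y ⟨hm, hr, h74, h76, h77, h78⟩
    refine Runs.loop n 7 (fun j z => z.mem = x.mem ∧
      (∀ r, r ∉ [74, 76, 77, 78, 79] → z.reg r = x.reg r) ∧
      z.reg 74 = mask (bitSetLt n i j) ∧ z.reg 76 = j ∧ z.reg 77 = 2 ^ j ∧ z.reg 78 = n - j)
      ⟨hm, hr, by rw [h74, bitSetLt_zero]; simp [mask], by simp [h76], by simp [h77], by simp [h78]⟩
      ?_ ?_ ?_ (by omega) ?_
    · rintro j hj z ⟨_, _, _, _, _, h⟩
      omega
    · rintro z ⟨_, _, _, _, _, h⟩
      omega
    · rintro j hj z ⟨zm, zr, z74, z76, z77, z78⟩
      have f75 : z.reg 75 = 2 ^ i := by rw [zr 75 (by decide), h75]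
      have f40 : z.reg 40 = 1 := by rw [zr 40 (by decide), h40]
      have p2 : 2 ^ j + 2 ^ j < 2 ^ w := by
        have : 2 ^ (j + 1) ≤ 2 ^ n := Nat.pow_le_pow_right (by norm_num) hj
        rw [pow_succ] at this
        omega
      have sM := mask_bitSetLt_succ n i j hj
      have sL : mask (bitSetLt n i (j + 1)) < 2 ^ w := (maskLt n _).trans hw
      refine Runs.seq (T1 := 1) (T2 := 6)
        (R := fun v => v.mem = x.mem ∧ (∀ r, r ∉ [74, 76, 77, 78, 79] → v.reg r = x.reg r) ∧
        v.reg 74 = mask (bitSetLt n i j) ∧ v.reg 76 = j ∧ v.reg 77 = 2 ^ j ∧ v.reg 78 = n - j ∧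
        v.reg 79 = j &&& 2 ^ i) ?_ ?_ (by omega)
      · refine Runs.block _ (by simp) ⟨by simp [Op.run, zm], ?_, ?_⟩
        · intro r hr
          have := zr r hr
          simp only [List.mem_cons, List.not_mem_nil, or_false, not_or] at hr
          simp [Op.run, Function.update_apply, hr, this]
        · simp [Op.run, Function.update_apply, z74, z76, z77, z78, f75]
      rintro v ⟨vm, vr, v74, v76, v77, v78, v79⟩
      refine Runs.seq (T1 := 3) (T2 := 3)
        (R := fun v => v.mem = x.mem ∧ (∀ r, r ∉ [74, 76, 77, 78, 79] → v.reg r = x.reg r) ∧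
        v.reg 74 = mask (bitSetLt n i (j + 1)) ∧ v.reg 76 = j ∧ v.reg 77 = 2 ^ j ∧ v.reg 78 = n - j)
        ?_ ?_ (by omega)
      · refine Runs.ite (T1 := 1) ?_ ?_ (by omega)
        · intro h
          rw [v79, Nat.and_two_pow] at h
          have hb : j.testBit i = true := by
            by_contra hc
            rw [Bool.not_eq_true] at hc
            simp [hc] at h
          rw [if_pos hb] at sM
          refine Runs.block _ (by simp) ⟨by simp [Op.run, vm], ?_, ?_⟩
          · intro r hr
            have := vr r hr
            simp only [List.mem_cons, List.not_mem_nil, or_false, not_or] at hr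
            simp [Op.run, Function.update_apply, hr, this]
          · simp only [List.foldl, Op.run, Function.update_apply]
            simp only [v74, v76, v77, v78]
            refine ⟨?_, by simp, by simp, by simp⟩
            simp only [if_true]
            rw [sM] at sL ⊢
            exact Nat.mod_eq_of_lt sL
        · intro h
          rw [v79, Nat.and_two_pow] at h
          have hb : ¬ (j.testBit i = true) := by
            intro hc
            simp [hc] at h
          rw [if_neg hb, add_zero] at sM
          exact Runs.skip ⟨vm, vr, by rw [sM]; exact v74, v76, v77, v78⟩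
      rintro u ⟨um, ur, u74, u76, u77, u78⟩
      have g40 : u.reg 40 = 1 := by rw [ur 40 (by decide), h40]
      refine Runs.block _ (by simp) ⟨by simp [Op.run, um], ?_, ?_⟩
      · intro r hr
        have := ur r hr
        simp only [List.mem_cons, List.not_mem_nil, or_false, not_or] at hr
        simp [Op.run, Function.update_apply, hr, this]
      · simp only [List.foldl, Op.run, Function.update_apply]
        simp only [u74, u76, u77, u78, g40]
        refine ⟨by simp, ?_, ?_, ?_⟩
        · simp
          exact Nat.mod_eq_of_lt (by omega)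
        · simp
          rw [Nat.mod_eq_of_lt p2]
          ring
        · simp
          omega
    · rintro z ⟨zm, zr, z74, -, -, -⟩
      rw [bitSetLt_top] at z74
      exact ⟨zm, zr, z74⟩

end SCR
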