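import Pool.Agent.Lib.SCR.DRows

/-!
# Row DP7: the list of masks
-/

set_option linter.unusedSimpArgs false

namespace SCR

open Finset

theorem rowDP7 (h6 : BitMaskSpec) (hA : MaskAlg) (hZ : ZLSpec) : ZListSpec := by
  intro w n k b L x hF hE
  obtain ⟨m, hm⟩ : ∃ m, m = L.length := ⟨_, rfl⟩
  obtain ⟨P, hP⟩ : ∃ P, P = 2 ^ n := ⟨_, rfl⟩
  obtain ⟨W, hW⟩ : ∃ W, W = 2 ^ w := ⟨_, rfl⟩
  obtain ⟨B, hB⟩ : ∃ B, B = x.reg 51 := ⟨_, rfl⟩
  have hnP : n < P := by rw [hP]; exact Nat.lt_two_pow_self
  have hsp : m + 3 + 4 * P + 8 * (n + 1) + 10 * b + 100 ≤ W := by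
    have h1 := hF.space
    rw [← hm, ← hP, ← hW] at h1
    exact h1
  have hBP : B = m + 3 + P + P + P + P := by rw [hB, hE.r51, ← hm, ← hP]
  have e1 : x.reg 1 = n := hE.env.r1
  have e5 : x.reg 5 = P - 1 := by rw [hE.env.r5, hP]
  have e40 : x.reg 40 = 1 := hE.env.r40
  have c0 : 0 % W = 0 := Nat.zero_mod _
  have c1 : 1 % W = 1 := Nat.mod_eq_of_lt (by omega)
  have c2 : 2 % W = 2 := Nat.mod_eq_of_lt (by omega)
  have hlen : ∀ i, (zL n i).length = 2 ^ (i + 1) := fun i => (hZ n i).1
  have hclog : ∀ j, j < Nat.clog 2 n → 2 ^ j < n := fun j hj =>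
    (Nat.lt_clog_iff_pow_lt (by norm_num)).1 hj
  have hclog' : n ≤ 2 ^ Nat.clog 2 n := Nat.le_pow_clog (by norm_num) n
  have hclogn : Nat.clog 2 n ≤ n := Nat.clog_le_of_le_pow Nat.lt_two_pow_self.le
  set I : ℕ → Data → Prop := fun i y =>
    (∀ r, r ∉ [58, 59, 60, 61, 63, 64, 65, 66, 67, 68, 74, 75, 76, 77, 78, 79] → y.reg r = x.reg r) ∧
    y.reg 58 = 2 ^ (i + 1) ∧ y.reg 75 = 2 ^ i ∧ y.reg 59 = n - 2 ^ i ∧
    ListAt B (zL n i) y.mem ∧ ∀ a < B, y.mem a = x.mem a with hI
  unfold zList
  refine Runs.seq (T1 := 7) (T2 := n * (9 * n + 60 * (n + 1)) + 3) (R := I 0)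
    (Runs.block _ (by simp) ?_) ?_ (by omega)
  · have f1 : (B + 1) % W = B + 1 := Nat.mod_eq_of_lt (by omega)
    refine ⟨?_, ?_, ?_, ?_, ?_, ?_⟩
    · intro r hr
      simp only [List.mem_cons, List.not_mem_nil, or_false, not_or] at hr
      simp [Op.run, Function.update_apply, hr]
    · simp [Op.run, Function.update_apply, ← hW, c2]
    · simp [Op.run, Function.update_apply, ← hW, c1]
    · simp [Op.run, Function.update_apply, ← hW, c1, e1]
    · intro p hp
      have hp2 : p < 2 := by simpa [hlen] using hp
      have m0 : mask (∅ : Finset (Fin n)) = 0 := by simp [mask]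
      have m1 : mask (univ : Finset (Fin n)) = P - 1 := by rw [hP]; exact (hA n ∅ ∅).2.2.2.2.2.2.1
      interval_cases p
      · simp [zL, Op.run, Function.update_apply, ← hW, c0, e40, ← hB, f1, m0]
      · simp [zL, Op.run, Function.update_apply, ← hW, c0, e40, ← hB, f1, m1, e5]
    · intro a ha
      simp only [List.foldl, Op.run, Function.update_apply]
      simp [← hW, e40, ← hB, f1]
      rw [if_neg (by omega), if_neg (by omega)]
  · intro y hy
    refine Runs.loop (Nat.clog 2 n) (9 * n + 6 + (3 + ((20 * n + 1) + 3))) I hy ?_ ?_ ?_ ?_ ?_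
    · rintro j hj z ⟨_, _, _, h, _, _⟩
      have := hclog j hj
      omega
    · rintro z ⟨_, _, _, h, _, _⟩
      omega
    · rintro i hi z ⟨zr, z58, z75, z59, zl, zm⟩
      have hin := hclog i hi
      have hi2 : 2 ^ (i + 1) = 2 ^ i + 2 ^ i := by ring
      have hi3 : 2 ^ (i + 1 + 1) = 2 ^ (i + 1) + 2 ^ (i + 1) := by ring
      unfold zRound
      refine Runs.seq (h6 w n i z (by rw [zr 1 (by decide), e1]) (by rw [zr 40 (by decide), e40]) z75
        hin.le (by rw [← hP, ← hW]; omega) (by rw [← hW]; omega)) ?_ le_rfl
      rintro u ⟨um, ur, u74⟩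
      have ur' : ∀ r, r ∉ [58, 59, 60, 61, 63, 64, 65, 66, 67, 68, 74, 75, 76, 77, 78, 79] →
          u.reg r = x.reg r := by
        intro r hr
        rw [← zr r hr]
        apply ur
        intro h
        apply hr
        revert h
        simp only [List.mem_cons, List.not_mem_nil, or_false]
        omega
      have u58 : u.reg 58 = 2 ^ (i + 1) := by rw [ur 58 (by decide), z58]
      have u75 : u.reg 75 = 2 ^ i := by rw [ur 75 (by decide), z75]
      have u51 : u.reg 51 = B := by rw [ur' 51 (by decide), hB]
      set K : ℕ → Data → Prop := fun p v =>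
        (∀ r, r ∉ [58, 59, 60, 61, 63, 64, 65, 66, 67, 68, 74, 75, 76, 77, 78, 79] →
          v.reg r = x.reg r) ∧
        v.reg 58 = 2 ^ (i + 1) ∧ v.reg 75 = 2 ^ i ∧ v.reg 74 = mask (bitSet n i) ∧
        v.reg 63 = B + p ∧ v.reg 64 = 2 ^ (i + 1) - p ∧ v.reg 65 = B + 2 ^ (i + 1) + p ∧
        (∀ q (_ : q < 2 ^ (i + 1) + p) (h : q < (zL n (i + 1)).length),
          v.mem (B + q) = mask (zL n (i + 1))[q]) ∧
        (∀ a < B, v.mem a = x.mem a) with hK
      have hget1 : ∀ q (h : q < (zL n i).length) (h' : q < (zL n (i + 1)).length),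
          (zL n (i + 1))[q] = (zL n i)[q] := by
        intro q h h'
        simp only [zL]
        rw [List.getElem_append_left h]
      have hget2 : ∀ q (h : q < (zL n i).length) (h' : 2 ^ (i + 1) + q < (zL n (i + 1)).length),
          (zL n (i + 1))[2 ^ (i + 1) + q] = symmDiff (zL n i)[q] (bitSet n i) := by
        intro q h h'
        simp only [zL]
        rw [List.getElem_append_right (by rw [hlen]; omega)]
        simp only [List.getElem_map, hlen, Nat.add_sub_cancel_left]
      refine Runs.seq (T1 := 3) (T2 := (20 * n + 1) + 3) (R := K 0) (Runs.block _ (by simp) ?_) ?_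
        le_rfl
      · have f1 : (B + 2 ^ (i + 1)) % W = B + 2 ^ (i + 1) := Nat.mod_eq_of_lt (by omega)
        refine ⟨?_, ?_, ?_, ?_, ?_, ?_, ?_, ?_, ?_⟩
        · intro r hr
          have := ur' r hr
          simp only [List.mem_cons, List.not_mem_nil, or_false, not_or] at hr
          simp [Op.run, Function.update_apply, hr, this]
        · simp [Op.run, Function.update_apply, u58]
        · simp [Op.run, Function.update_apply, u75]
        · simp [Op.run, Function.update_apply, u74]
        · simp [Op.run, Function.update_apply, u51]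
        · simp [Op.run, Function.update_apply, u58]
        · simp [Op.run, Function.update_apply, u58, u51, ← hW, f1]
        · intro q hq h
          have hq' : q < (zL n i).length := by rw [hlen]; omega
          rw [hget1 q hq' h, ← zl q hq']
          simp [Op.run, Function.update_apply, um]
        · intro a ha
          simp [Op.run, Function.update_apply, um, zm a ha]
      · intro v hv
        refine Runs.seq (T1 := 20 * n + 1) (T2 := 3) (R := K (2 ^ (i + 1)))
          (Runs.loop (2 ^ (i + 1)) 8 K hv ?_ ?_ ?_ (by omega) (fun _ h => h)) ?_ le_rfl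
        · rintro p hp t ⟨_, _, _, _, _, h, _⟩
          omega
        · rintro t ⟨_, _, _, _, _, h, _⟩
          omega
        · rintro p hp t ⟨tr, t58, t75, t74, t63, t64, t65, tl, tm⟩
          have hp' : p < (zL n i).length := by rw [hlen]; exact hp
          have hp'' : p < (zL n (i + 1)).length := by rw [hlen]; omega
          have hp3 : 2 ^ (i + 1) + p < (zL n (i + 1)).length := by rw [hlen]; omega
          have t40 : t.reg 40 = 1 := by rw [tr 40 (by decide), e40]
          have g1 : t.mem (B + p) = mask (zL n i)[p] := by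
            rw [tl p (by omega) hp'', hget1 p hp' hp'']
          obtain ⟨a1, a2, -, a3, -⟩ := hA n (zL n i)[p] (bitSet n i)
          have f1 : (B + 2 ^ (i + 1) + p + 1) % W = B + 2 ^ (i + 1) + p + 1 :=
            Nat.mod_eq_of_lt (by omega)
          have f2 : (B + p + 1) % W = B + p + 1 := Nat.mod_eq_of_lt (by omega)
          refine Runs.block _ (by simp) ?_
          refine ⟨?_, ?_, ?_, ?_, ?_, ?_, ?_, ?_, ?_⟩
          · intro r hr
            have := tr r hr
            simp only [List.mem_cons, List.not_mem_nil, or_false, not_or] at hr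
            simp [Op.run, Function.update_apply, hr, this]
          · simp [Op.run, Function.update_apply, t58]
          · simp [Op.run, Function.update_apply, t75]
          · simp [Op.run, Function.update_apply, t74]
          · simp [Op.run, Function.update_apply, t63, t40, ← hW, f2]
            omega
          · simp [Op.run, Function.update_apply, t64, t40]
            omega
          · simp [Op.run, Function.update_apply, t65, t40, ← hW, f1]
            omega
          · intro q hq h
            have key : (List.foldl (fun x o => Op.run w o x) t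
                [Op.load 66 63, Op.or 67 66 74, Op.and 68 66 74, Op.sub 67 67 68, Op.store 65 67,
                  Op.add 65 65 40, Op.add 63 63 40, Op.sub 64 64 40]).mem =
                Function.update t.mem (B + 2 ^ (i + 1) + p)
                  (mask (symmDiff (zL n i)[p] (bitSet n i))) := by
              simp [List.foldl, Op.run, Function.update_apply, t63, t64, t65, t40, t74, g1, a1, a2, a3]
            rw [key, Function.update_apply]
            by_cases hqp : q = 2 ^ (i + 1) + p
            · subst hqp
              rw [if_pos (by omega), hget2 p hp' hp3]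
            · rw [if_neg (by omega)]
              exact tl q (by omega) h
          · intro a ha
            rw [← tm a ha]
            simp only [List.foldl, Op.run, Function.update_apply]
            simp [t65]
            intro h
            omega
        · rintro t ⟨tr, t58, t75, t74, t63, t64, t65, tl, tm⟩
          have f1 : (2 ^ (i + 1) + 2 ^ (i + 1)) % W = 2 ^ (i + 1 + 1) := by
            rw [Nat.mod_eq_of_lt (by omega), hi3]
          have f2 : (2 ^ i + 2 ^ i) % W = 2 ^ (i + 1) := by
            rw [Nat.mod_eq_of_lt (by omega), hi2]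
          have t1 : t.reg 1 = n := by rw [tr 1 (by decide), e1]
          refine Runs.block _ (by simp) ?_
          refine ⟨?_, ?_, ?_, ?_, ?_, ?_⟩
          · intro r hr
            have := tr r hr
            simp only [List.mem_cons, List.not_mem_nil, or_false, not_or] at hr
            simp [Op.run, Function.update_apply, hr, this]
          · simp [Op.run, Function.update_apply, t58, ← hW, f1]
          · simp [Op.run, Function.update_apply, t75, ← hW, f2]
          · simp [Op.run, Function.update_apply, t75, ← hW, f2, t1]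
          · intro p hp
            rw [← tl p (by rw [hlen] at hp; omega) hp]
            simp [Op.run, Function.update_apply]
          · intro a ha
            rw [← tm a ha]
            simp [Op.run, Function.update_apply]
    · have h1 : Nat.clog 2 n * (9 * n + 6 + (3 + ((20 * n + 1) + 3)) + 2) ≤
          n * (9 * n + 6 + (3 + ((20 * n + 1) + 3)) + 2) := Nat.mul_le_mul_right _ hclogn
      have h2 : n * (9 * n + 6 + (3 + ((20 * n + 1) + 3)) + 2) ≤ n * (9 * n + 60 * (n + 1)) :=
        Nat.mul_le_mul_left _ (by omega)
      omega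
    · rintro z ⟨zr, z58, z75, z59, zl, zm⟩
      exact ⟨zr, by rw [z58, hlen], by rw [← hB]; exact zl, by rw [← hB]; exact zm⟩

end SCR
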