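import Pool.Agent.Lib.SCR.DRows

/-!
# Row DP8: the loop over the sets `Z` (helper27)
-/

set_option linter.unusedSimpArgs false

namespace SCR

open Op Stmt Finset

lemma vmin_take_succ {n : ℕ} (L : List (Finset (Fin n))) (d : ℕ) (lz : List (Finset (Fin n)))
    (X : Finset (Fin n)) (j : ℕ) (hj : j < lz.length) :
    vmin L d (lz.take (j + 1)) X = if (X \ lz[j]).card ≤ d then
      min (vmin L d (lz.take j) X) (gnum L (X \ lz[j]) + gnum L (X ∩ lz[j]))
      else vmin L d (lz.take j) X := by
  unfold vmin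
  rw [List.take_succ_eq_append_getElem hj, List.foldl_append]
  rfl

/-- The conditional update of one of the two minima. -/
lemma minStep {n w : ℕ} (L : List (Finset (Fin n))) (D v s c : ℕ) (x : Data) (Y Y' : Finset (Fin n))
    (hvsc : (v, s, c) ∈ [(89, 18, 94), (90, 16, 95)]) (h97 : x.reg 97 = D + 1 - Y.card)
    (hs : x.reg s = mask Y) (hc : x.reg c = mask Y') (h6 : x.reg 6 = L.length + 3)
    (hT : TabD L D x.mem) (hY' : Y'.card ≤ D) (hg : ∀ Y, gnum L Y ≤ n + 1)
    (hm : ∀ Y : Finset (Fin n), mask Y < 2 ^ n) (hw1 : L.length + 3 + 2 ^ n < 2 ^ w)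
    (hw2 : 2 * (n + 1) < 2 ^ w) :
    Runs w (ite 97 (seq (block [add 97 6 s, load 97 97, add 98 6 c, load 98 98, add 97 97 98, sub 98 v 97]) <|
        ite 98 (block [or v 97 97]) skip) skip) x 11 (fun y => y.mem = x.mem ∧
      (∀ r, r ∉ [v, 97, 98] → y.reg r = x.reg r) ∧
      y.reg v = if Y.card ≤ D then min (x.reg v) (gnum L Y + gnum L Y') else x.reg v) := by
  have e1 : (L.length + 3 + mask Y) % 2 ^ w = L.length + 3 + mask Y :=
    Nat.mod_eq_of_lt (by have := hm Y; omega)
  have e2 : (L.length + 3 + mask Y') % 2 ^ w = L.length + 3 + mask Y' :=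
    Nat.mod_eq_of_lt (by have := hm Y'; omega)
  have e3 : (gnum L Y + gnum L Y') % 2 ^ w = gnum L Y + gnum L Y' :=
    Nat.mod_eq_of_lt (by have := hg Y; have := hg Y'; omega)
  have t2 := hT Y' hY'
  refine Runs.ite (T1 := 9) ?_ ?_ (by omega)
  · intro hne
    have hYD : Y.card ≤ D := by
      rw [h97] at hne
      omega
    have t1 := hT Y hYD
    refine Runs.seq (T1 := 6) (T2 := 3) (R := fun y => y.mem = x.mem ∧
      (∀ r, r ∉ [97, 98] → y.reg r = x.reg r) ∧ y.reg 97 = gnum L Y + gnum L Y' ∧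
      y.reg 98 = x.reg v - (gnum L Y + gnum L Y')) ?_ ?_ (by omega)
    · refine Runs.block _ (by simp) ⟨by simp [Op.run], ?_, ?_, ?_⟩
      · intro r hr
        simp only [List.mem_cons, List.not_mem_nil, or_false, not_or] at hr
        simp [Op.run, hr]
      · simp only [List.mem_cons, Prod.mk.injEq, List.not_mem_nil, or_false] at hvsc
        rcases hvsc with ⟨rfl, rfl, rfl⟩ | ⟨rfl, rfl, rfl⟩ <;>
          simp [Op.run, Function.update_apply, h6, hs, hc, e1, e2, t1, t2, e3]
      · simp only [List.mem_cons, Prod.mk.injEq, List.not_mem_nil, or_false] at hvsc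
        rcases hvsc with ⟨rfl, rfl, rfl⟩ | ⟨rfl, rfl, rfl⟩ <;>
          simp [Op.run, Function.update_apply, h6, hs, hc, e1, e2, t1, t2, e3]
    · rintro y ⟨ym, yr, y97, y98⟩
      have hyv : y.reg v = x.reg v := by
        apply yr
        simp only [List.mem_cons, Prod.mk.injEq, List.not_mem_nil, or_false] at hvsc
        rcases hvsc with ⟨rfl, rfl, rfl⟩ | ⟨rfl, rfl, rfl⟩ <;> decide
      refine Runs.ite (T1 := 1) ?_ ?_ (by omega)
      · intro h98
        rw [y98] at h98
        refine Runs.block _ (by simp) ⟨by simp [Op.run, ym], ?_, ?_⟩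
        · intro r hr
          simp only [List.mem_cons, List.not_mem_nil, or_false, not_or] at hr
          simp only [List.foldl, Op.run, Function.update_apply]
          rw [if_neg hr.1]
          exact yr r (by simp [hr.2.1, hr.2.2])
        · rw [if_pos hYD, min_eq_right (by omega)]
          simp [Op.run, y97]
      · intro h98
        rw [y98] at h98
        refine Runs.skip ⟨ym, ?_, ?_⟩
        · intro r hr
          simp only [List.mem_cons, List.not_mem_nil, or_false, not_or] at hr
          exact yr r (by simp [hr.2.1, hr.2.2])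
        · rw [if_pos hYD, min_eq_left (by omega), hyv]
  · intro heq
    have hYD : ¬ Y.card ≤ D := by
      rw [h97] at heq
      omega
    exact Runs.skip ⟨rfl, fun _ _ => rfl, by rw [if_neg hYD]⟩

theorem minLoopSpec (hC : CountSpec) (hM : MaskAlg) (hG : Gnum) : MinLoopSpec := by
  intro w n k b L le lz zl x X X' hF hkn hE h86 h88
  obtain ⟨D, hD⟩ : ∃ D, D = max (n / 2 - n / b) (3 * (n / b)) := ⟨_, rfl⟩
  rw [← hD]
  have hD3 : 3 * (n / b) ≤ D := by rw [hD]; exact le_max_right _ _
  have hDn : D ≤ 3 * n := by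
    have := Nat.div_le_self n b
    rw [hD]
    exact max_le (by omega) (by omega)
  have hsp := hF.space
  have hsq := hF.sq
  have hpow : 0 < 2 ^ n := by positivity
  have hT : TabD L D x.mem := by
    rw [hD]
    exact hE.tab
  have r1 := hE.env.env.r1
  have r3 := hE.env.env.r3
  have r6 := hE.env.env.r6
  have r40 := hE.env.env.r40
  have r50 := hE.env.r50
  have r53 := hE.env.r53
  rw [← hD] at r53
  have r57 := hE.r57
  have hg : ∀ Y, gnum L Y ≤ n + 1 := (hG n L).2.2.1
  have hm : ∀ Y : Finset (Fin n), mask Y < 2 ^ n := fun Y => (hM n Y Y).2.2.2.2.2.2.2.1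
  have c1 : (n + 1) % 2 ^ w = n + 1 := Nat.mod_eq_of_lt (by omega)
  set I : ℕ → Data → Prop := fun j y => y.mem = x.mem ∧
    (∀ r, r ∉ [16, 18, 19, 20, 21, 22, 23, 26, 89, 90, 91, 92, 93, 94, 95, 96, 97, 98] → y.reg r = x.reg r) ∧
    y.reg 89 = vmin L D (lz.take j) X ∧ y.reg 90 = vmin L D (lz.take j) X' ∧
    y.reg 91 = L.length + 3 + 2 ^ n + 2 ^ n + 2 ^ n + j ∧ y.reg 92 = lz.length - j with hI
  unfold minLoop
  refine Runs.seq (T1 := 4) (T2 := (13 * n + 50) * lz.length + 1) (R := I 0) (Runs.block _ (by simp) ?_) ?_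
    (by omega)
  · rw [hI]
    refine ⟨by simp [Op.run], ?_, ?_, ?_, ?_, ?_⟩
    · intro r hr
      simp only [List.mem_cons, List.not_mem_nil, or_false, not_or] at hr
      simp [Op.run, hr]
    · simp [Op.run, Function.update_apply, r1, r40, c1, vmin]
    · simp [Op.run, Function.update_apply, r1, r40, c1, vmin]
    · simp [Op.run, Function.update_apply, r50]
    · simp [Op.run, Function.update_apply, r57]
  intro y hy
  refine Runs.loop lz.length (13 * n + 48) I hy ?_ ?_ ?_ (le_of_eq (by ring)) ?_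
  · rintro j hj z ⟨-, -, -, -, -, h⟩
    omega
  · rintro z ⟨-, -, -, -, -, h⟩
    omega
  · rintro j hj z ⟨zm, zr, z89, z90, z91, z92⟩
    have z1 : z.reg 1 = n := by rw [zr 1 (by decide), r1]
    have z3 : z.reg 3 = k := by rw [zr 3 (by decide), r3]
    have z6 : z.reg 6 = L.length + 3 := by rw [zr 6 (by decide), r6]
    have z40 : z.reg 40 = 1 := by rw [zr 40 (by decide), r40]
    have z53 : z.reg 53 = D := by rw [zr 53 (by decide), r53]
    have z86 : z.reg 86 = mask X := by rw [zr 86 (by decide), h86]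
    have z88 : z.reg 88 = mask X' := by rw [zr 88 (by decide), h88]
    have hlz : z.mem (L.length + 3 + 2 ^ n + 2 ^ n + 2 ^ n + j) = mask lz[j] := by
      rw [zm]
      exact hE.alz j hj
    obtain ⟨Z, hZ⟩ : ∃ Z, Z = lz[j] := ⟨_, rfl⟩
    have hZD : Z.card ≤ D := (hE.clz Z (by rw [hZ]; exact List.getElem_mem hj)).trans hD3
    rw [← hZ] at hlz
    have hXZ : (X ∩ Z).card ≤ D := (Finset.card_le_card Finset.inter_subset_right).trans hZD
    have hXZ' : (X' ∩ Z).card ≤ D := (Finset.card_le_card Finset.inter_subset_right).trans hZD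
    have a1 := hM n X Z
    have a2 := hM n X' Z
    refine Runs.seq (T1 := 5) (T2 := 13 * n + 40) (R := fun y => y.mem = x.mem ∧
      (∀ r, r ∉ [93, 94, 95, 16, 18] → y.reg r = z.reg r) ∧ y.reg 94 = mask (X ∩ Z) ∧
      y.reg 95 = mask (X' ∩ Z) ∧ y.reg 18 = mask (X \ Z) ∧ y.reg 16 = mask (X' \ Z))
      (Runs.block _ (by simp) ⟨by simp [Op.run, zm], ?_, ?_, ?_, ?_, ?_⟩) ?_ (by omega)
    · intro r hr
      simp only [List.mem_cons, List.not_mem_nil, or_false, not_or] at hr
      simp [Op.run, hr]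
    · simp [Op.run, Function.update_apply, z91, hlz, z86, a1.1]
    · simp [Op.run, Function.update_apply, z91, hlz, z88, a2.1]
    · simp [Op.run, Function.update_apply, z91, hlz, z86, a1.1, a1.2.2.1]
    · simp [Op.run, Function.update_apply, z91, hlz, z88, a2.1, a2.2.2.1]
    rintro u ⟨um, ur, u94, u95, u18, u16⟩
    have u1 : u.reg 1 = n := by rw [ur 1 (by decide), z1]
    have u3 : u.reg 3 = k := by rw [ur 3 (by decide), z3]
    have u40 : u.reg 40 = 1 := by rw [ur 40 (by decide), z40]
    refine Runs.seq (T1 := 13 * n + 6) (T2 := 34) (R := fun y => y.mem = x.mem ∧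
      (∀ r, r ∉ [19, 20, 21, 22, 23, 26] → y.reg r = u.reg r) ∧ y.reg 19 = (X \ Z).card ∧
      y.reg 20 = (X' \ Z).card)
      ((hC w n k (X \ Z) (X' \ Z) u u1 u3 u16 u18 u40 hkn hsq (by omega)).mono le_rfl
        (fun y hy => ⟨by rw [hy.1, um], hy.2.1, hy.2.2.1, hy.2.2.2.1⟩)) ?_ (by omega)
    rintro p ⟨pm, pr, p19, p20⟩
    have p53 : p.reg 53 = D := by rw [pr 53 (by decide), ur 53 (by decide), z53]
    have p40 : p.reg 40 = 1 := by rw [pr 40 (by decide), u40]
    have c2 : (D + 1) % 2 ^ w = D + 1 := Nat.mod_eq_of_lt (by omega)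
    refine Runs.seq (T1 := 2) (T2 := 32) (R := fun y => y.mem = x.mem ∧
      (∀ r, r ∉ [96, 97] → y.reg r = p.reg r) ∧ y.reg 96 = D + 1 ∧ y.reg 97 = D + 1 - (X \ Z).card)
      (Runs.block _ (by simp) ⟨by simp [Op.run, pm], ?_, ?_, ?_⟩) ?_ (by omega)
    · intro r hr
      simp only [List.mem_cons, List.not_mem_nil, or_false, not_or] at hr
      simp [Op.run, hr]
    · simp [Op.run, Function.update_apply, p53, p40, c2]
    · simp [Op.run, Function.update_apply, p53, p40, c2, p19]
    rintro q ⟨qm, qr, q96, q97⟩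
    have q18 : q.reg 18 = mask (X \ Z) := by rw [qr 18 (by decide), pr 18 (by decide), u18]
    have q94 : q.reg 94 = mask (X ∩ Z) := by rw [qr 94 (by decide), pr 94 (by decide), u94]
    have q6 : q.reg 6 = L.length + 3 := by
      rw [qr 6 (by decide), pr 6 (by decide), ur 6 (by decide), z6]
    have q89 : q.reg 89 = vmin L D (lz.take j) X := by
      rw [qr 89 (by decide), pr 89 (by decide), ur 89 (by decide), z89]
    refine Runs.seq (T1 := 11) (T2 := 20) (R := fun y => y.mem = x.mem ∧
      (∀ r, r ∉ [89, 97, 98] → y.reg r = q.reg r) ∧ y.reg 89 = vmin L D (lz.take (j + 1)) X)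
      ((minStep L D 89 18 94 q (X \ Z) (X ∩ Z) (by decide) q97 q18 q94 q6 (by rw [qm]; exact hT) hXZ
        hg hm (by omega) (by omega)).mono le_rfl (fun y hy => ⟨by rw [hy.1, qm], hy.2.1, by
          rw [hy.2.2, vmin_take_succ L D lz X j hj, ← hZ, q89]⟩)) ?_ (by omega)
    rintro a ⟨am, ar, a89⟩
    have a96 : a.reg 96 = D + 1 := by rw [ar 96 (by decide), q96]
    have a20 : a.reg 20 = (X' \ Z).card := by rw [ar 20 (by decide), qr 20 (by decide), p20]
    refine Runs.seq (T1 := 1) (T2 := 19) (R := fun y => y.mem = x.mem ∧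
      (∀ r, r ∉ [97] → y.reg r = a.reg r) ∧ y.reg 97 = D + 1 - (X' \ Z).card)
      (Runs.block _ (by simp) ⟨by simp [Op.run, am], ?_, ?_⟩) ?_ (by omega)
    · intro r hr
      simp only [List.mem_cons, List.not_mem_nil, or_false, not_or] at hr
      simp [Op.run, hr]
    · simp [Op.run, a96, a20]
    rintro d ⟨dm, dr, d97⟩
    have d16 : d.reg 16 = mask (X' \ Z) := by
      rw [dr 16 (by decide), ar 16 (by decide), qr 16 (by decide), pr 16 (by decide), u16]
    have d95 : d.reg 95 = mask (X' ∩ Z) := by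
      rw [dr 95 (by decide), ar 95 (by decide), qr 95 (by decide), pr 95 (by decide), u95]
    have d6 : d.reg 6 = L.length + 3 := by rw [dr 6 (by decide), ar 6 (by decide), q6]
    have d90 : d.reg 90 = vmin L D (lz.take j) X' := by
      rw [dr 90 (by decide), ar 90 (by decide), qr 90 (by decide), pr 90 (by decide), ur 90 (by decide), z90]
    have d89 : d.reg 89 = vmin L D (lz.take (j + 1)) X := by rw [dr 89 (by decide), a89]
    refine Runs.seq (T1 := 11) (T2 := 2) (R := fun y => y.mem = x.mem ∧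
      (∀ r, r ∉ [90, 97, 98] → y.reg r = d.reg r) ∧ y.reg 90 = vmin L D (lz.take (j + 1)) X')
      ((minStep L D 90 16 95 d (X' \ Z) (X' ∩ Z) (by decide) d97 d16 d95 d6 (by rw [dm]; exact hT) hXZ'
        hg hm (by omega) (by omega)).mono le_rfl (fun y hy => ⟨by rw [hy.1, dm], hy.2.1, by
          rw [hy.2.2, vmin_take_succ L D lz X' j hj, ← hZ, d90]⟩)) ?_ (by omega)
    rintro e ⟨em, er, e90⟩
    have e89 : e.reg 89 = vmin L D (lz.take (j + 1)) X := by rw [er 89 (by decide), d89]
    have e40 : e.reg 40 = 1 := by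
      rw [er 40 (by decide), dr 40 (by decide), ar 40 (by decide), qr 40 (by decide), p40]
    have e91 : e.reg 91 = L.length + 3 + 2 ^ n + 2 ^ n + 2 ^ n + j := by
      rw [er 91 (by decide), dr 91 (by decide), ar 91 (by decide), qr 91 (by decide), pr 91 (by decide),
        ur 91 (by decide), z91]
    have e92 : e.reg 92 = lz.length - j := by
      rw [er 92 (by decide), dr 92 (by decide), ar 92 (by decide), qr 92 (by decide), pr 92 (by decide),
        ur 92 (by decide), z92]
    have c3 : (L.length + 3 + 2 ^ n + 2 ^ n + 2 ^ n + j + 1) % 2 ^ w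
        = L.length + 3 + 2 ^ n + 2 ^ n + 2 ^ n + (j + 1) := by
      have := hE.slz
      rw [Nat.mod_eq_of_lt (by omega)]
      ring
    refine Runs.block _ (by simp) ⟨by simp [Op.run, em], ?_, ?_, ?_, ?_, ?_⟩
    · intro r hr
      simp only [List.mem_cons, List.not_mem_nil, or_false, not_or] at hr
      simp only [List.foldl, Op.run, Function.update_apply]
      obtain ⟨h16, h18, h19, h20, h21, h22, h23, h26, h89, h90, h91, h92, h93, h94, h95, h96, h97, h98⟩ := hr
      rw [if_neg h92, if_neg h91, er r (by simp [h90, h97, h98]), dr r (by simp [h97]),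
        ar r (by simp [h89, h97, h98]), qr r (by simp [h96, h97]), pr r (by simp [h19, h20, h21, h22, h23, h26]),
        ur r (by simp [h93, h94, h95, h16, h18]), zr r (by simp [*])]
    · simp [Op.run, e89]
    · simp [Op.run, e90]
    · simp [Op.run, e91, e40, c3]
    · simp [Op.run, e92, e40]
      omega
  · rintro z ⟨zm, zr, z89, z90, z91, z92⟩
    rw [List.take_length] at z89 z90
    exact ⟨zm, zr, z89, z90⟩

end SCR
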