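import Pool.Agent.Lib.SCR.DRows

/-!
# Rows DP9, DP10: the loops over the sets `E` and over the masks (helper27)
-/

set_option linter.unusedSimpArgs false

namespace SCR

open Op Stmt Finset

/-- The registers read by `EnvS`. -/
def envR : List ℕ := [1, 2, 3, 4, 5, 6, 7, 11, 40, 50, 51, 52, 53, 54, 55, 56, 57, 58]

lemma EnvS.congr {n k b : ℕ} {L le lz zl : List (Finset (Fin n))} {x y : Data} (h : EnvS k b L le lz zl x)
    (hm : y.mem = x.mem) (hr : ∀ r ∈ envR, y.reg r = x.reg r) : EnvS k b L le lz zl y := by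
  have f : ∀ r, r ∈ envR → ∀ a, x.reg r = a → y.reg r = a := fun r h a e => (hr r h).trans e
  refine ⟨⟨⟨f 1 (by decide) _ h.env.env.r1, f 2 (by decide) _ h.env.env.r2, f 3 (by decide) _ h.env.env.r3,
    f 4 (by decide) _ h.env.env.r4, f 5 (by decide) _ h.env.env.r5, f 6 (by decide) _ h.env.env.r6,
    f 7 (by decide) _ h.env.env.r7, f 11 (by decide) _ h.env.env.r11, f 40 (by decide) _ h.env.env.r40,
    by rw [hm]; exact h.env.env.set⟩, f 50 (by decide) _ h.env.r50, f 51 (by decide) _ h.env.r51,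
    f 52 (by decide) _ h.env.r52, f 53 (by decide) _ h.env.r53, f 54 (by decide) _ h.env.r54,
    f 55 (by decide) _ h.env.r55⟩, by rw [hm]; exact h.tab, by rw [hm]; exact h.ale, by rw [hm]; exact h.alz,
    by rw [hm]; exact h.azl, f 56 (by decide) _ h.r56, f 57 (by decide) _ h.r57, f 58 (by decide) _ h.r58,
    h.sle, h.slz, h.szl, h.clz⟩

lemma vmin_le {n : ℕ} (L : List (Finset (Fin n))) (d : ℕ) (lz : List (Finset (Fin n)))
    (X : Finset (Fin n)) : vmin L d lz X ≤ n + 1 := by
  unfold vmin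
  suffices h : ∀ v ≤ n + 1, lz.foldl (fun v Z => if (X \ Z).card ≤ d then
      min v (gnum L (X \ Z) + gnum L (X ∩ Z)) else v) v ≤ n + 1 from h _ le_rfl
  induction lz with
  | nil => intro v hv; exact hv
  | cons Z l ih =>
    intro v hv
    rw [List.foldl_cons]
    apply ih
    split_ifs
    · exact (min_le_left _ _).trans hv
    · exact hv

open Classical in
/-- The indicator of a proposition. -/
noncomputable def ind (p : Prop) : ℕ := if p then 1 else 0

lemma ind_eq (p : Prop) [Decidable p] : ind p = if p then 1 else 0 := by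
  unfold ind
  congr

lemma ind_le (p : Prop) : ind p ≤ 1 := by
  unfold ind
  split_ifs <;> omega

lemma ind_congr {p q : Prop} (h : p ↔ q) : ind p = ind q := by rw [propext h]

lemma ind_pos {p : Prop} (h : p) : ind p = 1 := by
  unfold ind
  rw [if_pos h]

lemma ind_neg {p : Prop} (h : ¬ p) : ind p = 0 := by
  unfold ind
  rw [if_neg h]

lemma ind_eq_one {p : Prop} : ind p = 1 ↔ p := by
  refine ⟨fun h => ?_, ind_pos⟩
  by_contra h1
  rw [ind_neg h1] at h
  omega

theorem eLoopSpec (hV : MinLoopSpec) (hM : MaskAlg) : ELoopSpec := by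
  classical
  intro w n k b c L le lz zl x z G hF hkn hE h82 h100 h101 hcb h0
  obtain ⟨D, hD⟩ : ∃ D, D = max (n / 2 - n / b) (3 * (n / b)) := ⟨_, rfl⟩
  rw [← hD]
  have hsp := hF.space
  have hpow : 0 < 2 ^ n := by positivity
  have hw0 : 0 < w := by
    rcases Nat.eq_zero_or_pos w with h | h
    · rw [h, pow_zero] at hsp
      omega
    · exact h
  have r5 := hE.env.env.r5
  have r7 := hE.env.env.r7
  have r3 := hE.env.env.r3
  have r40 := hE.env.env.r40
  have r56 := hE.r56
  have hsle := hE.sle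
  set I : ℕ → Data → Prop := fun j y => y.mem = x.mem ∧
    (∀ r, r ∉ [0, 16, 18, 19, 20, 21, 22, 23, 26, 83, 84, 85, 86, 87, 88, 89, 90, 91, 92, 93, 94, 95, 96, 97,
      98] → y.reg r = x.reg r) ∧
    y.reg 83 = L.length + 3 + 2 ^ n + 2 ^ n + j ∧ y.reg 84 = le.length - j ∧
    y.reg 0 = ind (x.reg 0 = 1 ∨ ∃ E ∈ le.take j, Good L k D lz G c z E) with hI
  unfold eLoop
  refine Runs.seq (T1 := 2) (T2 := ((13 * n + 50) * lz.length + 30) * le.length + 1) (R := I 0)
    (Runs.block _ (by simp) ?_) ?_ (by omega)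
  · rw [hI]
    refine ⟨by simp [Op.run], ?_, ?_, ?_, ?_⟩
    · intro r hr
      simp only [List.mem_cons, List.not_mem_nil, or_false, not_or] at hr
      simp [Op.run, hr]
    · simp [Op.run, r7]
    · simp [Op.run, r56]
    · simp only [List.foldl, Op.run, Function.update_apply, List.take_zero, List.not_mem_nil, false_and,
        exists_false, or_false]
      simp only [show ¬ ((0 : ℕ) = 84) by decide, show ¬ ((0 : ℕ) = 83) by decide, if_false]
      by_cases h : x.reg 0 = 1
      · rw [ind_pos h, h]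
      · rw [ind_neg h]
        omega
  intro y hy
  refine Runs.loop le.length ((13 * n + 50) * lz.length + 28) I hy ?_ ?_ ?_ (le_of_eq (by ring)) ?_
  · rintro j hj y ⟨-, -, -, h, -⟩
    omega
  · rintro y ⟨-, -, -, h, -⟩
    omega
  · rintro j hj y ⟨ym, yr, y83, y84, y0⟩
    obtain ⟨E, hEj⟩ : ∃ E, E = le[j] := ⟨_, rfl⟩
    have hle : y.mem (L.length + 3 + 2 ^ n + 2 ^ n + j) = mask E := by
      rw [ym, hEj]
      exact hE.ale j hj
    have y5 : y.reg 5 = 2 ^ n - 1 := by rw [yr 5 (by decide), r5]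
    have y82 : y.reg 82 = mask z := by rw [yr 82 (by decide), h82]
    have y100 : y.reg 100 = mask G := by rw [yr 100 (by decide), h100]
    have a1 := hM n z E
    have a2 := hM n (symmDiff z E) G
    have a3 := hM n (symmDiff z E ∪ G) G
    refine Runs.seq (T1 := 6) (T2 := (13 * n + 50) * lz.length + 22) (R := fun v => v.mem = x.mem ∧
      (∀ r, r ∉ [85, 86, 87, 88] → v.reg r = y.reg r) ∧ v.reg 86 = mask (symmDiff z E) ∧
      v.reg 88 = mask (univ \ (symmDiff z E ∪ G)))
      (Runs.block _ (by simp) ⟨by simp [Op.run, ym], ?_, ?_, ?_⟩) ?_ (by omega)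
    · intro r hr
      simp only [List.mem_cons, List.not_mem_nil, or_false, not_or] at hr
      simp [Op.run, hr]
    · simp [Op.run, y83, hle, y82, a1.1, a1.2.1, a1.2.2.2.1]
    · simp [Op.run, y83, hle, y82, y100, y5, a1.1, a1.2.1, a1.2.2.2.1, a2.2.1, a3.2.2.2.2.1]
    rintro v ⟨vm, vr, v86, v88⟩
    have vE : EnvS k b L le lz zl v := by
      refine hE.congr vm ?_
      intro r hr
      simp only [envR, List.mem_cons, List.not_mem_nil, or_false] at hr
      rw [vr r, yr r] <;> rcases hr with rfl | rfl | rfl | rfl | rfl | rfl | rfl | rfl | rfl | rfl | rfl | rfl |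
        rfl | rfl | rfl | rfl | rfl | rfl <;> decide
    refine Runs.seq (T1 := (13 * n + 50) * lz.length + 5) (T2 := 17) (R := fun u => u.mem = x.mem ∧
      (∀ r, r ∉ [16, 18, 19, 20, 21, 22, 23, 26, 89, 90, 91, 92, 93, 94, 95, 96, 97, 98] →
        u.reg r = v.reg r) ∧
      u.reg 89 = vmin L D lz (symmDiff z E) ∧ u.reg 90 = vmin L D lz (univ \ (symmDiff z E ∪ G)))
      ((hV w n k b L le lz zl v (symmDiff z E) (univ \ (symmDiff z E ∪ G)) hF hkn vE v86 v88).mono le_rfl
        (fun u hu => ⟨by rw [hu.1, vm], hu.2.1, by rw [hu.2.2.1, hD], by rw [hu.2.2.2, hD]⟩)) ?_ (by omega)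
    rintro u ⟨um, ur, u89, u90⟩
    have u101 : u.reg 101 = c := by
      rw [ur 101 (by decide), vr 101 (by decide), yr 101 (by decide), h101]
    have u3 : u.reg 3 = k := by rw [ur 3 (by decide), vr 3 (by decide), yr 3 (by decide), r3]
    have u40 : u.reg 40 = 1 := by rw [ur 40 (by decide), vr 40 (by decide), yr 40 (by decide), r40]
    have v1 := vmin_le L D lz (symmDiff z E)
    have v2 := vmin_le L D lz (univ \ (symmDiff z E ∪ G))
    obtain ⟨s, hs⟩ : ∃ s, s = vmin L D lz (symmDiff z E) + vmin L D lz (univ \ (symmDiff z E ∪ G)) + c :=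
      ⟨_, rfl⟩
    have c1 : (vmin L D lz (symmDiff z E) + vmin L D lz (univ \ (symmDiff z E ∪ G))) % 2 ^ w
        = vmin L D lz (symmDiff z E) + vmin L D lz (univ \ (symmDiff z E ∪ G)) :=
      Nat.mod_eq_of_lt (by omega)
    have c2 : s % 2 ^ w = s := Nat.mod_eq_of_lt (by omega)
    have c3 : (k + 1) % 2 ^ w = k + 1 := Nat.mod_eq_of_lt (by omega)
    refine Runs.seq (T1 := 4) (T2 := 13) (R := fun a => a.mem = x.mem ∧
      (∀ r, r ∉ [97, 98] → a.reg r = u.reg r) ∧ a.reg 98 = k + 1 - s)
      (Runs.block _ (by simp) ⟨by simp [Op.run, um], ?_, ?_⟩) ?_ (by omega)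
    · intro r hr
      simp only [List.mem_cons, List.not_mem_nil, or_false, not_or] at hr
      simp [Op.run, hr]
    · simp [Op.run, u89, u90, u101, u3, u40, c1, c3, ← hs, c2]
    rintro a ⟨am, ar, a98⟩
    have hiff : (∃ E ∈ le.take (j + 1), Good L k D lz G c z E) ↔
        ((∃ E ∈ le.take j, Good L k D lz G c z E) ∨ Good L k D lz G c z E) := by
      rw [List.take_succ_eq_append_getElem hj, ← hEj]
      simp only [List.mem_append, List.mem_singleton]
      constructor
      · rintro ⟨F, h1 | h1, h2⟩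
        · exact Or.inl ⟨F, h1, h2⟩
        · exact Or.inr (h1 ▸ h2)
      · rintro (⟨F, h1, h2⟩ | h)
        · exact ⟨F, Or.inl h1, h2⟩
        · exact ⟨E, Or.inr rfl, h⟩
    have hgood : Good L k D lz G c z E ↔ s ≤ k := by
      unfold Good
      rw [← hs]
    have a0 : a.reg 0 = ind (x.reg 0 = 1 ∨ ∃ E ∈ le.take j, Good L k D lz G c z E) := by
      rw [ar 0 (by decide), ur 0 (by decide), vr 0 (by decide), y0]
    refine Runs.seq (T1 := 3) (T2 := 10) (R := fun d => d.mem = x.mem ∧
      (∀ r, r ∉ [0] → d.reg r = a.reg r) ∧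
      d.reg 0 = ind (x.reg 0 = 1 ∨ ∃ E ∈ le.take (j + 1), Good L k D lz G c z E))
      (Runs.ite (T1 := 1) ?_ ?_ (by omega)) ?_ (by omega)
    · intro hne
      have h1 : Good L k D lz G c z E := by
        rw [hgood]
        omega
      refine Runs.block _ (by simp) ⟨by simp [Op.run, am], ?_, ?_⟩
      · intro r hr
        simp only [List.mem_cons, List.not_mem_nil, or_false, not_or] at hr
        simp [Op.run, hr]
      · rw [ind_pos (Or.inr (hiff.2 (Or.inr h1)))]
        simp [Op.run, hw0]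
    · intro heq
      have h1 : ¬ Good L k D lz G c z E := by
        rw [hgood]
        omega
      refine Runs.skip ⟨am, fun _ _ => rfl, ?_⟩
      rw [a0]
      apply ind_congr
      rw [hiff]
      simp only [h1, or_false]
    rintro d ⟨dm, dr, d0⟩
    have d40 : d.reg 40 = 1 := by rw [dr 40 (by decide), ar 40 (by decide), u40]
    have d83 : d.reg 83 = L.length + 3 + 2 ^ n + 2 ^ n + j := by
      rw [dr 83 (by decide), ar 83 (by decide), ur 83 (by decide), vr 83 (by decide), y83]
    have d84 : d.reg 84 = le.length - j := by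
      rw [dr 84 (by decide), ar 84 (by decide), ur 84 (by decide), vr 84 (by decide), y84]
    have c4 : (L.length + 3 + 2 ^ n + 2 ^ n + j + 1) % 2 ^ w = L.length + 3 + 2 ^ n + 2 ^ n + (j + 1) := by
      rw [Nat.mod_eq_of_lt (by omega)]
      ring
    refine Runs.block _ (by simp) ⟨by simp [Op.run, dm], ?_, ?_, ?_, ?_⟩
    · intro r hr
      simp only [List.mem_cons, List.not_mem_nil, or_false, not_or] at hr
      simp only [List.foldl, Op.run, Function.update_apply]
      obtain ⟨g0, h16, h18, h19, h20, h21, h22, h23, h26, h83, h84, h85, h86, h87, h88, h89, h90, h91, h92, h93,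
        h94, h95, h96, h97, h98⟩ := hr
      rw [if_neg h84, if_neg h83, dr r (by simp [g0]), ar r (by simp [h97, h98]),
        ur r (by simp [*]), vr r (by simp [h85, h86, h87, h88]), yr r (by simp [*])]
    · simp [Op.run, d83, d40, c4]
    · simp [Op.run, d84, d40]
      omega
    · simp only [List.foldl, Op.run, Function.update_apply]
      simp only [show ¬ ((0 : ℕ) = 84) by decide, show ¬ ((0 : ℕ) = 83) by decide, if_false]
      exact d0
  · rintro y ⟨ym, yr, -, -, y0⟩
    rw [List.take_length] at y0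
    exact ⟨ym, yr, by rw [y0]; exact @ind_eq _ _⟩

open Classical in
theorem searchSpec (hV : ELoopSpec) : SearchSpec := by
  intro w n k b c L le lz zl x G hF hkn hE h100 h101 hcb h0
  obtain ⟨D, hD⟩ : ∃ D, D = max (n / 2 - n / b) (3 * (n / b)) := ⟨_, rfl⟩
  rw [← hD]
  have hsp := hF.space
  have hpow : 0 < 2 ^ n := by positivity
  have r51 := hE.env.r51
  have r40 := hE.env.env.r40
  have r58 := hE.r58
  have hszl := hE.szl
  set I : ℕ → Data → Prop := fun j y => y.mem = x.mem ∧
    (∀ r, r ∉ [0, 16, 18, 19, 20, 21, 22, 23, 26, 80, 81, 82, 83, 84, 85, 86, 87, 88, 89, 90, 91, 92, 93, 94, 95,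
      96, 97, 98] → y.reg r = x.reg r) ∧
    y.reg 80 = L.length + 3 + 2 ^ n + 2 ^ n + 2 ^ n + 2 ^ n + j ∧ y.reg 81 = zl.length - j ∧
    y.reg 0 = ind (x.reg 0 = 1 ∨ ∃ z ∈ zl.take j, ∃ E ∈ le, Good L k D lz G c z E) with hI
  unfold search
  refine Runs.seq (T1 := 2) (T2 := (((13 * n + 50) * lz.length + 30) * le.length + 10) * zl.length + 1)
    (R := I 0) (Runs.block _ (by simp) ?_) ?_ (by omega)
  · rw [hI]
    refine ⟨by simp [Op.run], ?_, ?_, ?_, ?_⟩
    · intro r hr
      simp only [List.mem_cons, List.not_mem_nil, or_false, not_or] at hr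
      simp [Op.run, hr]
    · simp [Op.run, r51]
    · simp [Op.run, r58]
    · simp only [List.foldl, Op.run, Function.update_apply, List.take_zero, List.not_mem_nil, false_and,
        exists_false, or_false]
      simp only [show ¬ ((0 : ℕ) = 81) by decide, show ¬ ((0 : ℕ) = 80) by decide, if_false]
      by_cases h : x.reg 0 = 1
      · rw [ind_pos h, h]
      · rw [ind_neg h]
        omega
  intro y hy
  refine Runs.loop zl.length (((13 * n + 50) * lz.length + 30) * le.length + 8) I hy ?_ ?_ ?_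
    (le_of_eq (by ring)) ?_
  · rintro j hj y ⟨-, -, -, h, -⟩
    omega
  · rintro y ⟨-, -, -, h, -⟩
    omega
  · rintro j hj y ⟨ym, yr, y80, y81, y0⟩
    obtain ⟨z, hz⟩ : ∃ z, z = zl[j] := ⟨_, rfl⟩
    have hzl : y.mem (L.length + 3 + 2 ^ n + 2 ^ n + 2 ^ n + 2 ^ n + j) = mask z := by
      rw [ym, hz]
      exact hE.azl j hj
    refine Runs.seq (T1 := 1) (T2 := ((13 * n + 50) * lz.length + 30) * le.length + 7)
      (R := fun v => v.mem = x.mem ∧ (∀ r, r ∉ [82] → v.reg r = y.reg r) ∧ v.reg 82 = mask z)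
      (Runs.block _ (by simp) ⟨by simp [Op.run, ym], ?_, ?_⟩) ?_ (by omega)
    · intro r hr
      simp only [List.mem_cons, List.not_mem_nil, or_false, not_or] at hr
      simp [Op.run, hr]
    · simp [Op.run, y80, hzl]
    rintro v ⟨vm, vr, v82⟩
    have vE : EnvS k b L le lz zl v := by
      refine hE.congr vm ?_
      intro r hr
      simp only [envR, List.mem_cons, List.not_mem_nil, or_false] at hr
      rw [vr r, yr r] <;> rcases hr with rfl | rfl | rfl | rfl | rfl | rfl | rfl | rfl | rfl | rfl | rfl | rfl |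
        rfl | rfl | rfl | rfl | rfl | rfl <;> decide
    have v100 : v.reg 100 = mask G := by rw [vr 100 (by decide), yr 100 (by decide), h100]
    have v101 : v.reg 101 = c := by rw [vr 101 (by decide), yr 101 (by decide), h101]
    have v0 : v.reg 0 = ind (x.reg 0 = 1 ∨ ∃ z ∈ zl.take j, ∃ E ∈ le, Good L k D lz G c z E) := by
      rw [vr 0 (by decide), y0]
    have v0' : v.reg 0 ≤ 1 := by
      rw [v0]
      exact ind_le _
    have hiff : (∃ z ∈ zl.take (j + 1), ∃ E ∈ le, Good L k D lz G c z E) ↔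
        ((∃ z ∈ zl.take j, ∃ E ∈ le, Good L k D lz G c z E) ∨ ∃ E ∈ le, Good L k D lz G c z E) := by
      rw [List.take_succ_eq_append_getElem hj, ← hz]
      simp only [List.mem_append, List.mem_singleton]
      constructor
      · rintro ⟨F, h1 | h1, h2⟩
        · exact Or.inl ⟨F, h1, h2⟩
        · exact Or.inr (h1 ▸ h2)
      · rintro (⟨F, h1, h2⟩ | h)
        · exact ⟨F, Or.inl h1, h2⟩
        · exact ⟨z, Or.inr rfl, h⟩
    refine Runs.seq (T1 := ((13 * n + 50) * lz.length + 30) * le.length + 5) (T2 := 2)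
      (R := fun u => u.mem = x.mem ∧
      (∀ r, r ∉ [0, 16, 18, 19, 20, 21, 22, 23, 26, 83, 84, 85, 86, 87, 88, 89, 90, 91, 92, 93, 94, 95, 96, 97,
        98] → u.reg r = v.reg r) ∧
      u.reg 0 = ind (x.reg 0 = 1 ∨ ∃ z ∈ zl.take (j + 1), ∃ E ∈ le, Good L k D lz G c z E))
      ((hV w n k b c L le lz zl v z G hF hkn vE v82 v100 v101 hcb v0').mono le_rfl
        (fun u hu => ⟨by rw [hu.1, vm], hu.2.1, ?_⟩)) ?_ (by omega)
    · rw [hu.2.2, ← hD, ← ind_eq]
      apply ind_congr
      rw [v0, ind_eq_one, hiff, or_assoc]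
    rintro d ⟨dm, dr, d0⟩
    have d40 : d.reg 40 = 1 := by rw [dr 40 (by decide), vr 40 (by decide), yr 40 (by decide), r40]
    have d80 : d.reg 80 = L.length + 3 + 2 ^ n + 2 ^ n + 2 ^ n + 2 ^ n + j := by
      rw [dr 80 (by decide), vr 80 (by decide), y80]
    have d81 : d.reg 81 = zl.length - j := by rw [dr 81 (by decide), vr 81 (by decide), y81]
    have c4 : (L.length + 3 + 2 ^ n + 2 ^ n + 2 ^ n + 2 ^ n + j + 1) % 2 ^ w
        = L.length + 3 + 2 ^ n + 2 ^ n + 2 ^ n + 2 ^ n + (j + 1) := by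
      rw [Nat.mod_eq_of_lt (by omega)]
      ring
    refine Runs.block _ (by simp) ⟨by simp [Op.run, dm], ?_, ?_, ?_, ?_⟩
    · intro r hr
      simp only [List.mem_cons, List.not_mem_nil, or_false, not_or] at hr
      simp only [List.foldl, Op.run, Function.update_apply]
      obtain ⟨g0, h16, h18, h19, h20, h21, h22, h23, h26, h80, h81, h82, h83, h84, h85, h86, h87, h88, h89, h90,
        h91, h92, h93, h94, h95, h96, h97, h98⟩ := hr
      rw [if_neg h81, if_neg h80, dr r (by simp [*]), vr r (by simp [h82]), yr r (by simp [*])]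
    · simp [Op.run, d80, d40, c4]
    · simp [Op.run, d81, d40]
      omega
    · simp only [List.foldl, Op.run, Function.update_apply]
      simp only [show ¬ ((0 : ℕ) = 81) by decide, show ¬ ((0 : ℕ) = 80) by decide, if_false]
      exact d0
  · rintro y ⟨ym, yr, -, -, y0⟩
    rw [List.take_length] at y0
    exact ⟨ym, yr, by rw [y0]; exact @ind_eq _ _⟩

end SCR
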