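import Pool.Agent.Lib.SCR.DRows
import Pool.Agent.Lib.SCR.DA4

/-!
# Row DS: the list of the sets with at most `d` elements
-/

namespace SCR

open Finset

lemma subL_mem {n d : ℕ} : ∀ i, i ≤ n → ∀ Y : Finset (Fin n),
    (Y ∈ subL n d i ↔ Y.card ≤ d ∧ ∀ u ∈ Y, (u : ℕ) < i) := by
  intro i
  induction i with
  | zero =>
    intro _ Y
    simp only [subL, List.mem_singleton, Nat.not_lt_zero]
    constructor
    · rintro rfl; simp
    · rintro ⟨_, h⟩
      rw [Finset.eq_empty_iff_forall_notMem]
      exact fun u hu => h u hu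
  | succ i ih =>
    intro hi Y
    have hi' : i < n := hi
    have ih' := ih (by omega)
    simp only [subL, List.mem_append, List.mem_map, List.mem_filter, decide_eq_true_eq, ih', hi', dif_pos]
    constructor
    · rintro (⟨h1, h2⟩ | ⟨Z, ⟨⟨h1, h2⟩, h3⟩, rfl⟩)
      · exact ⟨h1, fun u hu => by have := h2 u hu; omega⟩
      · refine ⟨(Finset.card_insert_le _ _).trans (by omega), ?_⟩
        intro u hu
        rw [Finset.mem_insert] at hu
        rcases hu with rfl | hu
        · simp
        · have := h2 u hu; omega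
    · rintro ⟨h1, h2⟩
      by_cases h : (⟨i, hi'⟩ : Fin n) ∈ Y
      · right
        refine ⟨Y.erase ⟨i, hi'⟩, ⟨⟨(Finset.card_erase_le).trans h1, ?_⟩, ?_⟩, Finset.insert_erase h⟩
        · intro u hu
          rw [Finset.mem_erase] at hu
          have h3 := h2 u hu.2
          have h4 : (u : ℕ) ≠ i := fun h5 => hu.1 (Fin.ext h5)
          omega
        · rw [Finset.card_erase_of_mem h]
          have : 0 < Y.card := Finset.card_pos.2 ⟨_, h⟩
          omega
      · left
        refine ⟨h1, fun u hu => ?_⟩
        have h3 := h2 u hu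
        have h4 : (u : ℕ) ≠ i := fun h5 => h (by rwa [← show u = ⟨i, hi'⟩ from Fin.ext h5])
        omega

lemma subL_nodup {n d : ℕ} : ∀ i, i ≤ n → (subL n d i).Nodup := by
  intro i
  induction i with
  | zero => intro _; simp [subL]
  | succ i ih =>
    intro hi
    have hi' : i < n := hi
    have ih' := ih (by omega)
    have hm := subL_mem (n := n) (d := d) i (by omega)
    rw [subL, List.nodup_append]
    refine ⟨ih', ?_, ?_⟩
    · refine (ih'.filter _).map_on ?_ |> fun h => h
      intro Y hY Z hZ h
      simp only [hi', dif_pos] at h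
      have hY' := (hm Y).1 (List.mem_of_mem_filter hY)
      have hZ' := (hm Z).1 (List.mem_of_mem_filter hZ)
      have h1 : (⟨i, hi'⟩ : Fin n) ∉ Y := fun h2 => by have := hY'.2 _ h2; simp at this
      have h2 : (⟨i, hi'⟩ : Fin n) ∉ Z := fun h2 => by have := hZ'.2 _ h2; simp at this
      rw [← Finset.erase_insert h1, h, Finset.erase_insert h2]
    · intro Y hY Z hZ h
      subst h
      have hY' := (hm Y).1 hY
      rw [List.mem_map] at hZ
      obtain ⟨Z, _, rfl⟩ := hZ
      simp only [hi', dif_pos] at hY'
      have := hY'.2 ⟨i, hi'⟩ (Finset.mem_insert_self _ _)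
      simp at this

theorem subLSpec : SubLSpec := by
  intro n d i hi
  have hm := subL_mem (n := n) (d := d) i hi
  have hn := subL_nodup (n := n) (d := d) i hi
  have hl : (subL n d i).length = (subL n d i).toFinset.card := (List.toFinset_card_of_nodup hn).symm
  refine ⟨hm, hn, ?_, ?_⟩
  · rw [hl, ← (DA4 n d).1]
    apply Finset.card_le_card
    intro Y hY
    rw [List.mem_toFinset, hm] at hY
    simp [hY.1]
  · rw [hl]
    refine (Finset.card_le_univ _).trans ?_
    simp

end SCR
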