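import Pool.Agent.Lib.SCR.DRows

/-!
# Rows DV, DSo, DK
-/

namespace SCR

open Finset

lemma vmin_fold {n : ℕ} (d : ℕ) (L : List (Finset (Fin n))) (X : Finset (Fin n)) :
    ∀ (lz : List (Finset (Fin n))) (v0 : ℕ),
    lz.foldl (fun v Z => if (X \ Z).card ≤ d then min v (gnum L (X \ Z) + gnum L (X ∩ Z)) else v) v0 ≤ v0 ∧
    (lz.foldl (fun v Z => if (X \ Z).card ≤ d then min v (gnum L (X \ Z) + gnum L (X ∩ Z)) else v) v0 = v0 ∨
      ∃ Z ∈ lz, (X \ Z).card ≤ d ∧
      lz.foldl (fun v Z => if (X \ Z).card ≤ d then min v (gnum L (X \ Z) + gnum L (X ∩ Z)) else v) v0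
        = gnum L (X \ Z) + gnum L (X ∩ Z)) ∧
    ∀ Z ∈ lz, (X \ Z).card ≤ d →
      lz.foldl (fun v Z => if (X \ Z).card ≤ d then min v (gnum L (X \ Z) + gnum L (X ∩ Z)) else v) v0
        ≤ gnum L (X \ Z) + gnum L (X ∩ Z)
  | [], v0 => ⟨le_rfl, Or.inl rfl, by simp⟩
  | Z0 :: lz, v0 => by
    rw [List.foldl_cons]
    obtain ⟨h1, h2, h3⟩ := vmin_fold d L X lz
      (if (X \ Z0).card ≤ d then min v0 (gnum L (X \ Z0) + gnum L (X ∩ Z0)) else v0)
    have h4 : (if (X \ Z0).card ≤ d then min v0 (gnum L (X \ Z0) + gnum L (X ∩ Z0)) else v0) ≤ v0 := by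
      split_ifs
      · exact min_le_left _ _
      · exact le_rfl
    refine ⟨h1.trans h4, ?_, ?_⟩
    · rcases h2 with h2 | ⟨Z, hZ, hd, h2⟩
      · rw [h2]
        split_ifs with hc
        · rcases min_choice v0 (gnum L (X \ Z0) + gnum L (X ∩ Z0)) with h | h
          · exact Or.inl h
          · exact Or.inr ⟨Z0, List.mem_cons_self, hc, h⟩
        · exact Or.inl rfl
      · exact Or.inr ⟨Z, List.mem_cons_of_mem _ hZ, hd, h2⟩
    · intro Z hZ hd
      rcases List.mem_cons.1 hZ with rfl | hZ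
      · refine h1.trans ?_
        rw [if_pos hd]
        exact min_le_right _ _
      · exact h3 Z hZ hd

theorem rowDV : VminSpec := by
  intro n d L lz X
  exact vmin_fold d L X lz (n + 1)

lemma Cov.union {n : ℕ} {L : List (Finset (Fin n))} {i j : ℕ} {X Y Z : Finset (Fin n)}
    (h1 : Cov L i X) (h2 : Cov L j Y) (h : Z ⊆ X ∪ Y) : Cov L (i + j) Z := by
  classical
  obtain ⟨C, hC, hc, hC'⟩ := h1
  obtain ⟨D, hD, hd, hD'⟩ := h2
  refine ⟨C ∪ D, ?_, (Finset.card_union_le C D).trans (by omega), ?_⟩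
  · intro A hA
    rcases Finset.mem_union.1 hA with hA | hA
    exacts [hC A hA, hD A hA]
  · intro x hx
    rcases Finset.mem_union.1 (h hx) with hx | hx
    · obtain ⟨A, hA, hA'⟩ := hC' x hx
      exact ⟨A, Finset.mem_union_left _ hA, hA'⟩
    · obtain ⟨A, hA, hA'⟩ := hD' x hx
      exact ⟨A, Finset.mem_union_right _ hA, hA'⟩

lemma Cov.mono' {n : ℕ} {L : List (Finset (Fin n))} {i j : ℕ} {X Y : Finset (Fin n)}
    (h1 : Cov L i X) (hij : i ≤ j) (h : Y ⊆ X) : Cov L j Y := by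
  obtain ⟨C, hC, hc, hC'⟩ := h1
  exact ⟨C, hC, hc.trans hij, fun x hx => hC' x (h hx)⟩

lemma cov_unionL {n : ℕ} {L : List (Finset (Fin n))} : ∀ (l : List (Finset (Fin n))),
    (∀ A ∈ l, A ∈ L) → Cov L l.length (unionL l)
  | [], _ => ⟨∅, by simp, by simp, by simp [unionL]⟩
  | A :: l, h => by
    have h1 := cov_unionL l fun B hB => h B (List.mem_cons_of_mem _ hB)
    have h2 : Cov L 1 A := ⟨{A}, by simpa using h A List.mem_cons_self, by simp,
      fun x hx => ⟨A, by simp, hx⟩⟩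
    have h3 := h2.union h1 (Z := unionL (A :: l)) (by simp [unionL])
    exact h3.mono' (by simp [Nat.add_comm]) (Finset.Subset.refl _)

theorem rowDSo (hV : VminSpec) (hG : Gnum) : SoundD := by
  intro n k d L lz l z E hk hl hgood
  obtain ⟨g1, g2, g3, g4, g5⟩ := hG n L
  have key : ∀ X : Finset (Fin n), vmin L d lz X ≤ n → Cov L (vmin L d lz X) X := by
    intro X hX
    obtain ⟨v1, v2, v3⟩ := hV n d L lz X
    rcases v2 with v2 | ⟨Z, hZ, hd, v2⟩
    · omega
    · have c1 : Cov L (gnum L (X \ Z)) (X \ Z) := g2 _ _ le_rfl (by omega)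
      have c2 : Cov L (gnum L (X ∩ Z)) (X ∩ Z) := g2 _ _ le_rfl (by omega)
      rw [v2]
      exact c1.union c2 (by rw [Finset.sdiff_union_inter])
  unfold Good at hgood
  have k1 := key (symmDiff z E) (by omega)
  have k2 := key (univ \ (symmDiff z E ∪ unionL l)) (by omega)
  have k3 := cov_unionL l hl
  refine (((k1.union k2 (Finset.Subset.refl _)).union k3 (Finset.Subset.refl _))).mono' hgood ?_
  intro x _
  simp only [Finset.mem_union, Finset.mem_sdiff, Finset.mem_univ, true_and]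
  tauto

theorem rowDK : CovMin := by
  classical
  intro n k L
  constructor
  · rintro ⟨C, hC, hc, hC'⟩
    have h : ∀ x : Fin n, ∃ A ∈ C, x ∈ A := hC'
    choose f hf hf' using h
    refine ⟨univ.image f, ?_, ?_, ?_⟩
    · intro A hA
      obtain ⟨x, _, rfl⟩ := Finset.mem_image.1 hA
      exact hC _ (hf x)
    · refine le_min ?_ ?_
      · refine (Finset.card_le_card ?_).trans hc
        intro A hA
        obtain ⟨x, _, rfl⟩ := Finset.mem_image.1 hA
        exact hf x
      · exact Finset.card_image_le.trans (by simp)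
    · intro x _
      exact ⟨f x, Finset.mem_image_of_mem _ (Finset.mem_univ _), hf' x⟩
  · rintro ⟨C, hC, hc, hC'⟩
    exact ⟨C, hC, hc.trans (min_le_left _ _), fun x => hC' x (Finset.mem_univ _)⟩

end SCR
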