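import Pool.Agent.Lib.SCR.DRows

/-!
# Rows DZ, DP1, DP2 (helper16)
-/

set_option linter.unusedSimpArgs false

namespace SCR

open Finset Op Stmt

/-! ### DZ: the list of masks -/

lemma zmask_empty (n : ℕ) (c : Bool) : zmask n ∅ c = if c then univ else ∅ := by
  cases c <;> simp [zmask]

lemma zmask_insert (n i : ℕ) (S : Finset ℕ) (hi : i ∉ S) (c : Bool) :
    zmask n (insert i S) c = symmDiff (zmask n S c) (bitSet n i) := by
  ext u
  rw [Finset.mem_symmDiff]
  simp only [zmask, bitSet, mem_filter, mem_univ, true_and]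
  by_cases hb : (u : ℕ).testBit i = true
  · have h1 : ((insert i S).filter fun i => (u : ℕ).testBit i).card =
        (S.filter fun i => (u : ℕ).testBit i).card + 1 := by
      rw [Finset.filter_insert, if_pos hb, Finset.card_insert_of_notMem]
      simp [hi]
    rw [h1]
    rcases Nat.mod_two_eq_zero_or_one (S.filter fun i => (u : ℕ).testBit i).card with h | h
    · have h2 : ((S.filter fun i => (u : ℕ).testBit i).card + 1) % 2 = 1 := by omega
      rw [h2, h]
      cases c <;> simp [hb]
    · have h2 : ((S.filter fun i => (u : ℕ).testBit i).card + 1) % 2 = 0 := by omega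
      rw [h2, h]
      cases c <;> simp [hb]
  · have h1 : ((insert i S).filter fun i => (u : ℕ).testBit i).card =
        (S.filter fun i => (u : ℕ).testBit i).card := by
      rw [Finset.filter_insert, if_neg hb]
    rw [h1]
    simp [hb]

/-- DZ -/
theorem zLSpec : ZLSpec := by
  intro n i
  induction i with
  | zero =>
    refine ⟨rfl, ?_⟩
    intro S hS c
    have hS0 : S = ∅ := by
      rw [Finset.range_zero] at hS
      exact Finset.subset_empty.1 hS
    rw [hS0, zmask_empty]
    cases c <;> simp [zL]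
  | succ i ih =>
    obtain ⟨ih1, ih2⟩ := ih
    refine ⟨?_, ?_⟩
    · rw [zL, List.length_append, List.length_map, ih1]
      ring
    · intro S hS c
      rw [zL, List.mem_append]
      by_cases hi : i ∈ S
      · right
        rw [List.mem_map]
        refine ⟨zmask n (S.erase i) c, ih2 _ ?_ c, ?_⟩
        · intro a ha
          rw [Finset.mem_erase] at ha
          have := Finset.mem_range.1 (hS ha.2)
          rw [Finset.mem_range]
          omega
        · rw [← zmask_insert n i (S.erase i) (Finset.notMem_erase i S), Finset.insert_erase hi]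
      · left
        refine ih2 _ ?_ c
        intro a ha
        have := Finset.mem_range.1 (hS ha)
        rw [Finset.mem_range]
        have hne : a ≠ i := by
          rintro rfl
          exact hi ha
        omega

/-! ### DP1: division by a constant -/

/-- DP1 -/
theorem divSpec : DivSpec := by
  intro w d a c x hc1 hcw haw h40 hda hd ha
  simp only [List.mem_cons, List.not_mem_nil, or_false, not_or] at hd ha
  obtain ⟨hd40, hd60, hd61, hd62⟩ := hd
  obtain ⟨ha60, ha61, ha62⟩ := ha
  obtain ⟨v, hv⟩ : ∃ v, v = x.reg a := ⟨_, rfl⟩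
  rw [← hv] at haw ⊢
  have hdiv : v / c * c ≤ v := Nat.div_mul_le_self v c
  have hdle : v / c ≤ v := Nat.div_le_self v c
  obtain ⟨N, hN⟩ : ∃ N, N = v / c := ⟨_, rfl⟩
  have hlt : v < N * c + c := by
    rw [hN]
    have := Nat.lt_div_mul_add (a := v) (b := c) (by omega)
    exact this
  rw [← hN] at hdiv hdle ⊢
  unfold divC
  set I : ℕ → Data → Prop := fun j y => y.mem = x.mem ∧
    (∀ r, r ∉ [d, 60, 61, 62] → y.reg r = x.reg r) ∧ y.reg d = j ∧ y.reg 60 = c ∧
    y.reg 61 = v - j * c ∧ y.reg 62 = v - j * c + 1 - c with hI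
  refine Runs.seq (T1 := 5) (T2 := 6 * N + 1) (R := I 0) ?_ ?_ (by omega)
  · refine Runs.block _ (by simp) ⟨by simp [Op.run], ?_, ?_, ?_, ?_, ?_⟩
    · intro r hr
      simp only [List.mem_cons, List.not_mem_nil, or_false, not_or] at hr
      simp [Op.run, Function.update_apply, hr]
    · simp [Op.run, Function.update_apply, hd60, hd61, hd62]
    · simp [Op.run, Function.update_apply, Nat.mod_eq_of_lt hcw]
    · simp [Op.run, Function.update_apply, ha60, hda.symm, ← hv]
    · simp [Op.run, Function.update_apply, ha60, hda.symm, ← hv, Ne.symm hd40, h40,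
        Nat.mod_eq_of_lt haw, Nat.mod_eq_of_lt hcw]
  · intro y hy
    refine Runs.loop N 4 I hy ?_ ?_ ?_ (by omega) ?_
    · intro j hj z hz
      obtain ⟨-, -, -, -, -, z62⟩ := hz
      rw [z62]
      have h1 : (j + 1) * c ≤ N * c := Nat.mul_le_mul_right c hj
      have h2 : (j + 1) * c = j * c + c := by ring
      omega
    · intro z hz
      obtain ⟨-, -, -, -, -, z62⟩ := hz
      rw [z62]
      omega
    · intro j hj z hz
      obtain ⟨zm, zr, zd, z60, z61, z62⟩ := hz
      have z40 : z.reg 40 = 1 := by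
        rw [zr 40 (by
          simp only [List.mem_cons, List.not_mem_nil, or_false, not_or]
          exact ⟨Ne.symm hd40, by decide, by decide, by decide⟩), h40]
      have h1 : (j + 1) * c ≤ N * c := Nat.mul_le_mul_right c hj
      have h2 : (j + 1) * c = j * c + c := by ring
      have h3 : j + 1 < 2 ^ w := by omega
      have e1 : v - j * c - c = v - (j + 1) * c := by omega
      have e2 : (v - (j + 1) * c + 1) % 2 ^ w = v - (j + 1) * c + 1 := Nat.mod_eq_of_lt (by omega)
      refine Runs.block _ (by simp) ⟨by simp [Op.run, zm], ?_, ?_, ?_, ?_, ?_⟩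
      · intro r hr
        have := zr r hr
        simp only [List.mem_cons, List.not_mem_nil, or_false, not_or] at hr
        simp [Op.run, Function.update_apply, hr, this]
      · simp [Op.run, Function.update_apply, hd60, hd61, hd62, zd, z40, Nat.mod_eq_of_lt h3]
      · simp [Op.run, Function.update_apply, Ne.symm hd60, z60]
      · simp [Op.run, Function.update_apply, Ne.symm hd61, z60, z61, e1]
      · simp [Op.run, Function.update_apply, Ne.symm hd60, Ne.symm hd61, Ne.symm hd40, z60, z61,
          z40, e1, e2]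
    · intro z hz
      obtain ⟨zm, zr, zd, -, -, -⟩ := hz
      exact ⟨zm, zr, zd⟩

/-! ### DP2: the bounds -/

lemma Env.congr' {n k s : ℕ} {L : List (Finset (Fin n))} {x y : Data} (h : Env k s L x)
    (hr : ∀ r ∈ [1, 2, 3, 4, 5, 6, 7, 11, 40], y.reg r = x.reg r)
    (hm : ∀ a < L.length + 3, y.mem a = x.mem a) : Env k s L y where
  r1 := by rw [hr 1 (by decide), h.r1]
  r2 := by rw [hr 2 (by decide), h.r2]
  r3 := by rw [hr 3 (by decide), h.r3]
  r4 := by rw [hr 4 (by decide), h.r4]
  r5 := by rw [hr 5 (by decide), h.r5]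
  r6 := by rw [hr 6 (by decide), h.r6]
  r7 := by rw [hr 7 (by decide), h.r7]
  r11 := by rw [hr 11 (by decide), h.r11]
  r40 := by rw [hr 40 (by decide), h.r40]
  set := fun i hi => by rw [hm (3 + i) (by omega), h.set i hi]

/-- DP2 -/
theorem boundsSpec (hD : DivSpec) : BoundsSpec := by
  intro w n k b L x hb hk hF hE
  have hsp := hF.space
  have hnn : n < 2 ^ n := Nat.lt_two_pow_self
  unfold bounds
  -- first division
  refine Runs.seq (T1 := 6 * n + 6) (T2 := 12 * n + 30) (R := fun y => y.mem = x.mem ∧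
    (∀ r, r ∉ [52, 60, 61, 62] → y.reg r = x.reg r) ∧ y.reg 52 = n / b) ?_ ?_ (by omega)
  · refine (hD w 52 1 b x hb (by omega) (by rw [hE.r1]; omega) hE.r40 (by decide) (by decide)
      (by decide)).mono (by rw [hE.r1]) ?_
    rintro y ⟨ym, yr, y52⟩
    exact ⟨ym, yr, by rw [y52, hE.r1]⟩
  rintro y1 ⟨y1m, y1r, y152⟩
  have y11 : y1.reg 1 = n := by rw [y1r 1 (by decide), hE.r1]
  refine Runs.seq (T1 := 6 * n + 6) (T2 := 6 * n + 24) (R := fun y => y.mem = x.mem ∧
    (∀ r, r ∉ [52, 53, 60, 61, 62] → y.reg r = x.reg r) ∧ y.reg 52 = n / b ∧ y.reg 53 = n / 2)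
    ?_ ?_ (by omega)
  · refine (hD w 53 1 2 y1 (by norm_num) (by omega) (by rw [y11]; omega)
      (by rw [y1r 40 (by decide), hE.r40]) (by decide) (by decide)
      (by decide)).mono (by rw [y11]) ?_
    rintro y ⟨ym, yr, y53⟩
    refine ⟨by rw [ym, y1m], ?_, by rw [yr 52 (by decide), y152], by rw [y53, y11]⟩
    intro r hr
    simp only [List.mem_cons, List.not_mem_nil, or_false, not_or] at hr
    rw [yr r (by simp only [List.mem_cons, List.not_mem_nil, or_false, not_or]; tauto),
      y1r r (by simp only [List.mem_cons, List.not_mem_nil, or_false, not_or]; tauto)]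
  rintro y2 ⟨y2m, y2r, y252, y253⟩
  have y23 : y2.reg 3 = k := by rw [y2r 3 (by decide), hE.r3]
  refine Runs.seq (T1 := 6 * n + 6) (T2 := 18) (R := fun y => y.mem = x.mem ∧
    (∀ r, r ∉ [52, 53, 54, 60, 61, 62] → y.reg r = x.reg r) ∧ y.reg 52 = n / b ∧
    y.reg 53 = n / 2 ∧ y.reg 54 = k / 4) ?_ ?_ (by omega)
  · refine (hD w 54 3 4 y2 (by norm_num) (by omega) (by rw [y23]; omega)
      (by rw [y2r 40 (by decide), hE.r40]) (by decide) (by decide)
      (by decide)).mono (by rw [y23]; omega) ?_
    rintro y ⟨ym, yr, y54⟩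
    refine ⟨by rw [ym, y2m], ?_, by rw [yr 52 (by decide), y252], by rw [yr 53 (by decide), y253],
      by rw [y54, y23]⟩
    intro r hr
    simp only [List.mem_cons, List.not_mem_nil, or_false, not_or] at hr
    rw [yr r (by simp only [List.mem_cons, List.not_mem_nil, or_false, not_or]; tauto),
      y2r r (by simp only [List.mem_cons, List.not_mem_nil, or_false, not_or]; tauto)]
  rintro y3 ⟨y3m, y3r, y352, y353, y354⟩
  have z4 : y3.reg 4 = 2 ^ n := by rw [y3r 4 (by decide), hE.r4]
  have z6 : y3.reg 6 = L.length + 3 := by rw [y3r 6 (by decide), hE.r6]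
  have z7 : y3.reg 7 = L.length + 3 + 2 ^ n + 2 ^ n := by rw [y3r 7 (by decide), hE.r7]
  have hnb : n / b ≤ n := Nat.div_le_self n b
  have hn2 : n / 2 ≤ n := Nat.div_le_self n 2
  have hk4 : k / 4 ≤ k := Nat.div_le_self k 4
  obtain ⟨q, hq⟩ : ∃ q, q = n / b := ⟨_, rfl⟩
  obtain ⟨e, he⟩ : ∃ e, e = n / 2 := ⟨_, rfl⟩
  obtain ⟨g, hg⟩ : ∃ g, g = k / 4 := ⟨_, rfl⟩
  rw [← hq] at y352 hnb
  rw [← he] at y353 hn2
  rw [← hg] at y354 hk4
  have m1 : b % 2 ^ w = b := Nat.mod_eq_of_lt (by omega)
  have m2 : (e - g + b) % 2 ^ w = e - g + b := Nat.mod_eq_of_lt (by omega)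
  have m3 : (q + q) % 2 ^ w = q + q := Nat.mod_eq_of_lt (by omega)
  have m4 : (q + q + q) % 2 ^ w = q + q + q := Nat.mod_eq_of_lt (by omega)
  have m5 : (e - q - (q + q + q) + (q + q + q)) % 2 ^ w = e - q - (q + q + q) + (q + q + q) :=
    Nat.mod_eq_of_lt (by omega)
  have m6 : (L.length + 3 + 2 ^ n + 2 ^ n + 2 ^ n) % 2 ^ w = L.length + 3 + 2 ^ n + 2 ^ n + 2 ^ n :=
    Nat.mod_eq_of_lt (by omega)
  have m7 : (L.length + 3 + 2 ^ n + 2 ^ n + 2 ^ n + 2 ^ n) % 2 ^ w =
      L.length + 3 + 2 ^ n + 2 ^ n + 2 ^ n + 2 ^ n := Nat.mod_eq_of_lt (by omega)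
  have m8 : (L.length + 3 + 2 ^ n) % 2 ^ w = L.length + 3 + 2 ^ n := Nat.mod_eq_of_lt (by omega)
  refine Runs.block _ (by simp) ⟨by simp [Op.run, y3m], ?_⟩
  constructor
  · refine hE.congr' ?_ ?_
    · intro r hr
      simp only [List.mem_cons, List.not_mem_nil, or_false] at hr
      have hr3 : y3.reg r = x.reg r := by
        apply y3r
        rcases hr with rfl | rfl | rfl | rfl | rfl | rfl | rfl | rfl | rfl <;> decide
      simp only [List.foldl, Op.run, Function.update_apply]
      rcases hr with rfl | rfl | rfl | rfl | rfl | rfl | rfl | rfl | rfl <;> simpa using hr3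
    · intro a _
      simp [Op.run, y3m]
  · simp [Op.run, Function.update_apply, z7, z4, m6]
  · simp [Op.run, Function.update_apply, z7, z4, m6, m7]
  · simp [Op.run, Function.update_apply, y352, m3, m4, ← hq]
    ring
  · simp only [List.foldl, Op.run, Function.update_apply, Nat.reduceEqDiff, if_false, if_true]
    rw [y352, y353, m3, m4, m5, ← hq, ← he]
    rcases Nat.le_total (e - q) (3 * q) with h | h
    · rw [max_eq_right h]
      omega
    · rw [max_eq_left h]
      omega
  · simp [Op.run, Function.update_apply, y353, y354, m1, m2, ← he, ← hg]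
  · simp [Op.run, Function.update_apply, z6, z4, m8]

end SCR
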