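import Pool.Agent.Lib.SCR.MB
import Pool.Agent.Lib.SCR.D1
import Pool.Agent.Lib.SCR.D2
import Pool.Agent.Lib.SCR.D3
import Pool.Agent.Lib.SCR.D4
import Pool.Agent.Lib.SCR.D5
import Pool.Agent.Lib.SCR.D5b
import Pool.Agent.Lib.SCR.D6
import Pool.Agent.Lib.SCR.D7
import Pool.Agent.Lib.SCR.DCo
import Pool.Agent.Lib.SCR.DM
import Pool.Agent.Lib.SCR.DS
import Pool.Agent.Lib.SCR.DV
import Pool.Agent.Lib.SCR.DZ
import Pool.Agent.Lib.SCR.DP3
import Pool.Agent.Lib.SCR.DP5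
import Pool.Agent.Lib.SCR.DP6
import Pool.Agent.Lib.SCR.DP7
import Pool.Agent.Lib.SCR.DP8
import Pool.Agent.Lib.SCR.DP9
import Pool.Agent.Lib.SCR.DP11
import Pool.Agent.Lib.SCR.DP12

/-!
# The machine part of Theorem D, complete
-/

namespace SCR

theorem completeD : CompleteD :=
  rowDCo (core (close zPair zOne) D3 (pairing telescope) split) gnumRow rowDV subLSpec zLSpec

theorem mainDRuns (b n k : ℕ) (L : List (Finset (Fin n))) (hb : 1 ≤ b) : RunsCover (mainD b) n k L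
    (L.length + 100 + (n + 8) * (2 ^ n + 2 ^ n) + (n + 10) * (n + 10) + 10 * b)
    (1000 * (b + 1) * (n + 1) ^ 3 * (L.length + 1) ^ (b + 1) *
      (T n (max (n / 2 - n / b) (3 * (n / b))) + (T n (n / 2 - min k n / 4 + b)) * (T n (3 * (n / b))) + 1)) :=
  DP12runs (boundsSpec divSpec)
    (DP5 (DP4 (gvalSpec rowDMb' gnumRow) (MB maskBit) rowDMb' subLSpec) rowDMb' subLSpec gnumRow)
    (rowDP7 bitMaskSpec rowDMb' zLSpec)
    (guessSpec (searchSpec (eLoopSpec (minLoopSpec (MB maskBit) rowDMb' gnumRow) rowDMb')) rowDMb')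
    (rowDSo rowDV gnumRow) completeD rowDK subLSpec zLSpec b n k L hb

end SCR
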