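import Pool.Agent.Lib.SCR.DRows
import Pool.Agent.Lib.SCR.ME

/-!
# Construction of a list of sets: one set
-/

namespace SCR

open Op Stmt

lemma newL_succ {n : ℕ} (d i p : ℕ) (s : List (Finset (Fin n))) (hi : i < n) (hp : p < s.length) :
    newL d i (p + 1) s = newL d i p s ++ if s[p].card < d then [insert ⟨i, hi⟩ s[p]] else [] := by
  unfold newL
  rw [List.take_succ_eq_append_getElem hp, List.filter_append, List.map_append]
  congr 1
  by_cases h : s[p].card < d
  · simp [h, hi]
  · simp [h]

lemma newL_length {n : ℕ} (D i p : ℕ) :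
    (subL n D i ++ newL D i p (subL n D i)).length ≤ (subL n D (i + 1)).length := by
  have h : (newL D i p (subL n D i)).length ≤
      (((subL n D i).filter fun Y => Y.card < D).map
        fun Y => if h : i < n then insert ⟨i, h⟩ Y else Y).length := by
    unfold newL
    rw [List.length_map, List.length_map]
    exact ((List.take_sublist p _).filter _).length_le
  rw [List.length_append]
  have e : subL n D (i + 1) = subL n D i ++
      ((subL n D i).filter fun Y => Y.card < D).map fun Y => if h : i < n then insert ⟨i, h⟩ Y else Y := rfl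
  rw [e, List.length_append]
  omega

lemma Env.of_invG {n k B l : ℕ} {L : List (Finset (Fin n))} {s : List (Finset (Fin n))} {x0 x : Data}
    (hE : Env k 0 L x0) (h : InvG L B l s x0 x) (hl : l ∉ [1, 2, 3, 4, 5, 6, 7, 11, 40]) :
    Env k 0 L x := by
  refine hE.congr (fun r hr => h.regs r ?_) h.low
  simp only [List.mem_cons, List.not_mem_nil, or_false, not_or] at hr hl ⊢
  omega

theorem DP4 (hGv : GvalSpec) (hC : CountSpec) (hA : MaskAlg) (hS : SubLSpec) : GtOneSpec := by
  intro w n k b B D i p bR dR lR L x0 x hmem hF hk hE hB hD hi hp hI h60 h63 h64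
  have hspace := hF.space
  have hsq := hF.sq
  have hpow : 0 < 2 ^ n := by positivity
  -- the registers
  have hbR : bR ∈ [55, 7, 50] := by
    simp only [List.mem_cons, Prod.mk.injEq, List.not_mem_nil, or_false] at hmem ⊢
    omega
  have hdR : dR ∈ [53, 54, 52] := by
    simp only [List.mem_cons, Prod.mk.injEq, List.not_mem_nil, or_false] at hmem ⊢
    omega
  have hlR : lR ∈ [59, 56, 57] := by
    simp only [List.mem_cons, Prod.mk.injEq, List.not_mem_nil, or_false] at hmem ⊢
    omega
  simp only [List.mem_cons, List.not_mem_nil, or_false] at hbR hdR hlR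
  -- the address `B`
  have hB1 : L.length + 3 + 2 ^ n ≤ B ∧ B ≤ L.length + 3 + 3 * 2 ^ n := by
    rcases hbR with rfl | rfl | rfl
    · rw [← hB, hE.r55]; omega
    · rw [← hB, hE.env.r7]; omega
    · rw [← hB, hE.r50]; omega
  -- the list
  obtain ⟨Z, hZ⟩ : ∃ Z, Z = (subL n D i)[p] := ⟨_, rfl⟩
  have hmemZ : Z ∈ subL n D i := hZ ▸ List.getElem_mem hp
  have hZi : ∀ u ∈ Z, (u : ℕ) < i := ((hS n D i hi.le).1 Z).1 hmemZ |>.2
  have hlen : (subL n D i ++ newL D i (p + 1) (subL n D i)).length ≤ 2 ^ n :=
    (newL_length D i (p + 1)).trans (hS n D (i + 1) hi).2.2.2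
  have hxZ : x.mem (B + p) = mask Z := by
    have := hI.list p (by rw [List.length_append]; omega)
    rw [this, List.getElem_append_left hp, hZ]
  have hp2 : p < 2 ^ n := lt_of_lt_of_le hp (hS n D i hi.le).2.2.2
  have hxE : Env k 0 L x := Env.of_invG hE.env hI (by
    simp only [List.mem_cons, List.not_mem_nil, or_false, not_or]; omega)
  have xr : ∀ r, r ∉ [lR, 16, 17, 18, 19, 20, 21, 22, 23, 26, 60, 61, 62, 63, 64, 65, 66, 67, 68, 69, 70, 71,
      72, 73] → x.reg r = x0.reg r := hI.regs
  have xb : x.reg bR = B := by
    rw [← hB]; apply xr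
    simp only [List.mem_cons, List.not_mem_nil, or_false, not_or]; omega
  have xd : x.reg dR = D := by
    rw [← hD]; apply xr
    simp only [List.mem_cons, List.not_mem_nil, or_false, not_or]; omega
  have hs1 := newL_succ D i p (subL n D i) hi hp
  rw [← hZ] at hs1
  unfold gtOne
  -- step 1
  refine Runs.seq (T1 := 2) (T2 := 13 * n + 20 * L.length + 48)
    (R := fun y => y.mem = x.mem ∧ (∀ r, r ∉ [16, 18] → y.reg r = x.reg r) ∧
      y.reg 16 = mask Z ∧ y.reg 18 = mask Z) ?_ ?_ (by omega)
  · refine Runs.block _ (by simp) ⟨by simp [Op.run], ?_, ?_⟩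
    · intro r hr
      simp only [List.mem_cons, List.not_mem_nil, or_false, not_or] at hr
      simp [Op.run, hr]
    · simp [Op.run, h63, hxZ]
  rintro y1 ⟨m1, r1, y16, y18⟩
  -- step 2
  refine Runs.seq (T1 := 13 * n + 6) (T2 := 20 * L.length + 42)
    (R := fun y => y.mem = x.mem ∧ (∀ r, r ∉ [16, 18, 19, 20, 21, 22, 23, 26] → y.reg r = x.reg r) ∧
      y.reg 16 = mask Z ∧ y.reg 19 = Z.card) ?_ ?_ (by omega)
  · refine (hC w n k Z Z y1 (by rw [r1 1 (by decide), hxE.r1]) (by rw [r1 3 (by decide), hxE.r3])
      y16 y18 (by rw [r1 40 (by decide), hxE.r40]) hk hsq (by omega)).mono le_rfl ?_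
    rintro y ⟨m2, r2, y19, -, -⟩
    refine ⟨m2.trans m1, ?_, by rw [r2 16 (by decide), y16], y19⟩
    intro r hr
    simp only [List.mem_cons, List.not_mem_nil, or_false, not_or] at hr
    rw [r2 r (by simp only [List.mem_cons, List.not_mem_nil, or_false, not_or]; omega),
      r1 r (by simp only [List.mem_cons, List.not_mem_nil, or_false, not_or]; omega)]
  rintro y2 ⟨m2, r2, y16', y19⟩
  -- step 3
  refine Runs.seq (T1 := 1) (T2 := 20 * L.length + 41)
    (R := fun y => y.mem = x.mem ∧ (∀ r, r ∉ [16, 18, 19, 20, 21, 22, 23, 26, 65] → y.reg r = x.reg r) ∧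
      y.reg 16 = mask Z ∧ y.reg 65 = D - Z.card) ?_ ?_ (by omega)
  · refine Runs.block _ (by simp) ⟨by simp [Op.run, m2], ?_, by simp [Op.run, y16'], ?_⟩
    · intro r hr
      have := r2 r (by simp only [List.mem_cons, List.not_mem_nil, or_false, not_or] at hr ⊢; omega)
      simp only [List.mem_cons, List.not_mem_nil, or_false, not_or] at hr
      simp [Op.run, hr, this]
    · have := r2 dR (by simp only [List.mem_cons, List.not_mem_nil, or_false, not_or]; omega)
      simp [Op.run, this, xd, y19]
  rintro y3 ⟨m3, r3, y16, y65⟩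
  -- step 4
  refine Runs.seq (T1 := 20 * L.length + 18) (T2 := 2)
    (R := fun y => InvG L B lR (subL n D i ++ newL D i (p + 1) (subL n D i)) x0 y ∧
      y.reg 60 = 2 ^ i ∧ y.reg 61 = x.reg 61 ∧ y.reg 63 = B + p ∧
      y.reg 64 = (subL n D i).length - p) ?_ ?_ (by omega)
  · refine Runs.ite (T1 := 20 * L.length + 16) ?_ ?_ (by omega)
    · intro h
      have hcard : Z.card < D := by omega
      rw [if_pos hcard] at hs1
      rw [hs1, ← List.append_assoc] at hlen ⊢
      obtain ⟨s, hs⟩ : ∃ s, s = subL n D i ++ newL D i p (subL n D i) := ⟨_, rfl⟩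
      rw [← hs] at hlen hI ⊢
      rw [List.length_append, List.length_singleton] at hlen
      have hiZ : (⟨i, hi⟩ : Fin n) ∉ Z := fun h' => by
        have := hZi _ h'
        simp at this
      obtain ⟨Y, hY⟩ : ∃ Y, Y = insert (⟨i, hi⟩ : Fin n) Z := ⟨_, rfl⟩
      rw [← hY]
      have hmY : mask Z + 2 ^ i = mask Y := by
        rw [hY]
        exact (hA n Z Z).2.2.2.2.2.2.2.2.1 ⟨i, hi⟩ hiZ
      have hmYlt : mask Y < 2 ^ n := (hA n Y Y).2.2.2.2.2.2.2.1
      -- 4a
      refine Runs.seq (T1 := 4) (T2 := 20 * L.length + 12)
        (R := fun y => y.mem = Function.update x.mem (B + s.length) (mask Y) ∧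
          (∀ r, r ∉ [lR, 16, 17, 18, 19, 20, 21, 22, 23, 26, 65, 66] → y.reg r = x.reg r) ∧
          y.reg 17 = mask Y ∧ y.reg lR = s.length + 1) ?_ ?_ (by omega)
      · have e60 : y3.reg 60 = 2 ^ i := by rw [r3 60 (by decide), h60]
        have eb : y3.reg bR = B := by
          rw [r3 bR (by simp only [List.mem_cons, List.not_mem_nil, or_false, not_or]; omega), xb]
        have el : y3.reg lR = s.length := by
          rw [r3 lR (by simp only [List.mem_cons, List.not_mem_nil, or_false, not_or]; omega), hI.len]
        have e40 : y3.reg 40 = 1 := by rw [r3 40 (by decide), hxE.r40]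
        have q1 : (mask Z + 2 ^ i) % 2 ^ w = mask Y := by rw [hmY]; exact Nat.mod_eq_of_lt (by omega)
        have q2 : (B + s.length) % 2 ^ w = B + s.length := Nat.mod_eq_of_lt (by omega)
        have q3 : (s.length + 1) % 2 ^ w = s.length + 1 := Nat.mod_eq_of_lt (by omega)
        have d1 : bR ≠ 17 := by omega
        have d2 : lR ≠ 17 := by omega
        have d3 : lR ≠ 66 := by omega
        refine Runs.block _ (by simp) ⟨?_, ?_, ?_, ?_⟩
        · simp [Op.run, Function.update_apply, d1, d2, y16, e60, eb, el, q1, q2, m3]
        · intro r hr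
          have := r3 r (by simp only [List.mem_cons, List.not_mem_nil, or_false, not_or] at hr ⊢; omega)
          simp only [List.mem_cons, List.not_mem_nil, or_false, not_or] at hr
          simp [Op.run, Function.update_apply, hr, this]
        · simp [Op.run, Function.update_apply, d2.symm, y16, e60, q1]
        · simp [Op.run, Function.update_apply, d2, d3, el, e40, q3]
      rintro y4 ⟨m4, r4, y17, yl⟩
      -- 4b
      have e60 : y4.reg 60 = 2 ^ i := by
        rw [r4 60 (by simp only [List.mem_cons, List.not_mem_nil, or_false, not_or]; omega), h60]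
      have y4E : Env k 0 L y4 := by
        refine hxE.congr (fun r hr => r4 r ?_) (fun a ha => ?_)
        · simp only [List.mem_cons, List.not_mem_nil, or_false, not_or] at hr ⊢
          omega
        · rw [m4, Function.update_of_ne (by omega)]
      have hiY : (⟨i, hi⟩ : Fin n) ∈ Y := by rw [hY]; exact Finset.mem_insert_self _ _
      have htabY : ∀ A ∈ L, (⟨i, hi⟩ : Fin n) ∈ A → y4.mem (L.length + 3 + mask (Y \ A)) = gnum L (Y \ A) := by
        intro A hAL hiA
        have hlt : mask (Y \ A) < 2 ^ n := (hA n (Y \ A) Y).2.2.2.2.2.2.2.1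
        rw [m4, Function.update_of_ne (by omega)]
        apply hI.tab
        rw [hs]
        apply List.mem_append_left
        rw [(hS n D i hi.le).1]
        have hsub : Y \ A ⊆ Z := by
          intro u hu
          rw [Finset.mem_sdiff, hY, Finset.mem_insert] at hu
          rcases hu with ⟨rfl | hu, hu2⟩
          · exact absurd hiA hu2
          · exact hu
        exact ⟨(Finset.card_le_card hsub).trans hcard.le, fun u hu => hZi u (hsub hu)⟩
      refine Runs.seq (T1 := 20 * L.length + 10) (T2 := 2)
        (R := fun y => y.mem = Function.update x.mem (B + s.length) (mask Y) ∧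
          (∀ r, r ∉ [lR, 16, 17, 18, 19, 20, 21, 22, 23, 26, 65, 66, 67, 68, 69, 70, 71, 72, 73] →
            y.reg r = x.reg r) ∧
          y.reg 17 = mask Y ∧ y.reg lR = s.length + 1 ∧ y.reg 67 = gnum L Y) ?_ ?_ (by omega)
      · refine (hGv w n k b i L y4 Y hi hF y4E y17 e60 hiY htabY).mono le_rfl ?_
        rintro y ⟨m5, r5, y67⟩
        refine ⟨m5.trans m4, ?_, by rw [r5 17 (by decide), y17], ?_, y67⟩
        · intro r hr
          simp only [List.mem_cons, List.not_mem_nil, or_false, not_or] at hr
          rw [r5 r (by simp only [List.mem_cons, List.not_mem_nil, or_false, not_or]; omega),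
            r4 r (by simp only [List.mem_cons, List.not_mem_nil, or_false, not_or]; omega)]
        · rw [r5 lR (by simp only [List.mem_cons, List.not_mem_nil, or_false, not_or]; omega), yl]
      rintro y5 ⟨m5, r5, y17, yl, y67⟩
      have e6 : y5.reg 6 = L.length + 3 := by
        rw [r5 6 (by simp only [List.mem_cons, List.not_mem_nil, or_false, not_or]; omega), hxE.r6]
      have q4 : (L.length + 3 + mask Y) % 2 ^ w = L.length + 3 + mask Y := Nat.mod_eq_of_lt (by omega)
      -- 4c
      have hfin : ∀ y : Data, y.mem = Function.update (Function.update x.mem (B + s.length) (mask Y))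
            (L.length + 3 + mask Y) (gnum L Y) →
          (∀ r, r ∉ [lR, 16, 17, 18, 19, 20, 21, 22, 23, 26, 65, 66, 67, 68, 69, 70, 71, 72, 73] →
            y.reg r = x.reg r) → y.reg lR = s.length + 1 →
          InvG L B lR (s ++ [Y]) x0 y ∧ y.reg 60 = 2 ^ i ∧ y.reg 61 = x.reg 61 ∧ y.reg 63 = B + p ∧
            y.reg 64 = (subL n D i).length - p := by
        intro y hm hr hl
        refine ⟨⟨?_, ?_, ?_, ?_, ?_, ?_, ?_⟩, ?_, ?_, ?_, ?_⟩
        · rw [hl, List.length_append, List.length_singleton]
        · intro q hq
          rw [List.length_append, List.length_singleton] at hq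
          rw [hm, Function.update_of_ne (by omega)]
          by_cases hq2 : q < s.length
          · rw [Function.update_of_ne (by omega), List.getElem_append_left hq2]
            exact hI.list q hq2
          · have : q = s.length := by omega
            subst this
            rw [Function.update_self]
            simp
        · intro V hV
          rw [List.mem_append, List.mem_singleton] at hV
          have hVlt : mask V < 2 ^ n := (hA n V V).2.2.2.2.2.2.2.1
          rw [hm]
          by_cases hVY : V = Y
          · rw [hVY, Function.update_self]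
          · have : mask V ≠ mask Y := fun h' => hVY ((hA n V Y).2.2.2.2.2.2.2.2.2.2 h')
            rw [Function.update_of_ne (by omega), Function.update_of_ne (by omega)]
            exact hI.tab V (hV.resolve_right hVY)
        · intro V hV
          have hVlt : mask V < 2 ^ n := (hA n V V).2.2.2.2.2.2.2.1
          rw [hm]
          by_cases hVY : V = Y
          · rw [hVY, Function.update_self]
          · have : mask V ≠ mask Y := fun h' => hVY ((hA n V Y).2.2.2.2.2.2.2.2.2.2 h')
            rw [Function.update_of_ne (by omega), Function.update_of_ne (by omega)]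
            exact hI.mono V hV
        · intro a ha
          rw [hm, Function.update_of_ne (by omega), Function.update_of_ne (by omega)]
          exact hI.low a ha
        · intro a ha hab
          rw [hm, Function.update_of_ne (by omega), Function.update_of_ne (by omega)]
          exact hI.other a ha hab
        · intro r hr'
          simp only [List.mem_cons, List.not_mem_nil, or_false, not_or] at hr'
          rw [hr r (by simp only [List.mem_cons, List.not_mem_nil, or_false, not_or]; omega),
            hI.regs r (by simp only [List.mem_cons, List.not_mem_nil, or_false, not_or]; omega)]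
        · rw [hr 60 (by simp only [List.mem_cons, List.not_mem_nil, or_false, not_or]; omega), h60]
        · rw [hr 61 (by simp only [List.mem_cons, List.not_mem_nil, or_false, not_or]; omega)]
        · rw [hr 63 (by simp only [List.mem_cons, List.not_mem_nil, or_false, not_or]; omega), h63]
        · rw [hr 64 (by simp only [List.mem_cons, List.not_mem_nil, or_false, not_or]; omega), h64]
      refine Runs.block _ (by simp) (hfin _ ?_ ?_ ?_)
      · simp [Op.run, Function.update_apply, e6, y17, y67, q4, m5]
      · intro r hr
        have := r5 r (by simp only [List.mem_cons, List.not_mem_nil, or_false, not_or] at hr ⊢; omega)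
        simp only [List.mem_cons, List.not_mem_nil, or_false, not_or] at hr
        simp [Op.run, hr, this]
      · have d3 : lR ≠ 66 := by omega
        simp [Op.run, d3, yl]
    · intro h
      have hcard : ¬ Z.card < D := by omega
      rw [if_neg hcard, List.append_nil] at hs1
      rw [hs1]
      refine Runs.skip ⟨⟨?_, ?_, ?_, ?_, ?_, ?_, ?_⟩, ?_, ?_, ?_, ?_⟩
      · rw [r3 lR (by simp only [List.mem_cons, List.not_mem_nil, or_false, not_or]; omega), hI.len]
      · rw [m3]; exact hI.list
      · rw [m3]; exact hI.tab
      · rw [m3]; exact hI.mono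
      · rw [m3]; exact hI.low
      · rw [m3]; exact hI.other
      · intro r hr'
        simp only [List.mem_cons, List.not_mem_nil, or_false, not_or] at hr'
        rw [r3 r (by simp only [List.mem_cons, List.not_mem_nil, or_false, not_or]; omega),
          hI.regs r (by simp only [List.mem_cons, List.not_mem_nil, or_false, not_or]; omega)]
      · rw [r3 60 (by decide), h60]
      · rw [r3 61 (by decide)]
      · rw [r3 63 (by decide), h63]
      · rw [r3 64 (by decide), h64]
  -- step 5
  rintro y4 ⟨yI, y60, y61, y63, y64⟩
  have e40 : y4.reg 40 = 1 := by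
    rw [yI.regs 40 (by simp only [List.mem_cons, List.not_mem_nil, or_false, not_or]; omega), hE.env.r40]
  have q5 : (B + p + 1) % 2 ^ w = B + p + 1 := Nat.mod_eq_of_lt (by omega)
  have d4 : lR ≠ 63 := by omega
  have d5 : lR ≠ 64 := by omega
  refine Runs.block _ (by simp) ⟨⟨?_, ?_, ?_, ?_, ?_, ?_, ?_⟩, ?_, ?_, ?_, ?_⟩
  · simp [Op.run, d4, d5, yI.len]
  · simp only [List.foldl, Op.run]; exact yI.list
  · simp only [List.foldl, Op.run]; exact yI.tab
  · simp only [List.foldl, Op.run]; exact yI.mono
  · simp only [List.foldl, Op.run]; exact yI.low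
  · simp only [List.foldl, Op.run]; exact yI.other
  · intro r hr
    have := yI.regs r hr
    simp only [List.mem_cons, List.not_mem_nil, or_false, not_or] at hr
    simp [Op.run, hr, this]
  · simp [Op.run, y60]
  · simp [Op.run, y61]
  · simp [Op.run, y63, e40, q5]
    ring
  · simp only [List.foldl, Op.run, Function.update_apply]
    simp [y64, e40]
    omega

end SCR
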