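import Pool.Agent.Lib.SCR.DP4

/-!
# Construction of a list of sets and of the table
-/

namespace SCR

open Op Stmt

lemma newL_full {n : ℕ} (D i : ℕ) : subL n D i ++ newL D i (subL n D i).length (subL n D i) =
    subL n D (i + 1) := by
  unfold newL
  rw [List.take_length]
  rfl

theorem DP5 (h4 : GtOneSpec) (hA : MaskAlg) (hS : SubLSpec) (hGn : Gnum) : GtSpec := by
  intro w n k b B D bR dR lR L x0 hmem hF hk hE hB hD
  have hspace := hF.space
  have hsq := hF.sq
  have hpow : 0 < 2 ^ n := by positivity
  have hbR : bR ∈ [55, 7, 50] := by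
    simp only [List.mem_cons, Prod.mk.injEq, List.not_mem_nil, or_false] at hmem ⊢
    omega
  have hlR : lR ∈ [59, 56, 57] := by
    simp only [List.mem_cons, Prod.mk.injEq, List.not_mem_nil, or_false] at hmem ⊢
    omega
  simp only [List.mem_cons, List.not_mem_nil, or_false] at hbR hlR
  have hB1 : L.length + 3 + 2 ^ n ≤ B ∧ B ≤ L.length + 3 + 3 * 2 ^ n := by
    rcases hbR with rfl | rfl | rfl
    · rw [← hB, hE.r55]; omega
    · rw [← hB, hE.env.r7]; omega
    · rw [← hB, hE.r50]; omega
  have hempty : mask (∅ : Finset (Fin n)) = 0 := by simp [mask]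
  have hlenT : ∀ i ≤ n, (subL n D i).length ≤ T n D := fun i hi => (hS n D i hi).2.2.1
  unfold gt
  refine Runs.seq (T1 := 6) (T2 := n * ((13 * n + 20 * L.length + 52) * T n D + 8) + 2)
    (R := fun y => InvG L B lR (subL n D 0) x0 y ∧ y.reg 60 = 2 ^ 0 ∧ y.reg 61 = n - 0) ?_ ?_ (by omega)
  · have q1 : 1 % 2 ^ w = 1 := Nat.mod_eq_of_lt (by omega)
    have d1 : bR ≠ 60 := by omega
    have d2 : bR ≠ 61 := by omega
    have d3 : bR ≠ 62 := by omega
    have d4 : lR ≠ 60 := by omega
    have d5 : lR ≠ 61 := by omega
    have hfin : ∀ y : Data, y.mem = Function.update (Function.update x0.mem B 0) (L.length + 3) 0 →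
        (∀ r, r ∉ [lR, 60, 61, 62] → y.reg r = x0.reg r) → y.reg lR = 1 → y.reg 60 = 1 → y.reg 61 = n →
        InvG L B lR (subL n D 0) x0 y ∧ y.reg 60 = 2 ^ 0 ∧ y.reg 61 = n - 0 := by
      intro y hm hr hl h60 h61
      refine ⟨⟨?_, ?_, ?_, ?_, ?_, ?_, ?_⟩, by simpa using h60, by simpa using h61⟩
      · rw [hl]; rfl
      · intro q hq
        have hq0 : q = 0 := by
          have : q < 1 := hq
          omega
        subst hq0
        rw [hm, Function.update_of_ne (by omega), Nat.add_zero, Function.update_self]
        exact hempty.symm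
      · intro V hV
        have hV0 : V = ∅ := by simpa [subL] using hV
        rw [hV0, hempty, Nat.add_zero, hm, Function.update_self]
        exact (hGn n L).2.2.2.1.symm
      · intro V hV
        by_cases hV0 : V = ∅
        · rw [hV0, hempty, Nat.add_zero, hm, Function.update_self]
          exact (hGn n L).2.2.2.1.symm
        · have hVlt : mask V < 2 ^ n := (hA n V V).2.2.2.2.2.2.2.1
          have : mask V ≠ 0 := fun h' => hV0 ((hA n V ∅).2.2.2.2.2.2.2.2.2.2 (by rw [h', hempty]))
          rw [hm, Function.update_of_ne (by omega), Function.update_of_ne (by omega)]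
          exact hV
      · intro a ha
        rw [hm, Function.update_of_ne (by omega), Function.update_of_ne (by omega)]
      · intro a ha hab
        rw [hm, Function.update_of_ne (by omega), Function.update_of_ne (by omega)]
      · intro r hr'
        simp only [List.mem_cons, List.not_mem_nil, or_false, not_or] at hr'
        rw [hr r (by simp only [List.mem_cons, List.not_mem_nil, or_false, not_or]; omega)]
    refine Runs.block _ (by simp) (hfin _ ?_ ?_ ?_ ?_ ?_)
    · simp [Op.run, d1, d2, d3, hE.env.r6, hB]
    · intro r hr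
      simp only [List.mem_cons, List.not_mem_nil, or_false, not_or] at hr
      simp [Op.run, hr]
    · simp [Op.run, q1]
    · simp [Op.run, d4.symm, q1]
    · simp [Op.run, d5.symm, hE.env.r1]
  rintro y ⟨yI, y60, y61⟩
  refine Runs.loop n ((13 * n + 20 * L.length + 52) * T n D + 5)
    (fun i y => InvG L B lR (subL n D i) x0 y ∧ y.reg 60 = 2 ^ i ∧ y.reg 61 = n - i)
    ⟨yI, y60, y61⟩ ?_ ?_ ?_ ?_ ?_
  · rintro j hj v ⟨_, _, h⟩
    omega
  · rintro v ⟨_, _, h⟩
    omega
  · rintro i hi v ⟨vI, v60, v61⟩
    have hle := hlenT i hi.le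
    have hmul := Nat.mul_le_mul_left (13 * n + 20 * L.length + 52) hle
    unfold gtRound
    refine Runs.seq (T1 := 2) (T2 := (13 * n + 20 * L.length + 52) * T n D + 3)
      (R := fun y => InvG L B lR (subL n D i) x0 y ∧ y.reg 60 = 2 ^ i ∧ y.reg 61 = n - i ∧ y.reg 63 = B ∧
        y.reg 64 = (subL n D i).length) ?_ ?_ (by omega)
    · have vb : v.reg bR = B := by
        rw [← hB]; apply vI.regs
        simp only [List.mem_cons, List.not_mem_nil, or_false, not_or]; omega
      have d1 : lR ≠ 63 := by omega
      have d2 : lR ≠ 64 := by omega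
      refine Runs.block _ (by simp) ⟨⟨?_, ?_, ?_, ?_, ?_, ?_, ?_⟩, ?_, ?_, ?_, ?_⟩
      · simp [Op.run, d1, d2, vI.len]
      · simp only [List.foldl, Op.run]; exact vI.list
      · simp only [List.foldl, Op.run]; exact vI.tab
      · simp only [List.foldl, Op.run]; exact vI.mono
      · simp only [List.foldl, Op.run]; exact vI.low
      · simp only [List.foldl, Op.run]; exact vI.other
      · intro r hr
        have := vI.regs r hr
        simp only [List.mem_cons, List.not_mem_nil, or_false, not_or] at hr
        simp [Op.run, hr, this]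
      · simp [Op.run, v60]
      · simp [Op.run, v61]
      · simp [Op.run, vb]
      · simp [Op.run, d1, vI.len]
    rintro u ⟨uI, u60, u61, u63, u64⟩
    refine Runs.seq (T1 := (13 * n + 20 * L.length + 52) * T n D + 1) (T2 := 2)
      (R := fun y => InvG L B lR (subL n D (i + 1)) x0 y ∧ y.reg 60 = 2 ^ i ∧ y.reg 61 = n - i)
      ?_ ?_ (by omega)
    · refine Runs.loop (subL n D i).length (13 * n + 20 * L.length + 50)
        (fun p y => InvG L B lR (subL n D i ++ newL D i p (subL n D i)) x0 y ∧ y.reg 60 = 2 ^ i ∧
          y.reg 61 = n - i ∧ y.reg 63 = B + p ∧ y.reg 64 = (subL n D i).length - p)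
        ⟨?_, u60, u61, by omega, by omega⟩ ?_ ?_ ?_ ?_ ?_
      · have : newL D i 0 (subL n D i) = [] := by simp [newL]
        rw [this, List.append_nil]
        exact uI
      · rintro j hj v ⟨_, _, _, _, h⟩
        omega
      · rintro v ⟨_, _, _, _, h⟩
        omega
      · rintro p hp v ⟨vI, v60, v61, v63, v64⟩
        refine (h4 w n k b B D i p bR dR lR L x0 v hmem hF hk hE hB hD hi hp vI v60 v63 v64).mono le_rfl ?_
        rintro z ⟨zI, z60, z61, z63, z64⟩
        exact ⟨zI, z60, z61.trans v61, z63, z64⟩
      · have : (subL n D i).length * (13 * n + 20 * L.length + 50 + 2) =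
          (13 * n + 20 * L.length + 52) * (subL n D i).length := by ring
        rw [this]
        omega
      · rintro v ⟨vI, v60, v61, _, _⟩
        rw [newL_full] at vI
        exact ⟨vI, v60, v61⟩
    rintro z ⟨zI, z60, z61⟩
    have z40 : z.reg 40 = 1 := by
      rw [zI.regs 40 (by simp only [List.mem_cons, List.not_mem_nil, or_false, not_or]; omega), hE.env.r40]
    have p2 : (2 ^ i + 2 ^ i) % 2 ^ w = 2 ^ i + 2 ^ i := by
      have : 2 ^ (i + 1) ≤ 2 ^ n := Nat.pow_le_pow_right (by norm_num) hi
      rw [pow_succ] at this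
      exact Nat.mod_eq_of_lt (by omega)
    have d1 : lR ≠ 60 := by omega
    have d2 : lR ≠ 61 := by omega
    refine Runs.block _ (by simp) ⟨⟨?_, ?_, ?_, ?_, ?_, ?_, ?_⟩, ?_, ?_⟩
    · simp [Op.run, d1, d2, zI.len]
    · simp only [List.foldl, Op.run]; exact zI.list
    · simp only [List.foldl, Op.run]; exact zI.tab
    · simp only [List.foldl, Op.run]; exact zI.mono
    · simp only [List.foldl, Op.run]; exact zI.low
    · simp only [List.foldl, Op.run]; exact zI.other
    · intro r hr
      have := zI.regs r hr
      simp only [List.mem_cons, List.not_mem_nil, or_false, not_or] at hr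
      simp [Op.run, hr, this]
    · simp only [List.foldl, Op.run, Function.update_apply]
      simp [z60, p2]
      ring
    · simp only [List.foldl, Op.run, Function.update_apply]
      simp [z61, z40]
      omega
  · have : n * ((13 * n + 20 * L.length + 52) * T n D + 5 + 2) ≤
        n * ((13 * n + 20 * L.length + 52) * T n D + 8) := Nat.mul_le_mul_left _ (by omega)
    omega
  · rintro v ⟨vI, _, _⟩
    exact vI

end SCR
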