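import Pool.Agent.Lib.SCR.Prog
import Pool.Agent.Lib.SCR.DDefs

/-!
# The program of Theorem D (large `k`) and its machine rows

Registers: 0 output, 1 `n`, 2 number `m` of sets, 3 `k` (at most `n`), 4 `2^n`, 5 `2^n - 1`, 6 address of the table
of cover numbers, 7 address of the list of the sets `E`, 40 the constant `1` (all this as in `Prog`, `Env k 0 L`),
50 address of the list of the sets `Z`, 51 address of the list of masks, 52 bound for `|Z|`, 53 bound of the
table, 54 bound for `|E|`, 55 address of the list of the table, 56, 57, 58, 59 lengths of the lists of the `E`, of the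
`Z`, of the masks, of the table; `100 + 4 d` union of the guessed sets at level `d`, `101 + 4 d` their number,
`102 + 4 d` address of the set, `103 + 4 d` sets left.
-/

namespace SCR

open Op Stmt

/-- `R_d := R_a / c` (`c` a constant), using 60, 61, 62. -/
def divC (d a c : ℕ) : Stmt :=
  seq (block [const d 0, const 60 c, or 61 a a, add 62 61 40, sub 62 62 60]) <|
  loop 62 (block [sub 61 61 60, add d d 40, add 62 61 40, sub 62 62 60])

/-- The bounds and addresses. -/
def bounds (b : ℕ) : Stmt :=
  seq (divC 52 1 b) <|
  seq (divC 53 1 2) <|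
  seq (divC 54 3 4) <|
  block [sub 54 53 54, const 60 b, add 54 54 60, sub 53 53 52, add 61 52 52, add 52 61 52, sub 53 53 52,
    add 53 53 52, add 50 7 4, add 51 50 4, add 55 6 4]

/-- `R67 :=` minimum of `n + 1` and of one plus the table value of `Y \ A` for the sets `A` containing the bit
`R60`, where `Y` is in `R17`. -/
def gval : Stmt :=
  seq (block [add 67 1 40, const 68 3, or 69 2 2]) <|
  loop 69 (
    seq (block [load 70 68, and 71 70 60]) <|
    seq (ite 71
      (seq (block [and 72 17 70, sub 72 17 72, add 72 6 72, load 72 72, add 72 72 40, sub 73 67 72]) <|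
        ite 73 (block [or 67 72 72]) skip)
      skip) <|
    block [add 68 68 40, sub 69 69 40])

/-- One set of the list at `R_b`, bound `R_d`, length `R_l`. -/
def gtOne (b d l : ℕ) : Stmt :=
  seq (block [load 16 63, or 18 16 16]) <|
  seq count <|
  seq (block [sub 65 d 19]) <|
  seq (ite 65
    (seq (block [add 17 16 60, add 66 b l, store 66 17, add l l 40]) <|
      seq gval <| block [add 66 6 17, store 66 67])
    skip) <|
  block [add 63 63 40, sub 64 64 40]

/-- All sets with the new element `R60`. -/
def gtRound (b d l : ℕ) : Stmt :=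
  seq (block [or 63 b b, or 64 l l]) <|
  seq (loop 64 (gtOne b d l)) <|
  block [add 60 60 60, sub 61 61 40]

/-- Put the list of all sets with at most `R_d` elements at `R_b`, its length in `R_l`, and their cover numbers in
the table. -/
def gt (b d l : ℕ) : Stmt :=
  seq (block [const 60 1, or 61 1 1, const 62 0, store b 62, store 6 62, const l 1]) <|
  loop 61 (gtRound b d l)

/-- `R74 :=` the set of all `u < n` which have the bit `R75`. -/
def bitMask : Stmt :=
  seq (block [const 74 0, const 76 0, const 77 1, or 78 1 1]) <|
  loop 78 (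
    seq (block [and 79 76 75]) <|
    seq (ite 79 (block [add 74 74 77]) skip) <|
    block [add 76 76 40, add 77 77 77, sub 78 78 40])

/-- Double the list of masks at `R51` with length `R58`. -/
def zRound : Stmt :=
  seq bitMask <|
  seq (block [or 63 51 51, or 64 58 58, add 65 51 58]) <|
  seq (loop 64 (block [load 66 63, or 67 66 74, and 68 66 74, sub 67 67 68, store 65 67, add 65 65 40,
    add 63 63 40, sub 64 64 40])) <|
  block [add 58 58 58, add 75 75 75, sub 59 1 75]

/-- The list of masks. -/
def zList : Stmt :=
  seq (block [const 60 0, store 51 60, add 61 51 40, store 61 5, const 58 2, const 75 1, sub 59 1 75]) <|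
  loop 59 zRound

/-- `R89`, `R90` := best values for `X` (in `R86`) and `X'` (in `R88`). -/
def minLoop : Stmt :=
  seq (block [add 89 1 40, add 90 1 40, or 91 50 50, or 92 57 57]) <|
  loop 92 (
    seq (block [load 93 91, and 94 86 93, sub 18 86 94, and 95 88 93, sub 16 88 95]) <|
    seq count <|
    seq (block [add 96 53 40, sub 97 96 19]) <|
    seq (ite 97
      (seq (block [add 97 6 18, load 97 97, add 98 6 94, load 98 98, add 97 97 98, sub 98 89 97]) <|
        ite 98 (block [or 89 97 97]) skip) skip) <|
    seq (block [sub 97 96 20]) <|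
    seq (ite 97
      (seq (block [add 97 6 16, load 97 97, add 98 6 95, load 98 98, add 97 97 98, sub 98 90 97]) <|
        ite 98 (block [or 90 97 97]) skip) skip) <|
    block [add 91 91 40, sub 92 92 40])

/-- All `E`, for the mask in `R82`; the guessed union in `R100`, its cost in `R101`. -/
def eLoop : Stmt :=
  seq (block [or 83 7 7, or 84 56 56]) <|
  loop 84 (
    seq (block [load 85 83, or 86 82 85, and 87 82 85, sub 86 86 87, or 88 86 100, sub 88 5 88]) <|
    seq minLoop <|
    seq (block [add 97 89 90, add 97 97 101, add 98 3 40, sub 98 98 97]) <|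
    seq (ite 98 (block [const 0 1]) skip) <|
    block [add 83 83 40, sub 84 84 40])

/-- All masks and all `E`. -/
def search : Stmt :=
  seq (block [or 80 51 51, or 81 58 58]) <|
  loop 81 (
    seq (block [load 82 80]) <|
    seq eLoop <|
    block [add 80 80 40, sub 81 81 40])

/-- Guess at most `d` sets. -/
def guess : ℕ → Stmt
  | 0 => search
  | d + 1 =>
    seq (block [or (100 + 4 * d) (104 + 4 * d) (104 + 4 * d), or (101 + 4 * d) (105 + 4 * d) (105 + 4 * d)]) <|
    seq (guess d) <|
    seq (block [const (106 + 4 * d) 3, or (107 + 4 * d) 2 2]) <|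
    loop (107 + 4 * d) (
      seq (block [load (100 + 4 * d) (106 + 4 * d), or (100 + 4 * d) (100 + 4 * d) (104 + 4 * d),
        add (101 + 4 * d) (105 + 4 * d) 40]) <|
      seq (guess d) <|
      block [add (106 + 4 * d) (106 + 4 * d) 40, sub (107 + 4 * d) (107 + 4 * d) 40])

/-- The whole program. -/
def mainD (b : ℕ) : Stmt :=
  seq setup <|
  seq (bounds b) <|
  seq (gt 55 53 59) <|
  seq (gt 7 54 56) <|
  seq (gt 50 52 57) <|
  seq zList <|
  seq (block [const 0 0, const (100 + 4 * b) 0, const (101 + 4 * b) 0]) <|
  guess b

end SCR
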