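import Pool.Agent.Lib.SCR.DProg

/-!
# Machine rows and pure rows of Theorem D
-/

namespace SCR

open Finset

/-! ### Masks -/

/-- DMa: the bits of a mask -/
def MaskTestBit : Prop := ∀ (n : ℕ) (A : Finset (Fin n)) (i : ℕ),
  ((mask A).testBit i = true ↔ ∃ h : i < n, (⟨i, h⟩ : Fin n) ∈ A)

/-- DMb (from DMa) -/
def MaskAlg : Prop := ∀ (n : ℕ) (A B : Finset (Fin n)),
  mask A &&& mask B = mask (A ∩ B) ∧ mask A ||| mask B = mask (A ∪ B) ∧
  mask A - mask (A ∩ B) = mask (A \ B) ∧ mask (A ∪ B) - mask (A ∩ B) = mask (symmDiff A B) ∧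
  2 ^ n - 1 - mask A = mask (univ \ A) ∧ mask (∅ : Finset (Fin n)) = 0 ∧
  mask (univ : Finset (Fin n)) = 2 ^ n - 1 ∧ mask A < 2 ^ n ∧
  (∀ i : Fin n, i ∉ A → mask A + 2 ^ (i : ℕ) = mask (insert i A)) ∧
  (∀ i : Fin n, (mask A &&& 2 ^ (i : ℕ) ≠ 0 ↔ i ∈ A)) ∧ (mask A = mask B → A = B)

/-! ### Pure lists -/

/-- The memory holds the words of the sets of `l` from address `b` on. -/
def ListAt {n : ℕ} (b : ℕ) (l : List (Finset (Fin n))) (mem : ℕ → ℕ) : Prop :=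
  ∀ p (h : p < l.length), mem (b + p) = mask l[p]

/-- The list built by `gt` after `i` rounds (bound `d`). -/
def subL (n d : ℕ) : ℕ → List (Finset (Fin n))
  | 0 => [∅]
  | i + 1 => subL n d i ++
      ((subL n d i).filter fun Y => Y.card < d).map fun Y => if h : i < n then insert ⟨i, h⟩ Y else Y

/-- DS -/
def SubLSpec : Prop := ∀ n d i : ℕ, i ≤ n →
  (∀ Y : Finset (Fin n), Y ∈ subL n d i ↔ Y.card ≤ d ∧ ∀ u ∈ Y, (u : ℕ) < i) ∧
  (subL n d i).Nodup ∧ (subL n d i).length ≤ T n d ∧ (subL n d i).length ≤ 2 ^ n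

/-- The elements `u < n` with bit `i`. -/
def bitSet (n i : ℕ) : Finset (Fin n) := univ.filter fun u => (u : ℕ).testBit i = true

/-- The list of masks after `i` rounds. -/
def zL (n : ℕ) : ℕ → List (Finset (Fin n))
  | 0 => [∅, univ]
  | i + 1 => zL n i ++ (zL n i).map fun z => symmDiff z (bitSet n i)

/-- DZ -/
def ZLSpec : Prop := ∀ n i : ℕ, (zL n i).length = 2 ^ (i + 1) ∧
  ∀ S ⊆ range i, ∀ c : Bool, zmask n S c ∈ zL n i

/-- The value found for `X` by `minLoop`: `lz` is the list of the `Z`, `d` the bound of the table. -/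
noncomputable def vmin {n : ℕ} (L : List (Finset (Fin n))) (d : ℕ) (lz : List (Finset (Fin n)))
    (X : Finset (Fin n)) : ℕ :=
  lz.foldl (fun v Z => if (X \ Z).card ≤ d then min v (gnum L (X \ Z) + gnum L (X ∩ Z)) else v) (n + 1)

/-- DV -/
def VminSpec : Prop := ∀ (n d : ℕ) (L lz : List (Finset (Fin n))) (X : Finset (Fin n)),
  vmin L d lz X ≤ n + 1 ∧
  (vmin L d lz X = n + 1 ∨ ∃ Z ∈ lz, (X \ Z).card ≤ d ∧ vmin L d lz X = gnum L (X \ Z) + gnum L (X ∩ Z)) ∧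
  ∀ Z ∈ lz, (X \ Z).card ≤ d → vmin L d lz X ≤ gnum L (X \ Z) + gnum L (X ∩ Z)

/-- The test of the inner loop: `G` the union of `c` guessed sets, `z` the mask, `E` the difference. -/
def Good {n : ℕ} (L : List (Finset (Fin n))) (k d : ℕ) (lz : List (Finset (Fin n)))
    (G : Finset (Fin n)) (c : ℕ) (z E : Finset (Fin n)) : Prop :=
  vmin L d lz (symmDiff z E) + vmin L d lz (univ \ (symmDiff z E ∪ G)) + c ≤ k

/-- The union of a list of sets. -/
def unionL {n : ℕ} (l : List (Finset (Fin n))) : Finset (Fin n) := l.foldr (· ∪ ·) ∅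

/-- DSo (soundness; from DV, D7) -/
def SoundD : Prop := ∀ (n k d : ℕ) (L lz l : List (Finset (Fin n))) (z E : Finset (Fin n)), k ≤ n →
  (∀ A ∈ l, A ∈ L) → Good L k d lz (unionL l) l.length z E → Cov L k univ

/-- DCo (completeness; from D6, D7, DV, DS, DZ) -/
def CompleteD : Prop := ∀ (n k b : ℕ) (L : List (Finset (Fin n))), 1 ≤ b → k ≤ n → Cov L k univ →
  ∃ l : List (Finset (Fin n)), (∀ A ∈ l, A ∈ L) ∧ l.length ≤ b ∧ ∃ z ∈ zL n (Nat.clog 2 n),
    ∃ E ∈ subL n (n / 2 - k / 4 + b) n,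
    Good L k (max (n / 2 - n / b) (3 * (n / b))) (subL n (3 * (n / b)) n) (unionL l) l.length z E

/-- DK: `k` may be replaced by `min k n` -/
def CovMin : Prop := ∀ (n k : ℕ) (L : List (Finset (Fin n))), Coverable n k L ↔ Cov L (min k n) univ

/-! ### Machine rows -/

/-- The numbers that occur are words. -/
structure FitsD (w n m b : ℕ) : Prop where
  space : m + 3 + 4 * 2 ^ n + 8 * (n + 1) + 10 * b + 100 ≤ 2 ^ w
  sq : (n + 2) * (n + 2) < 2 ^ w

/-- The addresses and bounds. -/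
structure EnvD {n : ℕ} (k b : ℕ) (L : List (Finset (Fin n))) (x : Data) : Prop where
  env : Env k 0 L x
  r50 : x.reg 50 = L.length + 3 + 2 ^ n + 2 ^ n + 2 ^ n
  r51 : x.reg 51 = L.length + 3 + 2 ^ n + 2 ^ n + 2 ^ n + 2 ^ n
  r52 : x.reg 52 = 3 * (n / b)
  r53 : x.reg 53 = max (n / 2 - n / b) (3 * (n / b))
  r54 : x.reg 54 = n / 2 - k / 4 + b
  r55 : x.reg 55 = L.length + 3 + 2 ^ n

/-- The table is right for the sets with at most `d` elements. -/
def TabD {n : ℕ} (L : List (Finset (Fin n))) (d : ℕ) (mem : ℕ → ℕ) : Prop :=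
  ∀ Y : Finset (Fin n), Y.card ≤ d → mem (L.length + 3 + mask Y) = gnum L Y

/-- DP1 -/
def DivSpec : Prop := ∀ (w d a c : ℕ) (x : Data), 1 ≤ c → c < 2 ^ w → x.reg a + 1 < 2 ^ w → x.reg 40 = 1 →
  d ≠ a → d ∉ [40, 60, 61, 62] → a ∉ [60, 61, 62] →
  Runs w (divC d a c) x (6 * x.reg a + 6) (fun y => y.mem = x.mem ∧
    (∀ r, r ∉ [d, 60, 61, 62] → y.reg r = x.reg r) ∧ y.reg d = x.reg a / c)

/-- DP2 (from DP1) -/
def BoundsSpec : Prop := ∀ (w n k b : ℕ) (L : List (Finset (Fin n))) (x : Data), 1 ≤ b → k ≤ n →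
  FitsD w n L.length b → Env k 0 L x →
  Runs w (bounds b) x (18 * n + 40) (fun y => y.mem = x.mem ∧ EnvD k b L y)

/-- DP3 -/
def GvalSpec : Prop := ∀ (w n k b i : ℕ) (L : List (Finset (Fin n))) (x : Data) (Y : Finset (Fin n))
  (hi : i < n), FitsD w n L.length b → Env k 0 L x → x.reg 17 = mask Y → x.reg 60 = 2 ^ i → (⟨i, hi⟩ : Fin n) ∈ Y →
  (∀ A ∈ L, (⟨i, hi⟩ : Fin n) ∈ A → x.mem (L.length + 3 + mask (Y \ A)) = gnum L (Y \ A)) →
  Runs w gval x (20 * L.length + 10) (fun y => y.mem = x.mem ∧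
    (∀ r, r ∉ [67, 68, 69, 70, 71, 72, 73] → y.reg r = x.reg r) ∧ y.reg 67 = gnum L Y)

/-- The state of the construction of a list: base address `B`, register of the length `l`, list `s`;
`x0` is the state before. -/
structure InvG {n : ℕ} (L : List (Finset (Fin n))) (B l : ℕ) (s : List (Finset (Fin n))) (x0 x : Data) :
    Prop where
  len : x.reg l = s.length
  list : ListAt B s x.mem
  tab : ∀ Y ∈ s, x.mem (L.length + 3 + mask Y) = gnum L Y
  mono : ∀ Y : Finset (Fin n), x0.mem (L.length + 3 + mask Y) = gnum L Y →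
    x.mem (L.length + 3 + mask Y) = gnum L Y
  low : ∀ a < L.length + 3, x.mem a = x0.mem a
  other : ∀ a, L.length + 3 + 2 ^ n ≤ a → (a < B ∨ B + 2 ^ n ≤ a) → x.mem a = x0.mem a
  regs : ∀ r, r ∉ [l, 16, 17, 18, 19, 20, 21, 22, 23, 26, 60, 61, 62, 63, 64, 65, 66, 67, 68, 69, 70, 71, 72, 73] →
    x.reg r = x0.reg r

/-- The new sets appended for the first `p` sets of the list `s`. -/
def newL {n : ℕ} (d i p : ℕ) (s : List (Finset (Fin n))) : List (Finset (Fin n)) :=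
  ((s.take p).filter fun Y => Y.card < d).map fun Y => if h : i < n then insert ⟨i, h⟩ Y else Y

/-- DP4 (one set of the list; from DP3, DM, DS, CountSpec): after `p` sets of round `i` -/
def GtOneSpec : Prop := ∀ (w n k b B D i p : ℕ) (bR dR lR : ℕ) (L : List (Finset (Fin n))) (x0 x : Data),
  (bR, dR, lR) ∈ [(55, 53, 59), (7, 54, 56), (50, 52, 57)] → FitsD w n L.length b → k ≤ n → EnvD k b L x0 →
  x0.reg bR = B → x0.reg dR = D → i < n → ∀ hp : p < (subL n D i).length,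
  InvG L B lR (subL n D i ++ newL D i p (subL n D i)) x0 x →
  x.reg 60 = 2 ^ i → x.reg 63 = B + p → x.reg 64 = (subL n D i).length - p →
  Runs w (gtOne bR dR lR) x (13 * n + 20 * L.length + 50) (fun y =>
    InvG L B lR (subL n D i ++ newL D i (p + 1) (subL n D i)) x0 y ∧
    y.reg 60 = 2 ^ i ∧ y.reg 61 = x.reg 61 ∧ y.reg 63 = B + (p + 1) ∧ y.reg 64 = (subL n D i).length - (p + 1))

/-- DP5 (from DP4): the list of all sets with at most `D` elements -/
def GtSpec : Prop := ∀ (w n k b B D : ℕ) (bR dR lR : ℕ) (L : List (Finset (Fin n))) (x0 : Data),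
  (bR, dR, lR) ∈ [(55, 53, 59), (7, 54, 56), (50, 52, 57)] → FitsD w n L.length b → k ≤ n → EnvD k b L x0 →
  x0.reg bR = B → x0.reg dR = D →
  Runs w (gt bR dR lR) x0 (n * ((13 * n + 20 * L.length + 52) * T n D + 8) + 8)
    (fun y => InvG L B lR (subL n D n) x0 y)

/-- DP6 -/
def BitMaskSpec : Prop := ∀ (w n i : ℕ) (x : Data), x.reg 1 = n → x.reg 40 = 1 → x.reg 75 = 2 ^ i → 2 ^ i ≤ n →
  2 ^ n < 2 ^ w → n + 1 < 2 ^ w →
  Runs w bitMask x (9 * n + 6) (fun y => y.mem = x.mem ∧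
    (∀ r, r ∉ [74, 76, 77, 78, 79] → y.reg r = x.reg r) ∧ y.reg 74 = mask (bitSet n i))

/-- DP7 (from DP6): the list of masks -/
def ZListSpec : Prop := ∀ (w n k b : ℕ) (L : List (Finset (Fin n))) (x : Data), FitsD w n L.length b →
  EnvD k b L x →
  Runs w zList x (n * (9 * n + 60 * (n + 1)) + 10) (fun y =>
    (∀ r, r ∉ [58, 59, 60, 61, 63, 64, 65, 66, 67, 68, 74, 75, 76, 77, 78, 79] → y.reg r = x.reg r) ∧
    y.reg 58 = (zL n (Nat.clog 2 n)).length ∧ ListAt (x.reg 51) (zL n (Nat.clog 2 n)) y.mem ∧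
    ∀ a < x.reg 51, y.mem a = x.mem a)

/-- The state in the search phase. -/
structure EnvS {n : ℕ} (k b : ℕ) (L le lz zl : List (Finset (Fin n))) (x : Data) : Prop where
  env : EnvD k b L x
  tab : TabD L (max (n / 2 - n / b) (3 * (n / b))) x.mem
  ale : ListAt (L.length + 3 + 2 ^ n + 2 ^ n) le x.mem
  alz : ListAt (L.length + 3 + 2 ^ n + 2 ^ n + 2 ^ n) lz x.mem
  azl : ListAt (L.length + 3 + 2 ^ n + 2 ^ n + 2 ^ n + 2 ^ n) zl x.mem
  r56 : x.reg 56 = le.length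
  r57 : x.reg 57 = lz.length
  r58 : x.reg 58 = zl.length
  sle : le.length ≤ 2 ^ n
  slz : lz.length ≤ 2 ^ n
  szl : zl.length ≤ 4 * (n + 1)
  clz : ∀ Z ∈ lz, Z.card ≤ 3 * (n / b)

/-- DP8 (from CountSpec, DM) -/
def MinLoopSpec : Prop := ∀ (w n k b : ℕ) (L le lz zl : List (Finset (Fin n))) (x : Data)
  (X X' : Finset (Fin n)), FitsD w n L.length b → k ≤ n → EnvS k b L le lz zl x → x.reg 86 = mask X →
  x.reg 88 = mask X' →
  Runs w minLoop x ((13 * n + 50) * lz.length + 5) (fun y => y.mem = x.mem ∧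
    (∀ r, r ∉ [16, 18, 19, 20, 21, 22, 23, 26, 89, 90, 91, 92, 93, 94, 95, 96, 97, 98] → y.reg r = x.reg r) ∧
    y.reg 89 = vmin L (max (n / 2 - n / b) (3 * (n / b))) lz X ∧
    y.reg 90 = vmin L (max (n / 2 - n / b) (3 * (n / b))) lz X')

open Classical in
/-- DP9 (from DP8) -/
def ELoopSpec : Prop := ∀ (w n k b c : ℕ) (L le lz zl : List (Finset (Fin n))) (x : Data)
  (z G : Finset (Fin n)), FitsD w n L.length b → k ≤ n → EnvS k b L le lz zl x → x.reg 82 = mask z →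
  x.reg 100 = mask G → x.reg 101 = c → c ≤ b → x.reg 0 ≤ 1 →
  Runs w eLoop x (((13 * n + 50) * lz.length + 30) * le.length + 5) (fun y => y.mem = x.mem ∧
    (∀ r, r ∉ [0, 16, 18, 19, 20, 21, 22, 23, 26, 83, 84, 85, 86, 87, 88, 89, 90, 91, 92, 93, 94, 95, 96, 97, 98] →
      y.reg r = x.reg r) ∧
    y.reg 0 = if x.reg 0 = 1 ∨ ∃ E ∈ le, Good L k (max (n / 2 - n / b) (3 * (n / b))) lz G c z E then 1 else 0)

open Classical in
/-- DP10 (from DP9) -/
def SearchSpec : Prop := ∀ (w n k b c : ℕ) (L le lz zl : List (Finset (Fin n))) (x : Data)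
  (G : Finset (Fin n)), FitsD w n L.length b → k ≤ n → EnvS k b L le lz zl x →
  x.reg 100 = mask G → x.reg 101 = c → c ≤ b → x.reg 0 ≤ 1 →
  Runs w search x ((((13 * n + 50) * lz.length + 30) * le.length + 10) * zl.length + 5) (fun y => y.mem = x.mem ∧
    (∀ r, r ∉ [0, 16, 18, 19, 20, 21, 22, 23, 26, 80, 81, 82, 83, 84, 85, 86, 87, 88, 89, 90, 91, 92, 93, 94, 95, 96,
      97, 98] → y.reg r = x.reg r) ∧
    y.reg 0 = if x.reg 0 = 1 ∨ ∃ z ∈ zl, ∃ E ∈ le,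
      Good L k (max (n / 2 - n / b) (3 * (n / b))) lz G c z E then 1 else 0)

open Classical in
/-- DP11 (from DP10; induction on `d`) -/
def GuessSpec : Prop := ∀ (w n k b d c : ℕ) (L le lz zl : List (Finset (Fin n))) (x : Data)
  (G : Finset (Fin n)), FitsD w n L.length b → k ≤ n → EnvS k b L le lz zl x → d ≤ b →
  x.reg (100 + 4 * d) = mask G → x.reg (101 + 4 * d) = c → c + d ≤ b → x.reg 0 ≤ 1 →
  Runs w (guess d) x
    ((L.length + 1) ^ d * ((((13 * n + 50) * lz.length + 30) * le.length + 10) * zl.length + 5 + 9 * d))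
    (fun y => y.mem = x.mem ∧
    (∀ r, r < 100 → r ∉ [0, 16, 18, 19, 20, 21, 22, 23, 26, 80, 81, 82, 83, 84, 85, 86, 87, 88, 89, 90, 91, 92, 93,
      94, 95, 96, 97, 98] → y.reg r = x.reg r) ∧
    (∀ r, 100 + 4 * d ≤ r → r ≠ 102 + 4 * d → r ≠ 103 + 4 * d → y.reg r = x.reg r) ∧
    y.reg 0 = if x.reg 0 = 1 ∨ ∃ l : List (Finset (Fin n)), (∀ A ∈ l, A ∈ L) ∧ l.length ≤ d ∧
      ∃ z ∈ zl, ∃ E ∈ le,
      Good L k (max (n / 2 - n / b) (3 * (n / b))) lz (G ∪ unionL l) (c + l.length) z E then 1 else 0)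

/-- DP12 (main assembly): the whole program -/
def MainDSpec : Prop := ∀ (b n k : ℕ) (L : List (Finset (Fin n))), 1 ≤ b →
  Decides ((mainD b).compile 0) n k L
    (L.length + 100 + (n + 8) * (2 ^ n + 2 ^ n) + (n + 10) * (n + 10) + 10 * b)
    (1000 * (b + 1) * (n + 1) ^ 3 * (L.length + 1) ^ (b + 1) *
      (T n (max (n / 2 - n / b) (3 * (n / b))) + (T n (n / 2 - min k n / 4 + b)) * (T n (3 * (n / b))) + 1))

end SCR
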