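import Pool.Agent.Lib.SCR.Prog
import Pool.Agent.Lib.SCR.DA4

/-!
# The number of states of one round
-/

namespace SCR

open Finset

/-- subfamilies with at most `J` members -/
lemma card_powerset_filter_le {α : Type*} [DecidableEq α] (s : Finset α) (J : ℕ) :
    (s.powerset.filter fun G => G.card ≤ J).card = T s.card J := by
  have h : (s.powerset.filter fun G => G.card ≤ J)
      = (range (J + 1)).biUnion fun i => powersetCard i s := by
    ext Y
    simp only [mem_filter, mem_powerset, mem_biUnion, mem_range, mem_powersetCard]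
    constructor
    · rintro ⟨h1, h2⟩
      exact ⟨Y.card, by omega, h1, rfl⟩
    · rintro ⟨i, h1, h2, h3⟩
      exact ⟨h2, by omega⟩
  rw [h, card_biUnion]
  · simp [T]
  · intro a _ b _ hab
    rw [Function.onFun, disjoint_left]
    intro Y h1 h2
    rw [mem_powersetCard] at h1 h2
    exact hab (h1.2.symm.trans h2.2)

lemma Reach.inv_false {n s k : ℕ} {L : List (Finset (Fin n))} {j : ℕ} {Y : Finset (Fin n)} {b : Bool}
    (h : Reach s k L j Y b) : b = false →
    (∃ G ⊆ L.toFinset.filter (fun A => s ≤ A.card), G.card ≤ j ∧ Y = G.biUnion id) ∧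
      j * s ≤ Y.card ∧ j * n ≤ Y.card * k := by
  induction h with
  | start => intro _; exact ⟨⟨∅, by simp, by simp, by simp⟩, by simp, by simp⟩
  | @big j Y A _ hA hs hf ih =>
    intro _
    obtain ⟨⟨G, h1, h2, h3⟩, h4, _⟩ := ih rfl
    refine ⟨⟨insert A G, ?_, (card_insert_le _ _).trans (by omega), ?_⟩, ?_, hf⟩
    · refine insert_subset ?_ h1
      rw [mem_filter, List.mem_toFinset]
      exact ⟨hA, hs.trans (card_le_card sdiff_subset)⟩
    · rw [biUnion_insert, ← h3, union_comm]; rfl
    · rw [← union_sdiff_self_eq_union, card_union_of_disjoint disjoint_sdiff]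
      calc (j + 1) * s = j * s + s := by ring
        _ ≤ _ := Nat.add_le_add h4 hs
  | @small j Y A b _ hA _ _ ih => intro h; simp at h

lemma Reach.inv_true {n s k : ℕ} {L : List (Finset (Fin n))} {j : ℕ} {Y : Finset (Fin n)} {b : Bool}
    (h : Reach s k L j Y b) :
    ∃ i t X, Reach s k L i X false ∧ X ⊆ Y ∧ (Y \ X).card ≤ t * (s - 1) ∧ ∀ v : Fin n, n ≤ v + t → v ∈ Y := by
  induction h with
  | start =>
    exact ⟨0, 0, ∅, Reach.start, Subset.rfl, by simp, fun v hv => absurd v.2 (by omega)⟩
  | @big j Y A h hA hs hf ih =>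
    exact ⟨j + 1, 0, Y ∪ A, Reach.big h hA hs hf, Subset.rfl, by simp, fun v hv => absurd v.2 (by omega)⟩
  | @small j Y A b h hA hs htop ih =>
    obtain ⟨i, t, X, h1, h2, h3, h4⟩ := ih
    refine ⟨i, t + 1, X, h1, h2.trans subset_union_left, ?_, ?_⟩
    · calc ((Y ∪ A) \ X).card ≤ ((Y \ X) ∪ (A \ Y)).card := by
            apply card_le_card
            intro x hx
            simp only [mem_sdiff, mem_union] at hx ⊢
            by_cases hxY : x ∈ Y
            · exact Or.inl ⟨hxY, hx.2⟩
            · exact Or.inr ⟨hx.1.resolve_left hxY, hxY⟩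
        _ ≤ (Y \ X).card + (A \ Y).card := card_union_le _ _
        _ ≤ t * (s - 1) + (s - 1) := by omega
        _ = (t + 1) * (s - 1) := by ring
    · intro v hv
      rw [mem_union]
      by_cases hvY : v ∈ Y
      · exact Or.inl hvY
      · right
        obtain ⟨x, hxA, hxY, hx⟩ := htop
        have hv1 : ¬ n ≤ v + t := fun h => hvY (h4 v h)
        have hx1 : ¬ n ≤ x + t := fun h => hxY (h4 x h)
        have hle : ¬ x < v := fun h => hvY (hx v h)
        have : x = v := by
          apply Fin.ext
          have : ¬ (x : ℕ) < v := fun h => hle (Fin.lt_def.2 h)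
          omega
        exact this ▸ hxA

theorem stateCount : StateCount := by
  classical
  intro n s k i h d L hs hn hh hd
  set Fs := L.toFinset.filter fun A => s ≤ A.card with hFs
  set J := min (h * k / n) (h / s) with hJ
  set Big : Finset (Finset (Fin n)) := univ.filter fun Y => h < Y.card with hBig
  set UJ : Finset (Finset (Fin n)) := (Fs.powerset.filter fun G => G.card ≤ J).image fun G => G.biUnion id
    with hUJ
  set Sm : Finset (Finset (Fin n)) := univ.filter fun W => W.card ≤ (d - 1) * (s - 1) with hSm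
  set Top : Finset (Finset (Fin n)) := univ.filter fun Y => ∀ v : Fin n, n ≤ v + d → v ∈ Y with hTop
  have cBig : Big.card ≤ T n (n - h - 1) := (DA4 n h).2
  have cUJ : UJ.card ≤ T Fs.card J := by
    rw [← card_powerset_filter_le]; exact card_image_le
  have cSm : Sm.card = T n ((d - 1) * (s - 1)) := (DA4 n _).1
  have cTop : Top.card ≤ 2 ^ (n - d) := by
    have : Top.card ≤ (univ : Finset (Finset (Fin (n - d)))).card := by
      refine card_le_card_of_injOn
        (fun Y => univ.filter fun u : Fin (n - d) => (⟨u, by omega⟩ : Fin n) ∈ Y) (fun _ _ => by simp) ?_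
      intro Y hY Y' hY' he
      simp only [hTop, coe_filter, mem_univ, true_and, Set.mem_ofPred_eq] at hY hY'
      ext v
      by_cases hv : n ≤ v + d
      · exact ⟨fun _ => hY' v hv, fun _ => hY v hv⟩
      · have h1 := congrArg (fun Z => (⟨v, by omega⟩ : Fin (n - d)) ∈ Z) he
        simpa using h1
    simpa using this
  -- false states of small size lie in UJ
  have hfalse : ∀ (j : ℕ) (Y : Finset (Fin n)), Reach s k L j Y false → Y.card ≤ h → Y ∈ UJ := by
    intro j Y hr hY
    obtain ⟨⟨G, h1, h2, h3⟩, h4, h5⟩ := hr.inv_false rfl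
    rw [hUJ, mem_image]
    refine ⟨G, ?_, h3.symm⟩
    rw [mem_filter, mem_powerset]
    refine ⟨h1, h2.trans (le_min ?_ ?_)⟩
    · rw [Nat.le_div_iff_mul_le hn]
      exact h5.trans (Nat.mul_le_mul_right _ hY)
    · rw [Nat.le_div_iff_mul_le hs]
      exact h4.trans hY
  have hsub : {z : Finset (Fin n) × Bool | Reach s k L i z.1 z.2} ⊆
      ((((Big ∪ UJ) ×ˢ {false}) ∪ ((Big ∪ (Top ∪ (UJ ×ˢ Sm).image fun q => q.1 ∪ q.2)) ×ˢ {true}) :
        Finset (Finset (Fin n) × Bool)) : Set (Finset (Fin n) × Bool)) := by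
    rintro ⟨Y, b⟩ hr
    simp only [Set.mem_ofPred_eq] at hr
    simp only [coe_union, coe_product, Set.mem_union, Set.mem_prod, mem_coe, coe_singleton,
      Set.mem_singleton_iff]
    by_cases hYh : h < Y.card
    · have : Y ∈ Big := by simp [hBig, hYh]
      cases b
      · exact Or.inl ⟨Or.inl this, rfl⟩
      · exact Or.inr ⟨Or.inl this, rfl⟩
    · push Not at hYh
      cases b
      · exact Or.inl ⟨Or.inr (hfalse i Y hr hYh), rfl⟩
      · right
        refine ⟨Or.inr ?_, rfl⟩
        obtain ⟨i', t, X, h1, h2, h3, h4⟩ := hr.inv_true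
        by_cases htd : d ≤ t
        · left
          simp only [hTop, mem_filter, mem_univ, true_and]
          intro v hv
          exact h4 v (by omega)
        · right
          have hX : X ∈ UJ := hfalse i' X h1 ((card_le_card h2).trans hYh)
          have hW : Y \ X ∈ Sm := by
            simp only [hSm, mem_filter, mem_univ, true_and]
            exact h3.trans (Nat.mul_le_mul_right _ (by omega))
          exact mem_image.2 ⟨(X, Y \ X), mem_product.2 ⟨hX, hW⟩, union_sdiff_of_subset h2⟩
  calc {z : Finset (Fin n) × Bool | Reach s k L i z.1 z.2}.ncard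
      ≤ ((((Big ∪ UJ) ×ˢ {false}) ∪ ((Big ∪ (Top ∪ (UJ ×ˢ Sm).image fun q => q.1 ∪ q.2)) ×ˢ {true}) :
        Finset (Finset (Fin n) × Bool)) : Set (Finset (Fin n) × Bool)).ncard :=
        Set.ncard_le_ncard hsub (Finset.finite_toSet _)
    _ = (((Big ∪ UJ) ×ˢ {false}) ∪ ((Big ∪ (Top ∪ (UJ ×ˢ Sm).image fun q => q.1 ∪ q.2)) ×ˢ {true}) :
        Finset (Finset (Fin n) × Bool)).card := Set.ncard_coe_finset _
    _ ≤ ((Big ∪ UJ) ×ˢ {false} : Finset (Finset (Fin n) × Bool)).card
        + ((Big ∪ (Top ∪ (UJ ×ˢ Sm).image fun q => q.1 ∪ q.2)) ×ˢ {true} :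
          Finset (Finset (Fin n) × Bool)).card := card_union_le _ _
    _ ≤ (Big.card + UJ.card) + (Big.card + (Top.card + UJ.card * Sm.card)) := by
        rw [card_product, card_product, card_singleton, card_singleton, mul_one, mul_one]
        refine Nat.add_le_add (card_union_le _ _) ((card_union_le _ _).trans (Nat.add_le_add le_rfl
          ((card_union_le _ _).trans (Nat.add_le_add le_rfl ?_))))
        exact card_image_le.trans (by rw [card_product])
    _ ≤ 2 * T n (n - h - 1) + 2 ^ (n - d) + T Fs.card J * (1 + T n ((d - 1) * (s - 1))) := by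
        rw [cSm]
        nlinarith [Nat.mul_le_mul_right (T n ((d - 1) * (s - 1))) cUJ]

end SCR
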