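import Pool.Agent.Lib.SCR.H3
import Pool.Agent.Lib.SCR.DA20

/-!
# The number of states of the dynamic program: the cases (a), (b), (c)
-/

namespace SCR

open Finset

/-- number of different members with at least `s` elements -/
def big {n : ℕ} (s : ℕ) (L : List (Finset (Fin n))) : ℕ := (L.toFinset.filter fun A => s ≤ A.card).card

lemma big_le {n : ℕ} (s : ℕ) (L : List (Finset (Fin n))) : big s L ≤ L.length :=
  (card_filter_le _ _).trans (List.toFinset_card_le L)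

lemma total_le {n : ℕ} (hn : 1 ≤ n) (s k h d : ℕ) (L : List (Finset (Fin n))) (hs : 1 ≤ s) (hh : h ≤ n)
    (hd : d ≤ n) :
    total s k L ≤ (k + 1) * (2 * T n (n - h - 1) + 2 ^ (n - d)
      + T (big s L) (min (h * k / n) (h / s)) * (1 + T n ((d - 1) * (s - 1)))) := by
  unfold total
  refine (sum_le_card_nsmul _ _ _ fun i _ => stateCount n s k i h d L hs hn hh hd).trans ?_
  rw [card_range, smul_eq_mul]
  rfl

lemma exp_neg_le_two_rpow {x : ℝ} (hx : 0 ≤ x) : Real.exp (-x) ≤ 2 ^ (-x) := by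
  rw [Real.rpow_def_of_pos two_pos]
  refine Real.exp_le_exp.2 ?_
  have : Real.log 2 ≤ 1 := by
    have := Real.log_le_sub_one_of_pos (x := 2) two_pos
    linarith
  nlinarith

lemma total_zero {s k : ℕ} (L : List (Finset (Fin 0))) (hk : k ≤ 0) : total s k L ≤ 2 := by
  obtain rfl : k = 0 := by omega
  unfold total
  simp only [zero_add, range_one, sum_singleton]
  refine (Set.ncard_le_ncard (Set.subset_univ _) (Set.toFinite _)).trans ?_
  rw [Set.ncard_univ, Nat.card_eq_fintype_card]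
  simp

/-- The asymptotic form for one size bound `s`. -/
lemma total_asymp (s : ℕ) (hs : 1 ≤ s) (g η : ℝ) (hg : 0 < g) (hg2 : g < 1 / 2) (hη : 0 < η) :
    ∃ ε' : ℝ, 0 < ε' ∧ ε' ≤ η ∧ ∀ (n k : ℕ) (L : List (Finset (Fin n))), 1 ≤ n → k ≤ n →
      ((T (big s L) (min (⌊(1 / 2 + g) * n⌋₊ * k / n) (⌊(1 / 2 + g) * n⌋₊ / s)) : ℕ) : ℝ)
        ≤ (n + 1) * 2 ^ ((1 - η) * n) →
      (total s k L : ℝ) ≤ 5 * (n + 1) ^ 2 * 2 ^ ((1 - ε') * n) := by
  obtain ⟨ζ, hζ, hT⟩ := tEps (η / 2) (by positivity)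
  set δ : ℝ := min ζ (1 / 2) with hδ
  have hδ0 : 0 < δ := lt_min hζ (by norm_num)
  have hδζ : δ ≤ ζ := min_le_left _ _
  have hδ2 : δ ≤ 1 / 2 := min_le_right _ _
  have hs0 : (0 : ℝ) < s := by exact_mod_cast hs
  have hs1 : (1 : ℝ) ≤ s := by exact_mod_cast hs
  set ε' : ℝ := min (2 * g ^ 2) (min (δ / s) (η / 2)) with hε'
  have he1 : ε' ≤ 2 * g ^ 2 := min_le_left _ _
  have he2 : ε' ≤ δ / s := (min_le_right _ _).trans (min_le_left _ _)
  have he3 : ε' ≤ η / 2 := (min_le_right _ _).trans (min_le_right _ _)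
  have he0 : 0 < ε' := lt_min (by positivity) (lt_min (by positivity) (by positivity))
  refine ⟨ε', he0, by linarith, ?_⟩
  intro n k L hn hk hN
  have hn0 : (0 : ℝ) < n := by exact_mod_cast hn
  set h : ℕ := ⌊(1 / 2 + g) * n⌋₊ with hh
  have hhle : (h : ℝ) ≤ (1 / 2 + g) * n := Nat.floor_le (by positivity)
  have hhlt : (1 / 2 + g) * n < h + 1 := Nat.lt_floor_add_one _
  have hhn : h ≤ n := by
    have : (h : ℝ) ≤ n := by nlinarith
    exact_mod_cast this
  set d : ℕ := ⌊δ * n / s⌋₊ + 1 with hd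
  have hdle : ((d - 1 : ℕ) : ℝ) ≤ δ * n / s := by
    rw [hd, Nat.add_sub_cancel]
    exact Nat.floor_le (by positivity)
  have hdlt : δ * n / s < d := by
    rw [hd]; push_cast; exact Nat.lt_floor_add_one _
  have hdn : d ≤ n := by
    have h1 : δ * n / s ≤ n / 2 := by
      rw [div_le_iff₀ hs0]
      nlinarith
    have h2 : ((d - 1 : ℕ) : ℝ) < n := by linarith
    have h3 : d - 1 < n := by exact_mod_cast h2
    omega
  have hbound := total_le hn s k h d L hs hhn hdn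
  -- the four terms
  have t1 : (T n (n - h - 1) : ℝ) ≤ 2 ^ ((1 - ε') * n) := by
    have hj : ((n - h - 1 : ℕ) : ℝ) ≤ (1 / 2 - g) * n := by
      by_cases hc : h + 1 ≤ n
      · have : ((n - h - 1 : ℕ) : ℝ) = n - h - 1 := by
          rw [Nat.sub_sub, Nat.cast_sub hc]; push_cast; ring
        rw [this]
        linarith
      · have : n - h - 1 = 0 := by omega
        rw [this]
        have : 0 ≤ (1 / 2 - g) * n := by
          apply mul_nonneg (by linarith) hn0.le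
        simpa using this
    refine (tHalf n g hg.le _ hj).trans ?_
    have : Real.exp (-2 * g ^ 2 * n) ≤ 2 ^ (-(2 * g ^ 2 * n)) := by
      have := exp_neg_le_two_rpow (x := 2 * g ^ 2 * n) (by positivity)
      rwa [show -2 * g ^ 2 * (n : ℝ) = -(2 * g ^ 2 * n) by ring]
    calc (2 : ℝ) ^ (n : ℝ) * Real.exp (-2 * g ^ 2 * n) ≤ 2 ^ (n : ℝ) * 2 ^ (-(2 * g ^ 2 * n)) := by gcongr
      _ = 2 ^ ((n : ℝ) + -(2 * g ^ 2 * n)) := by rw [Real.rpow_add two_pos]
      _ ≤ 2 ^ ((1 - ε') * n) := by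
          refine Real.rpow_le_rpow_of_exponent_le one_le_two ?_
          nlinarith
  have t2 : ((2 ^ (n - d) : ℕ) : ℝ) ≤ 2 ^ ((1 - ε') * n) := by
    push_cast
    rw [← Real.rpow_natCast]
    refine Real.rpow_le_rpow_of_exponent_le one_le_two ?_
    rw [Nat.cast_sub hdn]
    have : ε' * n ≤ δ * n / s := by
      rw [div_eq_mul_inv, mul_assoc, mul_comm (n : ℝ), ← mul_assoc, ← div_eq_mul_inv]
      exact mul_le_mul_of_nonneg_right he2 hn0.le
    nlinarith
  have t3 : (T n ((d - 1) * (s - 1)) : ℝ) ≤ 2 ^ (η / 2 * n) := by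
    refine hT n _ ?_
    push_cast
    have hs2 : ((s - 1 : ℕ) : ℝ) ≤ s := by exact_mod_cast Nat.sub_le s 1
    calc ((d - 1 : ℕ) : ℝ) * ((s - 1 : ℕ) : ℝ) ≤ δ * n / s * s := by gcongr
      _ = δ * n := by field_simp
      _ ≤ ζ * n := by gcongr
  have hη1 : (2 : ℝ) ^ ((1 - η) * n) * 2 ^ (η / 2 * n) ≤ 2 ^ ((1 - ε') * n) := by
    rw [← Real.rpow_add two_pos]
    refine Real.rpow_le_rpow_of_exponent_le one_le_two ?_
    nlinarith
  have hη2 : (1 : ℝ) ≤ 2 ^ (η / 2 * n) := Real.one_le_rpow one_le_two (by positivity)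
  have hP : (0 : ℝ) < 2 ^ ((1 - ε') * n) := by positivity
  have hcast : (total s k L : ℝ) ≤ (k + 1) * (2 * T n (n - h - 1) + ((2 ^ (n - d) : ℕ) : ℝ)
      + (T (big s L) (min (h * k / n) (h / s)) : ℝ) * (1 + T n ((d - 1) * (s - 1)))) := by
    exact_mod_cast hbound
  refine hcast.trans ?_
  have t4 : (T (big s L) (min (h * k / n) (h / s)) : ℝ) * (1 + T n ((d - 1) * (s - 1)))
      ≤ (n + 1) * (2 * 2 ^ ((1 - ε') * n)) := by
    calc (T (big s L) (min (h * k / n) (h / s)) : ℝ) * (1 + T n ((d - 1) * (s - 1)))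
        ≤ ((n + 1) * 2 ^ ((1 - η) * n)) * (2 ^ (η / 2 * n) + 2 ^ (η / 2 * n)) := by
          gcongr
      _ = (n + 1) * (2 * (2 ^ ((1 - η) * n) * 2 ^ (η / 2 * n))) := by ring
      _ ≤ _ := by gcongr
  have hk' : (k : ℝ) ≤ n := by exact_mod_cast hk
  calc ((k : ℝ) + 1) * (2 * T n (n - h - 1) + ((2 ^ (n - d) : ℕ) : ℝ)
      + (T (big s L) (min (h * k / n) (h / s)) : ℝ) * (1 + T n ((d - 1) * (s - 1))))
      ≤ (n + 1) * (2 * 2 ^ ((1 - ε') * n) + 2 ^ ((1 - ε') * n) + (n + 1) * (2 * 2 ^ ((1 - ε') * n))) := by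
        gcongr
    _ ≤ 5 * (n + 1) ^ 2 * 2 ^ ((1 - ε') * n) := by
        have : (0 : ℝ) ≤ (n + 1) * 2 ^ ((1 - ε') * n) * n := by positivity
        nlinarith

lemma T_le_pow (M J : ℕ) (hM : 1 ≤ M) : T M J ≤ (J + 1) * M ^ J := by
  unfold T
  refine (sum_le_card_nsmul _ _ (M ^ J) fun i hi => ?_).trans (by rw [card_range, smul_eq_mul])
  rw [mem_range] at hi
  exact (Nat.choose_le_pow M i).trans (Nat.pow_le_pow_right hM (by omega))

lemma T_zero (J : ℕ) : T 0 J = 1 := by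
  unfold T
  rw [sum_range_succ']
  simp

/-- Case (a). -/
theorem caseA (ε : ℝ) (hε : 0 < ε) : ∃ ε' : ℝ, 0 < ε' ∧ ∀ (n k : ℕ) (L : List (Finset (Fin n))),
    (L.length : ℝ) ^ k ≤ 2 ^ ((2 - ε) * n) →
    (total 1 (min k n) L : ℝ) ≤ 5 * (n + 1) ^ 2 * 2 ^ ((1 - ε') * n) := by
  set e : ℝ := min ε 1 with he
  have he0 : 0 < e := lt_min hε one_pos
  have he1 : e ≤ 1 := min_le_right _ _
  have heε : e ≤ ε := min_le_left _ _
  obtain ⟨ε', h1, h2, h3⟩ := total_asymp 1 le_rfl (e / 8) (e / 4) (by positivity) (by linarith) (by positivity)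
  refine ⟨ε', h1, ?_⟩
  intro n k L hm
  rcases Nat.eq_zero_or_pos n with rfl | hn
  · have := total_zero (s := 1) L (min_le_right k 0)
    have h : (total 1 (min k 0) L : ℝ) ≤ 2 := by exact_mod_cast this
    simpa using h.trans (show (2 : ℝ) ≤ 5 by norm_num)
  refine h3 n (min k n) L hn (min_le_right _ _) ?_
  have hn0 : (0 : ℝ) < n := by exact_mod_cast hn
  set h : ℕ := ⌊(1 / 2 + e / 8) * (n : ℝ)⌋₊ with hh
  have hhle : (h : ℝ) ≤ (1 / 2 + e / 8) * n := Nat.floor_le (by positivity)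
  set J : ℕ := min (h * min k n / n) (h / 1) with hJ
  have hJk : (J : ℝ) ≤ (1 / 2 + e / 8) * k := by
    have a1 : (J : ℝ) ≤ ((h * min k n / n : ℕ) : ℝ) := by exact_mod_cast min_le_left _ _
    have a2 : ((h * min k n / n : ℕ) : ℝ) ≤ (h * min k n : ℕ) / n := Nat.cast_div_le
    have a3 : ((h * min k n : ℕ) : ℝ) / n ≤ (1 / 2 + e / 8) * k := by
      rw [div_le_iff₀ hn0]
      push_cast
      calc (h : ℝ) * min (k : ℝ) n ≤ ((1 / 2 + e / 8) * n) * k := by
            gcongr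
            exact min_le_left _ _
        _ = _ := by ring
    linarith
  have hJn : J ≤ n := by
    have a1 : J ≤ h := (min_le_right _ _).trans (by simp)
    have a2 : (h : ℝ) ≤ n := by nlinarith
    have a3 : h ≤ n := by exact_mod_cast a2
    omega
  have hJn' : (J : ℝ) ≤ n := by exact_mod_cast hJn
  by_cases hM : big 1 L = 0
  · rw [hM, T_zero]
    have : (1 : ℝ) ≤ 2 ^ ((1 - e / 4) * n) := Real.one_le_rpow one_le_two (by nlinarith)
    push_cast
    nlinarith
  · have hM1 : 1 ≤ big 1 L := by omega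
    have hm1 : (1 : ℝ) ≤ L.length := by exact_mod_cast hM1.trans (big_le 1 L)
    have a1 : (T (big 1 L) J : ℝ) ≤ (J + 1) * (big 1 L : ℝ) ^ J := by
      exact_mod_cast T_le_pow (big 1 L) J hM1
    have a2 : (big 1 L : ℝ) ^ J ≤ (L.length : ℝ) ^ J := by
      have : (big 1 L : ℝ) ≤ L.length := by exact_mod_cast big_le 1 L
      gcongr
    have a3 : (L.length : ℝ) ^ J ≤ 2 ^ ((1 - e / 4) * n) := by
      calc (L.length : ℝ) ^ J = (L.length : ℝ) ^ (J : ℝ) := (Real.rpow_natCast _ _).symm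
        _ ≤ (L.length : ℝ) ^ ((1 / 2 + e / 8) * k) := Real.rpow_le_rpow_of_exponent_le hm1 hJk
        _ = ((L.length : ℝ) ^ k) ^ (1 / 2 + e / 8) := by
            rw [mul_comm, Real.rpow_mul (by positivity), Real.rpow_natCast]
        _ ≤ ((2 : ℝ) ^ ((2 - ε) * n)) ^ (1 / 2 + e / 8) := by gcongr
        _ = 2 ^ (((2 - ε) * n) * (1 / 2 + e / 8)) := by rw [← Real.rpow_mul (by norm_num)]
        _ ≤ 2 ^ ((1 - e / 4) * n) := by
            refine Real.rpow_le_rpow_of_exponent_le one_le_two ?_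
            have : (2 - ε) * (1 / 2 + e / 8) ≤ 1 - e / 4 := by nlinarith
            nlinarith
    calc ((T (big 1 L) J : ℕ) : ℝ) ≤ (J + 1) * (big 1 L : ℝ) ^ J := a1
      _ ≤ (n + 1) * 2 ^ ((1 - e / 4) * n) := by
          have := a2.trans a3
          gcongr

/-- Case (b): at most `2 ^ (c s) n / (2 e s)` members with at least `s` elements, `c < 2`. -/
theorem caseB (s : ℕ) (hs : 1 ≤ s) (c : ℝ) (hc : c < 2) : ∃ ε' : ℝ, 0 < ε' ∧
    ∀ (n k : ℕ) (L : List (Finset (Fin n))),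
    (big s L : ℝ) ≤ 2 ^ (c * s) * n / (2 * Real.exp 1 * s) →
    (total s (min k n) L : ℝ) ≤ 5 * (n + 1) ^ 2 * 2 ^ ((1 - ε') * n) := by
  set a : ℝ := max c 1 with ha
  have ha1 : 1 ≤ a := le_max_right _ _
  have hac : c ≤ a := le_max_left _ _
  have ha2 : a < 2 := max_lt hc (by norm_num)
  have hs0 : (0 : ℝ) < s := by exact_mod_cast hs
  have hs1 : (1 : ℝ) ≤ s := by exact_mod_cast hs
  obtain ⟨ε', h1, h2, h3⟩ := total_asymp s hs ((2 - a) / 8) ((2 - a) / 4) (by linarith) (by linarith)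
    (by linarith)
  refine ⟨ε', h1, ?_⟩
  intro n k L hm0
  rcases Nat.eq_zero_or_pos n with rfl | hn
  · have := total_zero (s := s) L (min_le_right k 0)
    have h : (total s (min k 0) L : ℝ) ≤ 2 := by exact_mod_cast this
    simpa using h.trans (show (2 : ℝ) ≤ 5 by norm_num)
  have hn0 : (0 : ℝ) < n := by exact_mod_cast hn
  have hm : (big s L : ℝ) ≤ 2 ^ (a * s) * n / (2 * Real.exp 1 * s) := by
    refine hm0.trans ?_
    have : (2 : ℝ) ^ (c * s) ≤ 2 ^ (a * s) := Real.rpow_le_rpow_of_exponent_le one_le_two (by nlinarith)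
    gcongr
  refine h3 n (min k n) L hn (min_le_right _ _) ?_
  set h : ℕ := ⌊(1 / 2 + (2 - a) / 8) * (n : ℝ)⌋₊ with hh
  have hhle : (h : ℝ) ≤ (1 / 2 + (2 - a) / 8) * n := Nat.floor_le (by nlinarith)
  set J : ℕ := min (h * min k n / n) (h / s) with hJ
  have hJs : (J : ℝ) ≤ (1 / 2 + (2 - a) / 8) * n / s := by
    have a1 : (J : ℝ) ≤ ((h / s : ℕ) : ℝ) := by exact_mod_cast min_le_right _ _
    have a2 : ((h / s : ℕ) : ℝ) ≤ (h : ℝ) / s := Nat.cast_div_le
    have a3 : (h : ℝ) / s ≤ (1 / 2 + (2 - a) / 8) * n / s := by gcongr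
    linarith
  have hlog2 : 0 < Real.log 2 := Real.log_pos one_lt_two
  set x : ℝ := Real.exp 1 * 2 ^ (-(a * s)) with hx
  have hx0 : 0 < x := by positivity
  have hfin : (T (big s L) J : ℝ) ≤ 2 ^ ((1 - (2 - a) / 4) * n) := by
    by_cases hx1 : x ≤ 1
    · refine (tSmall (big s L) J x _ hx0 hx1 hJs).trans ?_
      have b1 : x * big s L ≤ n / (2 * s) := by
        calc x * big s L ≤ x * (2 ^ (a * s) * n / (2 * Real.exp 1 * s)) := by gcongr
          _ = (2 ^ (-(a * s)) * 2 ^ (a * s)) * (n / (2 * s)) := by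
              rw [hx]; field_simp
          _ = n / (2 * s) := by
              rw [← Real.rpow_add two_pos, neg_add_cancel, Real.rpow_zero, one_mul]
      have b2 : x ^ (-((1 / 2 + (2 - a) / 8) * n / s))
          = Real.exp (-((1 / 2 + (2 - a) / 8) * n / s)) * 2 ^ (a * (1 / 2 + (2 - a) / 8) * n) := by
        rw [hx, Real.mul_rpow (Real.exp_pos 1).le (by positivity), ← Real.exp_mul, one_mul,
          ← Real.rpow_mul two_pos.le]
        congr 2
        field_simp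
      rw [b2, ← mul_assoc, ← Real.exp_add]
      have b3 : x * big s L + -((1 / 2 + (2 - a) / 8) * n / s) ≤ 0 := by
        have : (1 / 2 + (2 - a) / 8) * n / s = n / (2 * s) + (2 - a) / 8 * n / s := by field_simp
        rw [this]
        have : 0 ≤ (2 - a) / 8 * n / s := by
          apply div_nonneg (mul_nonneg (by linarith) hn0.le) hs0.le
        linarith
      calc Real.exp (x * big s L + -((1 / 2 + (2 - a) / 8) * n / s)) * 2 ^ (a * (1 / 2 + (2 - a) / 8) * n)
          ≤ 1 * 2 ^ (a * (1 / 2 + (2 - a) / 8) * n) := by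
            gcongr
            exact Real.exp_le_one_iff.2 b3
        _ ≤ 2 ^ ((1 - (2 - a) / 4) * n) := by
            rw [one_mul]
            refine Real.rpow_le_rpow_of_exponent_le one_le_two ?_
            have : a * (1 / 2 + (2 - a) / 8) ≤ 1 - (2 - a) / 4 := by nlinarith
            nlinarith
    · push Not at hx1
      have b1 : (2 : ℝ) ^ (a * s) ≤ Real.exp 1 := by
        have : (2 : ℝ) ^ (a * s) * 2 ^ (-(a * s)) = 1 := by
          rw [← Real.rpow_add two_pos, add_neg_cancel, Real.rpow_zero]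
        have h2 : (0 : ℝ) < 2 ^ (a * s) := by positivity
        have h4 : 1 * (2 : ℝ) ^ (a * s) ≤ x * 2 ^ (a * s) := by gcongr
        calc (2 : ℝ) ^ (a * s) = 1 * (2 : ℝ) ^ (a * s) := (one_mul _).symm
          _ ≤ x * 2 ^ (a * s) := h4
          _ = Real.exp 1 * (2 ^ (a * s) * 2 ^ (-(a * s))) := by rw [hx]; ring
          _ = Real.exp 1 := by rw [this, mul_one]
      have b2 : (big s L : ℝ) ≤ n / 2 := by
        refine hm.trans ?_
        rw [div_le_iff₀ (by positivity)]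
        calc (2 : ℝ) ^ (a * s) * n ≤ Real.exp 1 * n := by gcongr
          _ ≤ Real.exp 1 * n * s := le_mul_of_one_le_right (by positivity) hs1
          _ = n / 2 * (2 * Real.exp 1 * s) := by ring
      refine (T_le_two_pow _ _).trans ?_
      rw [← Real.rpow_natCast]
      refine Real.rpow_le_rpow_of_exponent_le one_le_two ?_
      nlinarith
  have hP : (0 : ℝ) ≤ 2 ^ ((1 - (2 - a) / 4) * n) := by positivity
  calc ((T (big s L) J : ℕ) : ℝ) ≤ 2 ^ ((1 - (2 - a) / 4) * n) := hfin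
    _ ≤ (n + 1) * 2 ^ ((1 - (2 - a) / 4) * n) := by nlinarith

/-- Case (b'): all but `C n` members have at most `r` elements. -/
theorem caseB' (C r : ℕ) : ∃ s : ℕ, 1 ≤ s ∧ ∃ ε' : ℝ, 0 < ε' ∧
    ∀ (n k : ℕ) (L : List (Finset (Fin n))),
    (L.toFinset.filter fun A => r < A.card).card ≤ C * n →
    (total s (min k n) L : ℝ) ≤ 5 * (n + 1) ^ 2 * 2 ^ ((1 - ε') * n) := by
  -- choose `s`
  obtain ⟨s, hs1, hsr, hsC⟩ : ∃ s : ℕ, 1 ≤ s ∧ r < s ∧ (C : ℝ) ≤ 2 ^ ((1 : ℝ) * s) / (2 * Real.exp 1 * s) := by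
    have h1 : Filter.Tendsto (fun s : ℕ => (s : ℝ) / 2 ^ s) Filter.atTop (nhds 0) := by
      have := tendsto_pow_const_div_const_pow_of_one_lt 1 (r := (2 : ℝ)) one_lt_two
      simpa using this
    have hpos : (0 : ℝ) < 1 / (2 * Real.exp 1 * (C + 1)) := by positivity
    have h2 := (h1.eventually (gt_mem_nhds hpos)).and (Filter.eventually_ge_atTop (r + 1))
    obtain ⟨s, h3, h4⟩ := h2.exists
    refine ⟨s, by omega, by omega, ?_⟩
    have hs0 : (0 : ℝ) < s := by
      have : 0 < s := by omega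
      exact_mod_cast this
    rw [one_mul, Real.rpow_natCast, le_div_iff₀ (by positivity)]
    rw [div_lt_div_iff₀ (by positivity) (by positivity)] at h3
    have h5 : (0 : ℝ) < Real.exp 1 := Real.exp_pos 1
    have h6 : (0 : ℝ) ≤ Real.exp 1 * s := by positivity
    nlinarith
  obtain ⟨ε', h1, h2⟩ := caseB s hs1 1 (by norm_num)
  refine ⟨s, hs1, ε', h1, fun n k L hL => h2 n k L ?_⟩
  have h3 : big s L ≤ C * n := by
    refine le_trans (card_le_card ?_) hL
    intro A hA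
    rw [mem_filter] at hA ⊢
    exact ⟨hA.1, by omega⟩
  have h4 : (big s L : ℝ) ≤ C * n := by exact_mod_cast h3
  calc (big s L : ℝ) ≤ C * n := h4
    _ ≤ 2 ^ ((1 : ℝ) * s) / (2 * Real.exp 1 * s) * n := by gcongr
    _ = 2 ^ ((1 : ℝ) * s) * n / (2 * Real.exp 1 * s) := by ring

end SCR
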