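import Pool.Agent.Lib.SCR.Prog

/-!
# The counting loop
-/

namespace SCR

open Op Stmt

lemma card_lt_succ {n : ℕ} (A : Finset (Fin n)) (j : ℕ) (hj : j < n) :
    (A.filter (fun i : Fin n => (i : ℕ) < j + 1)).card =
      (A.filter (fun i : Fin n => (i : ℕ) < j)).card + if (⟨j, hj⟩ : Fin n) ∈ A then 1 else 0 := by
  split_ifs with h
  · have : A.filter (fun i : Fin n => (i : ℕ) < j + 1) = insert ⟨j, hj⟩ (A.filter (fun i : Fin n => (i : ℕ) < j)) := by
      ext i
      simp only [Finset.mem_filter, Finset.mem_insert]
      constructor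
      · rintro ⟨h1, h2⟩
        by_cases h3 : (i : ℕ) = j
        · left; exact Fin.ext h3
        · right; exact ⟨h1, by omega⟩
      · rintro (rfl | ⟨h1, h2⟩)
        · exact ⟨h, by simp⟩
        · exact ⟨h1, by omega⟩
    rw [this, Finset.card_insert_of_notMem (by simp)]
  · rw [Nat.add_zero]
    congr 1
    ext i
    simp only [Finset.mem_filter]
    constructor
    · rintro ⟨h1, h2⟩
      refine ⟨h1, ?_⟩
      by_contra h3
      have : i = ⟨j, hj⟩ := Fin.ext (by simp; omega)
      exact h (this ▸ h1)
    · rintro ⟨h1, h2⟩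
      exact ⟨h1, by omega⟩

theorem MB (hBit : MaskBit) : CountSpec := by
  intro w n k X Y x h1 h3 h16 h18 h40 hk hsq hn
  unfold count
  refine Runs.seq (T1 := 5) (T2 := 13 * n + 1)
    (R := fun y => y.mem = x.mem ∧ (∀ r, r ∉ [19, 20, 21, 22, 23, 26] → y.reg r = x.reg r) ∧
      y.reg 19 = 0 ∧ y.reg 20 = 0 ∧ y.reg 21 = 0 ∧ y.reg 22 = 1 ∧ y.reg 23 = n) ?_ ?_ (by omega)
  · refine Runs.block _ (by simp) ?_
    have h2 : 1 % 2 ^ w = 1 := Nat.mod_eq_of_lt (by nlinarith)
    refine ⟨by simp [Op.run], ?_, ?_⟩
    · intro r hr
      simp only [List.mem_cons, List.not_mem_nil, or_false, not_or] at hr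
      simp [Op.run, Function.update_apply, hr]
    · simp [Op.run, Function.update_apply, h2, h1]
  · rintro y ⟨hm, hr, h19, h20, h21, h22, h23⟩
    have e1 : y.reg 1 = n := by rw [hr 1 (by decide), h1]
    have e3 : y.reg 3 = k := by rw [hr 3 (by decide), h3]
    have e16 : y.reg 16 = mask Y := by rw [hr 16 (by decide), h16]
    have e18 : y.reg 18 = mask X := by rw [hr 18 (by decide), h18]
    have e40 : y.reg 40 = 1 := by rw [hr 40 (by decide), h40]
    refine Runs.loop n 11 (fun j z => z.mem = x.mem ∧
      (∀ r, r ∉ [19, 20, 21, 22, 23, 26] → z.reg r = x.reg r) ∧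
      z.reg 19 = (X.filter (fun i : Fin n => (i : ℕ) < j)).card ∧ z.reg 20 = (Y.filter (fun i : Fin n => (i : ℕ) < j)).card ∧
      z.reg 21 = (X.filter (fun i : Fin n => (i : ℕ) < j)).card * k ∧ z.reg 22 = 2 ^ j ∧ z.reg 23 = n - j)
      ⟨hm, hr, by simp [h19], by simp [h20], by simp [h21], by simp [h22], by simp [h23]⟩ ?_ ?_ ?_ (by omega) ?_
    · rintro j hj z ⟨_, _, _, _, _, _, h⟩
      omega
    · rintro z ⟨_, _, _, _, _, _, h⟩
      omega
    · rintro j hj z ⟨zm, zr, z19, z20, z21, z22, z23⟩
      have f3 : z.reg 3 = k := by rw [zr 3 (by decide), h3]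
      have f16 : z.reg 16 = mask Y := by rw [zr 16 (by decide), h16]
      have f18 : z.reg 18 = mask X := by rw [zr 18 (by decide), h18]
      have f40 : z.reg 40 = 1 := by rw [zr 40 (by decide), h40]
      have bX := hBit n X ⟨j, hj⟩
      have bY := hBit n Y ⟨j, hj⟩
      simp only at bX bY
      have cX : (X.filter (fun i : Fin n => (i : ℕ) < j)).card ≤ n := by
        refine (Finset.card_le_univ _).trans (by simp)
      have cY : (Y.filter (fun i : Fin n => (i : ℕ) < j)).card ≤ n := by
        refine (Finset.card_le_univ _).trans (by simp)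
      have hn2 : n + 1 < 2 ^ w := by nlinarith
      have cXk : (X.filter (fun i : Fin n => (i : ℕ) < j)).card * k + k < 2 ^ w := by nlinarith
      have p2 : 2 ^ j + 2 ^ j < 2 ^ w := by
        have : 2 ^ (j + 1) ≤ 2 ^ n := Nat.pow_le_pow_right (by norm_num) hj
        rw [pow_succ] at this
        omega
      have sX := card_lt_succ X j hj
      have sY := card_lt_succ Y j hj
      unfold countBody
      -- first test
      refine Runs.seq (T1 := 1) (T2 := 10)
        (R := fun v => v.mem = x.mem ∧ (∀ r, r ∉ [19, 20, 21, 22, 23, 26] → v.reg r = x.reg r) ∧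
        v.reg 19 = (X.filter (fun i : Fin n => (i : ℕ) < j)).card ∧ v.reg 20 = (Y.filter (fun i : Fin n => (i : ℕ) < j)).card ∧
        v.reg 21 = (X.filter (fun i : Fin n => (i : ℕ) < j)).card * k ∧ v.reg 22 = 2 ^ j ∧ v.reg 23 = n - j ∧
        v.reg 26 = mask X &&& 2 ^ j) ?_ ?_ (by omega)
      · refine Runs.block _ (by simp) ⟨by simp [Op.run, zm], ?_, ?_⟩
        · intro r hr
          have := zr r hr
          simp only [List.mem_cons, List.not_mem_nil, or_false, not_or] at hr
          simp [Op.run, Function.update_apply, hr, this]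
        · simp [Op.run, Function.update_apply, z19, z20, z21, z22, z23, f18]
      rintro v ⟨vm, vr, v19, v20, v21, v22, v23, v26⟩
      refine Runs.seq (T1 := 4) (T2 := 6)
        (R := fun v => v.mem = x.mem ∧ (∀ r, r ∉ [19, 20, 21, 22, 23, 26] → v.reg r = x.reg r) ∧
        v.reg 19 = (X.filter (fun i : Fin n => (i : ℕ) < j + 1)).card ∧ v.reg 20 = (Y.filter (fun i : Fin n => (i : ℕ) < j)).card ∧
        v.reg 21 = (X.filter (fun i : Fin n => (i : ℕ) < j + 1)).card * k ∧ v.reg 22 = 2 ^ j ∧ v.reg 23 = n - j)
        ?_ ?_ (by omega)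
      · refine Runs.ite (T1 := 2) ?_ ?_ (by omega)
        · intro h
          rw [v26] at h
          have hX := bX.1 h
          rw [if_pos hX] at sX
          have g3 : v.reg 3 = k := by rw [vr 3 (by decide), h3]
          have g40 : v.reg 40 = 1 := by rw [vr 40 (by decide), h40]
          refine Runs.block _ (by simp) ⟨by simp [Op.run, vm], ?_, ?_⟩
          · intro r hr
            have := vr r hr
            simp only [List.mem_cons, List.not_mem_nil, or_false, not_or] at hr
            simp [Op.run, Function.update_apply, hr, this]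
          · simp only [List.foldl, Op.run, Function.update_apply]
            simp only [v19, v20, v21, v22, v23, g3, g40]
            refine ⟨?_, by simp, ?_, by simp, by simp⟩
            · simp only [sX]
              simp only [if_true]
              exact Nat.mod_eq_of_lt (by omega)
            · simp only [sX]
              simp
              rw [Nat.mod_eq_of_lt (by omega)]
              ring
        · intro h
          rw [v26] at h
          have hX : (⟨j, hj⟩ : Fin n) ∉ X := fun h' => bX.2 h' h
          rw [if_neg hX] at sX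
          refine Runs.skip ⟨vm, vr, by rw [sX]; simpa using v19, v20, by rw [sX]; simpa using v21, v22, v23⟩
      rintro u ⟨um, ur, u19, u20, u21, u22, u23⟩
      refine Runs.seq (T1 := 1) (T2 := 5)
        (R := fun v => v.mem = x.mem ∧ (∀ r, r ∉ [19, 20, 21, 22, 23, 26] → v.reg r = x.reg r) ∧
        v.reg 19 = (X.filter (fun i : Fin n => (i : ℕ) < j + 1)).card ∧ v.reg 20 = (Y.filter (fun i : Fin n => (i : ℕ) < j)).card ∧
        v.reg 21 = (X.filter (fun i : Fin n => (i : ℕ) < j + 1)).card * k ∧ v.reg 22 = 2 ^ j ∧ v.reg 23 = n - j ∧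
        v.reg 26 = mask Y &&& 2 ^ j) ?_ ?_ (by omega)
      · have g16 : u.reg 16 = mask Y := by rw [ur 16 (by decide), h16]
        refine Runs.block _ (by simp) ⟨by simp [Op.run, um], ?_, ?_⟩
        · intro r hr
          have := ur r hr
          simp only [List.mem_cons, List.not_mem_nil, or_false, not_or] at hr
          simp [Op.run, Function.update_apply, hr, this]
        · simp [Op.run, Function.update_apply, u19, u20, u21, u22, u23, g16]
      rintro v ⟨vm, vr, v19, v20, v21, v22, v23, v26⟩
      refine Runs.seq (T1 := 3) (T2 := 2)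
        (R := fun v => v.mem = x.mem ∧ (∀ r, r ∉ [19, 20, 21, 22, 23, 26] → v.reg r = x.reg r) ∧
        v.reg 19 = (X.filter (fun i : Fin n => (i : ℕ) < j + 1)).card ∧
        v.reg 20 = (Y.filter (fun i : Fin n => (i : ℕ) < j + 1)).card ∧
        v.reg 21 = (X.filter (fun i : Fin n => (i : ℕ) < j + 1)).card * k ∧ v.reg 22 = 2 ^ j ∧ v.reg 23 = n - j)
        ?_ ?_ (by omega)
      · refine Runs.ite (T1 := 1) ?_ ?_ (by omega)
        · intro h
          rw [v26] at h
          have hY := bY.1 h
          rw [if_pos hY] at sY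
          have g40 : v.reg 40 = 1 := by rw [vr 40 (by decide), h40]
          refine Runs.block _ (by simp) ⟨by simp [Op.run, vm], ?_, ?_⟩
          · intro r hr
            have := vr r hr
            simp only [List.mem_cons, List.not_mem_nil, or_false, not_or] at hr
            simp [Op.run, Function.update_apply, hr, this]
          · simp only [List.foldl, Op.run, Function.update_apply]
            simp only [v19, v20, v21, v22, v23, g40]
            refine ⟨by simp, ?_, by simp, by simp, by simp⟩
            simp only [sY]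
            simp only [if_true]
            exact Nat.mod_eq_of_lt (by omega)
        · intro h
          rw [v26] at h
          have hY : (⟨j, hj⟩ : Fin n) ∉ Y := fun h' => bY.2 h' h
          rw [if_neg hY] at sY
          refine Runs.skip ⟨vm, vr, v19, by rw [sY]; simpa using v20, v21, v22, v23⟩
      rintro v ⟨vm, vr, v19, v20, v21, v22, v23⟩
      have g40 : v.reg 40 = 1 := by rw [vr 40 (by decide), h40]
      refine Runs.block _ (by simp) ⟨by simp [Op.run, vm], ?_, ?_⟩
      · intro r hr
        have := vr r hr
        simp only [List.mem_cons, List.not_mem_nil, or_false, not_or] at hr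
        simp [Op.run, Function.update_apply, hr, this]
      · simp only [List.foldl, Op.run, Function.update_apply]
        simp only [v19, v20, v21, v22, v23, g40]
        refine ⟨by simp, by simp, by simp, ?_, ?_⟩
        · simp
          rw [Nat.mod_eq_of_lt p2]
          ring
        · simp
          omega
    · rintro z ⟨zm, zr, z19, z20, z21, -, -⟩
      have hX : X.filter (fun i : Fin n => (i : ℕ) < n) = X := Finset.filter_true_of_mem (fun i _ => i.2)
      have hY : Y.filter (fun i : Fin n => (i : ℕ) < n) = Y := Finset.filter_true_of_mem (fun i _ => i.2)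
      rw [hX] at z19 z21
      rw [hY] at z20
      exact ⟨zm, zr, z19, z20, z21⟩

end SCR
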