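import Pool.Agent.Lib.SCR.Prog

/-!
# SCR, row MC: the insertion
-/

namespace SCR

open Op Stmt

private lemma mc_mask_eq {n : ℕ} (A : Finset (Fin n)) :
    mask A = ∑ j ∈ A.map Fin.valEmbedding, 2 ^ j := by
  rw [Finset.sum_map]
  rfl

private lemma mc_mask_lt {n : ℕ} (A : Finset (Fin n)) : mask A < 2 ^ n := by
  rw [mc_mask_eq]
  apply Nat.geomSum_lt le_rfl
  intro k hk
  obtain ⟨i, _, rfl⟩ := Finset.mem_map.1 hk
  exact i.2

private lemma mc_mask_inj {n : ℕ} : Function.Injective (mask (n := n)) := by
  intro A B h
  rw [mc_mask_eq, mc_mask_eq] at h
  exact Finset.map_injective _ (Finset.geomSum_injective le_rfl h)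

private lemma mc_code_lt {n : ℕ} (z : St n) : code z < 2 ^ n + 2 ^ n := by
  have := mc_mask_lt z.1
  unfold code
  split_ifs <;> omega

private lemma mc_code_inj {n : ℕ} : Function.Injective (code (n := n)) := by
  rintro ⟨A, a⟩ ⟨B, b⟩ h
  have h1 := mc_mask_lt A
  have h2 := mc_mask_lt B
  unfold code at h
  cases a <;> cases b <;> simp only [if_true, if_false, Bool.false_eq_true] at h
  · rw [mc_mask_inj (show mask A = mask B by omega)]
  · omega
  · omega
  · rw [mc_mask_inj (show mask A = mask B by omega)]

private lemma mc_length {n hi : ℕ} {l : List (St n)} (h : (l.drop hi).Nodup) :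
    l.length ≤ hi + (2 ^ n + 2 ^ n) := by
  have h1 := h.length_le_card
  rw [List.length_drop] at h1
  have h2 : Fintype.card (St n) = 2 ^ n + 2 ^ n := by
    rw [Fintype.card_prod, Fintype.card_finset, Fintype.card_fin, Fintype.card_bool]
    omega
  omega

theorem pushSpec : PushSpec := by
  intro w n bT bL hi l c x h6 h7 h9 h10 h25 h40 hhi hb hw hT
  have hlt := mc_code_lt c
  have hlen := mc_length hT.nodup
  obtain ⟨a, ha⟩ : ∃ a, a = x.mem (bT + code c) := ⟨_, rfl⟩
  have haw : a < 2 ^ w := ha ▸ hT.word _
  have hkey : c ∈ l.drop hi ↔ ∃ h : a < l.length, hi ≤ a ∧ code l[a] = code c := by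
    constructor
    · intro h
      obtain ⟨i, hi', hic⟩ := List.getElem_of_mem h
      rw [List.length_drop] at hi'
      rw [List.getElem_drop] at hic
      have h1 : hi + i < l.length := by omega
      have h2 := hT.back (hi + i) h1 (by omega)
      rw [hic, ← ha] at h2
      subst h2
      exact ⟨h1, by omega, by rw [hic]⟩
    · rintro ⟨h1, h2, h3⟩
      have h4 := mc_code_inj h3
      rw [← h4, List.mem_iff_getElem]
      refine ⟨a - hi, by rw [List.length_drop]; omega, ?_⟩
      rw [List.getElem_drop]
      congr 1
      omega
  have hmod : (bT + code c) % 2 ^ w = bT + code c := Nat.mod_eq_of_lt (by omega)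
  unfold push
  refine Runs.seq (T1 := 5) (T2 := 20)
    (R := fun y => y.mem = x.mem ∧ y.reg 26 = bT + code c ∧ y.reg 27 = a ∧ y.reg 28 = l.length - a ∧
      y.reg 29 = hi - a ∧ y.reg 30 = 1 ∧ ∀ r, r ∉ [26, 27, 28, 29, 30] → y.reg r = x.reg r)
    (Runs.block _ le_rfl ?_) ?_ le_rfl
  · have h1w : 1 % 2 ^ w = 1 := Nat.mod_eq_of_lt (by omega)
    simp only [List.foldl, Op.run, true_and]
    refine ⟨?_, ?_, ?_, ?_, ?_, ?_⟩
    · simp [h6, h25, hmod]
    · simp [h6, h25, hmod, ha]
    · simp [h6, h25, hmod, ha, h10]
    · simp [h6, h25, hmod, ha, h9]
    · simp [h1w]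
    · intro r hr
      simp only [List.mem_cons, List.not_mem_nil, or_false, not_or] at hr
      simp [Function.update_apply, hr]
  rintro y ⟨ym, y26, y27, y28, y29, y30, yr⟩
  refine Runs.seq (T1 := 14) (T2 := 6)
    (R := fun z => z.mem = x.mem ∧ z.reg 26 = bT + code c ∧ z.reg 30 = (if c ∈ l.drop hi then 0 else 1) ∧
      ∀ r, r ∉ [26, 27, 28, 29, 30, 31] → z.reg r = x.reg r) ?_ ?_ le_rfl
  · refine Runs.ite (T1 := 12) ?_ ?_ le_rfl
    · intro h28
      rw [y28] at h28
      have hal : a < l.length := by omega
      refine Runs.ite (T1 := 10) ?_ ?_ le_rfl
      · intro h29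
        rw [y29] at h29
        refine Runs.skip ⟨ym, y26, ?_, ?_⟩
        · rw [y30, if_neg]
          intro h
          obtain ⟨_, h1, _⟩ := hkey.1 h
          omega
        · intro r hr
          simp only [List.mem_cons, List.not_mem_nil, or_false, not_or] at hr
          refine yr r ?_
          simp only [List.mem_cons, List.not_mem_nil, or_false, not_or]
          tauto
      · intro h29
        rw [y29] at h29
        have hia : hi ≤ a := by omega
        refine Runs.seq (T1 := 5) (T2 := 3)
          (R := fun z => z.mem = x.mem ∧ z.reg 26 = bT + code c ∧
            z.reg 28 = ((code l[a] - code c) + (code c - code l[a])) % 2 ^ w ∧ z.reg 30 = 1 ∧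
            ∀ r, r ∉ [26, 27, 28, 29, 30, 31] → z.reg r = x.reg r)
          (Runs.block _ le_rfl ?_) ?_ (by norm_num)
        · have e7 : y.reg 7 = bL := by rw [yr 7 (by decide), h7]
          have e25 : y.reg 25 = code c := by rw [yr 25 (by decide), h25]
          have e31 : (bL + a) % 2 ^ w = bL + a := Nat.mod_eq_of_lt (by omega)
          have em : x.mem (bL + a) = code l[a] := hT.list a hal
          simp only [List.foldl, Op.run]
          refine ⟨ym, ?_, ?_, ?_, ?_⟩
          · simp [y26]
          · simp [e7, e25, y27, e31, ym, em]
          · simp [y30]
          · intro r hr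
            simp only [List.mem_cons, List.not_mem_nil, or_false, not_or] at hr
            simp only [Function.update_apply, hr, if_false]
            refine yr r ?_
            simp only [List.mem_cons, List.not_mem_nil, or_false, not_or]
            tauto
        · rintro z ⟨zm, z26, z28, z30, zr⟩
          have hmod2 : ((code l[a] - code c) + (code c - code l[a])) % 2 ^ w =
              (code l[a] - code c) + (code c - code l[a]) :=
            Nat.mod_eq_of_lt (by
              have := mc_code_lt l[a]
              omega)
          rw [hmod2] at z28
          refine Runs.ite (T1 := 1) ?_ ?_ le_rfl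
          · intro h
            rw [z28] at h
            refine Runs.skip ⟨zm, z26, ?_, zr⟩
            rw [z30, if_neg]
            intro h'
            obtain ⟨_, _, h3⟩ := hkey.1 h'
            omega
          · intro h
            rw [z28] at h
            refine Runs.block _ le_rfl ?_
            simp only [List.foldl, Op.run]
            refine ⟨zm, ?_, ?_, ?_⟩
            · simp [z26]
            · rw [if_pos (hkey.2 ⟨hal, hia, by omega⟩)]
              simp
            · intro r hr
              have hr' := zr r hr
              simp only [List.mem_cons, List.not_mem_nil, or_false, not_or] at hr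
              simp [Function.update_apply, hr, hr']
    · intro h28
      rw [y28] at h28
      refine Runs.skip ⟨ym, y26, ?_, ?_⟩
      · rw [y30, if_neg]
        intro h
        obtain ⟨h1, _, _⟩ := hkey.1 h
        omega
      · intro r hr
        simp only [List.mem_cons, List.not_mem_nil, or_false, not_or] at hr
        refine yr r ?_
        simp only [List.mem_cons, List.not_mem_nil, or_false, not_or]
        tauto
  rintro z ⟨zm, z26, z30, zr⟩
  have z10 : z.reg 10 = l.length := by rw [zr 10 (by decide), h10]
  refine Runs.ite (T1 := 4) ?_ ?_ le_rfl
  · intro h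
    have hc : c ∉ l.drop hi := by
      intro h'
      rw [z30, if_pos h'] at h
      exact h rfl
    have hins : ins hi l (some c) = l ++ [c] := by
      show (if c ∈ l.drop hi then l else l ++ [c]) = _
      rw [if_neg hc]
    rw [hins]
    have z7 : z.reg 7 = bL := by rw [zr 7 (by decide), h7]
    have z25 : z.reg 25 = code c := by rw [zr 25 (by decide), h25]
    have z40 : z.reg 40 = 1 := by rw [zr 40 (by decide), h40]
    have e1 : (bL + l.length) % 2 ^ w = bL + l.length := Nat.mod_eq_of_lt (by omega)
    have e2 : (l.length + 1) % 2 ^ w = l.length + 1 := Nat.mod_eq_of_lt (by omega)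
    refine Runs.block _ le_rfl ?_
    simp only [List.foldl, Op.run]
    have hmem : ∀ b, (Function.update (Function.update x.mem (bL + l.length) (code c)) (bT + code c)
        l.length) b = if b = bT + code c then l.length else if b = bL + l.length then code c
          else x.mem b := by
      intro b
      rw [Function.update_apply, Function.update_apply]
    refine ⟨?_, ?_, ?_, ?_⟩
    · intro r hr
      have hr' : z.reg r = x.reg r := by
        apply zr
        simp only [List.mem_cons, List.not_mem_nil, or_false, not_or] at hr ⊢
        tauto
      simp only [List.mem_cons, List.not_mem_nil, or_false, not_or] at hr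
      simp [Function.update_apply, hr, hr']
    · simp [z10, z40, e2]
    · have hm : Function.update (Function.update z.mem ((Function.update z.reg 31
          ((z.reg 7 + z.reg 10) % 2 ^ w)) 31) ((Function.update z.reg 31
          ((z.reg 7 + z.reg 10) % 2 ^ w)) 25)) ((Function.update z.reg 31
          ((z.reg 7 + z.reg 10) % 2 ^ w)) 26) ((Function.update z.reg 31
          ((z.reg 7 + z.reg 10) % 2 ^ w)) 10) =
          Function.update (Function.update x.mem (bL + l.length) (code c)) (bT + code c) l.length := by
        simp [z7, z10, z25, z26, zm, e1]
      rw [hm]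
      refine ⟨?_, ?_, ?_, ?_⟩
      · intro b
        rw [hmem]
        split_ifs
        · omega
        · omega
        · exact hT.word b
      · intro q hq
        rw [List.length_append, List.length_singleton] at hq
        rw [hmem, if_neg (by omega)]
        by_cases hql : q = l.length
        · subst hql
          rw [if_pos rfl, List.getElem_concat_length rfl]
        · rw [if_neg (by omega), List.getElem_append_left (by omega)]
          exact hT.list q (by omega)
      · intro q hq hhq
        rw [List.length_append, List.length_singleton] at hq
        rw [hmem]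
        by_cases hql : q = l.length
        · subst hql
          rw [List.getElem_concat_length rfl, if_pos rfl]
        · have hq' : q < l.length := by omega
          have hne : l[q] ≠ c := by
            intro h'
            apply hc
            rw [← h', List.mem_iff_getElem]
            refine ⟨q - hi, by rw [List.length_drop]; omega, ?_⟩
            rw [List.getElem_drop]
            congr 1
            omega
          have h1 : code l[q] ≠ code c := fun h' => hne (mc_code_inj h')
          have h2 := mc_code_lt l[q]
          rw [List.getElem_append_left hq', if_neg (by omega), if_neg (by omega)]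
          exact hT.back q hq' hhq
      · rw [List.drop_append_of_le_length hhi, List.nodup_append]
        refine ⟨hT.nodup, by simp, ?_⟩
        intro u hu v hv
        rw [List.mem_singleton] at hv
        subst hv
        intro h'
        subst h'
        exact hc hu
    · intro b hb'
      have hb1 : b ≠ bT + code c := by omega
      have hb2 : b ≠ bL + l.length := by omega
      simp [z7, z10, z25, z26, zm, e1, Function.update_apply, hb1, hb2]
  · intro h
    have hc : c ∈ l.drop hi := by
      by_contra h'
      rw [z30, if_neg h'] at h
      exact one_ne_zero h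
    have hins : ins hi l (some c) = l := by
      show (if c ∈ l.drop hi then l else l ++ [c]) = _
      rw [if_pos hc]
    rw [hins]
    refine Runs.skip ⟨?_, z10, ?_, ?_⟩
    · intro r hr
      apply zr
      simp only [List.mem_cons, List.not_mem_nil, or_false, not_or] at hr ⊢
      tauto
    · rw [zm]
      exact hT
    · intro b _
      rw [zm]

end SCR
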