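import Pool.Agent.Lib.SCR.ME

/-!
# Row MD: one state and one set (helper16)
-/

set_option linter.unusedSimpArgs false

namespace SCR

open Op Stmt

lemma sdiff_card_eq {n : ℕ} (Y A : Finset (Fin n)) : (Y ∪ A).card - Y.card = (A \ Y).card := by
  rw [Finset.union_comm, ← Finset.sdiff_union_self_eq_union, Finset.card_union_of_disjoint
    Finset.sdiff_disjoint, Nat.add_sub_cancel]

/-- MD -/
theorem pairSpec (hMU : MaskUnion) (hMT : MaskTop) (hML : MaskLt) (hC : CountSpec)
    (hPu : PushSpec) : PairSpec := by
  intro w n k s j hi i L l z x hE hF h9 h10 h12 h16 h24 hiL h33 h14 hhl hhb hT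
  have hspace := hF.space
  have hpow : 0 < 2 ^ n := by positivity
  have hnn : n < 2 ^ n := Nat.lt_two_pow_self
  have hsp2 : (n + 3) * (2 ^ n + 2 ^ n) = (n + 1) * (2 ^ n + 2 ^ n) + 4 * 2 ^ n := by ring
  have hY : mask z.1 < 2 ^ n := hML n z.1
  have hX : mask (z.1 ∪ L[i]) < 2 ^ n := hML n (z.1 ∪ L[i])
  obtain ⟨X, hXd⟩ : ∃ X, X = z.1 ∪ L[i] := ⟨_, rfl⟩
  obtain ⟨A, hA⟩ : ∃ A, A = L[i] := ⟨_, rfl⟩
  have hset : x.mem (3 + i) = mask A := by rw [hA]; exact hE.set i hiL
  have hUn : mask z.1 ||| mask A = mask X := by rw [hXd, hA]; exact hMU n _ _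
  have hcard : X.card - z.1.card = (A \ z.1).card := by rw [hXd, hA]; exact sdiff_card_eq _ _
  rw [← hXd] at hX
  rw [← hA]
  rw [← hA] at hXd
  -- step 1
  unfold pair
  refine Runs.seq (T1 := 2) (T2 := 13 * n + 48)
    (R := fun y => y.mem = x.mem ∧ (∀ r, r ∉ [17, 18] → y.reg r = x.reg r) ∧
      y.reg 18 = mask X) ?_ ?_ (by omega)
  · refine Runs.block _ (by simp) ⟨by simp [Op.run], ?_, ?_⟩
    · intro r hr
      simp only [List.mem_cons, List.not_mem_nil, or_false, not_or] at hr
      simp [Op.run, Function.update_apply, hr]
    · simp [Op.run, Function.update_apply, h33, hset, h16, hUn]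
  rintro y ⟨ym, yr, y18⟩
  -- step 2
  refine Runs.seq (T1 := 13 * n + 6) (T2 := 42)
    (R := fun u => u.mem = x.mem ∧ (∀ r, r ∉ [17, 18, 19, 20, 21, 22, 23, 26] → u.reg r = x.reg r) ∧
      u.reg 18 = mask X ∧ u.reg 19 = X.card ∧ u.reg 20 = z.1.card ∧ u.reg 21 = X.card * k) ?_ ?_
      (by omega)
  · refine (hC w n k X z.1 y (by rw [yr 1 (by decide), hE.r1]) (by rw [yr 3 (by decide), hE.r3])
      (by rw [yr 16 (by decide), h16]) y18 (by rw [yr 40 (by decide), hE.r40]) hF.k hF.sq
      (by omega)).mono le_rfl ?_
    rintro u ⟨um, ur, u19, u20, u21⟩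
    refine ⟨by rw [um, ym], ?_, by rw [ur 18 (by decide), y18], u19, u20, u21⟩
    intro r hr
    simp only [List.mem_cons, List.not_mem_nil, or_false, not_or] at hr
    rw [ur r (by simp only [List.mem_cons, List.not_mem_nil, or_false, not_or]; tauto),
      yr r (by simp only [List.mem_cons, List.not_mem_nil, or_false, not_or]; tauto)]
  rintro y1 ⟨y1m, y1r, y118, y119, y120, y121⟩
  -- step 3
  refine Runs.seq (T1 := 2) (T2 := 40)
    (R := fun u => u.mem = x.mem ∧ (∀ r, r ∉ [17, 18, 19, 20, 21, 22, 23, 26, 27, 28] →
      u.reg r = x.reg r) ∧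
      u.reg 18 = mask X ∧ u.reg 21 = X.card * k ∧ u.reg 28 = s - (A \ z.1).card) ?_ ?_ (by omega)
  · refine Runs.block _ (by simp) ⟨by simp [Op.run, y1m], ?_, ?_, ?_, ?_⟩
    · intro r hr
      simp only [List.mem_cons, List.not_mem_nil, or_false, not_or] at hr
      have := y1r r (by simp only [List.mem_cons, List.not_mem_nil, or_false, not_or]; tauto)
      simp [Op.run, Function.update_apply, hr, this]
    · simp [Op.run, Function.update_apply, y118]
    · simp [Op.run, Function.update_apply, y121]
    · simp only [List.foldl, Op.run, Function.update_apply, Nat.reduceEqDiff, if_false, if_true]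
      rw [y119, y120, y1r 11 (by decide), hE.r11, hcard]
  rintro y2 ⟨y2m, y2r, y218, y221, y228⟩
  have hEnv : ∀ v : Data, (∀ r, r ∉ [10, 17, 18, 19, 20, 21, 22, 23, 25, 26, 27, 28, 29, 30, 31] →
      v.reg r = x.reg r) → (∀ a < L.length + 3, v.mem a = x.mem a) → Env k s L v := by
    intro v hv1 hv2
    refine hE.congr (fun r hr => hv1 r ?_) hv2
    simp only [List.mem_cons, List.not_mem_nil, or_false] at hr
    rcases hr with rfl | rfl | rfl | rfl | rfl | rfl | rfl | rfl | rfl <;> decide
  -- the insertion
  have hpush : ∀ (v : Data) (c : St n), v.mem = x.mem →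
      (∀ r, r ∉ [17, 18, 19, 20, 21, 22, 23, 25, 26, 27, 28, 29, 30] → v.reg r = x.reg r) →
      v.reg 25 = code c →
      Runs w push v 25 (fun u => Env k s L u ∧
        (∀ r, r ∉ [10, 17, 18, 19, 20, 21, 22, 23, 25, 26, 27, 28, 29, 30, 31] →
          u.reg r = x.reg r) ∧
        u.reg 10 = (ins hi l (some c)).length ∧
        Tab w (L.length + 3) (L.length + 3 + 2 ^ n + 2 ^ n) hi (ins hi l (some c)) u.mem) := by
    intro v c vm vr v25
    refine (hPu w n (L.length + 3) (L.length + 3 + 2 ^ n + 2 ^ n) hi l c v
      (by rw [vr 6 (by decide), hE.r6]) (by rw [vr 7 (by decide), hE.r7])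
      (by rw [vr 9 (by decide), h9]) (by rw [vr 10 (by decide), h10]) v25
      (by rw [vr 40 (by decide), hE.r40]) hhl (by omega) (by omega) (by rw [vm]; exact hT)).mono
      le_rfl ?_
    rintro u ⟨ur, u10, uT, um⟩
    have hr' : ∀ r, r ∉ [10, 17, 18, 19, 20, 21, 22, 23, 25, 26, 27, 28, 29, 30, 31] →
        u.reg r = x.reg r := by
      intro r hr
      simp only [List.mem_cons, List.not_mem_nil, or_false, not_or] at hr
      rw [ur r (by simp only [List.mem_cons, List.not_mem_nil, or_false, not_or]; tauto),
        vr r (by simp only [List.mem_cons, List.not_mem_nil, or_false, not_or]; tauto)]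
    exact ⟨hEnv u hr' (fun a ha => by rw [um a ha, vm]), hr', u10, uT⟩
  have hnone : ∀ (v : Data), v.mem = x.mem →
      (∀ r, r ∉ [17, 18, 19, 20, 21, 22, 23, 25, 26, 27, 28, 29, 30] → v.reg r = x.reg r) →
      (Env k s L v ∧
        (∀ r, r ∉ [10, 17, 18, 19, 20, 21, 22, 23, 25, 26, 27, 28, 29, 30, 31] →
          v.reg r = x.reg r) ∧
        v.reg 10 = (ins hi l none).length ∧
        Tab w (L.length + 3) (L.length + 3 + 2 ^ n + 2 ^ n) hi (ins hi l none) v.mem) := by
    intro v vm vr
    have hr' : ∀ r, r ∉ [10, 17, 18, 19, 20, 21, 22, 23, 25, 26, 27, 28, 29, 30, 31] →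
        v.reg r = x.reg r := by
      intro r hr
      simp only [List.mem_cons, List.not_mem_nil, or_false, not_or] at hr
      rw [vr r (by simp only [List.mem_cons, List.not_mem_nil, or_false, not_or]; tauto)]
    exact ⟨hEnv v hr' (fun a _ => by rw [vm]), hr', by rw [vr 10 (by decide), h10]; rfl,
      by rw [vm]; exact hT⟩
  -- step 4
  refine Runs.seq (T1 := 38) (T2 := 2)
    (R := fun u => Env k s L u ∧
        (∀ r, r ∉ [10, 17, 18, 19, 20, 21, 22, 23, 25, 26, 27, 28, 29, 30, 31] →
          u.reg r = x.reg r) ∧
        u.reg 10 = (ins hi l (move s k j z A)).length ∧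
        Tab w (L.length + 3) (L.length + 3 + 2 ^ n + 2 ^ n) hi (ins hi l (move s k j z A)) u.mem)
      ?_ ?_ (by omega)
  · refine Runs.ite (T1 := 36) ?_ ?_ (by omega)
    · intro hne
      have hsm : (A \ z.1).card < s := by omega
      refine Runs.seq (T1 := 4) (T2 := 32)
        (R := fun u => u.mem = x.mem ∧ (∀ r, r ∉ [17, 18, 19, 20, 21, 22, 23, 26, 27, 28, 29, 30] →
          u.reg r = x.reg r) ∧ u.reg 18 = mask X ∧
          (u.reg 29 ≠ 0 ↔ HitsTop z.1 A)) ?_ ?_ (by omega)
      · refine Runs.block _ (by simp) ⟨by simp [Op.run, y2m], ?_, ?_, ?_⟩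
        · intro r hr
          simp only [List.mem_cons, List.not_mem_nil, or_false, not_or] at hr
          have := y2r r (by simp only [List.mem_cons, List.not_mem_nil, or_false, not_or]; tauto)
          simp [Op.run, Function.update_apply, hr, this]
        · simp [Op.run, Function.update_apply, y218]
        · rw [← hMT n z.1 A, ← hXd]
          simp only [List.foldl, Op.run, Function.update_apply, Nat.reduceEqDiff, if_false, if_true]
          rw [y218, y2r 5 (by decide), y2r 16 (by decide), hE.r5, h16,
            Nat.mod_eq_of_lt (by omega)]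
      rintro y3 ⟨y3m, y3r, y318, y329⟩
      refine Runs.ite (T1 := 30) ?_ ?_ (by omega)
      · intro h29
        have hHT := y329.1 h29
        have hmv : move s k j z A = some (X, true) := by
          simp only [move, hsm, hHT, if_true, hXd]
        rw [hmv]
        refine Runs.seq (T1 := 1) (T2 := 25)
          (R := fun u => u.mem = x.mem ∧
            (∀ r, r ∉ [17, 18, 19, 20, 21, 22, 23, 25, 26, 27, 28, 29, 30] →
            u.reg r = x.reg r) ∧ u.reg 25 = code (X, true)) ?_ ?_ (by omega)
        · refine Runs.block _ (by simp) ⟨by simp [Op.run, y3m], ?_, ?_⟩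
          · intro r hr
            simp only [List.mem_cons, List.not_mem_nil, or_false, not_or] at hr
            have := y3r r (by simp only [List.mem_cons, List.not_mem_nil, or_false, not_or]; tauto)
            simp [Op.run, Function.update_apply, hr, this]
          · simp only [List.foldl, Op.run, Function.update_apply, Nat.reduceEqDiff, if_false,
              if_true, code]
            rw [y318, y3r 4 (by decide), hE.r4, Nat.mod_eq_of_lt (by omega)]
        · rintro y4 ⟨y4m, y4r, y425⟩
          exact hpush y4 (X, true) y4m y4r y425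
      · intro h29
        have hHT : ¬ HitsTop z.1 A := fun h => y329.2 h h29
        have hmv : move s k j z A = none := by
          simp only [move, hsm, hHT, if_true, if_false]
        rw [hmv]
        refine Runs.skip (hnone y3 y3m fun r hr => y3r r ?_)
        simp only [List.mem_cons, List.not_mem_nil, or_false, not_or] at hr ⊢
        tauto
    · intro heq
      have hbg : ¬ (A \ z.1).card < s := by omega
      have h24' : y2.reg 24 = if z.2 then 2 ^ n else 0 := by rw [y2r 24 (by decide), h24]
      refine Runs.ite (T1 := 34) ?_ ?_ (by omega)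
      · intro hne
        have hz2 : z.2 = true := by
          by_contra hcon
          rw [h24', if_neg hcon] at hne
          exact hne rfl
        have hmv : move s k j z A = none := by
          simp [move, hbg, hz2]
        rw [hmv]
        refine Runs.skip (hnone y2 y2m fun r hr => y2r r ?_)
        simp only [List.mem_cons, List.not_mem_nil, or_false, not_or] at hr ⊢
        tauto
      · intro heq24
        have hz2 : z.2 = false := by
          by_contra hcon
          rw [Bool.not_eq_false] at hcon
          rw [h24', if_pos hcon] at heq24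
          omega
        refine Runs.seq (T1 := 1) (T2 := 33)
          (R := fun u => u.mem = x.mem ∧ (∀ r, r ∉ [17, 18, 19, 20, 21, 22, 23, 26, 27, 28, 29] →
            u.reg r = x.reg r) ∧ u.reg 18 = mask X ∧
            (u.reg 29 = 0 ↔ (j + 1) * n ≤ X.card * k)) ?_ ?_ (by omega)
        · refine Runs.block _ (by simp) ⟨by simp [Op.run, y2m], ?_, ?_, ?_⟩
          · intro r hr
            simp only [List.mem_cons, List.not_mem_nil, or_false, not_or] at hr
            have := y2r r (by simp only [List.mem_cons, List.not_mem_nil, or_false, not_or]; tauto)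
            simp [Op.run, Function.update_apply, hr, this]
          · simp [Op.run, Function.update_apply, y218]
          · simp only [List.foldl, Op.run, Function.update_apply, Nat.reduceEqDiff, if_false,
              if_true]
            rw [y2r 12 (by decide), h12, y221]
            exact Nat.sub_eq_zero_iff_le
        rintro y3 ⟨y3m, y3r, y318, y329⟩
        refine Runs.ite (T1 := 30) ?_ ?_ (by omega)
        · intro h29
          have hge : ¬ (j + 1) * n ≤ (z.1 ∪ A).card * k := by
            rw [← hXd]
            exact fun h => h29 (y329.2 h)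
          have hmv : move s k j z A = none := by
            simp only [move, hbg, hge, and_false, if_false]
          rw [hmv]
          refine Runs.skip (hnone y3 y3m fun r hr => y3r r ?_)
          simp only [List.mem_cons, List.not_mem_nil, or_false, not_or] at hr ⊢
          tauto
        · intro h29
          have hge : (j + 1) * n ≤ (z.1 ∪ A).card * k := by
            rw [← hXd]
            exact y329.1 h29
          have hmv : move s k j z A = some (X, false) := by
            rw [hXd]
            simp only [move, hbg, hz2, hge, if_false, and_self, if_true]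
          rw [hmv]
          refine Runs.seq (T1 := 1) (T2 := 25)
            (R := fun u => u.mem = x.mem ∧
              (∀ r, r ∉ [17, 18, 19, 20, 21, 22, 23, 25, 26, 27, 28, 29, 30] →
              u.reg r = x.reg r) ∧ u.reg 25 = code (X, false)) ?_ ?_ (by omega)
          · refine Runs.block _ (by simp) ⟨by simp [Op.run, y3m], ?_, ?_⟩
            · intro r hr
              simp only [List.mem_cons, List.not_mem_nil, or_false, not_or] at hr
              have := y3r r (by simp only [List.mem_cons, List.not_mem_nil, or_false, not_or]; tauto)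
              simp [Op.run, Function.update_apply, hr, this]
            · simp only [List.foldl, Op.run, Function.update_apply, Nat.reduceEqDiff, if_false,
                if_true, code, Nat.or_self, Bool.false_eq_true, Nat.add_zero]
              exact y318
          · rintro y4 ⟨y4m, y4r, y425⟩
            exact hpush y4 (X, false) y4m y4r y425
  -- step 5
  rintro v ⟨vE, vr, v10, vT⟩
  have v33 : v.reg 33 = 3 + i := by rw [vr 33 (by decide), h33]
  have v14 : v.reg 14 = L.length - i := by rw [vr 14 (by decide), h14]
  refine Runs.block _ (by simp) ⟨?_, ?_, ?_, ?_, ?_, ?_⟩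
  · refine vE.congr (fun r hr => ?_) (fun a _ => by simp [Op.run])
    simp only [List.mem_cons, List.not_mem_nil, or_false] at hr
    simp only [List.foldl, Op.run, Function.update_apply]
    rcases hr with rfl | rfl | rfl | rfl | rfl | rfl | rfl | rfl | rfl <;> simp
  · intro r hr
    have := vr r (by
      simp only [List.mem_cons, List.not_mem_nil, or_false, not_or] at hr ⊢
      tauto)
    simp only [List.mem_cons, List.not_mem_nil, or_false, not_or] at hr
    simp [Op.run, Function.update_apply, hr, this]
  · simp only [List.foldl, Op.run, Function.update_apply]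
    simp only [v33, vE.r40]
    simp only [Nat.reduceEqDiff, if_false, if_true]
    rw [Nat.mod_eq_of_lt (by omega)]
    omega
  · simp only [List.foldl, Op.run, Function.update_apply]
    simp only [v14, vE.r40]
    simp only [Nat.reduceEqDiff, if_false, if_true]
    omega
  · simp only [List.foldl, Op.run, Function.update_apply]
    simp only [Nat.reduceEqDiff, if_false]
    exact v10
  · simp only [List.foldl, Op.run]
    exact vT

end SCR
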