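import Pool.Agent.Lib.SCR.Prog

/-!
# Row MG: the lists are what they should be
-/

namespace SCR

/-- `l'` arises from `l` by appending the new members of `S` to the segment from `hi` on. -/
structure Grow {n : ℕ} (hi : ℕ) (l l' : List (St n)) (S : Set (St n)) : Prop where
  pre : l <+: l'
  nodup : (l.drop hi).Nodup → (l'.drop hi).Nodup
  mem : ∀ z, z ∈ l'.drop hi ↔ z ∈ l.drop hi ∨ z ∈ S

lemma Grow.refl {n : ℕ} (hi : ℕ) (l : List (St n)) : Grow hi l l ∅ :=
  ⟨List.prefix_rfl, id, by simp⟩

lemma Grow.trans {n : ℕ} {hi : ℕ} {l l' l'' : List (St n)} {S T : Set (St n)} (h : Grow hi l l' S)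
    (h' : Grow hi l' l'' T) : Grow hi l l'' (S ∪ T) := by
  refine ⟨h.pre.trans h'.pre, fun q => h'.nodup (h.nodup q), fun z => ?_⟩
  rw [h'.mem, h.mem, Set.mem_union, or_assoc]

lemma Grow.congr {n : ℕ} {hi : ℕ} {l l' : List (St n)} {S T : Set (St n)} (h : Grow hi l l' S)
    (e : S = T) : Grow hi l l' T := e ▸ h

lemma grow_ins {n : ℕ} (hi : ℕ) (l : List (St n)) (hl : hi ≤ l.length) (o : Option (St n)) :
    Grow hi l (ins hi l o) {z | o = some z} := by
  cases o with
  | none => exact (Grow.refl hi l).congr (by ext z; simp)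
  | some c =>
    by_cases hc : c ∈ l.drop hi
    · have e : ins hi l (some c) = l := by simp [ins, hc]
      rw [e]
      refine ⟨List.prefix_rfl, id, fun z => ?_⟩
      constructor
      · exact Or.inl
      · rintro (h | h)
        · exact h
        · have : c = z := Option.some.inj h
          exact this ▸ hc
    · have e : ins hi l (some c) = l ++ [c] := by simp [ins, hc]
      have e2 : (l ++ [c]).drop hi = l.drop hi ++ [c] := List.drop_append_of_le_length hl
      rw [e]
      refine ⟨List.prefix_append _ _, fun q => ?_, fun z => ?_⟩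
      · rw [e2, List.nodup_append]
        refine ⟨q, by simp, ?_⟩
        intro a ha b hb
        rw [List.mem_singleton] at hb
        rintro rfl
        exact hc (hb ▸ ha)
      · rw [e2, List.mem_append, List.mem_singleton]
        simp only [Set.mem_ofPred_eq, Option.some.injEq]
        rw [eq_comm (a := z)]

lemma grow_foldl {n : ℕ} {α : Type*} (hi : ℕ) (f : List (St n) → α → List (St n)) (S : α → Set (St n))
    (hf : ∀ l a, hi ≤ l.length → Grow hi l (f l a) (S a)) (as : List α) :
    ∀ l : List (St n), hi ≤ l.length → Grow hi l (as.foldl f l) {z | ∃ a ∈ as, z ∈ S a} := by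
  induction as with
  | nil => intro l _; exact (Grow.refl hi l).congr (by ext z; simp)
  | cons a as ih =>
    intro l hl
    have h1 := hf l a hl
    have h2 := ih (f l a) (hl.trans h1.pre.length_le)
    exact (h1.trans h2).congr (by ext z; simp)

lemma grow_setsL {n : ℕ} (s k j hi : ℕ) (z : St n) (L : List (Finset (Fin n))) (l : List (St n))
    (hl : hi ≤ l.length) :
    Grow hi l (setsL s k j hi z L l) {y | ∃ A ∈ L, move s k j z A = some y} :=
  grow_foldl hi _ _ (fun l A hl => grow_ins hi l hl (move s k j z A)) L l hl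

lemma grow_entriesL {n : ℕ} (s k j hi : ℕ) (L : List (Finset (Fin n))) (zs l : List (St n))
    (hl : hi ≤ l.length) :
    Grow hi l (entriesL s k j hi L zs l) {y | ∃ z ∈ zs, ∃ A ∈ L, move s k j z A = some y} :=
  grow_foldl hi _ _ (fun l z hl => grow_setsL s k j hi z L l hl) zs l hl

lemma reach_succ {n : ℕ} (s k : ℕ) (L : List (Finset (Fin n))) (j : ℕ) (y : St n) :
    Reach s k L (j + 1) y.1 y.2 ↔
      ∃ z : St n, Reach s k L j z.1 z.2 ∧ ∃ A ∈ L, move s k j z A = some y := by
  obtain ⟨Y', b'⟩ := y
  constructor
  · intro h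
    generalize hj : j + 1 = j' at h
    cases h with
    | start => omega
    | @big i Y A h1 h2 h3 h4 =>
      obtain rfl : j = i := by omega
      refine ⟨(Y, false), h1, A, h2, ?_⟩
      unfold move
      rw [if_neg (by simpa using h3), if_pos ⟨rfl, h4⟩]
      rfl
    | @small i Y A b h1 h2 h3 h4 =>
      obtain rfl : j = i := by omega
      refine ⟨(Y, b), h1, A, h2, ?_⟩
      unfold move
      rw [if_pos h3, if_pos h4]
      rfl
  · rintro ⟨⟨Y, b⟩, h1, A, h2, h3⟩
    unfold move at h3
    simp only at h1 h3
    split_ifs at h3 with g1 g2 g2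
    · have e : (Y ∪ A, true) = (Y', b') := by simpa using h3
      obtain ⟨rfl, rfl⟩ := Prod.mk.inj e
      exact Reach.small h1 h2 g1 g2
    · have e : (Y ∪ A, false) = (Y', b') := by simpa using h3
      obtain ⟨rfl, rfl⟩ := Prod.mk.inj e
      obtain ⟨rfl, g3⟩ := g2
      exact Reach.big h1 h2 (not_lt.1 g1) g3

lemma ncard_reach {n : ℕ} (s k : ℕ) (L : List (Finset (Fin n))) (j : ℕ) (l : List (St n)) (hl : l.Nodup)
    (h : ∀ z, z ∈ l ↔ Reach s k L j z.1 z.2) : l.length = {z : St n | Reach s k L j z.1 z.2}.ncard := by
  classical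
  have e : {z : St n | Reach s k L j z.1 z.2} = (l.toFinset : Set (St n)) := by
    ext z
    simp [h]
  rw [e, Set.ncard_coe_finset, List.toFinset_card_of_nodup hl]

lemma ncard_le {n : ℕ} (S : Set (St n)) : S.ncard ≤ 2 ^ n + 2 ^ n := by
  classical
  have h1 := Set.ncard_le_card S
  have h2 : Nat.card (St n) = 2 ^ n + 2 ^ n := by
    rw [Nat.card_eq_fintype_card]
    simp [St, Fintype.card_prod]
    ring
  omega

theorem listSpec : ListSpec := by
  intro n s k L j
  have key : (listL s k L j).1 ≤ (listL s k L j).2.length ∧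
      ((listL s k L j).2.drop (listL s k L j).1).Nodup ∧
      (∀ z : St n, z ∈ (listL s k L j).2.drop (listL s k L j).1 ↔ Reach s k L j z.1 z.2) ∧
      (∀ z : St n, z ∈ (listL s k L j).2 ↔ ∃ i ≤ j, Reach s k L i z.1 z.2) ∧
      (listL s k L j).2.length = ∑ i ∈ Finset.range (j + 1), {z : St n | Reach s k L i z.1 z.2}.ncard := by
    induction j with
    | zero =>
      have h0 : ∀ z : St n, z ∈ [((∅ : Finset (Fin n)), false)] ↔ Reach s k L 0 z.1 z.2 := by
        intro z
        rw [List.mem_singleton]
        constructor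
        · rintro rfl
          exact Reach.start
        · intro h
          obtain ⟨Y, b⟩ := z
          generalize hj : 0 = j' at h
          cases h with
          | start => rfl
          | big => omega
          | small => omega
      refine ⟨Nat.zero_le _, ?_, ?_, ?_, ?_⟩
      · simp [listL]
      · intro z
        rw [← h0]
        simp [listL]
      · intro z
        constructor
        · intro h
          exact ⟨0, le_rfl, (h0 z).1 h⟩
        · rintro ⟨i, hi, h⟩
          obtain rfl : i = 0 := by omega
          exact (h0 z).2 h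
      · rw [zero_add, Finset.sum_range_one]
        exact ncard_reach s k L 0 _ (List.nodup_singleton _) h0
    | succ j ih =>
      obtain ⟨h1, h2, h3, h4, h5⟩ := ih
      have g := grow_entriesL s k j (listL s k L j).2.length L
        ((listL s k L j).2.drop (listL s k L j).1) (listL s k L j).2 le_rfl
      have e1 : (listL s k L (j + 1)).1 = (listL s k L j).2.length := rfl
      have e2 : (listL s k L (j + 1)).2 = entriesL s k j (listL s k L j).2.length L
        ((listL s k L j).2.drop (listL s k L j).1) (listL s k L j).2 := rfl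
      rw [← e2] at g
      have hn : ((listL s k L (j + 1)).2.drop (listL s k L (j + 1)).1).Nodup := by
        rw [e1]
        exact g.nodup (by simp)
      have hm : ∀ z : St n, z ∈ (listL s k L (j + 1)).2.drop (listL s k L (j + 1)).1 ↔
          Reach s k L (j + 1) z.1 z.2 := by
        intro z
        rw [e1, g.mem, reach_succ]
        simp only [List.drop_length, List.not_mem_nil, false_or, Set.mem_ofPred_eq]
        constructor
        · rintro ⟨y, hy, A, hA, h⟩
          exact ⟨y, (h3 y).1 hy, A, hA, h⟩
        · rintro ⟨y, hy, A, hA, h⟩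
          exact ⟨y, (h3 y).2 hy, A, hA, h⟩
      have ht : (listL s k L (j + 1)).2 = (listL s k L j).2 ++
          (listL s k L (j + 1)).2.drop (listL s k L (j + 1)).1 := by
        obtain ⟨t, ht⟩ := g.pre
        rw [e1, ← ht, List.drop_left]
      refine ⟨?_, hn, hm, ?_, ?_⟩
      · rw [e1]
        exact g.pre.length_le
      · intro z
        rw [ht, List.mem_append, h4, hm]
        constructor
        · rintro (⟨i, hi, h⟩ | h)
          · exact ⟨i, by omega, h⟩
          · exact ⟨j + 1, le_rfl, h⟩
        · rintro ⟨i, hi, h⟩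
          rcases Nat.lt_or_ge i (j + 1) with h6 | h6
          · exact Or.inl ⟨i, by omega, h⟩
          · obtain rfl : i = j + 1 := by omega
            exact Or.inr h
      · rw [ht, List.length_append, h5, Finset.sum_range_succ _ (j + 1)]
        congr 1
        exact ncard_reach s k L (j + 1) _ hn hm
  obtain ⟨h1, h2, h3, h4, h5⟩ := key
  refine ⟨h1, h2, h3, h4, h5, ?_⟩
  rw [h5]
  refine (Finset.sum_le_card_nsmul _ _ (2 ^ n + 2 ^ n) (fun i _ => ncard_le _)).trans ?_
  simp

end SCR
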