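import Pool.Agent.Lib.SCR.Prog

/-!
# Row MI: the two ways to get `s` (helper16)
-/

set_option linter.unusedSimpArgs false

namespace SCR

namespace MI

lemma env_of {n : ℕ} {k s s' : ℕ} {L : List (Finset (Fin n))} {x y : Data} (h : Env k s L x)
    (hr : ∀ r, r ∉ [11, 14, 26, 27] → y.reg r = x.reg r) (hm : y.mem = x.mem)
    (hs : y.reg 11 = s') : Env k s' L y where
  r1 := (hr 1 (by decide)).trans h.r1
  r2 := (hr 2 (by decide)).trans h.r2
  r3 := (hr 3 (by decide)).trans h.r3
  r4 := (hr 4 (by decide)).trans h.r4
  r5 := (hr 5 (by decide)).trans h.r5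
  r6 := (hr 6 (by decide)).trans h.r6
  r7 := (hr 7 (by decide)).trans h.r7
  r11 := hs
  r40 := (hr 40 (by decide)).trans h.r40
  set := fun i hi => by rw [hm]; exact h.set i hi

lemma lt_iff (n m i : ℕ) : (n + 1) * 2 ^ i < m ↔ i < Nat.clog 2 ((m + n) / (n + 1)) := by
  rw [← not_le, ← not_le, not_iff_not, Nat.clog_le_iff_le_pow (by norm_num),
    Nat.div_le_iff_le_mul_add_pred (Nat.succ_pos n), Nat.succ_eq_add_one]
  constructor <;> intro h <;> omega

lemma clog_le (n m : ℕ) : Nat.clog 2 ((m + n) / (n + 1)) ≤ m := by
  by_contra h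
  rw [not_le] at h
  have h1 := (lt_iff n m m).2 h
  have h2 : m < 2 ^ m := Nat.lt_two_pow_self
  nlinarith

end MI

open MI in
theorem constSpec : ConstSpec := by
  intro s w n k L x hE hW
  beta_reduce at hW
  refine Runs.block _ (by simp) ?_
  have hs : s % 2 ^ w = s := Nat.mod_eq_of_lt (by omega)
  refine ⟨env_of hE ?_ rfl ?_, rfl, ?_⟩
  · intro r hr
    simp at hr
    simp [List.foldl, Op.run, Function.update_apply, hr]
  · simp [List.foldl, Op.run, hs]
  · intro r hr
    simp at hr
    simp [List.foldl, Op.run, Function.update_apply, hr]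

open MI in
theorem logSpec : LogSpec := by
  intro C w n k L x hE hW
  beta_reduce at hW ⊢
  obtain ⟨m, hm⟩ : ∃ m, m = L.length := ⟨_, rfl⟩
  rw [← hm] at hW ⊢
  obtain ⟨i', hi'⟩ : ∃ i', i' = Nat.clog 2 ((m + n) / (n + 1)) := ⟨_, rfl⟩
  have hle : i' ≤ m := by rw [hi']; exact clog_le n m
  have hlt : ∀ i, (n + 1) * 2 ^ i < m ↔ i < i' := fun i => by rw [hi']; exact lt_iff n m i
  have r1 := hE.r1
  have r2 := hE.r2
  have r40 := hE.r40
  rw [← hm] at r2
  -- the invariant
  set I : ℕ → Data → Prop := fun j y => y.mem = x.mem ∧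
    (∀ r, r ∉ [11, 14, 26, 27] → y.reg r = x.reg r) ∧ y.reg 14 = m - j ∧
    y.reg 26 = (n + 1) * 2 ^ (min j i') ∧ y.reg 11 = C + min j i' with hI
  refine Runs.seq (T1 := 3) (T2 := 8 * m + 1) (R := I 0) (Runs.block _ (by simp) ?_) ?_ (by omega)
  · refine ⟨rfl, ?_, ?_, ?_, ?_⟩
    · intro r hr
      simp at hr
      simp [List.foldl, Op.run, Function.update_apply, hr]
    · simp [List.foldl, Op.run, Function.update_apply, r2]
    · have : (n + 1) % 2 ^ w = n + 1 := Nat.mod_eq_of_lt (by omega)
      simp [List.foldl, Op.run, Function.update_apply, r1, r40, this]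
    · have : C % 2 ^ w = C := Nat.mod_eq_of_lt (by omega)
      simp [List.foldl, Op.run, Function.update_apply, this]
  · intro y hy
    refine Runs.loop m 6 I hy ?_ ?_ ?_ (by omega) ?_
    · intro j hj z hz
      have := hz.2.2.1
      omega
    · intro z hz
      have := hz.2.2.1
      omega
    · intro j hj z hz
      obtain ⟨z1, z2, z3, z4, z5⟩ := hz
      have zr2 : z.reg 2 = m := (z2 2 (by decide)).trans r2
      have zr40 : z.reg 40 = 1 := (z2 40 (by decide)).trans r40
      -- after the comparison
      refine Runs.seq (T1 := 1) (T2 := 5) (R := fun u => u.mem = x.mem ∧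
        (∀ r, r ∉ [11, 14, 26, 27] → u.reg r = x.reg r) ∧ u.reg 14 = m - j ∧
        u.reg 26 = (n + 1) * 2 ^ (min j i') ∧ u.reg 11 = C + min j i' ∧
        u.reg 27 = m - (n + 1) * 2 ^ (min j i')) (Runs.block _ (by simp) ?_) ?_ (by omega)
      · refine ⟨z1, ?_, ?_, ?_, ?_, ?_⟩
        · intro r hr
          rw [← z2 r hr]
          simp at hr
          simp [List.foldl, Op.run, Function.update_apply, hr]
        · simpa [List.foldl, Op.run, Function.update_apply] using z3
        · simpa [List.foldl, Op.run, Function.update_apply] using z4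
        · simpa [List.foldl, Op.run, Function.update_apply] using z5
        · simp [List.foldl, Op.run, zr2, z4]
      · rintro u ⟨u1, u2, u3, u4, u5, u6⟩
        have ur40 : u.reg 40 = 1 := (u2 40 (by decide)).trans r40
        refine Runs.seq (T1 := 4) (T2 := 1) (R := fun v => v.mem = x.mem ∧
          (∀ r, r ∉ [11, 14, 26, 27] → v.reg r = x.reg r) ∧ v.reg 14 = m - j ∧
          v.reg 26 = (n + 1) * 2 ^ (min (j + 1) i') ∧ v.reg 11 = C + min (j + 1) i')
          (Runs.ite (T1 := 2) ?_ ?_ (by omega)) ?_ (by omega)
        · intro hne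
          rw [u6] at hne
          have h1 : (n + 1) * 2 ^ (min j i') < m := by omega
          have h2 := (hlt _).1 h1
          have h3 : min j i' = j := by omega
          have h4 : min (j + 1) i' = j + 1 := by omega
          rw [h3] at h1 u4 u5
          rw [h4]
          refine Runs.block _ (by simp) ⟨u1, ?_, ?_, ?_, ?_⟩
          · intro r hr
            rw [← u2 r hr]
            simp at hr
            simp [List.foldl, Op.run, Function.update_apply, hr]
          · simpa [List.foldl, Op.run, Function.update_apply] using u3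
          · have e : ((n + 1) * 2 ^ j + (n + 1) * 2 ^ j) % 2 ^ w = (n + 1) * 2 ^ (j + 1) := by
              rw [Nat.mod_eq_of_lt (by omega), pow_succ]
              ring
            simpa [List.foldl, Op.run, Function.update_apply, u4] using e
          · have e : (C + j + 1) % 2 ^ w = C + (j + 1) := by
              rw [Nat.mod_eq_of_lt (by omega)]
              ring
            simpa [List.foldl, Op.run, Function.update_apply, u5, ur40] using e
        · intro heq
          rw [u6] at heq
          have h1 : ¬ (n + 1) * 2 ^ (min j i') < m := by omega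
          rw [hlt] at h1
          have h3 : min j i' = i' := by omega
          have h4 : min (j + 1) i' = i' := by omega
          rw [h3] at u4 u5
          rw [h4]
          exact Runs.skip ⟨u1, u2, u3, u4, u5⟩
        · rintro v ⟨v1, v2, v3, v4, v5⟩
          have vr40 : v.reg 40 = 1 := (v2 40 (by decide)).trans r40
          refine Runs.block _ (by simp) ⟨v1, ?_, ?_, ?_, ?_⟩
          · intro r hr
            rw [← v2 r hr]
            simp at hr
            simp [List.foldl, Op.run, Function.update_apply, hr]
          · simp [List.foldl, Op.run, v3, vr40]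
            omega
          · simpa [List.foldl, Op.run, Function.update_apply] using v4
          · simpa [List.foldl, Op.run, Function.update_apply] using v5
    · rintro z ⟨z1, z2, z3, z4, z5⟩
      have h1 : min m i' = i' := by omega
      rw [h1] at z5
      refine ⟨env_of hE z2 z1 ?_, z1, z2⟩
      rw [z5, hi']
      rfl

end SCR
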