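import Pool.Agent.Lib.SCR.Prog

/-!
# Row MJ: the scan (helper16)
-/

set_option linter.unusedSimpArgs false

namespace SCR

open Classical in
theorem scanSpec (hC : CodeFull) : ScanSpec := by
  intro w n k s L l x hE hF h10 hl hmem
  obtain ⟨m, hm⟩ : ∃ m, m = L.length := ⟨_, rfl⟩
  obtain ⟨P, hP⟩ : ∃ P, P = 2 ^ n := ⟨_, rfl⟩
  obtain ⟨W, hW⟩ : ∃ W, W = 2 ^ w := ⟨_, rfl⟩
  obtain ⟨b, hb⟩ : ∃ b, b = m + 3 + P + P := ⟨_, rfl⟩
  have hnP : n < P := by rw [hP]; exact Nat.lt_two_pow_self
  have hsp : b + l.length + 10 ≤ W := by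
    have h1 := hF.space
    rw [← hm, ← hP, ← hW] at h1
    rw [← hP] at hl
    have h2 : (n + 3) * (P + P) = (n + 1) * (P + P) + 4 * P := by ring
    omega
  rw [← hm, ← hP, ← hb] at hmem
  have r5 := hE.r5
  have r7 := hE.r7
  have r40 := hE.r40
  rw [← hP] at r5
  rw [← hm, ← hP, ← hb] at r7
  have c0 : 0 % W = 0 := Nat.zero_mod _
  have c1 : 1 % W = 1 := Nat.mod_eq_of_lt (by omega)
  set I : ℕ → Data → Prop := fun j y => y.mem = x.mem ∧ y.reg 5 = P - 1 ∧ y.reg 40 = 1 ∧
    y.reg 26 = b + j ∧ y.reg 27 = l.length - j ∧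
    y.reg 0 = if ∃ i, ∃ h : i < l.length, i < j ∧ l[i].1 = Finset.univ then 1 else 0 with hI
  refine Runs.seq (T1 := 3) (T2 := 10 * l.length + 1) (R := I 0) (Runs.block _ (by simp) ?_) ?_
    (by omega)
  · rw [hI]
    refine ⟨?_, ?_, ?_, ?_, ?_, ?_⟩ <;>
      simp [List.foldl, Op.run, Function.update_apply, ← hW, c0, c1, r5, r7, r40, h10]
  · intro y hy
    refine Runs.loop l.length 8 I hy ?_ ?_ ?_ (by omega) ?_
    · intro j hj z hz
      have := hz.2.2.2.2.1
      omega
    · intro z hz
      have := hz.2.2.2.2.1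
      omega
    · intro j hj z hz
      obtain ⟨z1, z2, z3, z4, z5, z6⟩ := hz
      refine Runs.seq (T1 := 3) (T2 := 5) (R := fun u => u.mem = x.mem ∧ u.reg 5 = P - 1 ∧
        u.reg 40 = 1 ∧ u.reg 26 = b + j ∧ u.reg 27 = l.length - j ∧
        (u.reg 0 = if ∃ i, ∃ h : i < l.length, i < j ∧ l[i].1 = Finset.univ then 1 else 0) ∧
        (u.reg 28 = 0 ↔ l[j].1 = Finset.univ)) (Runs.block _ (by simp) ?_) ?_ (by omega)
      · refine ⟨?_, ?_, ?_, ?_, ?_, ?_, ?_⟩
        · simp [List.foldl, Op.run, z1]
        · simp [List.foldl, Op.run, z2]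
        · simp [List.foldl, Op.run, z3]
        · simp [List.foldl, Op.run, z4]
        · simp [List.foldl, Op.run, z5]
        · simpa [List.foldl, Op.run] using z6
        · have h1 := hC n l[j]
          rw [← hP] at h1
          rw [← h1]
          simp [List.foldl, Op.run, z1, z2, z4, hmem j hj]
      · rintro u ⟨u1, u2, u3, u4, u5, u6, u7⟩
        refine Runs.seq (T1 := 3) (T2 := 2) (R := fun v => v.mem = x.mem ∧ v.reg 5 = P - 1 ∧
          v.reg 40 = 1 ∧ v.reg 26 = b + j ∧ v.reg 27 = l.length - j ∧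
          (v.reg 0 = if ∃ i, ∃ h : i < l.length, i < j + 1 ∧ l[i].1 = Finset.univ then 1 else 0))
          (Runs.ite (T1 := 1) ?_ ?_ (by omega)) ?_ (by omega)
        · intro hne
          refine Runs.skip ⟨u1, u2, u3, u4, u5, ?_⟩
          rw [u6]
          have hiff : (∃ i, ∃ h : i < l.length, i < j ∧ l[i].1 = Finset.univ) ↔
              (∃ i, ∃ h : i < l.length, i < j + 1 ∧ l[i].1 = Finset.univ) := by
            constructor
            · rintro ⟨i, h, h1, h2⟩
              exact ⟨i, h, by omega, h2⟩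
            · rintro ⟨i, h, h1, h2⟩
              refine ⟨i, h, ?_, h2⟩
              rcases Nat.lt_or_ge i j with h3 | h3
              · exact h3
              · exfalso
                have h4 : i = j := by omega
                subst h4
                exact hne (u7.2 h2)
          simp only [hiff]
        · intro heq
          have h1 := u7.1 heq
          refine Runs.block _ (by simp) ⟨?_, ?_, ?_, ?_, ?_, ?_⟩
          · simp [List.foldl, Op.run, u1]
          · simp [List.foldl, Op.run, u2]
          · simp [List.foldl, Op.run, u3]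
          · simp [List.foldl, Op.run, u4]
          · simp [List.foldl, Op.run, u5]
          · rw [if_pos ⟨j, hj, by omega, h1⟩]
            simp [List.foldl, Op.run, ← hW, c1]
        · rintro v ⟨v1, v2, v3, v4, v5, v6⟩
          have e1 : (b + j + 1) % W = b + (j + 1) := by
            rw [Nat.mod_eq_of_lt (by omega)]
            ring
          refine Runs.block _ (by simp) ⟨?_, ?_, ?_, ?_, ?_, ?_⟩
          · simp [List.foldl, Op.run, v1]
          · simp [List.foldl, Op.run, v2]
          · simp [List.foldl, Op.run, v3]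
          · simp [List.foldl, Op.run, v3, v4, ← hW, e1]
          · simp [List.foldl, Op.run, v3, v5]
            omega
          · simpa [List.foldl, Op.run] using v6
    · intro z hz
      obtain ⟨z1, z2, z3, z4, z5, z6⟩ := hz
      rw [z6]
      have hiff : (∃ i, ∃ h : i < l.length, i < l.length ∧ l[i].1 = Finset.univ) ↔
          ∃ b, ((Finset.univ : Finset (Fin n)), b) ∈ l := by
        constructor
        · rintro ⟨i, h, -, h2⟩
          refine ⟨l[i].2, ?_⟩
          rw [← h2]
          exact List.getElem_mem h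
        · rintro ⟨b, hb⟩
          obtain ⟨i, h, h2⟩ := List.mem_iff_getElem.1 hb
          exact ⟨i, h, h, by rw [h2]⟩
      simp only [hiff]

end SCR
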