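import Pool.Agent.Lib.SCR.MA
import Pool.Agent.Lib.SCR.MB
import Pool.Agent.Lib.SCR.MC
import Pool.Agent.Lib.SCR.MD
import Pool.Agent.Lib.SCR.MG
import Pool.Agent.Lib.SCR.MH
import Pool.Agent.Lib.SCR.MI
import Pool.Agent.Lib.SCR.MJ
import Pool.Agent.Lib.SCR.MK
import Pool.Agent.Lib.SCR.C

/-!
# The machine part of Theorem H+, complete
-/

namespace SCR

theorem mainRuns (c : Stmt) (S W T : ℕ → ℕ → ℕ) (hS : SSpec c S W T) (n k : ℕ)
    (L : List (Finset (Fin n))) (hs : 1 ≤ S n L.length) : RunsCover (main c) n k L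
    (L.length + 3 + (n + 3) * (2 ^ n + 2 ^ n) + 10 + (n + 2) * (n + 2) + S n L.length + W n L.length)
    (T n L.length + 100 * (n + 1) * (L.length + 1) * (total (S n L.length) (min k n) L + 1)) :=
  MKruns setupSpec (MF (ME (pairSpec maskUnion maskTop maskLt (MB maskBit) pushSpec) codePhase))
    (scanSpec codeFull) listSpec rowC c S W T hS n k L hs

theorem mainSpec : MainSpec :=
  MK setupSpec (MF (ME (pairSpec maskUnion maskTop maskLt (MB maskBit) pushSpec) codePhase))
    (scanSpec codeFull) listSpec rowC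

end SCR
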