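import Pool.Agent.Lib.SCR.HA

/-!
# The number of states for small `k`
-/

namespace SCR

open Finset

lemma div_pow_le_choose (k : ℕ) : ∀ M : ℕ, k ≤ M → ((M : ℝ) / k) ^ k ≤ M.choose k := by
  induction k with
  | zero => intro M _; simp
  | succ k ih =>
    intro M hM
    obtain ⟨N, rfl⟩ : ∃ N, M = N + 1 := ⟨M - 1, by omega⟩
    have hkN : k ≤ N := by omega
    have h1 : ((N + 1).choose (k + 1) : ℝ) = ((N + 1 : ℝ) / (k + 1)) * N.choose k := by
      have := Nat.add_one_mul_choose_eq N k
      have h2 : ((N : ℝ) + 1) * N.choose k = (N + 1).choose (k + 1) * (k + 1) := by exact_mod_cast this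
      field_simp
      linarith
    rw [h1, pow_succ']
    push_cast
    have h3 : ((N + 1 : ℝ) / (k + 1)) ^ k ≤ N.choose k := by
      rcases Nat.eq_zero_or_pos k with rfl | hk
      · simp
      · refine le_trans ?_ (ih N hkN)
        have hk0 : (0 : ℝ) < k := by exact_mod_cast hk
        have hkN' : (k : ℝ) ≤ N := by exact_mod_cast hkN
        apply pow_le_pow_left₀ (by positivity)
        rw [div_le_div_iff₀ (by positivity) hk0]
        nlinarith
    have h4 : (0 : ℝ) ≤ (N + 1 : ℝ) / (k + 1) := by positivity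
    exact mul_le_mul_of_nonneg_left h3 h4

/-- Small `k`, few subfamilies with `k` members. -/
theorem caseK (ε : ℝ) (hε : 0 < ε) (s : ℕ) (hs : 1 ≤ s) : ∃ σ : ℝ, 0 < σ ∧ σ ≤ ε ∧ ∃ ε' : ℝ, 0 < ε' ∧
    ∀ (n k : ℕ) (L : List (Finset (Fin n))), (k : ℝ) ≤ σ * n →
    ((big s L).choose k : ℝ) ≤ 2 ^ ((2 - ε) * n) →
    (total s (min k n) L : ℝ) ≤ 5 * (n + 1) ^ 2 * 2 ^ ((1 - ε') * n) := by
  set e : ℝ := min ε 1 with he
  have he0 : 0 < e := lt_min hε one_pos
  have he1 : e ≤ 1 := min_le_right _ _
  have heε : e ≤ ε := min_le_left _ _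
  obtain ⟨ε', h1, h2, h3⟩ := total_asymp s hs (e / 8) (e / 8) (by positivity) (by linarith) (by positivity)
  refine ⟨e / 16, by positivity, by linarith, ε', h1, ?_⟩
  intro n k L hk hm
  rcases Nat.eq_zero_or_pos n with rfl | hn
  · have := total_zero (s := s) L (min_le_right k 0)
    have h : (total s (min k 0) L : ℝ) ≤ 2 := by exact_mod_cast this
    simpa using h.trans (show (2 : ℝ) ≤ 5 by norm_num)
  refine h3 n (min k n) L hn (min_le_right _ _) ?_
  have hn0 : (0 : ℝ) < n := by exact_mod_cast hn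
  set h : ℕ := ⌊(1 / 2 + e / 8) * (n : ℝ)⌋₊ with hh
  have hhle : (h : ℝ) ≤ (1 / 2 + e / 8) * n := Nat.floor_le (by positivity)
  set J : ℕ := min (h * min k n / n) (h / s) with hJ
  have hJk : (J : ℝ) ≤ (1 / 2 + e / 8) * k := by
    have a1 : (J : ℝ) ≤ ((h * min k n / n : ℕ) : ℝ) := by exact_mod_cast min_le_left _ _
    have a2 : ((h * min k n / n : ℕ) : ℝ) ≤ (h * min k n : ℕ) / n := Nat.cast_div_le
    have a3 : ((h * min k n : ℕ) : ℝ) / n ≤ (1 / 2 + e / 8) * k := by
      rw [div_le_iff₀ hn0]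
      push_cast
      calc (h : ℝ) * min (k : ℝ) n ≤ ((1 / 2 + e / 8) * n) * k := by
            gcongr
            exact min_le_left _ _
        _ = _ := by ring
    linarith
  have hgoal : (T (big s L) J : ℝ) ≤ 2 ^ ((1 - e / 8) * n) := by
    by_cases hMk : big s L ≤ k
    · refine (T_le_two_pow _ _).trans ?_
      rw [← Real.rpow_natCast]
      refine Real.rpow_le_rpow_of_exponent_le one_le_two ?_
      have : (big s L : ℝ) ≤ k := by exact_mod_cast hMk
      nlinarith
    · push Not at hMk
      rcases Nat.eq_zero_or_pos k with rfl | hk1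
      · have hJ0 : J = 0 := by
          have : (J : ℝ) ≤ 0 := by simpa using hJk
          have : J ≤ 0 := by exact_mod_cast this
          exact Nat.le_zero.mp this
        rw [hJ0]
        have : T (big s L) 0 = 1 := by simp [T]
        rw [this]
        push_cast
        exact Real.one_le_rpow one_le_two (by nlinarith)
      have hk0 : (0 : ℝ) < k := by exact_mod_cast hk1
      have hM0 : (0 : ℝ) < big s L := by
        have : 0 < big s L := by omega
        exact_mod_cast this
      have hkM : (k : ℝ) ≤ big s L := by exact_mod_cast hMk.le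
      have a1 := tSmall (big s L) J ((k : ℝ) / big s L) ((1 / 2 + e / 8) * k) (by positivity)
        ((div_le_one hM0).2 hkM) hJk
      have a2 : (k : ℝ) / big s L * big s L = k := by field_simp
      have a3 : ((k : ℝ) / big s L) ^ (-((1 / 2 + e / 8) * k)) =
          (((big s L : ℝ) / k) ^ k) ^ (1 / 2 + e / 8) := by
        rw [Real.rpow_neg (by positivity), ← Real.inv_rpow (by positivity), inv_div,
          ← Real.rpow_natCast, ← Real.rpow_mul (by positivity)]
        congr 1
        ring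
      have a4 : (((big s L : ℝ) / k) ^ k) ^ (1 / 2 + e / 8) ≤ 2 ^ (((2 - ε) * n) * (1 / 2 + e / 8)) := by
        rw [Real.rpow_mul (by norm_num)]
        refine Real.rpow_le_rpow (by positivity) ?_ (by positivity)
        exact (div_pow_le_choose k _ hMk.le).trans hm
      have a5 : Real.exp (k : ℝ) ≤ 2 ^ (e / 8 * n) := by
        have h4 : Real.exp 1 ≤ 4 := by
          have := Real.exp_one_lt_d9
          linarith
        calc Real.exp (k : ℝ) ≤ Real.exp (e / 16 * n) := Real.exp_le_exp.2 hk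
          _ = (Real.exp 1) ^ (e / 16 * n) := by rw [← Real.exp_mul, one_mul]
          _ ≤ 4 ^ (e / 16 * n) := Real.rpow_le_rpow (Real.exp_pos 1).le h4 (by positivity)
          _ = 2 ^ (e / 8 * n) := by
              rw [show (4 : ℝ) = 2 ^ (2 : ℝ) by norm_num, ← Real.rpow_mul (by norm_num)]
              congr 1
              ring
      rw [a2, a3] at a1
      calc (T (big s L) J : ℝ) ≤ Real.exp (k : ℝ) * (((big s L : ℝ) / k) ^ k) ^ (1 / 2 + e / 8) := a1
        _ ≤ 2 ^ (e / 8 * n) * 2 ^ (((2 - ε) * n) * (1 / 2 + e / 8)) := by gcongr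
        _ = 2 ^ (e / 8 * n + ((2 - ε) * n) * (1 / 2 + e / 8)) := by rw [Real.rpow_add two_pos]
        _ ≤ 2 ^ ((1 - e / 8) * n) := by
            refine Real.rpow_le_rpow_of_exponent_le one_le_two ?_
            have : (2 - ε) * (1 / 2 + e / 8) ≤ 1 - e / 4 := by nlinarith
            nlinarith
  have hP : (0 : ℝ) ≤ 2 ^ ((1 - e / 8) * n) := by positivity
  calc ((T (big s L) J : ℕ) : ℝ) ≤ 2 ^ ((1 - e / 8) * n) := hgoal
    _ ≤ (n + 1) * 2 ^ ((1 - e / 8) * n) := by nlinarith

end SCR
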