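import Pool.Agent.Lib.SCR.MK

/-!
# The combined program
-/

namespace SCR

open Op Stmt

/-- `R96 := n - q * min k n`. -/
def test (q : ℕ) : Stmt :=
  seq (block [const 90 0, load 91 90, const 92 2, load 93 92, sub 94 93 91, sub 93 93 94, const 95 0]) <|
  seq (block (List.replicate q (add 95 95 93))) <|
  block [sub 96 91 95]

/-- All registers zero again. -/
def clear : Stmt :=
  block [const 90 0, const 91 0, const 92 0, const 93 0, const 94 0, const 95 0, const 96 0]

/-- `p1` if `n ≤ q * min k n`, otherwise `p2`. -/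
def comb (q : ℕ) (p1 p2 : Stmt) : Stmt :=
  seq (test q) <| ite 96 (seq clear p2) (seq clear p1)

lemma block_replicate (w a : ℕ) : ∀ (q : ℕ) (x : Data), x.reg 93 = a → x.reg 95 + q * a < 2 ^ w →
    ((List.replicate q (add 95 95 93)).foldl (fun x o => o.run w x) x).mem = x.mem ∧
    ((List.replicate q (add 95 95 93)).foldl (fun x o => o.run w x) x).reg 95 = x.reg 95 + q * a ∧
    ∀ r, r ≠ 95 → ((List.replicate q (add 95 95 93)).foldl (fun x o => o.run w x) x).reg r = x.reg r := by
  intro q
  induction q with
  | zero => intro x _ _; simp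
  | succ q ih =>
    intro x h93 hlt
    have hlt' : x.reg 95 + a < 2 ^ w := by nlinarith
    rw [List.replicate_succ, List.foldl_cons]
    obtain ⟨i1, i2, i3⟩ := ih ((add 95 95 93).run w x) (by simp [Op.run, h93])
      (by simp only [Op.run, Function.update_self, h93, Nat.mod_eq_of_lt hlt']; nlinarith)
    refine ⟨i1.trans (by simp [Op.run]), ?_, ?_⟩
    · rw [i2]
      simp only [Op.run, Function.update_self, h93, Nat.mod_eq_of_lt hlt']
      ring
    · intro r hr
      rw [i3 r hr]
      simp [Op.run, hr]

open Classical in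
theorem comb_runs (q : ℕ) (p1 p2 : Stmt) (n k : ℕ) (L : List (Finset (Fin n))) (W T : ℕ)
    (h1 : n ≤ q * min k n → RunsCover p1 n k L W T) (h2 : q * min k n < n → RunsCover p2 n k L W T)
    (hWq : q * n + 3 ≤ W) : RunsCover (comb q p1 p2) n k L W (T + q + 20) := by
  intro w mem hW hH
  have hw0 : 0 % 2 ^ w = 0 := Nat.zero_mod _
  have hw2 : 2 % 2 ^ w = 2 := Nat.mod_eq_of_lt (by omega)
  obtain ⟨kk, hkk⟩ : ∃ kk, kk = min k n := ⟨_, rfl⟩
  rw [← hkk] at h1 h2
  have hkn : kk ≤ n := by omega
  have hqk : q * kk ≤ q * n := Nat.mul_le_mul_left _ hkn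
  unfold comb
  refine Runs.seq (T1 := q + 8) (T2 := T + 12)
    (R := fun y => y.mem = mem ∧ (∀ r, r ∉ [90, 91, 92, 93, 94, 95, 96] → y.reg r = 0) ∧
      y.reg 96 = n - q * kk) ?_ ?_ (by omega)
  · unfold test
    refine Runs.seq (T1 := 7) (T2 := q + 1)
      (R := fun y => y.mem = mem ∧ (∀ r, r ∉ [90, 91, 92, 93, 94, 95, 96] → y.reg r = 0) ∧
        y.reg 91 = n ∧ y.reg 93 = kk ∧ y.reg 95 = 0) ?_ ?_ (by omega)
    · refine Runs.block _ (by simp) ⟨by simp [Op.run], ?_, ?_⟩
      · intro r hr
        simp only [List.mem_cons, List.not_mem_nil, or_false, not_or] at hr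
        simp [Op.run, hr]
      · simp only [List.foldl, Op.run, Function.update_apply]
        simp only [Nat.reduceEqDiff, if_false, if_true, hw0, hw2, hH.zero, hH.two]
        simp
        omega
    rintro y ⟨ym, yr, y91, y93, y95⟩
    obtain ⟨i1, i2, i3⟩ := block_replicate w kk q y y93 (by rw [y95]; omega)
    refine Runs.seq (T1 := q) (T2 := 1)
      (R := fun y => y.mem = mem ∧ (∀ r, r ∉ [90, 91, 92, 93, 94, 95, 96] → y.reg r = 0) ∧
        y.reg 91 = n ∧ y.reg 95 = q * kk) ?_ ?_ (by omega)
    · refine Runs.block _ (by simp) ⟨i1.trans ym, ?_, ?_, ?_⟩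
      · intro r hr
        have := yr r hr
        simp only [List.mem_cons, List.not_mem_nil, or_false, not_or] at hr
        rw [i3 r hr.2.2.2.2.2.1, this]
      · rw [i3 91 (by decide), y91]
      · rw [i2, y95, Nat.zero_add]
    rintro z ⟨zm, zr, z91, z95⟩
    refine Runs.block _ (by simp) ⟨by simp [Op.run, zm], ?_, ?_⟩
    · intro r hr
      have := zr r hr
      simp only [List.mem_cons, List.not_mem_nil, or_false, not_or] at hr
      simp [Op.run, hr, this]
    · simp [Op.run, z91, z95]
  rintro y ⟨ym, yr, y96⟩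
  have hclear : ∀ p : Stmt, RunsCover p n k L W T → Runs w (seq clear p) y (T + 8)
      (fun y => y.reg 0 = if Coverable n k L then 1 else 0) := by
    intro p hp
    refine Runs.seq (T1 := 7) (T2 := T) (R := fun z => z = ⟨fun _ => 0, mem⟩) ?_ ?_ (by omega)
    · refine Runs.block _ (by simp) ?_
      have hreg : ([const 90 0, const 91 0, const 92 0, const 93 0, const 94 0, const 95 0,
          const 96 0].foldl (fun x o => o.run w x) y).reg = fun _ => 0 := by
        funext r
        by_cases hr : r ∈ [90, 91, 92, 93, 94, 95, 96]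
        · simp only [List.mem_cons, List.not_mem_nil, or_false] at hr
          rcases hr with rfl | rfl | rfl | rfl | rfl | rfl | rfl <;> simp [Op.run]
        · have := yr r hr
          simp only [List.mem_cons, List.not_mem_nil, or_false, not_or] at hr
          simp [Op.run, hr, this]
      have hmem : ([const 90 0, const 91 0, const 92 0, const 93 0, const 94 0, const 95 0,
          const 96 0].foldl (fun x o => o.run w x) y).mem = mem := by
        simp [Op.run, ym]
      rw [← hreg, ← hmem]
    · rintro z rfl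
      exact hp w mem hW hH
  refine Runs.ite (T1 := T + 8) ?_ ?_ (by omega)
  · intro h
    rw [y96] at h
    exact hclear p2 (h2 (by omega))
  · intro h
    rw [y96] at h
    exact hclear p1 (h1 (by omega))

end SCR
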