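import Pool.Agent.Lib.SCR.HMain
import Pool.Agent.Lib.SCR.DMain
import Pool.Agent.Lib.SCR.K1
import Pool.Agent.Lib.SCR.K2

/-!
# Set Cover below `2^n` for `k ≥ ε n` and for few subfamilies with `k` members
-/

namespace SCR

open Finset

lemma RunsCover.mono {p : Stmt} {n k : ℕ} {L : List (Finset (Fin n))} {W T W' T' : ℕ}
    (h : RunsCover p n k L W T) (hW : W ≤ W') (hT : T ≤ T') : RunsCover p n k L W' T' :=
  fun w mem hw hH => (h w mem (hW.trans hw) hH).mono hT (fun _ h => h)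

theorem dichotomy (ε : ℝ) (hε : 0 < ε) (s : ℕ) :
    ∃ (P : List Instr) (β : ℝ) (c : ℕ), β < 2 ∧ ∀ (n k : ℕ) (L : List (Finset (Fin n))),
      (ε * n ≤ k ∨
        (((L.toFinset.filter fun A => s ≤ A.card).card.choose k : ℕ) : ℝ) ≤ 2 ^ ((2 - ε) * n)) →
      ∃ T : ℕ, (T : ℝ) ≤ c * β ^ n * (n + L.length + 2) ^ c ∧
        Decides P n k L (c * 2 ^ n * (n + L.length + 2) ^ c) T := by
  obtain ⟨s', hs'⟩ : ∃ s', s' = max s 1 := ⟨_, rfl⟩
  have hs1 : 1 ≤ s' := by omega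
  obtain ⟨σ, hσ, hσε, ε₁, hε₁, hK⟩ := caseK ε hε s' hs1
  obtain ⟨q, hq⟩ := exists_nat_gt (1 / σ)
  have hq0 : (0 : ℝ) < q := lt_trans (by positivity) hq
  have hq1 : 1 ≤ q := by exact_mod_cast hq0
  have hqσ : 1 / (q : ℝ) ≤ σ := by
    rw [div_le_iff₀ hq0]
    rw [div_lt_iff₀ hσ] at hq
    linarith
  obtain ⟨ε₂, hε₂, b, hb, C, hD⟩ := caseD (1 / q) (by positivity)
  obtain ⟨e, he⟩ : ∃ e, e = min (min ε₁ ε₂) 1 := ⟨_, rfl⟩
  have he0 : 0 < e := by rw [he]; exact lt_min (lt_min hε₁ hε₂) one_pos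
  have he1 : e ≤ 1 := by rw [he]; exact min_le_right _ _
  have heε₁ : e ≤ ε₁ := by rw [he]; exact (min_le_left _ _).trans (min_le_left _ _)
  have heε₂ : e ≤ ε₂ := by rw [he]; exact (min_le_left _ _).trans (min_le_right _ _)
  obtain ⟨β, hβ⟩ : ∃ β : ℝ, β = 2 ^ (1 - e) := ⟨_, rfl⟩
  have hβ2 : β < 2 := by
    rw [hβ]
    calc (2 : ℝ) ^ (1 - e) < 2 ^ (1 : ℝ) := Real.rpow_lt_rpow_of_exponent_lt one_lt_two (by linarith)
      _ = 2 := Real.rpow_one 2
  have hβn : ∀ n : ℕ, β ^ n = 2 ^ ((1 - e) * n) := by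
    intro n
    rw [hβ, ← Real.rpow_natCast, ← Real.rpow_mul two_pos.le]
  have hβ1 : 1 ≤ β := by
    rw [hβ]; exact Real.one_le_rpow one_le_two (by linarith)
  -- constants
  obtain ⟨K, hKdef⟩ : ∃ K, K = 1000 * (b + 1) * (2 * C + 1) + 1000 := ⟨_, rfl⟩
  obtain ⟨c, hc⟩ : ∃ c, c = K + q + 20 + (b + 4) + (250 + 10 * b + 2 * s' + q) := ⟨_, rfl⟩
  refine ⟨(comb q (mainD b) (main (constS s'))).compile 0, β, c, hβ2, ?_⟩
  intro n k L hyp
  obtain ⟨N, hN⟩ : ∃ N, N = n + L.length + 2 := ⟨_, rfl⟩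
  have hNcast : ((n : ℝ) + L.length + 2) = (N : ℝ) := by rw [hN]; push_cast; ring
  have hN1 : 1 ≤ N := by omega
  have hN1' : (1 : ℝ) ≤ N := by exact_mod_cast hN1
  rw [hNcast, ← hN]
  have hβn1 : 1 ≤ β ^ n := one_le_pow₀ hβ1
  obtain ⟨T0, hT0⟩ : ∃ T0, T0 = ⌊(K : ℝ) * β ^ n * N ^ (b + 4)⌋₊ := ⟨_, rfl⟩
  have hT0le : (T0 : ℝ) ≤ K * β ^ n * N ^ (b + 4) := by
    rw [hT0]; exact Nat.floor_le (by positivity)
  have hT0of : ∀ t : ℕ, (t : ℝ) ≤ K * β ^ n * N ^ (b + 4) → t ≤ T0 := by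
    intro t ht
    rw [hT0]; exact Nat.le_floor ht
  -- the words
  obtain ⟨W, hW⟩ : ∃ W, W = c * 2 ^ n * N ^ c := ⟨_, rfl⟩
  rw [← hW]
  have hWof : ∀ t : ℕ, t ≤ (250 + 10 * b + 2 * s' + q) * (2 ^ n * N ^ 2) → t ≤ W := by
    intro t ht
    refine ht.trans ?_
    rw [hW, mul_assoc]
    exact Nat.mul_le_mul (by omega) (Nat.mul_le_mul_left _ (Nat.pow_le_pow_right hN1 (by omega)))
  have h2n : 1 ≤ 2 ^ n := Nat.one_le_two_pow
  have hNN : N ≤ N ^ 2 := by nlinarith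
  have hX1 : N ≤ 2 ^ n * N ^ 2 := hNN.trans (Nat.le_mul_of_pos_left _ h2n)
  have hX2 : 2 ^ n * N ≤ 2 ^ n * N ^ 2 := Nat.mul_le_mul_left _ hNN
  have hX3 : N ^ 2 ≤ 2 ^ n * N ^ 2 := Nat.le_mul_of_pos_left _ h2n
  have hX0 : 1 ≤ 2 ^ n * N ^ 2 := hN1.trans hX1
  obtain ⟨X, hX⟩ : ∃ X, X = 2 ^ n * N ^ 2 := ⟨_, rfl⟩
  rw [← hX] at hX0 hX1 hX2 hX3 hWof
  have hmN : L.length ≤ N := by omega
  have hnN : n + 1 ≤ N := by omega
  have hn2 : 2 ^ n * (n + 1) ≤ X := (Nat.mul_le_mul_left _ hnN).trans hX2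
  have hnn : (n + 1) * (n + 1) ≤ X := by
    refine le_trans ?_ hX3
    rw [pow_two]
    exact Nat.mul_le_mul hnN hnN
  have hWD : L.length + 100 + (n + 8) * (2 ^ n + 2 ^ n) + (n + 10) * (n + 10) + 10 * b ≤ W := by
    apply hWof
    have a1 : (n + 8) * (2 ^ n + 2 ^ n) ≤ 16 * (2 ^ n * (n + 1)) := by nlinarith
    have a2 : (n + 10) * (n + 10) ≤ 100 * ((n + 1) * (n + 1)) := by nlinarith
    have a3 : 10 * b ≤ 10 * b * X := Nat.le_mul_of_pos_right _ hX0
    have a4 : (250 + 10 * b + 2 * s' + q) * X = 250 * X + 10 * b * X + 2 * s' * X + q * X := by ring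
    rw [a4]
    omega
  have hWH : L.length + 3 + (n + 3) * (2 ^ n + 2 ^ n) + 10 + (n + 2) * (n + 2) + s' + (s' + 1) ≤ W := by
    apply hWof
    have a1 : (n + 3) * (2 ^ n + 2 ^ n) ≤ 6 * (2 ^ n * (n + 1)) := by nlinarith
    have a2 : (n + 2) * (n + 2) ≤ 4 * ((n + 1) * (n + 1)) := by nlinarith
    have a3 : 2 * s' ≤ 2 * s' * X := Nat.le_mul_of_pos_right _ hX0
    have a4 : (250 + 10 * b + 2 * s' + q) * X = 250 * X + 10 * b * X + 2 * s' * X + q * X := by ring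
    rw [a4]
    omega
  have hWq : q * n + 3 ≤ W := by
    apply hWof
    have a1 : q * n ≤ q * X := Nat.mul_le_mul_left _ (by omega)
    have a4 : (250 + 10 * b + 2 * s' + q) * X = 250 * X + 10 * b * X + 2 * s' * X + q * X := by ring
    rw [a4]
    omega
  -- the time
  have hmR : ((L.length : ℝ) + 1) ≤ N := by
    have : L.length + 1 ≤ N := by omega
    exact_mod_cast this
  have hnR : ((n : ℝ) + 1) ≤ N := by
    exact_mod_cast hnN
  have hrun : RunsCover (comb q (mainD b) (main (constS s'))) n k L W (T0 + q + 20) := by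
    apply comb_runs q _ _ n k L W T0 ?_ ?_ hWq
    · intro hqk
      refine (mainDRuns b n k L hb).mono hWD (hT0of _ ?_)
      have hσk : 1 / (q : ℝ) * n ≤ (min k n : ℕ) := by
        rw [div_mul_eq_mul_div, one_mul, div_le_iff₀ hq0]
        have : (n : ℝ) ≤ q * (min k n : ℕ) := by exact_mod_cast hqk
        linarith
      obtain ⟨h1, h2⟩ := hD n (min k n) hσk (min_le_right _ _)
      have h3 : (2 : ℝ) ^ ((1 - ε₂) * n) ≤ β ^ n := by
        rw [hβn]
        refine Real.rpow_le_rpow_of_exponent_le one_le_two ?_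
        have : (0 : ℝ) ≤ n := Nat.cast_nonneg n
        nlinarith
      have h4 : (T n (max (n / 2 - n / b) (3 * (n / b))) : ℝ) +
          (T n (n / 2 - min k n / 4 + b) : ℝ) * (T n (3 * (n / b)) : ℝ) + 1 ≤ (2 * C + 1) * β ^ n := by
        have : (C : ℝ) * 2 ^ ((1 - ε₂) * n) ≤ C * β ^ n := by gcongr
        nlinarith
      push_cast
      calc (1000 : ℝ) * (b + 1) * (n + 1) ^ 3 * (L.length + 1) ^ (b + 1) *
          ((T n (max (n / 2 - n / b) (3 * (n / b))) : ℝ) +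
          (T n (n / 2 - min k n / 4 + b) : ℝ) * (T n (3 * (n / b)) : ℝ) + 1)
          ≤ 1000 * (b + 1) * (N : ℝ) ^ 3 * (N : ℝ) ^ (b + 1) * ((2 * C + 1) * β ^ n) := by
            gcongr
        _ = (1000 * (b + 1) * (2 * C + 1)) * β ^ n * (N : ℝ) ^ (b + 4) := by ring
        _ ≤ K * β ^ n * N ^ (b + 4) := by
            have : (1000 * (b + 1) * (2 * C + 1) : ℝ) ≤ K := by
              rw [hKdef]; push_cast; linarith
            gcongr
    · intro hqk
      have hkn : min k n = k := by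
        have h1 : 1 * min k n ≤ q * min k n := Nat.mul_le_mul_right _ hq1
        omega
      rw [hkn] at hqk
      have hqkR : (q : ℝ) * k < n := by exact_mod_cast hqk
      have hn0 : (0 : ℝ) < n := lt_of_le_of_lt (by positivity) hqkR
      have hkσ : (k : ℝ) < σ * n := by
        have : (k : ℝ) < 1 / q * n := by
          rw [div_mul_eq_mul_div, one_mul, lt_div_iff₀ hq0]
          linarith
        exact lt_of_lt_of_le this (mul_le_mul_of_nonneg_right hqσ hn0.le)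
      have hchoose : ((big s' L).choose k : ℝ) ≤ 2 ^ ((2 - ε) * n) := by
        rcases hyp with h | h
        · exfalso
          have : σ * n ≤ ε * n := mul_le_mul_of_nonneg_right hσε hn0.le
          linarith
        · refine le_trans ?_ h
          have hle : big s' L ≤ (L.toFinset.filter fun A => s ≤ A.card).card := by
            refine card_le_card ?_
            intro A hA
            rw [mem_filter] at hA ⊢
            exact ⟨hA.1, by omega⟩
          exact_mod_cast Nat.choose_le_choose k hle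
      have h1 := hK n k L hkσ.le hchoose
      have hS := mainRuns (constS s') _ _ _ (constSpec s') n k L hs1
      refine hS.mono (by simpa using hWH) (hT0of _ ?_)
      have h3 : (2 : ℝ) ^ ((1 - ε₁) * n) ≤ β ^ n := by
        rw [hβn]
        refine Real.rpow_le_rpow_of_exponent_le one_le_two ?_
        nlinarith
      have h4 : (total s' (min k n) L : ℝ) + 1 ≤ 6 * (N : ℝ) ^ 2 * β ^ n := by
        have h5 : (5 : ℝ) * (n + 1) ^ 2 * 2 ^ ((1 - ε₁) * n) ≤ 5 * (N : ℝ) ^ 2 * β ^ n := by gcongr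
        have h6 : (1 : ℝ) ≤ (N : ℝ) ^ 2 * β ^ n := by
          calc (1 : ℝ) = 1 ^ 2 * 1 := by ring
            _ ≤ (N : ℝ) ^ 2 * β ^ n := by gcongr
        linarith
      push_cast
      have hb4 : (N : ℝ) ^ 4 ≤ (N : ℝ) ^ (b + 4) := pow_le_pow_right₀ hN1' (by omega)
      have hone : (1 : ℝ) ≤ β ^ n * (N : ℝ) ^ 4 := by
        calc (1 : ℝ) = 1 * 1 ^ 4 := by ring
          _ ≤ β ^ n * (N : ℝ) ^ 4 := by gcongr
      calc (1 : ℝ) + 100 * (n + 1) * (L.length + 1) * ((total s' (min k n) L : ℝ) + 1)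
          ≤ 1 * (β ^ n * (N : ℝ) ^ 4) + 100 * N * N * (6 * (N : ℝ) ^ 2 * β ^ n) := by
            gcongr
            linarith
        _ = 601 * β ^ n * (N : ℝ) ^ 4 := by ring
        _ ≤ K * β ^ n * N ^ (b + 4) := by
            have : (601 : ℝ) ≤ K := by
              rw [hKdef]; push_cast
              have : (0 : ℝ) ≤ 1000 * (b + 1) * (2 * C + 1) := by positivity
              linarith
            gcongr
  refine ⟨T0 + q + 20, ?_, hrun.decides⟩
  push_cast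
  have hP1 : (1 : ℝ) ≤ β ^ n * (N : ℝ) ^ (b + 4) := by
    calc (1 : ℝ) = 1 * 1 ^ (b + 4) := by ring
      _ ≤ β ^ n * (N : ℝ) ^ (b + 4) := by gcongr
  have hbc : (N : ℝ) ^ (b + 4) ≤ (N : ℝ) ^ c := pow_le_pow_right₀ hN1' (by omega)
  have hKc : (K : ℝ) + q + 20 ≤ c := by
    have : K + q + 20 ≤ c := by omega
    exact_mod_cast this
  calc (T0 : ℝ) + q + 20 ≤ K * β ^ n * N ^ (b + 4) + (q + 20) * (β ^ n * (N : ℝ) ^ (b + 4)) := by
        have : (q + 20 : ℝ) * 1 ≤ (q + 20) * (β ^ n * (N : ℝ) ^ (b + 4)) := by gcongr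
        linarith
    _ = (K + q + 20) * β ^ n * N ^ (b + 4) := by ring
    _ ≤ c * β ^ n * N ^ c := by gcongr

end SCR
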