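import Pool.Agent.Lib.SCR.ME

/-!
# One round
-/

namespace SCR

open Op Stmt

lemma fold_setsL_prefix {n : ℕ} (s k j hi : ℕ) (L : List (Finset (Fin n))) (zs : List (St n)) :
    ∀ l : List (St n), l <+: zs.foldl (fun l z => setsL s k j hi z L l) l := by
  induction zs with
  | nil => intro l; exact List.prefix_rfl
  | cons A zs ih =>
    intro l
    exact (setsL_prefix s k j hi A L l).trans (ih _)

lemma entriesL_prefix {n : ℕ} (s k j hi : ℕ) (L : List (Finset (Fin n))) (zs l : List (St n)) :
    l <+: entriesL s k j hi L zs l := fold_setsL_prefix s k j hi L zs l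

theorem MF (hEn : EntrySpec) : RoundSpec := by
  intro w n k s j lo hi L l x hE hF h8 h9 hhi h10 h12 h32 hjk hlh hhb hword hlist
  have hspace := hF.space
  have hsq := hF.sq
  have hkn := hF.k
  have hpow : 0 < 2 ^ n := by positivity
  have hT0 : Tab w (L.length + 3) (L.length + 3 + 2 ^ n + 2 ^ n) hi l x.mem := by
    refine ⟨hword, hlist, fun p h1 h2 => absurd h1 (by omega), ?_⟩
    rw [hhi, List.drop_length]
    exact List.nodup_nil
  have hjn : j * n + n < 2 ^ w := by nlinarith
  unfold round
  refine Runs.seq (T1 := 3) (T2 := ((13 * n + 52) * L.length + 11) * (hi - lo) + 4)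
    (R := fun y => y.mem = x.mem ∧ (∀ r, r ∉ [12, 13, 34] → y.reg r = x.reg r) ∧
      y.reg 12 = (j + 1) * n ∧ y.reg 13 = lo ∧ y.reg 34 = hi - lo) ?_ ?_ (by omega)
  · refine Runs.block _ (by simp) ⟨by simp [Op.run], ?_, ?_⟩
    · intro r hr
      simp only [List.mem_cons, List.not_mem_nil, or_false, not_or] at hr
      simp [Op.run, hr]
    · simp only [List.foldl, Op.run, Function.update_apply]
      simp only [h8, h9, h12, hE.r1]
      simp only [Nat.reduceEqDiff, if_false, if_true, Nat.mod_eq_of_lt hjn, Nat.or_self, and_true]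
      ring
  rintro y ⟨ym, yr, y12, y13, y34⟩
  have hE' : Env k s L y := by
    refine hE.congr (fun r hr => yr r ?_) (fun a _ => by rw [ym])
    simp only [List.mem_cons, List.not_mem_nil, or_false] at hr
    rcases hr with rfl | rfl | rfl | rfl | rfl | rfl | rfl | rfl | rfl <;> decide
  refine Runs.seq (T1 := ((13 * n + 52) * L.length + 11) * (hi - lo) + 1) (T2 := 3)
    (R := fun v => Env k s L v ∧
      (∀ r, r ∉ [10, 12, 13, 14, 15, 16, 17, 18, 19, 20, 21, 22, 23, 24, 25, 26, 27, 28, 29, 30, 31, 33, 34] →
        v.reg r = x.reg r) ∧ v.reg 12 = (j + 1) * n ∧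
      v.reg 10 = (entriesL s k j hi L (l.drop lo) l).length ∧
      Tab w (L.length + 3) (L.length + 3 + 2 ^ n + 2 ^ n) hi (entriesL s k j hi L (l.drop lo) l) v.mem)
      ?_ ?_ (by omega)
  · refine Runs.loop (hi - lo) ((13 * n + 52) * L.length + 9) (fun t v => Env k s L v ∧
      (∀ r, r ∉ [10, 12, 13, 14, 15, 16, 17, 18, 19, 20, 21, 22, 23, 24, 25, 26, 27, 28, 29, 30, 31, 33, 34] →
        v.reg r = x.reg r) ∧ v.reg 12 = (j + 1) * n ∧ v.reg 13 = lo + t ∧ v.reg 34 = hi - (lo + t) ∧
      v.reg 10 = (((l.drop lo).take t).foldl (fun l z => setsL s k j hi z L l) l).length ∧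
      Tab w (L.length + 3) (L.length + 3 + 2 ^ n + 2 ^ n) hi
        (((l.drop lo).take t).foldl (fun l z => setsL s k j hi z L l) l) v.mem) ?_ ?_ ?_ ?_ ?_ ?_
    · refine ⟨hE', ?_, y12, by omega, by omega, ?_, ?_⟩
      · intro r hr
        apply yr
        simp only [List.mem_cons, List.not_mem_nil, or_false, not_or] at hr ⊢
        tauto
      · rw [List.take_zero, List.foldl_nil, yr 10 (by decide), h10]
      · rw [List.take_zero, List.foldl_nil, ym]
        exact hT0
    · rintro t ht v ⟨_, _, _, _, h, _⟩
      omega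
    · rintro v ⟨_, _, _, _, h, _⟩
      omega
    · rintro t ht v ⟨vE, vr, v12, v13, v34, v10, vT⟩
      have hpre : l <+: (((l.drop lo).take t).foldl (fun l z => setsL s k j hi z L l) l) :=
        fold_setsL_prefix s k j hi L ((l.drop lo).take t) l
      have hlen : hi ≤ (((l.drop lo).take t).foldl (fun l z => setsL s k j hi z L l) l).length :=
        hhi.le.trans hpre.length_le
      have htl : t < (l.drop lo).length := by
        rw [List.length_drop]
        omega
      have hget : (((l.drop lo).take t).foldl (fun l z => setsL s k j hi z L l) l)[lo + t]'(by omega)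
          = (l.drop lo)[t] := by
        rw [List.getElem_drop]
        exact (hpre.getElem (by omega)).symm
      refine (hEn w n k s j lo hi (lo + t) L _ v vE hF (by rw [vr 9 (by decide), h9]) v10
        v12 v13 v34 (by omega) (by omega) hlen hhb vT).mono le_rfl ?_
      rintro u ⟨uE, ur, u13, u34, u10, uT⟩
      rw [hget] at u10 uT
      rw [← foldl_take_succ (fun l z => setsL s k j hi z L l) l (l.drop lo) t htl] at u10 uT
      refine ⟨uE, ?_, by rw [ur 12 (by decide), v12], by rw [u13]; ring, by rw [u34]; congr 1, u10, uT⟩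
      intro r hr
      rw [ur r, vr r hr]
      simp only [List.mem_cons, List.not_mem_nil, or_false, not_or] at hr ⊢
      tauto
    · apply le_of_eq
      ring
    · rintro v ⟨vE, vr, v12, v13, v34, v10, vT⟩
      rw [List.take_of_length_le (by rw [List.length_drop]; omega)] at v10 vT
      exact ⟨vE, vr, v12, v10, vT⟩
  rintro v ⟨vE, vr, v12, v10, vT⟩
  have v9 : v.reg 9 = hi := by rw [vr 9 (by decide), h9]
  have v32 : v.reg 32 = k - j := by rw [vr 32 (by decide), h32]
  refine Runs.block _ (by simp) ⟨?_, ?_, ?_, ?_, ?_, ?_, ?_, ?_, ?_⟩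
  · refine vE.congr (fun r hr => ?_) (fun a _ => by simp [Op.run])
    simp only [List.mem_cons, List.not_mem_nil, or_false] at hr
    simp only [List.foldl, Op.run, Function.update_apply]
    rcases hr with rfl | rfl | rfl | rfl | rfl | rfl | rfl | rfl | rfl <;> simp
  · simp only [List.foldl, Op.run, Function.update_apply]
    simp [v9]
  · simp only [List.foldl, Op.run, Function.update_apply]
    simp [v10]
  · simp only [List.foldl, Op.run, Function.update_apply]
    simp [v10]
  · simp only [List.foldl, Op.run, Function.update_apply]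
    simp [v12]
  · simp only [List.foldl, Op.run, Function.update_apply]
    simp only [v32, vE.r40]
    simp only [Nat.reduceEqDiff, if_false, if_true]
    omega
  · simp only [List.foldl, Op.run]
    exact vT.word
  · simp only [List.foldl, Op.run]
    exact vT.list
  · exact vT.nodup

end SCR
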