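import Mathlib

/-!
# The word RAM

Registers `R_0, R_1, …` (a program names finitely many of them) and a memory, both holding words of `w` bits.
-/

namespace SCR

/-- The contents of the registers and of the memory. -/
structure Data where
  reg : ℕ → ℕ
  mem : ℕ → ℕ

/-- The operations (all on words of `w` bits). -/
inductive Op where
  | const (d c : ℕ)     -- `R_d := c` (mod `2^w`)
  | add (d a b : ℕ)     -- `R_d := R_a + R_b` (mod `2^w`)
  | sub (d a b : ℕ)     -- `R_d := R_a - R_b`, and `0` if `R_a < R_b`
  | and (d a b : ℕ)     -- `R_d :=` bitwise and of `R_a`, `R_b`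
  | or (d a b : ℕ)      -- `R_d :=` bitwise or of `R_a`, `R_b`
  | load (d a : ℕ)      -- `R_d := M[R_a]`
  | store (a b : ℕ)     -- `M[R_a] := R_b`

/-- The effect of an operation. -/
def Op.run (w : ℕ) : Op → Data → Data
  | .const d c, x => ⟨Function.update x.reg d (c % 2 ^ w), x.mem⟩
  | .add d a b, x => ⟨Function.update x.reg d ((x.reg a + x.reg b) % 2 ^ w), x.mem⟩
  | .sub d a b, x => ⟨Function.update x.reg d (x.reg a - x.reg b), x.mem⟩
  | .and d a b, x => ⟨Function.update x.reg d (x.reg a &&& x.reg b), x.mem⟩
  | .or d a b, x => ⟨Function.update x.reg d (x.reg a ||| x.reg b), x.mem⟩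
  | .load d a, x => ⟨Function.update x.reg d (x.mem (x.reg a)), x.mem⟩
  | .store a b, x => ⟨x.reg, Function.update x.mem (x.reg a) (x.reg b)⟩

/-- The instructions: an operation, a conditional jump, a jump. -/
inductive Instr where
  | op (o : Op)
  | jz (a t : ℕ)        -- if `R_a = 0` go to instruction `t`
  | jmp (t : ℕ)         -- go to instruction `t`

/-- One step of the program `P`; a state is the number of the next instruction together with the data;
the machine has halted if there is no instruction with this number. -/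
def step (w : ℕ) (P : List Instr) (x : ℕ × Data) : ℕ × Data :=
  match P[x.1]? with
  | none => x
  | some (.op o) => (x.1 + 1, o.run w x.2)
  | some (.jz a t) => (if x.2.reg a = 0 then t else x.1 + 1, x.2)
  | some (.jmp t) => (t, x.2)

/-- The program `P` on a machine with words of `w` bits, started with all registers `0` and with memory
contents `mem`, halts after at most `T` steps and then `R_0 = out`. -/
def Outputs (w : ℕ) (P : List Instr) (mem : ℕ → ℕ) (T out : ℕ) : Prop :=
  ∃ t ≤ T, P.length ≤ ((step w P)^[t] (0, ⟨fun _ => 0, mem⟩)).1 ∧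
    ((step w P)^[t] (0, ⟨fun _ => 0, mem⟩)).2.reg 0 = out

/-- The word of a subset of `{0, …, n-1}`: bit `i` is set iff `i ∈ A`. -/
def mask {n : ℕ} (A : Finset (Fin n)) : ℕ := ∑ i ∈ A, 2 ^ (i : ℕ)

/-- The memory `mem` holds words of `w` bits and begins with the instance `(n, L, k)`:
`M[0] = n`, `M[1] = |L|`, `M[2] = k`, `M[3 + i]` is the word of the set number `i`.
All other cells may contain anything. -/
structure Holds (w n k : ℕ) (L : List (Finset (Fin n))) (mem : ℕ → ℕ) : Prop where
  word : ∀ a, mem a < 2 ^ w
  zero : mem 0 = n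
  one : mem 1 = L.length
  two : mem 2 = k
  set : ∀ i (h : i < L.length), mem (3 + i) = mask L[i]

/-- `U = {0, …, n-1}` is the union of at most `k` members of `L`. -/
def Coverable (n k : ℕ) (L : List (Finset (Fin n))) : Prop :=
  ∃ C : Finset (Finset (Fin n)), (∀ A ∈ C, A ∈ L) ∧ C.card ≤ k ∧ ∀ x : Fin n, ∃ A ∈ C, x ∈ A

open Classical in
/-- The program `P` decides the instance `(n, L, k)` in at most `T` steps, for every word length `w`
with `2^w ≥ W` and for every contents of the rest of the memory. -/
def Decides (P : List Instr) (n k : ℕ) (L : List (Finset (Fin n))) (W T : ℕ) : Prop :=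
  ∀ (w : ℕ) (mem : ℕ → ℕ), W ≤ 2 ^ w → Holds w n k L mem →
    Outputs w P mem T (if Coverable n k L then 1 else 0)

/-- The set of states of round `j` of the search: `x` is the largest element outside `Y` and `x ∈ A`. -/
def HitsTop {n : ℕ} (Y A : Finset (Fin n)) : Prop :=
  ∃ x ∈ A, x ∉ Y ∧ ∀ y, x < y → y ∈ Y

/-- The states of the dynamic program after `j` rounds. -/
inductive Reach {n : ℕ} (s k : ℕ) (L : List (Finset (Fin n))) : ℕ → Finset (Fin n) → Bool → Prop
  | start : Reach s k L 0 ∅ false
  | big {j : ℕ} {Y A : Finset (Fin n)} : Reach s k L j Y false → A ∈ L → s ≤ (A \ Y).card →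
      (j + 1) * n ≤ (Y ∪ A).card * k → Reach s k L (j + 1) (Y ∪ A) false
  | small {j : ℕ} {Y A : Finset (Fin n)} {b : Bool} : Reach s k L j Y b → A ∈ L → (A \ Y).card < s →
      HitsTop Y A → Reach s k L (j + 1) (Y ∪ A) true

end SCR
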