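import Pool.Agent.Lib.SCR.Lang

/-!
# The program of the dynamic program

Registers: 0 output, 1 `n`, 2 number `m` of sets, 3 `k` (at most `n`), 4 `2^n`, 5 `2^n - 1`, 6 address of the table,
7 address of the list, 8 start of the segment of this round, 9 end of it, 10 length of the list, 11 `s`,
12 `(j+1) n`, 13 index of the state, 14 sets left, 15 code of the state, 16 `Y`, 17 `A`, 18 `X = Y ∪ A`,
19 `|X|`, 20 `|Y|`, 21 `|X| k`, 22 bit, 23 counter, 24 phase word, 25 code to be inserted, 26–31 temporary,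
32 rounds left, 33 address of the set, 34 states left, 40 the constant `1`.
-/

namespace SCR

open Op Stmt

/-- `R19 := |X|`, `R20 := |Y|`, `R21 := |X| * k`. -/
def countBody : Stmt :=
  seq (block [and 26 18 22]) <|
  seq (ite 26 (block [add 19 19 40, add 21 21 3]) skip) <|
  seq (block [and 26 16 22]) <|
  seq (ite 26 (block [add 20 20 40]) skip) <|
  block [add 22 22 22, sub 23 23 40]

def count : Stmt :=
  seq (block [const 19 0, const 20 0, const 21 0, const 22 1, or 23 1 1]) <|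
  loop 23 countBody

/-- Insert the code in `R25` into the segment `[R9, R10)` of the list unless it is there. -/
def push : Stmt :=
  seq (block [add 26 6 25, load 27 26, sub 28 10 27, sub 29 9 27, const 30 1]) <|
  seq (ite 28 (ite 29 skip
    (seq (block [add 31 7 27, load 31 31, sub 28 31 25, sub 29 25 31, add 28 28 29]) <|
     ite 28 skip (block [const 30 0]))) skip) <|
  ite 30 (block [add 31 7 10, store 31 25, store 26 10, add 10 10 40]) skip

/-- One state and one set. -/
def pair : Stmt :=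
  seq (block [load 17 33, or 18 16 17]) <|
  seq count <|
  seq (block [sub 27 19 20, sub 28 11 27]) <|
  seq (ite 28
    (seq (block [sub 29 5 18, add 29 29 29, sub 30 5 16, sub 29 30 29]) <|
      ite 29 (seq (block [add 25 18 4]) push) skip)
    (ite 24 skip
      (seq (block [sub 29 12 21]) <| ite 29 skip (seq (block [or 25 18 18]) push)))) <|
  block [add 33 33 40, sub 14 14 40]

/-- One state and all sets. -/
def entry : Stmt :=
  seq (block [add 26 7 13, load 15 26, and 24 15 4, sub 16 15 24, const 33 3, or 14 2 2]) <|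
  seq (loop 14 pair) <|
  block [add 13 13 40, sub 34 34 40]

/-- One round. -/
def round : Stmt :=
  seq (block [add 12 12 1, or 13 8 8, sub 34 9 8]) <|
  seq (loop 34 entry) <|
  block [or 8 9 9, or 9 10 10, sub 32 32 40]

def rounds : Stmt :=
  seq (block [or 32 3 3]) (loop 32 round)

def setup : Stmt :=
  seq (block [const 40 1, const 26 0, load 1 26, load 2 40, const 26 2, load 3 26, sub 26 3 1, sub 3 3 26,
    const 4 1, or 23 1 1]) <|
  seq (loop 23 (block [add 4 4 4, sub 23 23 40])) <|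
  block [sub 5 4 40, const 26 3, add 6 2 26, add 7 6 4, add 7 7 4, const 8 0, const 9 1, const 10 1,
    const 12 0, store 7 8]

/-- `R11 := s`. -/
def constS (s : ℕ) : Stmt := block [const 11 s]

/-- `R11 := C +` the least `i` with `m ≤ 2^i (n + 1)`. -/
def logS (C : ℕ) : Stmt :=
  seq (block [const 11 C, add 26 1 40, or 14 2 2]) <|
  loop 14 (seq (block [sub 27 2 26]) <|
    seq (ite 27 (block [add 26 26 26, add 11 11 40]) skip) <| block [sub 14 14 40])

/-- `R0 := 1` if the list contains the code of a state `(U, b)`, else `0`. -/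
def scan : Stmt :=
  seq (block [or 26 7 7, or 27 10 10, const 0 0]) <|
  loop 27 (seq (block [load 28 26, and 28 28 5, sub 28 5 28]) <|
    seq (ite 28 skip (block [const 0 1])) <| block [add 26 26 40, sub 27 27 40])

/-- The whole program; `c` computes `s`. -/
def main (c : Stmt) : Stmt := seq setup (seq c (seq rounds scan))

/-! ### The lists -/

/-- States: covered set, phase. -/
abbrev St (n : ℕ) := Finset (Fin n) × Bool

/-- The word of a state. -/
def code {n : ℕ} (z : St n) : ℕ := mask z.1 + if z.2 then 2 ^ n else 0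

open Classical in
/-- The state reached from `z` by `A` in round `j` (from round `j` to round `j + 1`), if any. -/
noncomputable def move {n : ℕ} (s k j : ℕ) (z : St n) (A : Finset (Fin n)) : Option (St n) :=
  if (A \ z.1).card < s then (if HitsTop z.1 A then some (z.1 ∪ A, true) else none)
  else if z.2 = false ∧ (j + 1) * n ≤ (z.1 ∪ A).card * k then some (z.1 ∪ A, false) else none

/-- Insert `o` into the segment of `l` which starts at `hi`. -/
def ins {n : ℕ} (hi : ℕ) (l : List (St n)) : Option (St n) → List (St n)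
  | none => l
  | some c => if c ∈ l.drop hi then l else l ++ [c]

/-- One state, all sets. -/
noncomputable def setsL {n : ℕ} (s k j hi : ℕ) (z : St n) (L : List (Finset (Fin n))) (l : List (St n)) :
    List (St n) := L.foldl (fun l A => ins hi l (move s k j z A)) l

/-- Many states, all sets. -/
noncomputable def entriesL {n : ℕ} (s k j hi : ℕ) (L : List (Finset (Fin n))) (zs l : List (St n)) :
    List (St n) := zs.foldl (fun l z => setsL s k j hi z L l) l

/-- The list after `j` rounds, with the start of its last segment. -/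
noncomputable def listL {n : ℕ} (s k : ℕ) (L : List (Finset (Fin n))) : ℕ → ℕ × List (St n)
  | 0 => (0, [(∅, false)])
  | j + 1 => ((listL s k L j).2.length,
      entriesL s k j (listL s k L j).2.length L ((listL s k L j).2.drop (listL s k L j).1) (listL s k L j).2)

/-! ### The invariants of the machine -/

/-- The registers which stay fixed, and the input. -/
structure Env {n : ℕ} (k s : ℕ) (L : List (Finset (Fin n))) (x : Data) : Prop where
  r1 : x.reg 1 = n
  r2 : x.reg 2 = L.length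
  r3 : x.reg 3 = k
  r4 : x.reg 4 = 2 ^ n
  r5 : x.reg 5 = 2 ^ n - 1
  r6 : x.reg 6 = L.length + 3
  r7 : x.reg 7 = L.length + 3 + 2 ^ n + 2 ^ n
  r11 : x.reg 11 = s
  r40 : x.reg 40 = 1
  set : ∀ i (h : i < L.length), x.mem (3 + i) = mask L[i]

/-- The memory holds the list `l` at `bL` and, for the segment from `hi` on, the back pointers at `bT`. -/
structure Tab {n : ℕ} (w bT bL hi : ℕ) (l : List (St n)) (mem : ℕ → ℕ) : Prop where
  word : ∀ a, mem a < 2 ^ w
  list : ∀ p (h : p < l.length), mem (bL + p) = code l[p]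
  back : ∀ p (h : p < l.length), hi ≤ p → mem (bT + code l[p]) = p
  nodup : (l.drop hi).Nodup

/-- The numbers that occur are words. -/
structure Fits (w n m k s : ℕ) : Prop where
  space : m + 3 + (n + 3) * (2 ^ n + 2 ^ n) + 10 ≤ 2 ^ w
  sq : (n + 2) * (n + 2) < 2 ^ w
  k : k ≤ n
  s : s < 2 ^ w

/-! ### Rows -/

/-- MA -/
def MaskUnion : Prop := ∀ (n : ℕ) (A B : Finset (Fin n)), mask A ||| mask B = mask (A ∪ B)

def MaskBit : Prop := ∀ (n : ℕ) (A : Finset (Fin n)) (i : Fin n), (mask A &&& 2 ^ (i : ℕ) ≠ 0 ↔ i ∈ A)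

def MaskLt : Prop := ∀ (n : ℕ) (A : Finset (Fin n)), mask A < 2 ^ n

def MaskTop : Prop := ∀ (n : ℕ) (Y A : Finset (Fin n)),
  ((2 ^ n - 1 - mask Y) - ((2 ^ n - 1 - mask (Y ∪ A)) + (2 ^ n - 1 - mask (Y ∪ A))) ≠ 0 ↔ HitsTop Y A)

def CodeInj : Prop := ∀ (n : ℕ), Function.Injective (code (n := n))

def CodeLt : Prop := ∀ (n : ℕ) (z : St n), code z < 2 ^ n + 2 ^ n

def CodePhase : Prop := ∀ (n : ℕ) (z : St n), code z &&& 2 ^ n = if z.2 then 2 ^ n else 0

def CodeFull : Prop := ∀ (n : ℕ) (z : St n), ((2 ^ n - 1) - (code z &&& (2 ^ n - 1)) = 0 ↔ z.1 = Finset.univ)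

/-- MB: the counting loop -/
def CountSpec : Prop := ∀ (w n k : ℕ) (X Y : Finset (Fin n)) (x : Data), x.reg 1 = n → x.reg 3 = k →
  x.reg 16 = mask Y → x.reg 18 = mask X → x.reg 40 = 1 → k ≤ n → (n + 2) * (n + 2) < 2 ^ w → 2 ^ n < 2 ^ w →
  Runs w count x (13 * n + 6) (fun y => y.mem = x.mem ∧
    (∀ r, r ∉ [19, 20, 21, 22, 23, 26] → y.reg r = x.reg r) ∧
    y.reg 19 = X.card ∧ y.reg 20 = Y.card ∧ y.reg 21 = X.card * k)

/-- MC: the insertion -/
def PushSpec : Prop := ∀ (w n bT bL hi : ℕ) (l : List (St n)) (c : St n) (x : Data),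
  x.reg 6 = bT → x.reg 7 = bL → x.reg 9 = hi → x.reg 10 = l.length → x.reg 25 = code c → x.reg 40 = 1 →
  hi ≤ l.length → bT + (2 ^ n + 2 ^ n) ≤ bL → bL + hi + (2 ^ n + 2 ^ n) + 2 ≤ 2 ^ w →
  Tab w bT bL hi l x.mem →
  Runs w push x 25 (fun y => (∀ r, r ∉ [10, 26, 27, 28, 29, 30, 31] → y.reg r = x.reg r) ∧
    y.reg 10 = (ins hi l (some c)).length ∧ Tab w bT bL hi (ins hi l (some c)) y.mem ∧
    ∀ a < bT, y.mem a = x.mem a)

/-- MD: one state, one set -/
def PairSpec : Prop := ∀ (w n k s j hi i : ℕ) (L : List (Finset (Fin n))) (l : List (St n)) (z : St n)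
  (x : Data), Env k s L x → Fits w n L.length k s → x.reg 9 = hi → x.reg 10 = l.length →
  x.reg 12 = (j + 1) * n → x.reg 16 = mask z.1 → x.reg 24 = (if z.2 then 2 ^ n else 0) →
  ∀ hi' : i < L.length, x.reg 33 = 3 + i → x.reg 14 = L.length - i →
  hi ≤ l.length → hi ≤ (n + 1) * (2 ^ n + 2 ^ n) →
  Tab w (L.length + 3) (L.length + 3 + 2 ^ n + 2 ^ n) hi l x.mem →
  Runs w pair x (13 * n + 50) (fun y => Env k s L y ∧
    (∀ r, r ∉ [10, 14, 17, 18, 19, 20, 21, 22, 23, 25, 26, 27, 28, 29, 30, 31, 33] → y.reg r = x.reg r) ∧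
    y.reg 33 = 3 + (i + 1) ∧ y.reg 14 = L.length - (i + 1) ∧
    y.reg 10 = (ins hi l (move s k j z L[i])).length ∧
    Tab w (L.length + 3) (L.length + 3 + 2 ^ n + 2 ^ n) hi (ins hi l (move s k j z L[i])) y.mem)

/-- ME: one state, all sets -/
def EntrySpec : Prop := ∀ (w n k s j lo hi i : ℕ) (L : List (Finset (Fin n))) (l : List (St n))
  (x : Data), Env k s L x → Fits w n L.length k s → x.reg 9 = hi → x.reg 10 = l.length →
  x.reg 12 = (j + 1) * n → x.reg 13 = i → x.reg 34 = hi - i → ∀ hi' : i < l.length, i < hi →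
  hi ≤ l.length → hi ≤ (n + 1) * (2 ^ n + 2 ^ n) →
  Tab w (L.length + 3) (L.length + 3 + 2 ^ n + 2 ^ n) hi l x.mem →
  Runs w entry x ((13 * n + 52) * L.length + 9) (fun y => Env k s L y ∧
    (∀ r, r ∉ [10, 13, 14, 15, 16, 17, 18, 19, 20, 21, 22, 23, 24, 25, 26, 27, 28, 29, 30, 31, 33, 34] →
      y.reg r = x.reg r) ∧
    y.reg 13 = i + 1 ∧ y.reg 34 = hi - (i + 1) ∧
    y.reg 10 = (setsL s k j hi l[i] L l).length ∧
    Tab w (L.length + 3) (L.length + 3 + 2 ^ n + 2 ^ n) hi (setsL s k j hi l[i] L l) y.mem)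

/-- MF: one round -/
def RoundSpec : Prop := ∀ (w n k s j lo hi : ℕ) (L : List (Finset (Fin n))) (l : List (St n))
  (x : Data), Env k s L x → Fits w n L.length k s → x.reg 8 = lo → x.reg 9 = hi → hi = l.length →
  x.reg 10 = l.length → x.reg 12 = j * n → x.reg 32 = k - j → j < k → lo ≤ hi →
  hi ≤ (n + 1) * (2 ^ n + 2 ^ n) →
  (∀ a, x.mem a < 2 ^ w) → (∀ p (h : p < l.length), x.mem (L.length + 3 + 2 ^ n + 2 ^ n + p) = code l[p]) →
  Runs w round x (((13 * n + 52) * L.length + 11) * (hi - lo) + 7) (fun y => Env k s L y ∧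
    y.reg 8 = hi ∧ y.reg 9 = (entriesL s k j hi L (l.drop lo) l).length ∧
    y.reg 10 = (entriesL s k j hi L (l.drop lo) l).length ∧ y.reg 12 = (j + 1) * n ∧ y.reg 32 = k - (j + 1) ∧
    (∀ a, y.mem a < 2 ^ w) ∧ (∀ p (h : p < (entriesL s k j hi L (l.drop lo) l).length),
      y.mem (L.length + 3 + 2 ^ n + 2 ^ n + p) = code (entriesL s k j hi L (l.drop lo) l)[p]) ∧
    ((entriesL s k j hi L (l.drop lo) l).drop hi).Nodup)

/-- MG: the lists are what they should be -/
def ListSpec : Prop := ∀ (n s k : ℕ) (L : List (Finset (Fin n))) (j : ℕ),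
  (listL s k L j).1 ≤ (listL s k L j).2.length ∧ ((listL s k L j).2.drop (listL s k L j).1).Nodup ∧
  (∀ z : St n, z ∈ (listL s k L j).2.drop (listL s k L j).1 ↔ Reach s k L j z.1 z.2) ∧
  (∀ z : St n, z ∈ (listL s k L j).2 ↔ ∃ i ≤ j, Reach s k L i z.1 z.2) ∧
  (listL s k L j).2.length = ∑ i ∈ Finset.range (j + 1), {z : St n | Reach s k L i z.1 z.2}.ncard ∧
  (listL s k L j).2.length ≤ (j + 1) * (2 ^ n + 2 ^ n)

/-- MH: the beginning -/
def SetupSpec : Prop := ∀ (w n k : ℕ) (L : List (Finset (Fin n))) (mem : ℕ → ℕ),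
  Holds w n k L mem → Fits w n L.length (min k n) 0 →
  Runs w setup ⟨fun _ => 0, mem⟩ (6 * n + 25) (fun y => y.reg 11 = 0 ∧ Env (min k n) 0 L y ∧ y.reg 8 = 0 ∧
    y.reg 9 = 1 ∧ y.reg 10 = 1 ∧ y.reg 12 = 0 ∧ (∀ a, y.mem a < 2 ^ w) ∧
    y.mem (L.length + 3 + 2 ^ n + 2 ^ n) = 0)

/-- MI: the two ways to get `s` -/
def SSpec (c : Stmt) (S : ℕ → ℕ → ℕ) (W T : ℕ → ℕ → ℕ) : Prop :=
  ∀ (w n k : ℕ) (L : List (Finset (Fin n))) (x : Data), Env k 0 L x → W n L.length ≤ 2 ^ w →
  Runs w c x (T n L.length) (fun y => Env k (S n L.length) L y ∧ y.mem = x.mem ∧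
    ∀ r, r ∉ [11, 14, 26, 27] → y.reg r = x.reg r)

/-- The value computed by `logS C`. -/
def sOf (C n m : ℕ) : ℕ := C + Nat.clog 2 ((m + n) / (n + 1))

def ConstSpec : Prop := ∀ s, SSpec (constS s) (fun _ _ => s) (fun _ _ => s + 1) (fun _ _ => 1)

def LogSpec : Prop := ∀ C, SSpec (logS C) (fun n m => sOf C n m) (fun n m => C + 2 * n + 2 * m + 10)
  (fun _ m => 10 * m + 5)

/-- MJ: the scan -/
def ScanSpec : Prop := ∀ (w n k s : ℕ) (L : List (Finset (Fin n))) (l : List (St n)) (x : Data),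
  Env k s L x → Fits w n L.length k s → x.reg 10 = l.length → l.length ≤ (n + 1) * (2 ^ n + 2 ^ n) →
  (∀ p (h : p < l.length), x.mem (L.length + 3 + 2 ^ n + 2 ^ n + p) = code l[p]) →
  Runs w scan x (12 * l.length + 4)
    (fun y => y.reg 0 = if ∃ b, ((Finset.univ : Finset (Fin n)), b) ∈ l then 1 else 0)

/-- The number of states of rounds `0, …, k`. -/
noncomputable def total {n : ℕ} (s k : ℕ) (L : List (Finset (Fin n))) : ℕ :=
  ∑ i ∈ Finset.range (k + 1), {z : St n | Reach s k L i z.1 z.2}.ncard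

/-- C: correctness of the dynamic program -/
def CoverSpec : Prop := ∀ (n s k : ℕ) (L : List (Finset (Fin n))), 1 ≤ s →
  ((∃ j ≤ min k n, ∃ b, Reach s (min k n) L j Finset.univ b) ↔ Coverable n k L)

/-- MK: the whole program -/
def MainSpec : Prop := ∀ (c : Stmt) (S W T : ℕ → ℕ → ℕ), SSpec c S W T →
  ∀ (n k : ℕ) (L : List (Finset (Fin n))), 1 ≤ S n L.length →
  Decides ((main c).compile 0) n k L
    (L.length + 3 + (n + 3) * (2 ^ n + 2 ^ n) + 10 + (n + 2) * (n + 2) + S n L.length + W n L.length)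
    (T n L.length + 100 * (n + 1) * (L.length + 1) * (total (S n L.length) (min k n) L + 1))

end SCR
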